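import Pool.Agent.Lib.MP_38dfb6_an.HS.Spec

/-!
# MP_38dfb6_an / HS: module `BLK` (blocks `S' \ S` of good sets are norming)
-/

set_option autoImplicit false

namespace Pool.Agent.Lib.MP38dfb6.HS

open Filter Topology Set MeasureTheory

universe u v

namespace BLKM

variable {𝕜 : Type} [RCLike 𝕜] {X : Type u} [NormedAddCommGroup X] [NormedSpace 𝕜 X] {ι : Type v}

theorem xs_mono (x : ι → X) {A B : Set ι} (h : A ⊆ B) : XS (𝕜 := 𝕜) x A ≤ XS (𝕜 := 𝕜) x B :=
  Submodule.topologicalClosure_mono (Submodule.span_mono (image_mono h))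

theorem fs_vanish {x : ι → X} {f : ι → (X →L[𝕜] 𝕜)} (hb : BO x f) {S T : Set ι} (hd : Disjoint S T)
    {φ : X →L[𝕜] 𝕜} (hφ : φ ∈ FS f S) {w : X} (hw : w ∈ XS (𝕜 := 𝕜) x T) : φ w = 0 := by
  have h1 : ∀ j ∈ T, φ (x j) = 0 := by
    intro j hj
    unfold FS at hφ
    induction hφ using Submodule.span_induction with
    | mem g hg =>
      obtain ⟨i, hi, rfl⟩ := hg
      exact hb.zero i j (fun h => hd.le_bot ⟨hi, h ▸ hj⟩)
    | zero => rfl
    | add g g' _ _ h h' => simp [h, h']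
    | smul a g _ h => simp [h]
  have h2 : XS (𝕜 := 𝕜) x T ≤ LinearMap.ker (φ : X →ₗ[𝕜] 𝕜) := by
    refine Submodule.topologicalClosure_minimal _ (Submodule.span_le.2 ?_) φ.isClosed_ker
    rintro _ ⟨j, hj, rfl⟩
    exact h1 j hj
  exact h2 hw

end BLKM

theorem specBLK : SpecBLK := by
  intro 𝕜 _ X _ _ ι x f c A E S S' hb hS hG v hv ε hε
  obtain ⟨φ, hφ, h1, h2⟩ := hG.nm v (BLKM.xs_mono x diff_subset hv) ε hε
  have h3 : φ ∈ FS f S ⊔ FS f (S' \ S) := by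
    have : FS f S' ≤ FS f S ⊔ FS f (S' \ S) := by
      unfold FS
      rw [← Submodule.span_union, ← image_union, union_diff_cancel hS]
    exact this hφ
  obtain ⟨φ₁, k1, φ₂, k2, rfl⟩ := Submodule.mem_sup.1 h3
  have k3 : ∀ w ∈ XS (𝕜 := 𝕜) x (S' \ S), φ₁ w = 0 := fun w hw =>
    BLKM.fs_vanish hb disjoint_sdiff_right k1 hw
  refine ⟨φ₂, k2, fun w hw => ?_, ?_⟩
  · have := h1 w (BLKM.xs_mono x (diff_subset.trans hG.sub) hw)
    rwa [ContinuousLinearMap.add_apply, k3 w hw, zero_add] at this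
  · rwa [ContinuousLinearMap.add_apply, k3 v hv, zero_add] at h2

end Pool.Agent.Lib.MP38dfb6.HS
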