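import Pool.Agent.Lib.MP_38dfb6_an.HS.Spec

/-!
# MP_38dfb6_an: module BSE (countable index sets)
-/

set_option autoImplicit false

namespace Pool.Agent.Lib.MP38dfb6.HS

open Filter Topology Set MeasureTheory

universe u v

theorem specBSE (hMRK : SpecMRK.{u}) : SpecBSE.{u, v} := by
  intro 𝕜 _ X _ _ ι x f c A E hc hNM hA hE
  rcases A.eq_empty_or_nonempty with hA0 | hA0
  · subst hA0
    refine ⟨∅, fun p hp => absurd hp (notMem_empty p), fun p hp => absurd hp (notMem_empty p),
      fun p hp => absurd hp (notMem_empty p), ?_, fun i hi => absurd hi (notMem_empty i)⟩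
    have h : XS (𝕜 := 𝕜) x ∅ = (Submodule.span 𝕜 (Prod.fst '' (∅ : Set (X × (X →L[𝕜] 𝕜))))).topologicalClosure := by
      unfold XS
      rw [image_empty, image_empty]
    rw [← h]
    exact hE
  · obtain ⟨a, ha⟩ := hA.exists_eq_range hA0
    have hsep : TopologicalSpace.IsSeparable (E : Set X) := by
      have h1 : TopologicalSpace.IsSeparable (x '' A) := (hA.image x).isSeparable
      have h2 : TopologicalSpace.IsSeparable (Submodule.span 𝕜 (x '' A) : Set X) := h1.span
      exact h2.closure.mono (fun e he => hE he)
    obtain ⟨t, ht1, ht2, ht3⟩ := hsep.exists_countable_dense_subset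
    have ht0 : t.Nonempty := by
      have h0 : (0 : X) ∈ closure t := ht3 E.zero_mem
      exact closure_nonempty_iff.mp ⟨0, h0⟩
    obtain ⟨y, hy⟩ := ht2.exists_eq_range ht0
    have hg : range (fun n => f (a n)) = f '' A := by
      rw [ha, ← range_comp]
      rfl
    obtain ⟨B, hB1, hB2, hB3, hB4, hB5⟩ := hMRK 𝕜 X E y (fun n => f (a n)) (fun n => ht1 (by
        rw [hy]
        exact mem_range_self n)) (by
        intro e he
        have h1 : e ∈ closure (range y) := by
          rw [← hy]
          exact ht3 he
        exact closure_mono Submodule.subset_span h1) (by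
        intro v hv h0
        have h1 : ∀ φ ∈ FS f A, φ v = 0 := by
          intro φ hφ
          refine Submodule.span_induction (p := fun φ _ => φ v = 0) ?_ ?_ ?_ ?_ hφ
          · rintro _ ⟨i, hi, rfl⟩
            rw [ha] at hi
            obtain ⟨n, rfl⟩ := hi
            exact h0 n
          · rfl
          · intro φ ψ _ _ h1 h2
            rw [add_apply, h1, h2, add_zero]
          · intro s φ _ h1
            rw [smul_apply, h1, smul_zero]
        have h2 : c * ‖v‖ ≤ 0 := by
          refine le_of_forall_pos_le_add fun ε hε => ?_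
          obtain ⟨φ, hφ, -, h3⟩ := hNM v (hE hv) ε hε
          rw [h1 φ hφ, norm_zero] at h3
          exact h3
        have h3 : ‖v‖ ≤ 0 := by
          by_contra h4
          push Not at h4
          have := mul_pos hc h4
          linarith
        exact norm_le_zero_iff.mp h3)
    refine ⟨B, fun p hp => ⟨(hB1 p hp).1, ?_⟩, hB2, hB3, hB4, ?_⟩
    · have h1 := (hB1 p hp).2
      rw [hg] at h1
      exact h1
    · intro i hi
      rw [ha] at hi
      obtain ⟨n, rfl⟩ := hi
      exact hB5 n

end Pool.Agent.Lib.MP38dfb6.HS

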