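import Pool.Agent.Lib.MP_38dfb6_an.HS.Spec

/-!
# MP_38dfb6_an: chains of closed sets of indices
-/

set_option autoImplicit false

namespace Pool.Agent.Lib.MP38dfb6.HS

open Set Cardinal

universe u v

namespace CHAM

variable {ι : Type v} (A : Set ι) (Θ : Finset ι → Set ι)

/-- closed sets -/
def Cl (S : Set ι) : Prop := ∀ F : Finset ι, (F : Set ι) ⊆ S → Θ F ∩ A ⊆ S

/-- one step of the closing off -/
def step (T : Set ι) : Set ι :=
  T ∪ ⋃ G : Finset T, (Θ (G.map (Function.Embedding.subtype _)) ∩ A)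

/-- the iterated steps -/
def it (T : Set ι) : ℕ → Set ι
  | 0 => T
  | n + 1 => step A Θ (it T n)

/-- the closure -/
def cl (T : Set ι) : Set ι := ⋃ n : ULift.{v} ℕ, it A Θ T n.down

theorem mem_cl (T : Set ι) (x : ι) : x ∈ cl A Θ T ↔ ∃ n, x ∈ it A Θ T n := by
  unfold cl
  rw [mem_iUnion]
  exact ⟨fun ⟨n, h⟩ => ⟨n.down, h⟩, fun ⟨n, h⟩ => ⟨⟨n⟩, h⟩⟩

theorem it_succ (T : Set ι) (n : ℕ) : it A Θ T n ⊆ it A Θ T (n + 1) := fun _ hx => Or.inl hx

theorem it_mono (T : Set ι) {m n : ℕ} (h : m ≤ n) : it A Θ T m ⊆ it A Θ T n := by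
  induction n, h using Nat.le_induction with
  | base => exact Subset.rfl
  | succ n _ ih => exact ih.trans (it_succ A Θ T n)

theorem sub_cl (T : Set ι) : T ⊆ cl A Θ T := fun x hx => (mem_cl A Θ T x).2 ⟨0, hx⟩

theorem step_mem (T : Set ι) (F : Finset ι) (hF : (F : Set ι) ⊆ T) : Θ F ∩ A ⊆ step A Θ T := by
  classical
  intro x hx
  right
  rw [mem_iUnion]
  refine ⟨F.subtype (fun y => y ∈ T), ?_⟩
  have h : (F.subtype (fun y => y ∈ T)).map (Function.Embedding.subtype _) = F := by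
    rw [Finset.subtype_map]
    exact Finset.filter_true_of_mem fun y hy => hF hy
  rw [h]
  exact hx

theorem fin_it (T : Set ι) (F : Finset ι) (hF : (F : Set ι) ⊆ cl A Θ T) :
    ∃ n, (F : Set ι) ⊆ it A Θ T n := by
  classical
  induction F using Finset.induction_on with
  | empty => exact ⟨0, by simp⟩
  | insert a s _ ih =>
    rw [Finset.coe_insert, insert_subset_iff] at hF
    obtain ⟨n, hn⟩ := ih hF.2
    obtain ⟨m, hm⟩ := (mem_cl A Θ T a).1 hF.1
    refine ⟨max m n, ?_⟩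
    rw [Finset.coe_insert, insert_subset_iff]
    exact ⟨it_mono A Θ T (le_max_left _ _) hm, hn.trans (it_mono A Θ T (le_max_right _ _))⟩

theorem cl_Cl (T : Set ι) : Cl A Θ (cl A Θ T) := by
  intro F hF x hx
  obtain ⟨n, hn⟩ := fin_it A Θ T F hF
  exact (mem_cl A Θ T x).2 ⟨n + 1, step_mem A Θ _ F hn hx⟩

theorem cl_min (T S : Set ι) (hT : T ⊆ S) (hS : Cl A Θ S) : cl A Θ T ⊆ S := by
  have key : ∀ n, it A Θ T n ⊆ S := by
    intro n
    induction n with
    | zero => exact hT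
    | succ n ih =>
      rintro x (hx | hx)
      · exact ih hx
      · rw [mem_iUnion] at hx
        obtain ⟨G, hG⟩ := hx
        refine hS _ ?_ hG
        intro y hy
        rw [Finset.coe_map] at hy
        obtain ⟨z, _, rfl⟩ := hy
        exact ih z.2
  intro x hx
  obtain ⟨n, hn⟩ := (mem_cl A Θ T x).1 hx
  exact key n hn

theorem cl_mono {T T' : Set ι} (h : T ⊆ T') : cl A Θ T ⊆ cl A Θ T' :=
  cl_min A Θ T _ (h.trans (sub_cl A Θ T')) (cl_Cl A Θ T')

theorem card_step (T : Set ι) (hΘ : ∀ F, (Θ F).Countable) (κ : Cardinal.{v}) (hκ : ℵ₀ ≤ κ)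
    (hT : #T ≤ κ) : #(step A Θ T) ≤ κ := by
  classical
  have h1 : #(Finset T) ≤ κ := by
    have h2 : #(Finset T) ≤ #(List T) := mk_le_of_surjective (f := fun l : List T => l.toFinset)
      (fun s => ⟨s.toList, s.toList_toFinset⟩)
    exact h2.trans ((mk_list_le_max _).trans (max_le hκ hT))
  have h3 : #(⋃ G : Finset T, (Θ (G.map (Function.Embedding.subtype _)) ∩ A) : Set ι) ≤ κ := by
    refine (mk_iUnion_le_sum_mk).trans ?_
    refine (sum_le_sum _ (fun _ => ℵ₀) fun G => ?_).trans ?_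
    · exact ((hΘ _).mono inter_subset_left).le_aleph0
    · rw [sum_const']
      exact (mul_le_mul' h1 hκ).trans (mul_eq_self hκ).le
  exact (mk_union_le _ _).trans ((add_le_add hT h3).trans (add_eq_self hκ).le)

theorem card_cl (T : Set ι) (hΘ : ∀ F, (Θ F).Countable) (κ : Cardinal.{v}) (hκ : ℵ₀ ≤ κ)
    (hT : #T ≤ κ) : #(cl A Θ T) ≤ κ := by
  have key : ∀ n, #(it A Θ T n) ≤ κ := by
    intro n
    induction n with
    | zero => exact hT
    | succ n ih => exact card_step A Θ _ hΘ κ hκ ih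
  unfold cl
  refine (mk_iUnion_le_sum_mk).trans ?_
  refine (sum_le_sum (fun n : ULift.{v} ℕ => #(it A Θ T n.down)) (fun _ => κ) fun n => key n.down).trans ?_
  rw [sum_const']
  have h : #(ULift.{v} ℕ) = ℵ₀ := by simp
  rw [h]
  exact (mul_le_mul' hκ le_rfl).trans (mul_eq_self hκ).le

end CHAM

/-- **CHA** -/
theorem specCHA : SpecCHA.{v} := by
  intro ι A hA Θ hΘ hΘ0
  have hA0 : ℵ₀ < #A := by
    by_contra h
    push Not at h
    exact hA (le_aleph0_iff_set_countable.1 h)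
  obtain ⟨e⟩ : Nonempty ((#A).ord.ToType ≃ A) := by
    rw [← Cardinal.eq]
    exact mk_ord_toType _
  let g : (#A).ord.ToType → ι := fun a => (e a : ι)
  have hgA : ∀ T : Set (#A).ord.ToType, g '' T ⊆ A := by
    rintro T _ ⟨a, _, rfl⟩
    exact (e a).2
  have hAc : CHAM.Cl A Θ A := fun F _ => inter_subset_right
  let S0 : (#A).ord.ToType → Set ι := fun a => CHAM.cl A Θ (g '' Iio a)
  let S1 : (#A).ord.ToType → Set ι := fun a => CHAM.cl A Θ (g '' Iic a)
  have hlt : ∀ a b, a < b → S1 a ⊆ S0 b := fun a b hab =>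
    CHAM.cl_mono A Θ (image_mono fun c (hc : c ≤ a) => lt_of_le_of_lt hc hab)
  have hmono : ∀ a b, a ≤ b → S1 a ⊆ S1 b := fun a b hab =>
    CHAM.cl_mono A Θ (image_mono fun c (hc : c ≤ a) => le_trans hc hab)
  refine ⟨(#A).ord.ToType, inferInstance, inferInstance, S0, S1, ?_, ?_, hlt, ?_, ?_, ?_, ?_, ?_⟩
  · intro a
    exact CHAM.cl_mono A Θ (image_mono fun c (hc : c < a) => le_of_lt hc)
  · intro a
    exact CHAM.cl_min A Θ _ _ (hgA _) hAc
  · intro a
    apply Subset.antisymm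
    · apply CHAM.cl_min
      · rintro _ ⟨b, hb, rfl⟩
        rw [mem_iUnion₂]
        exact ⟨b, hb, CHAM.sub_cl A Θ _ ⟨b, le_refl b, rfl⟩⟩
      · intro F hF
        classical
        have key : ∀ G : Finset ι, (G : Set ι) ⊆ ⋃ b ∈ Iio a, S1 b →
            G = ∅ ∨ ∃ b ∈ Iio a, (G : Set ι) ⊆ S1 b := by
          intro G
          induction G using Finset.induction_on with
          | empty => intro _; exact Or.inl rfl
          | insert x s _ ih =>
            intro h
            right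
            rw [Finset.coe_insert, insert_subset_iff] at h
            obtain ⟨b, hb, hxb⟩ := mem_iUnion₂.1 h.1
            rcases ih h.2 with h0 | ⟨c, hc, hsc⟩
            · refine ⟨b, hb, ?_⟩
              rw [h0]
              simpa using hxb
            · refine ⟨max b c, mem_Iio.2 (max_lt (mem_Iio.1 hb) (mem_Iio.1 hc)), ?_⟩
              rw [Finset.coe_insert, insert_subset_iff]
              exact ⟨hmono _ _ (le_max_left _ _) hxb, hsc.trans (hmono _ _ (le_max_right _ _))⟩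
        rcases key F hF with h0 | ⟨b, hb, hFb⟩
        · rw [h0, hΘ0, empty_inter]
          exact empty_subset _
        · exact (CHAM.cl_Cl A Θ _ F hFb).trans (subset_biUnion_of_mem (u := S1) hb)
    · exact iUnion₂_subset fun b hb => hlt b a hb
  · apply Subset.antisymm
    · exact iUnion_subset fun a => CHAM.cl_min A Θ _ _ (hgA _) hAc
    · intro x hx
      rw [mem_iUnion]
      refine ⟨e.symm ⟨x, hx⟩, CHAM.sub_cl A Θ _ ⟨e.symm ⟨x, hx⟩, mem_Iic.2 le_rfl, ?_⟩⟩
      show ((e (e.symm ⟨x, hx⟩) : A) : ι) = x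
      rw [e.apply_symm_apply]
  · intro a
    have h1 : #(Iio a) < #A := by simpa using mk_Iio_lt a
    have h2 : #(Iic a) < #A := by
      have h3 : Iic a = insert a (Iio a) := by
        rw [Iio_insert]
      rw [h3]
      refine lt_of_le_of_lt mk_insert_le ?_
      exact add_lt_of_lt hA0.le h1 (one_lt_aleph0.trans hA0)
    have h4 : #(g '' Iic a) ≤ max #(Iic a) ℵ₀ := mk_image_le.trans (le_max_left _ _)
    exact lt_of_le_of_lt (CHAM.card_cl A Θ _ hΘ _ (le_max_right _ _) h4) (max_lt h2 hA0)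
  · intro a
    exact CHAM.cl_Cl A Θ _
  · intro a
    exact CHAM.cl_Cl A Θ _

end Pool.Agent.Lib.MP38dfb6.HS
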