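import Pool.Agent.Lib.MP_38dfb6_an.HS.Spec

/-!
# MP_38dfb6_an, module COR: closed subspaces of `L¹({0,1}^Γ)`
-/

set_option autoImplicit false

namespace Pool.Agent.Lib.MP38dfb6.HS

open Filter Topology Set MeasureTheory

theorem specCOR (hSUB : SpecSUB.{0, 0}) (hWMB : SpecWMB) (hWCS : SpecWCS) (hUP1 : SpecUP1.{0}) :
    SpecCOR := by
  intro 𝕜 _ Γ E hE hnt
  obtain ⟨x, f, hx, hM, hc⟩ := hWMB 𝕜 Γ
  have hcs : CSup 𝕜 x := hWCS 𝕜 Γ x hx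
  obtain ⟨J, z, h, hMB, -, hle⟩ := hSUB 𝕜 (Lp 𝕜 1 (mu Γ)) (Finset Γ) x f hM
    (by rw [hc]; exact one_pos) hcs E hE
  refine ⟨J, z, h, hMB, le_antisymm (hUP1 𝕜 E _) ?_⟩
  rw [← hc]
  exact hle hnt

end Pool.Agent.Lib.MP38dfb6.HS
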