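import Pool.Agent.Lib.MP_38dfb6_an.HS.Spec

/-!
# MP_38dfb6_an, HS: module CSW (helper74)

In a weakly compactly generated Banach space every M-basis countably supports the dual. The types of
the approximations are pairs of natural numbers (number of terms, bound of the coefficients); the
nested uncountable sets are replaced by a condensation point in the Baire space and an ultrafilter.
-/

set_option autoImplicit false

namespace Pool.Agent.Lib.MP38dfb6.HS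

open Filter Topology Set MeasureTheory

universe u v

namespace CSWM

/-- combinations of `n` elements of `K` with coefficients bounded by `r` -/
def Kn (𝕜 : Type) [RCLike 𝕜] {X : Type u} [NormedAddCommGroup X] [NormedSpace 𝕜 X] (K : Set X)
    (t : ℕ × ℕ) : Set X :=
  {v | ∃ (q : Fin t.1 → 𝕜) (k : Fin t.1 → X), (∀ j, ‖q j‖ ≤ t.2) ∧ (∀ j, k j ∈ K) ∧
    v = ∑ j, q j • k j}

section

variable {𝕜 : Type} [RCLike 𝕜] {X : Type u} [NormedAddCommGroup X] [NormedSpace 𝕜 X]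

lemma kn_compact (K : Set X) (hK : IsCompact (toWeakSpace 𝕜 X '' K)) (t : ℕ × ℕ) :
    IsCompact (toWeakSpace 𝕜 X '' Kn 𝕜 K t) := by
  let Φ : (Fin t.1 → 𝕜 × WeakSpace 𝕜 X) → WeakSpace 𝕜 X := fun w => ∑ j, (w j).1 • (w j).2
  have hΦ : Continuous Φ := continuous_finsetSum _ fun j _ =>
    ((continuous_apply j).fst).smul ((continuous_apply j).snd)
  let S : Set (Fin t.1 → 𝕜 × WeakSpace 𝕜 X) :=
    Set.pi univ fun _ => Metric.closedBall (0 : 𝕜) t.2 ×ˢ (toWeakSpace 𝕜 X '' K)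
  have hS : IsCompact S := isCompact_univ_pi fun _ => (isCompact_closedBall _ _).prod hK
  have e : toWeakSpace 𝕜 X '' Kn 𝕜 K t = Φ '' S := by
    apply Subset.antisymm
    · rintro _ ⟨v, ⟨q, k, hq, hk, rfl⟩, rfl⟩
      refine ⟨fun j => (q j, toWeakSpace 𝕜 X (k j)), fun j _ => ⟨?_, ⟨k j, hk j, rfl⟩⟩, ?_⟩
      · rw [mem_closedBall_zero_iff]
        exact hq j
      · change ∑ j, q j • toWeakSpace 𝕜 X (k j) = toWeakSpace 𝕜 X (∑ j, q j • k j)
        rw [map_sum]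
        exact Finset.sum_congr rfl fun j _ => (map_smul _ _ _).symm
    · rintro _ ⟨w, hw, rfl⟩
      have h1 : ∀ j, ∃ k ∈ K, toWeakSpace 𝕜 X k = (w j).2 := fun j => (hw j (mem_univ j)).2
      choose k hk hkw using h1
      refine ⟨∑ j, (w j).1 • k j, ⟨fun j => (w j).1, k, fun j => ?_, hk, rfl⟩, ?_⟩
      · have h2 := (hw j (mem_univ j)).1
        rwa [mem_closedBall_zero_iff] at h2
      · change toWeakSpace 𝕜 X (∑ j, (w j).1 • k j) = ∑ j, (w j).1 • (w j).2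
        rw [map_sum]
        exact Finset.sum_congr rfl fun j _ => by rw [map_smul, hkw]
  rw [e]
  exact hS.image hΦ

lemma approx (K : Set X) (hd : (Submodule.span 𝕜 K).topologicalClosure = ⊤) (v : X) (ε : ℝ)
    (hε : 0 < ε) : ∃ (t : ℕ × ℕ) (u : X), u ∈ Kn 𝕜 K t ∧ ‖v - u‖ < ε := by
  have hv : v ∈ closure ((Submodule.span 𝕜 K : Submodule 𝕜 X) : Set X) := by
    have h1 : v ∈ (Submodule.span 𝕜 K).topologicalClosure := by
      rw [hd]
      exact Submodule.mem_top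
    exact h1
  obtain ⟨b, hb, hdist⟩ := Metric.mem_closure_iff.1 hv ε hε
  obtain ⟨n, q, k, hsum⟩ := Submodule.mem_span_set'.1 hb
  obtain ⟨r, hr⟩ := exists_nat_ge (∑ j, ‖q j‖)
  refine ⟨(n, r), b, ⟨q, fun j => (k j : X), fun j => ?_, fun j => (k j).2, hsum.symm⟩, ?_⟩
  · exact (Finset.single_le_sum (fun i _ => norm_nonneg (q i)) (Finset.mem_univ j)).trans hr
  · rwa [dist_eq_norm] at hdist

/-- weak limits along ultrafilters in weakly compact sets -/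
lemma wlim {ι : Type v} (𝒰 : Ultrafilter ι) (C : Set X)
    (hC : IsCompact (toWeakSpace 𝕜 X '' C)) (w : ι → X) (hw : ∀ᶠ i in (𝒰 : Filter ι), w i ∈ C) :
    ∃ z : X, ∀ g : X →L[𝕜] 𝕜, Tendsto (fun i => g (w i)) 𝒰 (𝓝 (g z)) := by
  obtain ⟨z', _, hz'⟩ := hC.ultrafilter_le_nhds (𝒰.map fun i => toWeakSpace 𝕜 X (w i)) (by
    rw [le_principal_iff]
    exact hw.mono fun i hi => ⟨w i, hi, rfl⟩)
  refine ⟨(toWeakSpace 𝕜 X).symm z', fun g => ?_⟩
  have ht : Tendsto (fun i => toWeakSpace 𝕜 X (w i)) 𝒰 (𝓝 z') := hz'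
  have hind : Topology.IsInducing (fun (x : WeakSpace 𝕜 X) (ψ : X →L[𝕜] 𝕜) =>
      (topDualPairing 𝕜 X).flip x ψ) := ⟨rfl⟩
  rw [hind.tendsto_nhds_iff, tendsto_pi_nhds] at ht
  exact ht g

end

lemma condens {ι : Type v} (I : Set ι) (hI : ¬ I.Countable) (τ : ι → ℕ → ℕ × ℕ) :
    ∃ 𝒰 : Ultrafilter ι, I ∈ 𝒰 ∧ (∀ j, ∀ᶠ i in (𝒰 : Filter ι), i ≠ j) ∧
      ∃ t : ℕ → ℕ × ℕ, ∀ m, ∀ᶠ i in (𝒰 : Filter ι), τ i m = t m := by
  have h1 : ∃ t : ℕ → ℕ × ℕ, ∀ U ∈ 𝓝 t, ¬ (τ ⁻¹' U ∩ I).Countable := by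
    by_contra hcon
    push Not at hcon
    choose U hU hUc using hcon
    obtain ⟨s, hs, hsu⟩ := TopologicalSpace.countable_cover_nhds hU
    apply hI
    refine (hs.biUnion fun t _ => hUc t).mono ?_
    intro i hi
    have h2 : τ i ∈ ⋃ t ∈ s, U t := by
      rw [hsu]
      exact mem_univ _
    rw [mem_iUnion₂] at h2
    obtain ⟨t, ht, hit⟩ := h2
    rw [mem_iUnion₂]
    exact ⟨t, ht, hit, hi⟩
  obtain ⟨t, ht⟩ := h1
  have hne : ((comap τ (𝓝 t) ⊓ 𝓟 I) ⊓ cofinite).NeBot := by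
    rw [inf_neBot_iff]
    intro s hs s' hs'
    rw [mem_inf_principal, mem_comap] at hs
    obtain ⟨U, hU, hUs⟩ := hs
    have h2 : (τ ⁻¹' U ∩ I) ⊆ s := fun i hi => hUs hi.1 hi.2
    have h3 : (τ ⁻¹' U ∩ I).Infinite := fun hf => ht U hU hf.countable
    have h4 : s'ᶜ.Finite := hs'
    by_contra hemp
    rw [not_nonempty_iff_eq_empty] at hemp
    apply h3
    refine h4.subset fun i hi hi' => ?_
    have h5 : i ∈ s ∩ s' := ⟨h2 hi, hi'⟩
    rw [hemp] at h5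
    exact h5
  refine ⟨Ultrafilter.of ((comap τ (𝓝 t) ⊓ 𝓟 I) ⊓ cofinite), ?_, ?_, t, ?_⟩
  · have hle := Ultrafilter.of_le ((comap τ (𝓝 t) ⊓ 𝓟 I) ⊓ cofinite)
    exact hle (mem_inf_of_left (mem_inf_of_right (mem_principal_self I)))
  · intro j
    have hle := Ultrafilter.of_le ((comap τ (𝓝 t) ⊓ 𝓟 I) ⊓ cofinite)
    exact hle (mem_inf_of_right (eventually_cofinite_ne j))
  · intro m
    have hle := Ultrafilter.of_le ((comap τ (𝓝 t) ⊓ 𝓟 I) ⊓ cofinite)
    have h2 : {f : ℕ → ℕ × ℕ | f m = t m} ∈ 𝓝 t := by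
      have h3 : {t m} ∈ 𝓝 (t m) := by
        rw [nhds_discrete]
        exact mem_pure.2 rfl
      exact (continuous_apply m).continuousAt h3
    have h4 : {i | τ i m = t m} ∈ comap τ (𝓝 t) := ⟨_, h2, fun i hi => hi⟩
    exact hle (mem_inf_of_left (mem_inf_of_left h4))

end CSWM

open CSWM in
/-- **CSW**. -/
theorem specCSW : SpecCSW.{u, v} := by
  intro 𝕜 _ X _ _ _ ι x f hW hB ψ
  obtain ⟨K, hK, hd⟩ := hW
  by_contra hcon
  -- a bound from below
  have h1 : ∃ δ : ℝ, 0 < δ ∧ ¬ {i | δ ≤ ‖ψ (x i)‖}.Countable := by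
    by_contra hall
    push Not at hall
    apply hcon
    refine (countable_iUnion fun r : ℕ => hall (1 / ((r : ℝ) + 1)) (by positivity)).mono ?_
    intro i hi
    have h2 : 0 < ‖ψ (x i)‖ := norm_pos_iff.2 hi
    obtain ⟨r, hr⟩ := exists_nat_one_div_lt h2
    exact mem_iUnion.2 ⟨r, hr.le⟩
  obtain ⟨δ, hδ, hI⟩ := h1
  have hap : ∀ (v : X) (m : ℕ), ∃ (t : ℕ × ℕ) (u : X), u ∈ Kn 𝕜 K t ∧
      ‖v - u‖ < 1 / ((m : ℝ) + 1) := fun v m => approx K hd v _ (by positivity)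
  choose τ u hu hud using hap
  obtain ⟨𝒰, hI𝒰, hne, t, ht⟩ := condens {i | δ ≤ ‖ψ (x i)‖} hI (fun i => τ (x i))
  have hlim : ∀ m : ℕ, ∃ z : X, ∀ g : X →L[𝕜] 𝕜,
      Tendsto (fun i => g (u (x i) m)) 𝒰 (𝓝 (g z)) := by
    intro m
    refine wlim 𝒰 (Kn 𝕜 K (t m)) (kn_compact K hK (t m)) (fun i => u (x i) m) ?_
    filter_upwards [ht m] with i hi
    rw [← hi]
    exact hu (x i) m
  choose z hz using hlim
  have hzz : ∀ m l : ℕ, ‖z m - z l‖ ≤ 1 / ((m : ℝ) + 1) + 1 / ((l : ℝ) + 1) := by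
    intro m l
    obtain ⟨g, hg, hgv⟩ := exists_dual_vector'' 𝕜 (z m - z l)
    have h2 : Tendsto (fun i => ‖g (u (x i) m) - g (u (x i) l)‖) 𝒰 (𝓝 ‖g (z m) - g (z l)‖) :=
      ((hz m g).sub (hz l g)).norm
    have h3 : ‖g (z m) - g (z l)‖ ≤ 1 / ((m : ℝ) + 1) + 1 / ((l : ℝ) + 1) := by
      refine le_of_tendsto h2 (Eventually.of_forall fun i => ?_)
      rw [← map_sub]
      have h4 : ‖u (x i) m - u (x i) l‖ ≤ 1 / ((m : ℝ) + 1) + 1 / ((l : ℝ) + 1) := by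
        have h5 : u (x i) m - u (x i) l = (x i - u (x i) l) - (x i - u (x i) m) := by abel
        rw [h5]
        refine (norm_sub_le _ _).trans ?_
        linarith [hud (x i) m, hud (x i) l]
      refine (g.le_opNorm _).trans ?_
      calc ‖g‖ * ‖u (x i) m - u (x i) l‖ ≤ 1 * ‖u (x i) m - u (x i) l‖ :=
            mul_le_mul_of_nonneg_right hg (norm_nonneg _)
        _ ≤ _ := by rw [one_mul]; exact h4
    rw [← map_sub, hgv, RCLike.norm_ofReal, abs_norm] at h3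
    exact h3
  have hinv : Tendsto (fun m : ℕ => 1 / ((m : ℝ) + 1)) atTop (𝓝 0) :=
    tendsto_one_div_add_atTop_nhds_zero_nat
  have hcau : CauchySeq z := by
    rw [Metric.cauchySeq_iff]
    intro ε hε
    obtain ⟨n, hn⟩ := exists_nat_one_div_lt (half_pos hε)
    refine ⟨n, fun m hm l hl => ?_⟩
    rw [dist_eq_norm]
    have h2 : 1 / ((m : ℝ) + 1) ≤ 1 / ((n : ℝ) + 1) := by
      apply one_div_le_one_div_of_le (by positivity)
      have : (n : ℝ) ≤ m := by exact_mod_cast hm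
      linarith
    have h3 : 1 / ((l : ℝ) + 1) ≤ 1 / ((n : ℝ) + 1) := by
      apply one_div_le_one_div_of_le (by positivity)
      have : (n : ℝ) ≤ l := by exact_mod_cast hl
      linarith
    linarith [hzz m l]
  obtain ⟨y, hy⟩ := cauchySeq_tendsto_of_complete hcau
  have hzy : ∀ m : ℕ, ‖z m - y‖ ≤ 1 / ((m : ℝ) + 1) := by
    intro m
    have h2 : Tendsto (fun l => ‖z m - z l‖) atTop (𝓝 ‖z m - y‖) :=
      (tendsto_const_nhds.sub hy).norm
    have h3 : Tendsto (fun l : ℕ => 1 / ((m : ℝ) + 1) + 1 / ((l : ℝ) + 1)) atTop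
        (𝓝 (1 / ((m : ℝ) + 1) + 0)) := tendsto_const_nhds.add hinv
    rw [add_zero] at h3
    exact le_of_tendsto_of_tendsto' h2 h3 fun l => hzz m l
  have hgy : ∀ g : X →L[𝕜] 𝕜, Tendsto (fun i => g (x i)) 𝒰 (𝓝 (g y)) := by
    intro g
    rw [Metric.tendsto_nhds]
    intro ε hε
    have hg0 : 0 < ‖g‖ + 1 := by positivity
    obtain ⟨m, hm⟩ := exists_nat_one_div_lt (show 0 < ε / (3 * (‖g‖ + 1)) by positivity)
    have h2 : ‖g‖ * (1 / ((m : ℝ) + 1)) < ε / 3 := by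
      have h3 : (‖g‖ + 1) * (1 / ((m : ℝ) + 1)) < (‖g‖ + 1) * (ε / (3 * (‖g‖ + 1))) :=
        mul_lt_mul_of_pos_left hm hg0
      have h4 : (‖g‖ + 1) * (ε / (3 * (‖g‖ + 1))) = ε / 3 := by
        field_simp
      have h5 : 0 < 1 / ((m : ℝ) + 1) := by positivity
      linarith
    filter_upwards [(Metric.tendsto_nhds.1 (hz m g)) (ε / 3) (by positivity)] with i hi
    rw [dist_eq_norm] at hi ⊢
    have e : g (x i) - g y = g (x i - u (x i) m) + (g (u (x i) m) - g (z m)) + g (z m - y) := by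
      rw [map_sub, map_sub]
      abel
    rw [e]
    have h6 : ‖g (x i - u (x i) m)‖ ≤ ‖g‖ * (1 / ((m : ℝ) + 1)) :=
      (g.le_opNorm _).trans (mul_le_mul_of_nonneg_left (hud (x i) m).le (norm_nonneg _))
    have h7 : ‖g (z m - y)‖ ≤ ‖g‖ * (1 / ((m : ℝ) + 1)) :=
      (g.le_opNorm _).trans (mul_le_mul_of_nonneg_left (hzy m) (norm_nonneg _))
    have h8 := norm_add_le (g (x i - u (x i) m) + (g (u (x i) m) - g (z m))) (g (z m - y))
    have h9 := norm_add_le (g (x i - u (x i) m)) (g (u (x i) m) - g (z m))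
    linarith
  have hy0 : y = 0 := by
    apply hB.tot
    intro j
    have h2 : Tendsto (fun i => f j (x i)) 𝒰 (𝓝 0) := by
      refine tendsto_const_nhds.congr' ?_
      filter_upwards [hne j] with i hi
      exact (hB.zero j i (Ne.symm hi)).symm
    exact tendsto_nhds_unique (hgy (f j)) h2
  have hψ := (hgy ψ).norm
  rw [hy0, map_zero, norm_zero] at hψ
  have h2 : δ ≤ 0 := ge_of_tendsto hψ hI𝒰
  linarith

end Pool.Agent.Lib.MP38dfb6.HS
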