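import Pool.Agent.Lib.MP_38dfb6_an.HS.Spec

/-! # MP_38dfb6_an, HS: module DEC (the decomposition of the subspace) -/

set_option autoImplicit false

namespace Pool.Agent.Lib.MP38dfb6.HS

open Filter Topology Set MeasureTheory

universe u v

namespace DECM

variable {𝕜 : Type} [RCLike 𝕜] {X : Type u} [NormedAddCommGroup X] [NormedSpace 𝕜 X] {ι : Type v}

theorem xs_mono {x : ι → X} {S T : Set ι} (h : S ⊆ T) : XS (𝕜 := 𝕜) x S ≤ XS (𝕜 := 𝕜) x T :=
  Submodule.topologicalClosure_mono (Submodule.span_mono (Set.image_mono h))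

theorem xs_empty (x : ι → X) {v : X} (hv : v ∈ XS (𝕜 := 𝕜) x ∅) : v = 0 := by
  unfold XS at hv
  rw [Set.image_empty, Submodule.span_empty] at hv
  have h1 : IsClosed ((⊥ : Submodule 𝕜 X) : Set X) := by
    rw [Submodule.bot_coe]
    exact isClosed_singleton
  have h2 : (⊥ : Submodule 𝕜 X).topologicalClosure ≤ ⊥ :=
    Submodule.topologicalClosure_minimal _ le_rfl h1
  exact (Submodule.mem_bot 𝕜).mp (h2 hv)

/-- components along a directed union of good sets -/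
theorem limC [CompleteSpace X] (hPRJ : SpecPRJ.{u, v}) {x : ι → X} {f : ι → (X →L[𝕜] 𝕜)} {c : ℝ}
    {A : Set ι} {E : Submodule 𝕜 X} (hb : BO x f) (hc : 0 < c) {J : Type v} [Nonempty J]
    (S : J → Set ι) (hdir : ∀ b b' : J, ∃ k, S b ⊆ S k ∧ S b' ⊆ S k)
    (hG : ∀ b, Gd x f c A E (S b)) (M : Submodule 𝕜 X) (hM : IsClosed (M : Set X)) {e v : X}
    (hv : v ∈ XS (𝕜 := 𝕜) x (⋃ b, S b)) (hev : e - v ∈ XS (𝕜 := 𝕜) x (A \ ⋃ b, S b))
    (h : ∀ b, ∀ y ∈ XS (𝕜 := 𝕜) x (S b), e - y ∈ XS (𝕜 := 𝕜) x (A \ S b) → y ∈ M) : v ∈ M := by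
  rw [← SetLike.mem_coe, ← hM.closure_eq, Metric.mem_closure_iff]
  intro ε hε
  obtain ⟨δ, hδ, hδε⟩ : ∃ δ : ℝ, 0 < δ ∧ δ + δ / c < ε := by
    refine ⟨ε * c / (2 * (c + 1)), by positivity, ?_⟩
    have h1 : ε * c / (2 * (c + 1)) + ε * c / (2 * (c + 1)) / c = ε / 2 := by
      field_simp
    rw [h1]
    linarith
  obtain ⟨v', hv', hvv'⟩ : ∃ v' ∈ Submodule.span 𝕜 (x '' ⋃ b, S b), ‖v - v'‖ < δ := by
    have h1 : v ∈ closure (Submodule.span 𝕜 (x '' ⋃ b, S b) : Set X) := hv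
    obtain ⟨v', h2, h3⟩ := Metric.mem_closure_iff.mp h1 δ hδ
    rw [dist_eq_norm] at h3
    exact ⟨v', h2, h3⟩
  have hv'X : v' ∈ XS (𝕜 := 𝕜) x (⋃ b, S b) := Submodule.le_topologicalClosure _ hv'
  obtain ⟨b, hbv⟩ : ∃ b, v' ∈ Submodule.span 𝕜 (x '' S b) := by
    rw [Set.image_iUnion, Submodule.span_iUnion] at hv'
    refine (Submodule.mem_iSup_of_directed _ ?_).mp hv'
    intro b b'
    obtain ⟨k, h1, h2⟩ := hdir b b'
    exact ⟨k, Submodule.span_mono (Set.image_mono h1), Submodule.span_mono (Set.image_mono h2)⟩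
  have hsub : ⋃ b, S b ⊆ A := Set.iUnion_subset fun b => (hG b).sub
  have hun : S b ∪ (A \ S b) = A := by
    ext i
    constructor
    · rintro (hi | hi)
      · exact (hG b).sub hi
      · exact hi.1
    · intro hi
      by_cases h' : i ∈ S b
      · exact Or.inl h'
      · exact Or.inr ⟨hi, h'⟩
  obtain ⟨P1, P2, _⟩ := hPRJ 𝕜 X ι x f c A E (S b) hb hc (hG b)
  have hvA : v - v' ∈ XS (𝕜 := 𝕜) x (S b ∪ (A \ S b)) := by
    rw [hun]
    exact Submodule.sub_mem _ (xs_mono hsub hv) (xs_mono hsub hv'X)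
  obtain ⟨v₁, hv₁, w₁, hw₁, hsum⟩ := P2 (A \ S b) (Set.Subset.refl _) (v - v') hvA
  have hbd := P1 v₁ hv₁ w₁ hw₁
  rw [← hsum] at hbd
  refine ⟨v' + v₁, h b _ ?_ ?_, ?_⟩
  · exact Submodule.add_mem _ (Submodule.le_topologicalClosure _ hbv) hv₁
  · have h1 : e - (v' + v₁) = (e - v) + w₁ := by
      have h2 : w₁ = v - v' - v₁ := by rw [hsum]; abel
      rw [h2]
      abel
    rw [h1]
    refine Submodule.add_mem _ (xs_mono ?_ hev) hw₁
    intro i hi
    exact ⟨hi.1, fun h' => hi.2 (Set.mem_iUnion.mpr ⟨b, h'⟩)⟩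
  · rw [dist_eq_norm]
    have h1 : v - (v' + v₁) = (v - v') - v₁ := by abel
    rw [h1]
    have h2 := norm_sub_le (v - v') v₁
    have h3 : ‖v₁‖ ≤ δ / c := by
      rw [le_div_iff₀ hc]
      nlinarith
    linarith

end DECM

open DECM

theorem specDEC (hPRJ : SpecPRJ.{u, v}) : SpecDEC.{u, v} := by
  intro 𝕜 _ X _ _ _ ι x f c A E I _ _ S0 S1 hb hc hE hEA hC
  generalize hMdef : (⨆ a, E ⊓ XS (𝕜 := 𝕜) x (S1 a \ S0 a)).topologicalClosure = M
  have hM : IsClosed (M : Set X) := by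
    rw [← hMdef]
    exact Submodule.isClosed_topologicalClosure _
  have hblk : ∀ a, ∀ w ∈ E, w ∈ XS (𝕜 := 𝕜) x (S1 a \ S0 a) → w ∈ M := by
    intro a w h1 h2
    rw [← hMdef]
    refine Submodule.le_topologicalClosure _ ?_
    exact (le_iSup (fun a => E ⊓ XS (𝕜 := 𝕜) x (S1 a \ S0 a)) a) ⟨h1, h2⟩
  have hmono : ∀ a b, a ≤ b → S1 a ⊆ S1 b := by
    intro a b hab
    rcases hab.lt_or_eq with h | h
    · exact (hC.lt a b h).trans (hC.le b)
    · rw [h]
  have key : ∀ a, ∀ e ∈ E, (∀ y ∈ XS (𝕜 := 𝕜) x (S0 a), e - y ∈ XS (𝕜 := 𝕜) x (A \ S0 a) → y ∈ M) ∧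
      (∀ y ∈ XS (𝕜 := 𝕜) x (S1 a), e - y ∈ XS (𝕜 := 𝕜) x (A \ S1 a) → y ∈ M) := by
    intro a
    induction a using WellFoundedLT.induction with
    | ind a ih =>
    intro e he
    have h0 : ∀ y ∈ XS (𝕜 := 𝕜) x (S0 a), e - y ∈ XS (𝕜 := 𝕜) x (A \ S0 a) → y ∈ M := by
      intro y hy hey
      have hlim : S0 a = ⋃ b : Iio a, S1 b := by
        rw [hC.lim a, Set.biUnion_eq_iUnion]
      by_cases hne : Nonempty (Iio a)
      · rw [hlim] at hy hey
        refine limC hPRJ hb hc (fun b : Iio a => S1 b) ?_ (fun b => hC.g1 b) M hM hy hey ?_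
        · intro b b'
          rcases le_total b.1 b'.1 with h | h
          · exact ⟨b', hmono _ _ h, Set.Subset.refl _⟩
          · exact ⟨b, Set.Subset.refl _, hmono _ _ h⟩
        · intro b z hz hez
          exact (ih b.1 b.2 e he).2 z hz hez
      · have h1 : S0 a = ∅ := by
          rw [hlim]
          haveI : IsEmpty (Iio a) := not_nonempty_iff.mp hne
          exact Set.iUnion_of_empty _
        rw [h1] at hy
        rw [xs_empty x hy]
        exact zero_mem _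
    refine ⟨h0, fun y hy hey => ?_⟩
    obtain ⟨_, P2, P3⟩ := hPRJ 𝕜 X ι x f c A E (S0 a) hb hc (hC.g0 a)
    obtain ⟨_, _, Q3⟩ := hPRJ 𝕜 X ι x f c A E (S1 a) hb hc (hC.g1 a)
    have hyE : y ∈ E := Q3 e he y hy (e - y) hey (by abel)
    have hun : S0 a ∪ (S1 a \ S0 a) = S1 a := by
      ext i
      constructor
      · rintro (hi | hi)
        · exact hC.le a hi
        · exact hi.1
      · intro hi
        by_cases h' : i ∈ S0 a
        · exact Or.inl h'
        · exact Or.inr ⟨hi, h'⟩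
    have hsub : S1 a \ S0 a ⊆ A \ S0 a := fun i hi => ⟨(hC.g1 a).sub hi.1, hi.2⟩
    rw [← hun] at hy
    obtain ⟨v, hv, w, hw, hsum⟩ := P2 (S1 a \ S0 a) hsub y hy
    have hvE : v ∈ E := P3 y hyE v hv w (xs_mono hsub hw) hsum
    have hwE : w ∈ E := by
      have h1 : w = y - v := by rw [hsum]; abel
      rw [h1]
      exact Submodule.sub_mem _ hyE hvE
    have hvM : v ∈ M := by
      refine h0 v hv ?_
      have h1 : e - v = (e - y) + w := by rw [hsum]; abel
      rw [h1]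
      refine Submodule.add_mem _ (xs_mono ?_ hey) (xs_mono hsub hw)
      intro i hi
      exact ⟨hi.1, fun h' => hi.2 (hC.le a h')⟩
    rw [hsum]
    exact Submodule.add_mem _ hvM (hblk a w hwE hw)
  intro e he
  by_cases hne : Nonempty I
  · have hall : ⋃ a, S1 a = A := hC.all
    refine limC hPRJ hb hc S1 ?_ (fun b => hC.g1 b) M hM (e := e) (v := e) ?_ ?_ ?_
    · intro b b'
      rcases le_total b b' with h | h
      · exact ⟨b', hmono _ _ h, Set.Subset.refl _⟩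
      · exact ⟨b, Set.Subset.refl _, hmono _ _ h⟩
    · rw [hall]
      exact hEA he
    · rw [sub_self]
      exact zero_mem _
    · intro b z hz hez
      exact (key b e he).2 z hz hez
  · haveI : IsEmpty I := not_nonempty_iff.mp hne
    have h1 : A = ∅ := by
      rw [← hC.all]
      exact Set.iUnion_of_empty _
    have h2 := hEA he
    rw [h1] at h2
    rw [xs_empty x h2]
    exact zero_mem _

end Pool.Agent.Lib.MP38dfb6.HS
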