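import Pool.Agent.Lib.MP_38dfb6_an.HS.Spec

/-!
# MP_38dfb6_an, HS, module GLU: gluing the M-bases of the blocks
-/

set_option autoImplicit false

namespace Pool.Agent.Lib.MP38dfb6.HS

open Filter Topology Set MeasureTheory

universe u v

namespace GLUM

variable {𝕜 : Type} [RCLike 𝕜] {X : Type u} [NormedAddCommGroup X] [NormedSpace 𝕜 X] {ι : Type v}

theorem van {x : ι → X} {f : ι → (X →L[𝕜] 𝕜)} (hB : BO x f) {P Q : Set ι}
    (hPQ : ∀ i ∈ P, i ∉ Q) {φ : X →L[𝕜] 𝕜} (hφ : φ ∈ FS f P) {y : X} (hy : y ∈ XS (𝕜 := 𝕜) x Q) :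
    φ y = 0 := by
  have h1 : ∀ i ∈ P, f i y = 0 := by
    intro i hi
    have h2 : XS (𝕜 := 𝕜) x Q ≤ LinearMap.ker (f i : X →ₗ[𝕜] 𝕜) := by
      refine Submodule.topologicalClosure_minimal _ ?_ (ContinuousLinearMap.isClosed_ker (f i))
      rw [Submodule.span_le]
      rintro _ ⟨j, hj, rfl⟩
      refine LinearMap.mem_ker.mpr ?_
      exact hB.zero i j fun h => hPQ i hi (h ▸ hj)
    exact LinearMap.mem_ker.mp (h2 hy)
  unfold FS at hφ
  induction hφ using Submodule.span_induction with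
  | mem φ h =>
    obtain ⟨i, hi, rfl⟩ := h
    exact h1 i hi
  | zero => rfl
  | add φ ψ _ _ h h' => rw [ContinuousLinearMap.add_apply, h, h', add_zero]
  | smul a φ _ h => rw [ContinuousLinearMap.smul_apply, h, smul_zero]

end GLUM

open GLUM

theorem specGLU : SpecGLU.{u, v} := by
  intro 𝕜 _ X _ _ ι x f c A E I _ _ S0 S1 hB hC hE hM
  obtain ⟨D, hD⟩ : ∃ D : I → Set ι, ∀ a, D a = S1 a \ S0 a := ⟨_, fun _ => rfl⟩
  have hdisj : ∀ a b, a ≠ b → ∀ i ∈ D a, i ∉ D b := by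
    intro a b hab i hi hi'
    rw [hD] at hi hi'
    rcases lt_or_gt_of_ne hab with h | h
    · exact hi'.2 (hC.lt a b h hi.1)
    · exact hi.2 (hC.lt b a h hi'.1)
  have hDA : ∀ a, D a ⊆ A := by
    intro a i hi
    rw [hD] at hi
    rw [← hC.all]
    exact mem_iUnion.mpr ⟨a, hi.1⟩
  choose B hB1 hB2 hB3 hB4 hB5 using hM
  have hE' : E ≤ (⨆ a, E ⊓ XS (𝕜 := 𝕜) x (D a)).topologicalClosure := by
    have : (fun a => E ⊓ XS (𝕜 := 𝕜) x (D a)) = fun a => E ⊓ XS (𝕜 := 𝕜) x (S1 a \ S0 a) := by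
      funext a
      rw [hD]
    rw [this]
    exact hE
  have hp1 : ∀ a, ∀ p ∈ B a, p.1 ∈ E ∧ p.1 ∈ XS (𝕜 := 𝕜) x (D a) ∧ p.2 ∈ FS f (D a) := by
    intro a p hp
    obtain ⟨h1, h2⟩ := hB1 a p hp
    obtain ⟨h3, h4⟩ := Submodule.mem_inf.mp h1
    rw [hD]
    exact ⟨h3, h4, h2⟩
  refine ⟨⋃ a, B a, ?_, ?_, ?_, ?_, ?_⟩
  · intro p hp
    obtain ⟨a, ha⟩ := mem_iUnion.mp hp
    obtain ⟨h1, -, h2⟩ := hp1 a p ha
    exact ⟨h1, Submodule.span_mono (image_mono (hDA a)) h2⟩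
  · intro p hp
    obtain ⟨a, ha⟩ := mem_iUnion.mp hp
    exact hB2 a p ha
  · intro p hp q hq hpq
    obtain ⟨a, ha⟩ := mem_iUnion.mp hp
    obtain ⟨b, hb⟩ := mem_iUnion.mp hq
    by_cases hab : a = b
    · subst hab
      exact hB3 a p ha q hb hpq
    · exact van hB (hdisj a b hab) (hp1 a p ha).2.2 (hp1 b q hb).2.1
  · refine hE'.trans (Submodule.topologicalClosure_minimal _ ?_
      (Submodule.isClosed_topologicalClosure _))
    refine iSup_le fun a => ?_
    have h1 : E ⊓ XS (𝕜 := 𝕜) x (D a) ≤ (Submodule.span 𝕜 (Prod.fst '' B a)).topologicalClosure := by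
      rw [hD]
      exact hB4 a
    exact h1.trans (Submodule.topologicalClosure_mono
      (Submodule.span_mono (image_mono (subset_iUnion B a))))
  · intro i hi
    have hne : {a | i ∈ S1 a}.Nonempty := by
      rw [← hC.all] at hi
      exact mem_iUnion.mp hi
    obtain ⟨a, ha, hmin⟩ : ∃ a, i ∈ S1 a ∧ ∀ b, b < a → i ∉ S1 b := by
      refine ⟨WellFounded.min wellFounded_lt _ hne, WellFounded.min_mem wellFounded_lt _ hne, ?_⟩
      intro b hb hb'
      have hb2 : b ∈ {a | i ∈ S1 a} := hb'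
      exact WellFounded.not_lt_min wellFounded_lt {a | i ∈ S1 a} hb2 hb
    have hiD : i ∈ S1 a \ S0 a := by
      refine ⟨ha, ?_⟩
      rw [hC.lim a]
      intro h
      obtain ⟨b, hb, hb'⟩ := mem_iUnion₂.mp h
      exact hmin b hb hb'
    obtain ⟨φ, hφ, hφE⟩ := hB5 a i hiD
    refine ⟨φ, Submodule.span_mono (image_mono (subset_iUnion B a)) hφ, ?_⟩
    have hφF : φ ∈ FS f (D a) := by
      have h1 : Submodule.span 𝕜 (Prod.snd '' B a) ≤ FS f (D a) := by
        rw [Submodule.span_le]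
        rintro _ ⟨p, hp, rfl⟩
        exact (hp1 a p hp).2.2
      exact h1 hφ
    have hfF : f i ∈ FS f (D a) := by
      rw [hD]
      exact Submodule.subset_span (mem_image_of_mem f hiD)
    have hk : (⨆ b, E ⊓ XS (𝕜 := 𝕜) x (D b)).topologicalClosure ≤
        LinearMap.ker ((f i - φ : X →L[𝕜] 𝕜) : X →ₗ[𝕜] 𝕜) := by
      refine Submodule.topologicalClosure_minimal _ ?_ (ContinuousLinearMap.isClosed_ker (f i - φ))
      refine iSup_le fun b => ?_
      intro e he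
      refine LinearMap.mem_ker.mpr ?_
      show (f i - φ) e = 0
      rw [ContinuousLinearMap.sub_apply]
      by_cases hab : a = b
      · subst hab
        rw [hD] at he
        rw [hφE e he, sub_self]
      · have he2 := (Submodule.mem_inf.mp he).2
        rw [van hB (hdisj a b hab) hfF he2, van hB (hdisj a b hab) hφF he2, sub_zero]
    intro e he
    have h1 : (f i - φ) e = 0 := LinearMap.mem_ker.mp (hk (hE' he))
    rw [ContinuousLinearMap.sub_apply] at h1
    exact sub_eq_zero.mp h1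

end Pool.Agent.Lib.MP38dfb6.HS
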