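import Pool.Agent.Lib.MP_38dfb6_an.HS.Spec

set_option autoImplicit false

namespace Pool.Agent.Lib.MP38dfb6.HS

open Filter Topology Set MeasureTheory

universe u v

theorem specIND (hTHE : SpecTHE.{u, v}) (hCHA : SpecCHA.{v}) (hBLK : SpecBLK.{u, v})
    (hDEC : SpecDEC.{u, v}) (hGLU : SpecGLU.{u, v}) (hBSE : SpecBSE.{u, v}) : SpecIND.{u, v} := by
  intro 𝕜 _ X _ _ _ ι x f c hBO hc hc1 hcs
  have key : ∀ (κ : Cardinal.{v}) (A : Set ι) (E : Submodule 𝕜 X), Cardinal.mk A = κ →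
      NM x f c A → IsClosed (E : Set X) → E ≤ XS x A → HasM f A E := by
    intro κ
    refine Cardinal.lt_wf.induction (C := fun κ : Cardinal.{v} => ∀ (A : Set ι)
      (E : Submodule 𝕜 X), Cardinal.mk A = κ → NM x f c A → IsClosed (E : Set X) →
      E ≤ XS x A → HasM f A E) κ ?_
    intro κ ih A E hκ hNM hEc hE
    by_cases hcount : A.Countable
    · exact hBSE 𝕜 X ι x f c A E hc hNM hcount hE
    · obtain ⟨Θ, hΘc, hΘ0, hΘ⟩ := hTHE 𝕜 X ι x f c A E hc hc1 hNM hcs hEc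
      obtain ⟨I, iL, iW, S0, S1, h1, h2, h3, h4, h5, h6, h7, h8⟩ := hCHA ι A hcount Θ hΘc hΘ0
      have hS0A : ∀ a, S0 a ⊆ A := fun a => (h1 a).trans (h2 a)
      have hch : Chn x f c A E I S0 S1 :=
        ⟨h1, h3, h4, h5, fun a => hΘ _ (hS0A a) (h7 a), fun a => hΘ _ (h2 a) (h8 a)⟩
      have hdec := hDEC 𝕜 X ι x f c A E I S0 S1 hBO hc hEc hE hch
      refine hGLU 𝕜 X ι x f c A E I S0 S1 hBO hch hdec fun a => ?_
      have hlt : Cardinal.mk (S1 a \ S0 a : Set ι) < κ := by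
        rw [← hκ]
        exact (Cardinal.mk_le_mk_of_subset sdiff_subset).trans_lt (h6 a)
      refine ih _ hlt _ _ rfl (hBLK 𝕜 X ι x f c A E (S0 a) (S1 a) hBO (h1 a) (hch.g1 a)) ?_
        inf_le_right
      rw [Submodule.coe_inf]
      exact hEc.inter (Submodule.isClosed_topologicalClosure _)
  intro A E hNM hEc hE
  exact key _ A E rfl hNM hEc hE

end Pool.Agent.Lib.MP38dfb6.HS
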