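import Pool.Agent.Lib.MP_38dfb6_an.HS.Spec

/-!
# MP_38dfb6_an, module `MRK`: Markushevich's theorem (biorthogonal sequences in a subspace)
-/

set_option autoImplicit false

namespace Pool.Agent.Lib.MP38dfb6.HS

open Filter Topology Set MeasureTheory

universe u v

namespace MRKM

variable {𝕜 : Type} [RCLike 𝕜] {X : Type u} [NormedAddCommGroup X] [NormedSpace 𝕜 X]

/-- a finite biorthogonal set of pairs -/
structure Bi (E : Submodule 𝕜 X) (G : Submodule 𝕜 (X →L[𝕜] 𝕜)) (B : Finset (X × (X →L[𝕜] 𝕜))) : Prop where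
  mem : ∀ p ∈ B, p.1 ∈ E ∧ p.2 ∈ G
  one : ∀ p ∈ B, p.2 p.1 = 1
  zero : ∀ p ∈ B, ∀ q ∈ B, p ≠ q → p.2 q.1 = 0

/-- projection of a vector -/
noncomputable def pv (B : Finset (X × (X →L[𝕜] 𝕜))) (y : X) : X := ∑ p ∈ B, p.2 y • p.1

/-- projection of a functional -/
noncomputable def pf (B : Finset (X × (X →L[𝕜] 𝕜))) (g : X →L[𝕜] 𝕜) : X →L[𝕜] 𝕜 := ∑ p ∈ B, g p.1 • p.2

lemma pv_mem_span (B : Finset (X × (X →L[𝕜] 𝕜))) (y : X) :
    pv B y ∈ Submodule.span 𝕜 (Prod.fst '' (B : Set (X × (X →L[𝕜] 𝕜)))) := by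
  refine Submodule.sum_mem _ fun p hp => Submodule.smul_mem _ _ (Submodule.subset_span ⟨p, ?_, rfl⟩)
  exact Finset.mem_coe.mpr hp

lemma pf_mem_span (B : Finset (X × (X →L[𝕜] 𝕜))) (g : X →L[𝕜] 𝕜) :
    pf B g ∈ Submodule.span 𝕜 (Prod.snd '' (B : Set (X × (X →L[𝕜] 𝕜)))) := by
  refine Submodule.sum_mem _ fun p hp => Submodule.smul_mem _ _ (Submodule.subset_span ⟨p, ?_, rfl⟩)
  exact Finset.mem_coe.mpr hp

variable {E : Submodule 𝕜 X} {G : Submodule 𝕜 (X →L[𝕜] 𝕜)} {B : Finset (X × (X →L[𝕜] 𝕜))}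

lemma pv_mem (h : Bi E G B) (y : X) : pv B y ∈ E :=
  Submodule.sum_mem _ fun p hp => Submodule.smul_mem _ _ (h.mem p hp).1

lemma pf_mem (h : Bi E G B) (g : X →L[𝕜] 𝕜) : pf B g ∈ G :=
  Submodule.sum_mem _ fun p hp => Submodule.smul_mem _ _ (h.mem p hp).2

lemma q_pv (h : Bi E G B) (y : X) (q : X × (X →L[𝕜] 𝕜)) (hq : q ∈ B) : q.2 (pv B y) = q.2 y := by
  unfold pv
  rw [map_sum, Finset.sum_eq_single q]
  · rw [map_smul, h.one q hq, smul_eq_mul, mul_one]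
  · intro p hp hpq
    rw [map_smul, h.zero q hq p hp (Ne.symm hpq), smul_zero]
  · intro h'
    exact absurd hq h'

lemma pf_q (h : Bi E G B) (g : X →L[𝕜] 𝕜) (q : X × (X →L[𝕜] 𝕜)) (hq : q ∈ B) : pf B g q.1 = g q.1 := by
  unfold pf
  rw [ContinuousLinearMap.sum_apply, Finset.sum_eq_single q]
  · rw [ContinuousLinearMap.smul_apply, h.one q hq, smul_eq_mul, mul_one]
  · intro p hp hpq
    rw [ContinuousLinearMap.smul_apply, h.zero p hp q hq hpq, smul_zero]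
  · intro h'
    exact absurd hq h'

lemma pf_zero (g : X →L[𝕜] 𝕜) (z : X) (hz : ∀ p ∈ B, p.2 z = 0) : pf B g z = 0 := by
  unfold pf
  rw [ContinuousLinearMap.sum_apply]
  refine Finset.sum_eq_zero fun p hp => ?_
  rw [ContinuousLinearMap.smul_apply, hz p hp, smul_zero]

lemma pv_zero (g : X →L[𝕜] 𝕜) (y : X) (hg : ∀ p ∈ B, g p.1 = 0) : g (pv B y) = 0 := by
  unfold pv
  rw [map_sum]
  refine Finset.sum_eq_zero fun p hp => ?_
  rw [map_smul, hg p hp, smul_zero]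

open scoped Classical in
/-- adding a pair -/
lemma bi_insert (h : Bi E G B) (z : X) (k : X →L[𝕜] 𝕜) (hz : z ∈ E) (hk : k ∈ G) (h1 : k z = 1)
    (hz0 : ∀ p ∈ B, p.2 z = 0) (hk0 : ∀ p ∈ B, k p.1 = 0) : Bi E G (insert (z, k) B) := by
  refine ⟨?_, ?_, ?_⟩
  · intro p hp
    rcases Finset.mem_insert.mp hp with rfl | hp
    · exact ⟨hz, hk⟩
    · exact h.mem p hp
  · intro p hp
    rcases Finset.mem_insert.mp hp with rfl | hp
    · exact h1
    · exact h.one p hp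
  · intro p hp q hq hpq
    rcases Finset.mem_insert.mp hp with rfl | hp
    · rcases Finset.mem_insert.mp hq with rfl | hq
      · exact absurd rfl hpq
      · exact hk0 q hq
    · rcases Finset.mem_insert.mp hq with rfl | hq
      · exact hz0 p hp
      · exact h.zero p hp q hq hpq

lemma stepA (g : ℕ → (X →L[𝕜] 𝕜)) (hgG : ∀ n, g n ∈ G) (h : Bi E G B) (y : X) (hy : y ∈ E)
    (tot : ∀ v ∈ E, (∀ n, g n v = 0) → v = 0) :
    ∃ B' : Finset (X × (X →L[𝕜] 𝕜)), B ⊆ B' ∧ Bi E G B' ∧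
      y ∈ Submodule.span 𝕜 (Prod.fst '' (B' : Set (X × (X →L[𝕜] 𝕜)))) := by
  classical
  by_cases hz : y - pv B y = 0
  · refine ⟨B, Finset.Subset.refl _, h, ?_⟩
    have e : y = pv B y := sub_eq_zero.mp hz
    rw [e]
    exact pv_mem_span B y
  · obtain ⟨z, hzdef⟩ : ∃ z, z = y - pv B y := ⟨_, rfl⟩
    rw [← hzdef] at hz
    have hzE : z ∈ E := by
      rw [hzdef]
      exact E.sub_mem hy (pv_mem h y)
    have hl : ∃ l, g l z ≠ 0 := by
      by_contra hcon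
      push Not at hcon
      exact hz (tot z hzE hcon)
    obtain ⟨l, hl⟩ := hl
    have hz0 : ∀ p ∈ B, p.2 z = 0 := by
      intro p hp
      rw [hzdef, map_sub, q_pv h y p hp, sub_self]
    have hk0 : ∀ p ∈ B, ((g l z)⁻¹ • (g l - pf B (g l))) p.1 = 0 := by
      intro p hp
      rw [ContinuousLinearMap.smul_apply, ContinuousLinearMap.sub_apply, pf_q h (g l) p hp, sub_self,
        smul_zero]
    have h1 : ((g l z)⁻¹ • (g l - pf B (g l))) z = 1 := by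
      rw [ContinuousLinearMap.smul_apply, ContinuousLinearMap.sub_apply, pf_zero (g l) z hz0, sub_zero,
        smul_eq_mul, inv_mul_cancel₀ hl]
    refine ⟨insert (z, (g l z)⁻¹ • (g l - pf B (g l))) B, Finset.subset_insert _ _,
      bi_insert h _ _ hzE (G.smul_mem _ (G.sub_mem (hgG l) (pf_mem h (g l)))) h1 hz0 hk0, ?_⟩
    have e : y = z + pv B y := by rw [hzdef]; abel
    rw [e]
    refine Submodule.add_mem _ (Submodule.subset_span ⟨(z, (g l z)⁻¹ • (g l - pf B (g l))), ?_, rfl⟩)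
      (Submodule.span_mono (Set.image_mono ?_) (pv_mem_span B y))
    · exact Finset.mem_coe.mpr (Finset.mem_insert_self _ _)
    · exact Finset.coe_subset.mpr (Finset.subset_insert _ _)

lemma stepB (h : Bi E G B) (g : X →L[𝕜] 𝕜) (hg : g ∈ G) :
    ∃ B' : Finset (X × (X →L[𝕜] 𝕜)), B ⊆ B' ∧ Bi E G B' ∧
      ∃ φ ∈ Submodule.span 𝕜 (Prod.snd '' (B' : Set (X × (X →L[𝕜] 𝕜)))), ∀ e ∈ E, g e = φ e := by
  classical
  by_cases hz : ∀ e ∈ E, (g - pf B g) e = 0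
  · refine ⟨B, Finset.Subset.refl _, h, pf B g, pf_mem_span B g, fun e he => ?_⟩
    have := hz e he
    rw [ContinuousLinearMap.sub_apply] at this
    exact sub_eq_zero.mp this
  · push Not at hz
    obtain ⟨y, hy, hne⟩ := hz
    obtain ⟨k, hkdef⟩ : ∃ k, k = g - pf B g := ⟨_, rfl⟩
    rw [← hkdef] at hne
    have hkG : k ∈ G := by
      rw [hkdef]
      exact G.sub_mem hg (pf_mem h g)
    have hk0 : ∀ p ∈ B, k p.1 = 0 := by
      intro p hp
      rw [hkdef, ContinuousLinearMap.sub_apply, pf_q h g p hp, sub_self]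
    have hz0 : ∀ p ∈ B, p.2 ((k y)⁻¹ • (y - pv B y)) = 0 := by
      intro p hp
      rw [map_smul, map_sub, q_pv h y p hp, sub_self, smul_zero]
    have h1 : k ((k y)⁻¹ • (y - pv B y)) = 1 := by
      rw [map_smul, map_sub, pv_zero k y hk0, sub_zero, smul_eq_mul, inv_mul_cancel₀ hne]
    refine ⟨insert ((k y)⁻¹ • (y - pv B y), k) B, Finset.subset_insert _ _,
      bi_insert h _ _ (E.smul_mem _ (E.sub_mem hy (pv_mem h y))) hkG h1 hz0 hk0, k + pf B g, ?_, ?_⟩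
    · refine Submodule.add_mem _ (Submodule.subset_span ⟨((k y)⁻¹ • (y - pv B y), k), ?_, rfl⟩)
        (Submodule.span_mono (Set.image_mono ?_) (pf_mem_span B g))
      · exact Finset.mem_coe.mpr (Finset.mem_insert_self _ _)
      · exact Finset.coe_subset.mpr (Finset.subset_insert _ _)
    · intro e _
      rw [hkdef, sub_add_cancel]

lemma stepAB (g : ℕ → (X →L[𝕜] 𝕜)) (hgG : ∀ n, g n ∈ G) (h : Bi E G B) (y : X) (hy : y ∈ E)
    (tot : ∀ v ∈ E, (∀ n, g n v = 0) → v = 0) (n : ℕ) :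
    ∃ B' : Finset (X × (X →L[𝕜] 𝕜)), Bi E G B' ∧ B ⊆ B' ∧
      y ∈ Submodule.span 𝕜 (Prod.fst '' (B' : Set (X × (X →L[𝕜] 𝕜)))) ∧
      ∃ φ ∈ Submodule.span 𝕜 (Prod.snd '' (B' : Set (X × (X →L[𝕜] 𝕜)))), ∀ e ∈ E, g n e = φ e := by
  obtain ⟨B1, h1, h2, h3⟩ := stepA g hgG h y hy tot
  obtain ⟨B2, k1, k2, k3⟩ := stepB h2 (g n) (hgG n)
  exact ⟨B2, k2, h1.trans k1, Submodule.span_mono (Set.image_mono (Finset.coe_subset.mpr k1)) h3, k3⟩

end MRKM

open MRKM in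
/-- Markushevich's theorem. -/
theorem specMRK : SpecMRK.{u} := by
  intro 𝕜 _ X _ _ E y g hyE hdense tot
  have hgG : ∀ n, g n ∈ Submodule.span 𝕜 (range g) := fun n => Submodule.subset_span ⟨n, rfl⟩
  have step : ∀ (n : ℕ) (B : {B : Finset (X × (X →L[𝕜] 𝕜)) // Bi E (Submodule.span 𝕜 (range g)) B}),
      ∃ B' : {B : Finset (X × (X →L[𝕜] 𝕜)) // Bi E (Submodule.span 𝕜 (range g)) B}, B.1 ⊆ B'.1 ∧
        y n ∈ Submodule.span 𝕜 (Prod.fst '' (B'.1 : Set (X × (X →L[𝕜] 𝕜)))) ∧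
        ∃ φ ∈ Submodule.span 𝕜 (Prod.snd '' (B'.1 : Set (X × (X →L[𝕜] 𝕜)))), ∀ e ∈ E, g n e = φ e := by
    intro n B
    obtain ⟨B', h1, h2, h3, h4⟩ := stepAB g hgG B.2 (y n) (hyE n) tot n
    exact ⟨⟨B', h1⟩, h2, h3, h4⟩
  choose nx hnx using step
  have h0 : Bi E (Submodule.span 𝕜 (range g)) (∅ : Finset (X × (X →L[𝕜] 𝕜))) :=
    ⟨fun p hp => absurd hp (Finset.notMem_empty p), fun p hp => absurd hp (Finset.notMem_empty p),
      fun p hp => absurd hp (Finset.notMem_empty p)⟩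
  obtain ⟨S, -, hS⟩ : ∃ S : ℕ → {B : Finset (X × (X →L[𝕜] 𝕜)) // Bi E (Submodule.span 𝕜 (range g)) B},
      S 0 = ⟨∅, h0⟩ ∧ ∀ n, S (n + 1) = nx n (S n) :=
    ⟨fun n => Nat.rec ⟨∅, h0⟩ (fun n B => nx n B) n, rfl, fun n => rfl⟩
  have mono : Monotone fun n => (S n).1 := by
    refine monotone_nat_of_le_succ fun n => ?_
    show (S n).1 ⊆ (S (n + 1)).1
    rw [hS n]
    exact (hnx n (S n)).1
  have hsub : ∀ n, (((S n).1 : Finset (X × (X →L[𝕜] 𝕜))) : Set (X × (X →L[𝕜] 𝕜))) ⊆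
      ⋃ n, (((S n).1 : Finset (X × (X →L[𝕜] 𝕜))) : Set (X × (X →L[𝕜] 𝕜))) := fun n =>
    Set.subset_iUnion (fun n => (((S n).1 : Finset (X × (X →L[𝕜] 𝕜))) : Set (X × (X →L[𝕜] 𝕜)))) n
  refine ⟨⋃ n, (((S n).1 : Finset (X × (X →L[𝕜] 𝕜))) : Set (X × (X →L[𝕜] 𝕜))), ?_, ?_, ?_, ?_, ?_⟩
  · intro p hp
    obtain ⟨n, hn⟩ := Set.mem_iUnion.mp hp
    exact (S n).2.mem p (Finset.mem_coe.mp hn)
  · intro p hp
    obtain ⟨n, hn⟩ := Set.mem_iUnion.mp hp
    exact (S n).2.one p (Finset.mem_coe.mp hn)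
  · intro p hp q hq hpq
    obtain ⟨n, hn⟩ := Set.mem_iUnion.mp hp
    obtain ⟨m, hm⟩ := Set.mem_iUnion.mp hq
    have hn' : p ∈ (S (max n m)).1 := mono (le_max_left n m) (Finset.mem_coe.mp hn)
    have hm' : q ∈ (S (max n m)).1 := mono (le_max_right n m) (Finset.mem_coe.mp hm)
    exact (S (max n m)).2.zero p hn' q hm' hpq
  · refine hdense.trans (Submodule.topologicalClosure_mono (Submodule.span_le.mpr ?_))
    rintro _ ⟨n, rfl⟩
    have h1 := (hnx n (S n)).2.1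
    rw [← hS n] at h1
    exact Submodule.span_mono (Set.image_mono (hsub (n + 1))) h1
  · intro n
    obtain ⟨φ, h1, h2⟩ := (hnx n (S n)).2.2
    rw [← hS n] at h1
    exact ⟨φ, Submodule.span_mono (Set.image_mono (hsub (n + 1))) h1, h2⟩

end Pool.Agent.Lib.MP38dfb6.HS
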