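import Pool.Agent.Lib.MP_38dfb6_an.HS.SpecS
import Pool.Agent.Lib.MP_38dfb6_an.NB.PRD

/-!
# MP_38dfb6_an, module PBO: the biorthogonal system for separated ladders
-/

set_option autoImplicit false

namespace Pool.Agent.Lib.MP38dfb6.HS

open Filter Topology Set

namespace PBOM

open PRDM

theorem lad_length {Λ : Type} (L : Λ → ℕ → Λ) (δ : Λ) : ∀ m, (lad L δ m).length = m
  | 0 => rfl
  | m + 1 => by
    show (L δ m :: lad L δ m).length = m + 1
    rw [List.length_cons, lad_length L δ m]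

theorem suffix_lad {Λ : Type} (L : Λ → ℕ → Λ) (δ : Λ) (a : List Λ) (m : ℕ) :
    a <:+ lad L δ m ↔ a = lad L δ a.length ∧ a.length ≤ m := by
  induction m with
  | zero =>
    constructor
    · intro h
      have h1 : a = [] := List.suffix_nil.mp h
      subst h1
      exact ⟨rfl, le_refl _⟩
    · rintro ⟨_, h2⟩
      have h3 : a = [] := List.length_eq_zero_iff.mp (Nat.le_zero.mp h2)
      subst h3
      exact List.suffix_refl _
  | succ m ih =>
    have h0 : lad L δ (m + 1) = L δ m :: lad L δ m := rfl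
    rw [h0, List.suffix_cons_iff, ih]
    constructor
    · rintro (h | ⟨h1, h2⟩)
      · have h3 : a.length = m + 1 := by rw [h, List.length_cons, lad_length]
        exact ⟨by rw [h3, h0]; exact h, h3.le⟩
      · exact ⟨h1, by omega⟩
    · rintro ⟨h1, h2⟩
      rcases Nat.lt_or_ge m a.length with h3 | h3
      · left
        have h4 : a.length = m + 1 := by omega
        rw [← h0, ← h4]
        exact h1
      · exact Or.inr ⟨h1, h3⟩

theorem len_le {Λ : Type} {N : ℕ∞} {δ : Λ} {D : List Λ}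
    (h : (((δ :: D).length : ℕ) : ℕ∞) ≤ N) : ((D.length : ℕ) : ℕ∞) ≤ N :=
  le_trans (by exact_mod_cast Nat.le_succ _) h

/-- the functionals -/
noncomputable def ff (𝕜 : Type) [RCLike 𝕜] {Λ : Type} (L : Λ → ℕ → Λ) (N : ℕ∞) (i : Λ → ℕ) :
    NN Λ N → (ES 𝕜 L N →L[𝕜] 𝕜)
  | ⟨(D, y :: b), h⟩ => ev 𝕜 L N ⟨(D, Sum.inl (y :: b)), h⟩ - ev 𝕜 L N ⟨(D, Sum.inl b), h⟩
  | ⟨(δ :: D, []), h⟩ => ev 𝕜 L N ⟨(δ :: D, Sum.inl []), h⟩ -
      ev 𝕜 L N ⟨(D, Sum.inl (lad L δ (i δ))), len_le h⟩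
  | ⟨([], []), h⟩ => ev 𝕜 L N ⟨([], Sum.inl []), h⟩

variable {𝕜 : Type} [RCLike 𝕜] {Λ : Type} {L : Λ → ℕ → Λ} {N : ℕ∞} {i : Λ → ℕ}

/-- the ladders which start with `a`, after the index `i` -/
def GS (L : Λ → ℕ → Λ) (i : Λ → ℕ) (a : List Λ) : Set Λ :=
  {δ | i δ < a.length ∧ a = lad L δ a.length}

theorem GS_nil : GS L i [] = ∅ := by
  ext δ
  simp [GS]

/-- the vectors -/
noncomputable def xx (𝕜 : Type) [RCLike 𝕜] {Λ : Type} (L : Λ → ℕ → Λ) (N : ℕ∞) (i : Λ → ℕ)
    (h : SepL L i) (s : Node Λ) : ES 𝕜 L N :=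
  ch 𝕜 L N s - ∑ δ ∈ (h s.2).toFinset, ch 𝕜 L N (δ :: s.1, [])

open Classical in
theorem ev_ch (p : PN Λ N) (t : Node Λ) :
    ev 𝕜 L N p (ch 𝕜 L N t) = if On L t p.1 then (1 : 𝕜) else 0 := rfl

open Classical in
theorem diff_gen (p q : PN Λ N) (t : Node Λ) (P : Prop) (hiff : On L t p.1 ↔ P ∨ On L t q.1)
    (hn : ¬ (P ∧ On L t q.1)) :
    (ev 𝕜 L N p - ev 𝕜 L N q) (ch 𝕜 L N t) = if P then (1 : 𝕜) else 0 := by
  rw [_root_.sub_apply, ev_ch, ev_ch]
  by_cases hP : P
  · have h1 : On L t p.1 := hiff.2 (Or.inl hP)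
    have h2 : ¬ On L t q.1 := fun h => hn ⟨hP, h⟩
    rw [if_pos h1, if_neg h2, if_pos hP, sub_zero]
  · rw [if_neg hP]
    by_cases hq : On L t q.1
    · rw [if_pos hq, if_pos (hiff.2 (Or.inr hq)), sub_self]
    · have hp : ¬ On L t p.1 := by
        intro hp
        rcases hiff.1 hp with h | h
        · exact hP h
        · exact hq h
      rw [if_neg hp, if_neg hq, sub_self]

/-- when is the value of the functional `s` on `ch t` equal to one? -/
def QQ (L : Λ → ℕ → Λ) (i : Λ → ℕ) (s t : Node Λ) : Prop :=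
  t = s ∨ ∃ δ, s = (δ :: t.1, []) ∧ δ ∈ GS L i t.2

open Classical in
theorem ff_val (s : NN Λ N) (t : Node Λ) :
    ff 𝕜 L N i s (ch 𝕜 L N t) = if QQ L i s.1 t then (1 : 𝕜) else 0 := by
  rcases s with ⟨⟨D, _ | ⟨y, b⟩⟩, h⟩
  · rcases D with _ | ⟨δ, D⟩
    · show ev 𝕜 L N ⟨([], Sum.inl []), h⟩ (ch 𝕜 L N t) = _
      rw [ev_ch]
      refine if_congr ?_ rfl rfl
      show On L t ([], Sum.inl []) ↔ _
      rw [(specPRD Λ L t).2.2.2.2]
      constructor
      · intro h1
        exact Or.inl h1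
      · rintro (h1 | ⟨δ, h1, _⟩)
        · exact h1
        · exact absurd (congrArg Prod.fst h1) (by simp)
    · refine diff_gen _ _ t _ ?_ ?_
      · show On L t (δ :: D, Sum.inl []) ↔ _ ∨ On L t (D, Sum.inl (lad L δ (i δ)))
        rw [(specPRD Λ L t).2.2.1]
        constructor
        · rintro (h1 | (⟨h1, h2⟩ | h1))
          · exact Or.inl (Or.inl h1)
          · have h1' : t.1 = D := h1
            have h2' : t.2 = lad L δ t.2.length := h2
            rcases Nat.lt_or_ge (i δ) t.2.length with h3 | h3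
            · refine Or.inl (Or.inr ⟨δ, ?_, h3, h2'⟩)
              show (δ :: D, []) = (δ :: t.1, [])
              rw [h1']
            · exact Or.inr (Or.inl ⟨h1, (suffix_lad L δ t.2 (i δ)).2 ⟨h2', h3⟩⟩)
          · exact Or.inr (Or.inr h1)
        · rintro ((h1 | ⟨δ', h1, h2⟩) | (⟨h1, h2⟩ | h1))
          · exact Or.inl h1
          · have h1' : (δ :: D, ([] : List Λ)) = (δ' :: t.1, []) := h1
            obtain ⟨h3, -⟩ := Prod.mk.inj h1'
            obtain ⟨h4, h5⟩ := List.cons.inj h3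
            subst h4
            exact Or.inr (Or.inl ⟨h5.symm, h2.2⟩)
          · have h2' : t.2 <:+ lad L δ (i δ) := h2
            exact Or.inr (Or.inl ⟨h1, ((suffix_lad L δ t.2 (i δ)).1 h2').1⟩)
          · exact Or.inr (Or.inr h1)
      · rintro ⟨h1 | ⟨δ', h1, h2⟩, h3⟩
        · have h1' : t = (δ :: D, []) := h1
          subst h1'
          rcases h3 with ⟨h4, _⟩ | ⟨δ', h4, _⟩
          · have h4' : δ :: D = D := h4
            have h5 := congrArg List.length h4'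
            rw [List.length_cons] at h5
            omega
          · exact not_suffix_cons2 δ' δ D h4
        · have h1' : (δ :: D, ([] : List Λ)) = (δ' :: t.1, []) := h1
          obtain ⟨h4, -⟩ := Prod.mk.inj h1'
          obtain ⟨h5, h6⟩ := List.cons.inj h4
          subst h5
          rcases h3 with ⟨_, h7⟩ | ⟨δ'', h7, _⟩
          · have h7' : t.2 <:+ lad L δ (i δ) := h7
            have h8 := ((suffix_lad L δ t.2 (i δ)).1 h7').2
            have h9 : i δ < t.2.length := h2.1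
            omega
          · have h7' : (δ'' :: t.1) <:+ D := h7
            rw [h6] at h7'
            exact not_suffix_cons _ _ h7'
  · refine diff_gen _ _ t _ ?_ ?_
    · show On L t (D, Sum.inl (y :: b)) ↔ _ ∨ On L t (D, Sum.inl b)
      rw [(specPRD Λ L t).1]
      refine or_congr ?_ Iff.rfl
      constructor
      · intro h1
        exact Or.inl h1
      · rintro (h1 | ⟨δ, h1, _⟩)
        · exact h1
        · exact absurd (congrArg Prod.snd h1) (by simp)
    · rintro ⟨h1 | ⟨δ, h1, _⟩, h3⟩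
      · have h1' : t = (D, y :: b) := h1
        subst h1'
        exact (specPRD Λ L (D, y :: b)).2.1 D y b h3
      · exact absurd (congrArg Prod.snd h1) (by simp)

theorem QQ_nil (s : Node Λ) (E : List Λ) : QQ L i s (E, []) ↔ s = (E, []) := by
  constructor
  · rintro (h | ⟨δ, _, h⟩)
    · exact h.symm
    · rw [show ((E, []) : Node Λ).2 = [] from rfl, GS_nil] at h
      exact absurd h (Set.notMem_empty _)
  · intro h
    exact Or.inl h.symm

open Classical in
theorem ff_xx (hsep : SepL L i) (s : NN Λ N) (t : Node Λ) :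
    ff 𝕜 L N i s (xx 𝕜 L N i hsep t) = if s.1 = t then (1 : 𝕜) else 0 := by
  have h1 : ff 𝕜 L N i s (xx 𝕜 L N i hsep t) = (if QQ L i s.1 t then (1 : 𝕜) else 0) -
      ∑ δ ∈ (hsep t.2).toFinset, if s.1 = (δ :: t.1, []) then (1 : 𝕜) else 0 := by
    unfold xx
    rw [map_sub, map_sum, ff_val]
    congr 1
    refine Finset.sum_congr rfl fun δ _ => ?_
    rw [ff_val]
    exact if_congr (QQ_nil _ _) rfl rfl
  rw [h1]
  by_cases hex : ∃ δ, s.1 = (δ :: t.1, []) ∧ δ ∈ GS L i t.2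
  · obtain ⟨δ, hs, hδ⟩ := hex
    have hne : ¬ s.1 = t := by
      intro h
      rw [h] at hs
      have h2 := congrArg (fun z : Node Λ => z.1.length) hs
      simp at h2
    have hQ : QQ L i s.1 t := Or.inr ⟨δ, hs, hδ⟩
    rw [if_neg hne, if_pos hQ, Finset.sum_eq_single δ, if_pos hs, sub_self]
    · intro δ' _ hne'
      refine if_neg fun h => hne' ?_
      rw [hs] at h
      obtain ⟨h3, -⟩ := Prod.mk.inj h
      exact (List.cons.inj h3).1.symm
    · intro h
      exact absurd ((Set.Finite.mem_toFinset _).2 hδ) h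
  · have hsum : ∑ δ ∈ (hsep t.2).toFinset, (if s.1 = (δ :: t.1, []) then (1 : 𝕜) else 0) = 0 := by
      refine Finset.sum_eq_zero fun δ hδ => ?_
      refine if_neg fun h => hex ⟨δ, h, ?_⟩
      exact (Set.Finite.mem_toFinset _).1 hδ
    rw [hsum, sub_zero]
    refine if_congr ?_ rfl rfl
    constructor
    · rintro (h | h)
      · exact h.symm
      · exact absurd h hex
    · intro h
      exact Or.inl h.symm

/-- nodes above the level `N` give the zero function -/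
theorem ch_zero (s : Node Λ) (h : ¬ ((s.1.length : ℕ) : ℕ∞) ≤ N) : ch 𝕜 L N s = 0 := by
  apply Subtype.ext
  apply lp.ext
  funext p
  show ev 𝕜 L N p (ch 𝕜 L N s) = 0
  classical
  rw [ev_ch]
  refine if_neg fun hon => h ?_
  have h1 : s.1.length ≤ lev p.1 := by
    have h2 : p.1.1.length ≤ lev p.1 := by
      rcases p with ⟨⟨D, a | δ⟩, hp⟩
      · exact le_refl _
      · exact Nat.le_succ _
    rcases hon with ⟨h3, _⟩ | ⟨δ, h3, _⟩
    · rw [h3]
      exact h2
    · have h4 := h3.length_le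
      rw [List.length_cons] at h4
      omega
  exact le_trans (by exact_mod_cast h1) p.2

theorem xx_nil (hsep : SepL L i) (E : List Λ) : xx 𝕜 L N i hsep (E, []) = ch 𝕜 L N (E, []) := by
  unfold xx
  have h1 : (hsep ((E, []) : Node Λ).2).toFinset = ∅ := by
    ext δ
    rw [Set.Finite.mem_toFinset]
    simp
  rw [h1, Finset.sum_empty, sub_zero]

theorem ev_mem (D : List Λ) : ∀ (a : List Λ) (h : ((D.length : ℕ) : ℕ∞) ≤ N),
    ev 𝕜 L N ⟨(D, Sum.inl a), h⟩ ∈ Submodule.span 𝕜 (range (ff 𝕜 L N i)) := by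
  have hstep : ∀ (D : List Λ) (h : ((D.length : ℕ) : ℕ∞) ≤ N),
      ev 𝕜 L N ⟨(D, Sum.inl []), h⟩ ∈ Submodule.span 𝕜 (range (ff 𝕜 L N i)) →
      ∀ a : List Λ, ev 𝕜 L N ⟨(D, Sum.inl a), h⟩ ∈ Submodule.span 𝕜 (range (ff 𝕜 L N i)) := by
    intro D h h0 a
    induction a with
    | nil => exact h0
    | cons y b ih =>
      have h1 : ff 𝕜 L N i ⟨(D, y :: b), h⟩ = ev 𝕜 L N ⟨(D, Sum.inl (y :: b)), h⟩ -
          ev 𝕜 L N ⟨(D, Sum.inl b), h⟩ := rfl
      have h2 : ev 𝕜 L N ⟨(D, Sum.inl (y :: b)), h⟩ = ff 𝕜 L N i ⟨(D, y :: b), h⟩ +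
          ev 𝕜 L N ⟨(D, Sum.inl b), h⟩ := by
        rw [h1, sub_add_cancel]
      rw [h2]
      exact Submodule.add_mem _ (Submodule.subset_span ⟨_, rfl⟩) ih
  induction D with
  | nil =>
    intro a h
    refine hstep [] h (Submodule.subset_span ⟨⟨([], []), h⟩, rfl⟩) a
  | cons δ D ih =>
    intro a h
    refine hstep (δ :: D) h ?_ a
    have h1 : ff 𝕜 L N i ⟨(δ :: D, []), h⟩ = ev 𝕜 L N ⟨(δ :: D, Sum.inl []), h⟩ -
        ev 𝕜 L N ⟨(D, Sum.inl (lad L δ (i δ))), len_le h⟩ := rfl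
    have h2 : ev 𝕜 L N ⟨(δ :: D, Sum.inl []), h⟩ = ff 𝕜 L N i ⟨(δ :: D, []), h⟩ +
        ev 𝕜 L N ⟨(D, Sum.inl (lad L δ (i δ))), len_le h⟩ := by
      rw [h1, sub_add_cancel]
    rw [h2]
    exact Submodule.add_mem _ (Submodule.subset_span ⟨_, rfl⟩) (ih _ _)

end PBOM

open PBOM in
theorem specPBO : SpecPBO := by
  intro 𝕜 _ Λ L N i hsep
  refine ⟨fun s => xx 𝕜 L N i hsep s.1, ff 𝕜 L N i, ?_, ?_, ?_, ?_⟩
  · intro s
    rw [ff_xx, if_pos rfl]
  · intro s t hst
    rw [ff_xx, if_neg fun h => hst (Subtype.ext h)]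
  · intro s
    have h1 : ch 𝕜 L N s.1 = xx 𝕜 L N i hsep s.1 +
        ∑ δ ∈ (hsep s.1.2).toFinset, ch 𝕜 L N (δ :: s.1.1, []) := by
      unfold xx
      rw [sub_add_cancel]
    rw [h1]
    refine Submodule.add_mem _ (Submodule.subset_span ⟨s, rfl⟩)
      (Submodule.sum_mem _ fun δ _ => ?_)
    by_cases hN : (((δ :: s.1.1).length : ℕ) : ℕ∞) ≤ N
    · rw [← xx_nil hsep]
      exact Submodule.subset_span ⟨⟨(δ :: s.1.1, []), hN⟩, rfl⟩
    · rw [ch_zero _ hN]
      exact Submodule.zero_mem _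
  · intro D a h
    exact ev_mem D a h

end Pool.Agent.Lib.MP38dfb6.HS
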