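import Pool.Agent.Lib.MP_38dfb6_an.HS.SpecS

/-!
# MP_38dfb6_an, module PMB: an M-basis of characteristic one for separated ladders
-/

set_option autoImplicit false

namespace Pool.Agent.Lib.MP38dfb6.HS

open Filter Topology Set

namespace PMBM

/-- the supremum at a vector -/
noncomputable def sg {𝕜 : Type} [RCLike 𝕜] {E : Type} [NormedAddCommGroup E] [NormedSpace 𝕜 E]
    (V : Submodule 𝕜 (E →L[𝕜] 𝕜)) (g : E) : ℝ :=
  ⨆ f : {f : E →L[𝕜] 𝕜 // f ∈ V ∧ ‖f‖ ≤ 1}, ‖f.1 g‖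

theorem sg_le {𝕜 : Type} [RCLike 𝕜] {E : Type} [NormedAddCommGroup E] [NormedSpace 𝕜 E]
    (V : Submodule 𝕜 (E →L[𝕜] 𝕜)) (g : E) (v : E →L[𝕜] 𝕜) (hv : v ∈ V)
    (hv1 : ‖v‖ ≤ 1) : ‖v g‖ ≤ sg V g := by
  have hbdd : BddAbove (range fun f : {f : E →L[𝕜] 𝕜 // f ∈ V ∧ ‖f‖ ≤ 1} => ‖f.1 g‖) := by
    refine ⟨‖g‖, ?_⟩
    rintro _ ⟨f, rfl⟩
    refine (f.1.le_opNorm g).trans ?_
    exact mul_le_of_le_one_left (norm_nonneg g) f.2.2
  exact le_ciSup hbdd ⟨v, hv, hv1⟩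

theorem sg_nonneg {𝕜 : Type} [RCLike 𝕜] {E : Type} [NormedAddCommGroup E] [NormedSpace 𝕜 E]
    (V : Submodule 𝕜 (E →L[𝕜] 𝕜)) (g : E) : 0 ≤ sg V g :=
  Real.iSup_nonneg fun _ => norm_nonneg _

theorem sg_le_norm {𝕜 : Type} [RCLike 𝕜] {E : Type} [NormedAddCommGroup E] [NormedSpace 𝕜 E]
    (V : Submodule 𝕜 (E →L[𝕜] 𝕜)) (g : E) : sg V g ≤ ‖g‖ := by
  have hne : Nonempty {f : E →L[𝕜] 𝕜 // f ∈ V ∧ ‖f‖ ≤ 1} :=
    ⟨⟨0, Submodule.zero_mem _, by rw [norm_zero]; exact zero_le_one⟩⟩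
  refine ciSup_le fun f => ?_
  refine (f.1.le_opNorm g).trans ?_
  exact mul_le_of_le_one_left (norm_nonneg g) f.2.2

variable {𝕜 : Type} [RCLike 𝕜] {Λ : Type} (L : Λ → ℕ → Λ) (N : ℕ∞)

theorem ev_norm (p : PN Λ N) : ‖ev 𝕜 L N p‖ ≤ 1 :=
  LinearMap.mkContinuous_norm_le _ zero_le_one _

theorem norm_ch : ‖ch 𝕜 L N ([], [])‖ = 1 := by
  classical
  have h0 : (lev (([], Sum.inl []) : Pt Λ) : ℕ∞) ≤ N := by
    show ((0 : ℕ) : ℕ∞) ≤ N
    simp
  apply le_antisymm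
  · refine lp.norm_le_of_forall_le zero_le_one fun p => ?_
    show ‖(if On L ([], []) p.1 then (1 : 𝕜) else 0)‖ ≤ 1
    split_ifs <;> simp
  · have h1 := lp.norm_apply_le_norm ENNReal.top_ne_zero (chi 𝕜 L N ([], []))
      ⟨([], Sum.inl []), h0⟩
    have h2 : On L (([], []) : Node Λ) (([], Sum.inl []) : Pt Λ) :=
      Or.inl ⟨rfl, List.suffix_refl _⟩
    have h3 : (chi 𝕜 L N ([], []) : PN Λ N → 𝕜) ⟨([], Sum.inl []), h0⟩ = 1 := by
      show (if On L (([], []) : Node Λ) (([], Sum.inl []) : Pt Λ) then (1 : 𝕜) else 0) = 1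
      rw [if_pos h2]
    rw [h3, norm_one] at h1
    exact h1

/-- a bound at all points of the form `(D, inl a)` is a bound at all points -/
theorem bound_all (hLIM : Pool.Agent.Lib.MP38dfb6.SpecLIM) (g : ES 𝕜 L N) (C : ℝ)
    (hC : ∀ (D a : List Λ) (h : ((D.length : ℕ) : ℕ∞) ≤ N),
      ‖ev 𝕜 L N ⟨(D, Sum.inl a), h⟩ g‖ ≤ C) (p : PN Λ N) : ‖(g.1 : PN Λ N → 𝕜) p‖ ≤ C := by
  rcases p with ⟨⟨D, a | δ⟩, h⟩
  · exact hC D a h
  · have h' : ((D.length : ℕ) : ℕ∞) ≤ N := by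
      refine le_trans ?_ h
      show ((D.length : ℕ) : ℕ∞) ≤ ((D.length + 1 : ℕ) : ℕ∞)
      exact_mod_cast Nat.le_succ _
    have h1 := (hLIM 𝕜 Λ L N g D δ h h').norm
    exact le_of_tendsto h1 (Eventually.of_forall fun i => hC _ _ _)

end PMBM

open PMBM in
/-- **PMB.** If the ladders are separated then `ES 𝕜 L N` has an M-basis of characteristic `1`. -/
theorem specPMB (hPBO : SpecPBO) (hGEN : Pool.Agent.Lib.MP38dfb6.SpecGEN)
    (hLIM : Pool.Agent.Lib.MP38dfb6.SpecLIM) : SpecPMB := by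
  intro 𝕜 _ Λ L N i hi
  obtain ⟨x, f, h1, h0, hch, hev⟩ := hPBO 𝕜 Λ L N i hi
  refine ⟨NN Λ N, x, f, ⟨h1, h0, ?_, ?_⟩, ?_⟩
  · -- the vectors are fundamental
    rw [eq_top_iff, ← (hGEN 𝕜 Λ L N).2]
    apply Submodule.topologicalClosure_mono
    rw [Submodule.span_le]
    rintro _ ⟨s, rfl⟩
    exact hch s
  · -- the functionals are total
    intro y hy
    have hspan : ∀ v ∈ Submodule.span 𝕜 (range f), v y = 0 := by
      intro v hv
      induction hv using Submodule.span_induction with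
      | mem v hv =>
        obtain ⟨j, rfl⟩ := hv
        exact hy j
      | zero => rfl
      | add v w _ _ hv hw =>
        show v y + w y = 0
        rw [hv, hw, add_zero]
      | smul c v _ hv =>
        show c • v y = 0
        rw [hv, smul_zero]
    have hb := bound_all (𝕜 := 𝕜) L N hLIM y 0 (fun D a h => by
      rw [hspan _ (hev D a h), norm_zero])
    apply Subtype.ext
    apply lp.ext
    funext p
    exact norm_le_zero_iff.1 (hb p)
  · -- the characteristic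
    set V := cspan 𝕜 f with hV
    have hsub : ∀ v ∈ Submodule.span 𝕜 (range f), v ∈ V := fun v hv =>
      Submodule.le_topologicalClosure _ hv
    have hne : Nonempty {x : ES 𝕜 L N // ‖x‖ = 1} := ⟨⟨_, norm_ch L N⟩⟩
    apply le_antisymm
    · have hbdd : BddBelow (range fun x : {x : ES 𝕜 L N // ‖x‖ = 1} => sg V x.1) := by
        refine ⟨0, ?_⟩
        rintro _ ⟨x, rfl⟩
        exact sg_nonneg V x.1
      have h2 := ciInf_le hbdd ⟨ch 𝕜 L N ([], []), norm_ch L N⟩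
      have h3 := sg_le_norm V (ch 𝕜 L N ([], []))
      rw [norm_ch] at h3
      exact h2.trans h3
    · refine le_ciInf fun g => ?_
      obtain ⟨g, hg⟩ := g
      show 1 ≤ sg V g
      have hall := bound_all (𝕜 := 𝕜) L N hLIM g (sg V g) (fun D a h =>
        sg_le V g _ (hsub _ (hev D a h)) (ev_norm L N _))
      have hfin : ‖g‖ ≤ sg V g := lp.norm_le_of_forall_le (sg_nonneg V g) hall
      rw [hg] at hfin
      exact hfin

end Pool.Agent.Lib.MP38dfb6.HS
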