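import Pool.Agent.Lib.MP_38dfb6_an.HS.Spec

/-!
# MP_38dfb6_an, module HS.PRJ: the projections
-/

set_option autoImplicit false

namespace Pool.Agent.Lib.MP38dfb6.HS

open Filter Topology Set MeasureTheory

universe u v

namespace PRJM

variable {𝕜 : Type} [RCLike 𝕜] {X : Type u} [NormedAddCommGroup X] [NormedSpace 𝕜 X] {ι : Type v}

theorem zero_on {x : ι → X} (ψ : X →L[𝕜] 𝕜) {T : Set ι} (h : ∀ i ∈ T, ψ (x i) = 0) {w : X}
    (hw : w ∈ XS (𝕜 := 𝕜) x T) : ψ w = 0 := by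
  have h1 : XS (𝕜 := 𝕜) x T ≤ LinearMap.ker (ψ : X →ₗ[𝕜] 𝕜) := by
    refine Submodule.topologicalClosure_minimal _ (Submodule.span_le.mpr ?_) ?_
    · rintro _ ⟨i, hi, rfl⟩
      exact h i hi
    · exact ContinuousLinearMap.isClosed_ker ψ
  exact h1 hw

theorem annih {x : ι → X} {f : ι → (X →L[𝕜] 𝕜)} (hb : BO x f) {S T : Set ι} (hd : Disjoint S T)
    {φ : X →L[𝕜] 𝕜} (hφ : φ ∈ FS f S) {w : X} (hw : w ∈ XS (𝕜 := 𝕜) x T) : φ w = 0 := by
  unfold FS at hφ
  induction hφ using Submodule.span_induction with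
  | mem φ h =>
    obtain ⟨i, hi, rfl⟩ := h
    refine zero_on (f i) (T := T) ?_ hw
    intro j hj
    exact hb.zero i j fun hij => Set.disjoint_left.mp hd hi (hij ▸ hj)
  | zero => rfl
  | add φ φ' _ _ h1 h2 =>
    rw [add_apply, h1, h2, add_zero]
  | smul a φ _ h1 =>
    rw [smul_apply, h1, smul_zero]

theorem xs_mono {x : ι → X} {S T : Set ι} (h : S ⊆ T) : XS (𝕜 := 𝕜) x S ≤ XS (𝕜 := 𝕜) x T :=
  Submodule.topologicalClosure_mono (Submodule.span_mono (Set.image_mono h))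

theorem xs_closed (x : ι → X) (S : Set ι) : IsClosed (XS (𝕜 := 𝕜) x S : Set X) :=
  Submodule.isClosed_topologicalClosure _

theorem mem_xs (x : ι → X) {S : Set ι} {i : ι} (hi : i ∈ S) : x i ∈ XS (𝕜 := 𝕜) x S :=
  Submodule.le_topologicalClosure _ (Submodule.subset_span ⟨i, hi, rfl⟩)

theorem lower {x : ι → X} {f : ι → (X →L[𝕜] 𝕜)} {c : ℝ} {A : Set ι} {E : Submodule 𝕜 X}
    {S : Set ι} (hb : BO x f) (hG : Gd x f c A E S) {v : X} (hv : v ∈ XS (𝕜 := 𝕜) x S) {w : X}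
    (hw : w ∈ XS (𝕜 := 𝕜) x (A \ S)) : c * ‖v‖ ≤ ‖v + w‖ := by
  refine le_of_forall_pos_le_add fun ε hε => ?_
  obtain ⟨φ, hφ, hφ1, hφ2⟩ := hG.nm v hv ε hε
  have h1 : φ w = 0 := annih hb Set.disjoint_sdiff_right hφ hw
  have h2 : v + w ∈ XS (𝕜 := 𝕜) x A :=
    Submodule.add_mem _ (xs_mono hG.sub hv) (xs_mono Set.sdiff_subset hw)
  have h3 := hφ1 (v + w) h2
  rw [map_add, h1, add_zero] at h3
  linarith

end PRJM

open PRJM in
theorem specPRJ : SpecPRJ.{u, v} := by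
  intro 𝕜 _ X _ _ _ ι x f c A E S hb hc hG
  refine ⟨fun v hv w hw => lower hb hG hv hw, ?_, ?_⟩
  · intro T hT u hu
    -- the sum is closed
    have hcl : IsClosed ((XS (𝕜 := 𝕜) x S ⊔ XS (𝕜 := 𝕜) x T : Submodule 𝕜 X) : Set X) := by
      refine isClosed_of_closure_subset fun u hu => ?_
      obtain ⟨m, hm, hmu⟩ := mem_closure_iff_seq_limit.mp hu
      have h1 : ∀ n, ∃ v ∈ XS (𝕜 := 𝕜) x S, ∃ w ∈ XS (𝕜 := 𝕜) x T, v + w = m n := fun n =>
        Submodule.mem_sup.mp (hm n)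
      choose p hp q hq hpq using h1
      have h2 : ∀ a b, c * dist (p a) (p b) ≤ dist (m a) (m b) := by
        intro a b
        have h3 := lower hb hG (Submodule.sub_mem _ (hp a) (hp b))
          (xs_mono hT (Submodule.sub_mem _ (hq a) (hq b)))
        have h4 : p a - p b + (q a - q b) = m a - m b := by
          rw [← hpq a, ← hpq b]
          abel
        rw [h4] at h3
        rw [dist_eq_norm, dist_eq_norm]
        exact h3
      have h5 : CauchySeq p := by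
        rw [Metric.cauchySeq_iff]
        intro ε hε
        obtain ⟨N, hN⟩ := Metric.cauchySeq_iff.mp hmu.cauchySeq (c * ε) (by positivity)
        refine ⟨N, fun a ha b hb' => ?_⟩
        have h6 := hN a ha b hb'
        exact lt_of_mul_lt_mul_left ((h2 a b).trans_lt h6) hc.le
      obtain ⟨v, hv⟩ := cauchySeq_tendsto_of_complete h5
      have hvS : v ∈ XS (𝕜 := 𝕜) x S := (xs_closed x S).mem_of_tendsto hv
        (Eventually.of_forall fun n => hp n)
      have hq' : Tendsto q atTop (𝓝 (u - v)) := by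
        have h7 : q = fun n => m n - p n := by
          funext n
          rw [← hpq n]
          abel
        rw [h7]
        exact hmu.sub hv
      have hwT : u - v ∈ XS (𝕜 := 𝕜) x T := (xs_closed x T).mem_of_tendsto hq'
        (Eventually.of_forall fun n => hq n)
      exact Submodule.mem_sup.mpr ⟨v, hvS, u - v, hwT, by abel⟩
    have hle : XS (𝕜 := 𝕜) x (S ∪ T) ≤ XS (𝕜 := 𝕜) x S ⊔ XS (𝕜 := 𝕜) x T := by
      refine Submodule.topologicalClosure_minimal _ (Submodule.span_le.mpr ?_) hcl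
      rintro _ ⟨i, hi, rfl⟩
      rcases hi with hi | hi
      · exact (le_sup_left : XS (𝕜 := 𝕜) x S ≤ _) (mem_xs x hi)
      · exact (le_sup_right : XS (𝕜 := 𝕜) x T ≤ _) (mem_xs x hi)
    obtain ⟨v, hv, w, hw, h⟩ := Submodule.mem_sup.mp (hle hu)
    exact ⟨v, hv, w, hw, h.symm⟩
  · intro e he v hv w hw hevw
    by_contra hvE
    obtain ⟨ψ, h1, h2, h3⟩ := hG.sep v hv hvE
    have h4 : ψ w = 0 := zero_on ψ (T := A \ S) (fun i hi => h2 i hi.1 hi.2) hw
    have h5 := h1 e he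
    rw [hevw, map_add, h4, add_zero] at h5
    exact h3 h5

end Pool.Agent.Lib.MP38dfb6.HS
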