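import Pool.Agent.Lib.MP_38dfb6_an.HS.SpecQ

/-! # MP_38dfb6_an, HS, module QCH: an M-basis of characteristic one of `C(A(Γ)^ℕ)` -/

set_option autoImplicit false

namespace Pool.Agent.Lib.MP38dfb6.HS

open Filter Topology Set MeasureTheory

theorem specQCH (hQCL : SpecQCL) (hQMB : SpecQMB) (hQSW : SpecQSW) (hQDN : SpecQDN) : SpecQCH := by
  intro 𝕜 _ Γ
  obtain ⟨w, hw⟩ := hQCL 𝕜 Γ
  obtain ⟨f, h1, h0, hs⟩ := hQMB 𝕜 Γ w hw
  refine ⟨FP Γ, w, f, ⟨h1, h0, hQSW 𝕜 Γ w hw, ?_⟩, ?_⟩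
  · intro y hy
    have hspan : ∀ φ ∈ Submodule.span 𝕜 (range f), φ y = 0 := by
      intro φ hφ
      induction hφ using Submodule.span_induction with
      | mem φ h => obtain ⟨i, rfl⟩ := h; exact hy i
      | zero => rfl
      | add a b _ _ ha hb => rw [ContinuousLinearMap.add_apply, ha, hb, add_zero]
      | smul c a _ ha => rw [ContinuousLinearMap.smul_apply, ha, smul_zero]
    have h := hQDN 𝕜 Γ y 0 le_rfl (fun σ => by
      obtain ⟨φ, hφ, he⟩ := hs σ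
      rw [← he y, hspan φ hφ, norm_zero])
    exact norm_le_zero_iff.1 h
  · have key : ∀ x : {x : C(AN Γ, 𝕜) // ‖x‖ = 1},
        (⨆ g : {g : C(AN Γ, 𝕜) →L[𝕜] 𝕜 // g ∈ cspan 𝕜 f ∧ ‖g‖ ≤ 1}, ‖g.1 x.1‖) = 1 := by
      rintro ⟨x, hx⟩
      have hle : ∀ g : {g : C(AN Γ, 𝕜) →L[𝕜] 𝕜 // g ∈ cspan 𝕜 f ∧ ‖g‖ ≤ 1}, ‖g.1 x‖ ≤ 1 := by
        intro g
        refine (g.1.le_opNorm x).trans ?_
        rw [hx, mul_one]
        exact g.2.2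
      have hbdd : BddAbove (range fun g : {g : C(AN Γ, 𝕜) →L[𝕜] 𝕜 // g ∈ cspan 𝕜 f ∧ ‖g‖ ≤ 1} =>
          ‖g.1 x‖) := ⟨1, by rintro _ ⟨g, rfl⟩; exact hle g⟩
      have hne : Nonempty {g : C(AN Γ, 𝕜) →L[𝕜] 𝕜 // g ∈ cspan 𝕜 f ∧ ‖g‖ ≤ 1} :=
        ⟨⟨0, Submodule.zero_mem _, by simp⟩⟩
      apply le_antisymm
      · exact ciSup_le hle
      · have h := hQDN 𝕜 Γ x (⨆ g : {g : C(AN Γ, 𝕜) →L[𝕜] 𝕜 // g ∈ cspan 𝕜 f ∧ ‖g‖ ≤ 1}, ‖g.1 x‖)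
          (Real.iSup_nonneg fun g => norm_nonneg _) (fun σ => by
            obtain ⟨φ, hφ, he⟩ := hs σ
            have hφ1 : ‖φ‖ ≤ 1 := φ.opNorm_le_bound zero_le_one (fun g => by
              rw [he g, one_mul]; exact g.norm_coe_le_norm σ.1)
            have h2 := le_ciSup hbdd ⟨φ, Submodule.le_topologicalClosure _ hφ, hφ1⟩
            rw [← he x]
            exact h2)
        rw [hx] at h
        exact h
    unfold charac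
    rw [iInf_congr key]
    have : Nonempty {x : C(AN Γ, 𝕜) // ‖x‖ = 1} := ⟨⟨1, norm_one⟩⟩
    exact ciInf_const

end Pool.Agent.Lib.MP38dfb6.HS
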