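import Pool.Agent.Lib.MP_38dfb6_an.HS.SpecQ

/-!
# MP_38dfb6_an / HS: module `QCL` (the functions `w σ`)
-/

set_option autoImplicit false

namespace Pool.Agent.Lib.MP38dfb6.HS

open Filter Topology Set MeasureTheory

namespace QCLM

theorem clopen_single {Γ : Type} (a : OnePoint (Dis Γ)) (ha : a ≠ OnePoint.infty) :
    IsClopen ({a} : Set (OnePoint (Dis Γ))) := by
  induction a using OnePoint.rec with
  | infty => exact absurd rfl ha
  | coe γ =>
    refine ⟨isClosed_singleton, ?_⟩
    have := OnePoint.isOpenEmbedding_coe.isOpenMap ({γ} : Set (Dis Γ)) (isOpen_discrete _)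
    rwa [image_singleton] at this

theorem clopen_Ext {Γ : Type} (σ : FP Γ) : IsClopen {p : AN Γ | Ext σ.1 p} := by
  have h1 : {p : AN Γ | Ext σ.1 p} =
      ⋂ n ∈ {n | σ.1 n ≠ OnePoint.infty}, {p : AN Γ | p n ∈ ({σ.1 n} : Set (OnePoint (Dis Γ)))} := by
    ext p
    simp [Ext]
  rw [h1]
  refine ⟨isClosed_biInter fun n hn => ?_, σ.2.isOpen_biInter fun n hn => ?_⟩
  · exact (clopen_single _ hn).1.preimage (continuous_apply n)
  · exact (clopen_single _ hn).2.preimage (continuous_apply n)

end QCLM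

theorem specQCL : SpecQCL := by
  classical
  intro 𝕜 _ Γ
  refine ⟨fun σ => ⟨fun p => if Ext σ.1 p then 1 else 0, ?_⟩, fun σ p => ?_⟩
  · refine Continuous.if ?_ continuous_const continuous_const
    intro p hp
    rw [(QCLM.clopen_Ext σ).frontier_eq] at hp
    exact absurd hp (notMem_empty _)
  · change (if Ext σ.1 p then (1 : 𝕜) else 0) = _
    congr

end Pool.Agent.Lib.MP38dfb6.HS
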