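import Pool.Agent.Lib.MP_38dfb6_an.HS.SpecQ

/-!
# QDN
-/

set_option autoImplicit false

namespace Pool.Agent.Lib.MP38dfb6.HS

open Filter Topology Set MeasureTheory

namespace QDNM

/-- the point `p` at the coordinates `< m`, `∞` elsewhere -/
noncomputable def cut {Γ : Type} (p : AN Γ) (m : ℕ) : AN Γ :=
  fun n => if n < m then p n else OnePoint.infty

theorem cut_finite {Γ : Type} (p : AN Γ) (m : ℕ) :
    {n | cut p m n ≠ OnePoint.infty}.Finite := by
  refine (Set.finite_lt_nat m).subset ?_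
  intro n hn
  by_contra h
  exact hn (if_neg h)

theorem cut_tendsto {Γ : Type} (p : AN Γ) : Tendsto (cut p) atTop (𝓝 p) := by
  rw [tendsto_pi_nhds]
  intro n
  refine tendsto_const_nhds.congr' ?_
  filter_upwards [eventually_gt_atTop n] with m hm
  exact (if_pos hm).symm

end QDNM

theorem specQDN : SpecQDN := by
  intro 𝕜 _ Γ g C hC h
  rw [ContinuousMap.norm_le _ hC]
  intro p
  have h1 : Tendsto (fun m => ‖g (QDNM.cut p m)‖) atTop (𝓝 ‖g p‖) :=
    ((g.continuous.tendsto p).comp (QDNM.cut_tendsto p)).norm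
  exact le_of_tendsto h1 (Eventually.of_forall fun m => h ⟨QDNM.cut p m, QDNM.cut_finite p m⟩)

end Pool.Agent.Lib.MP38dfb6.HS

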