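import Pool.Agent.Lib.MP_38dfb6_an.HS.SpecQ

/-!
# MP_38dfb6_an, module QEM: `K` embeds in `A(nodes)^ℕ` (helper64)
-/

set_option autoImplicit false

namespace Pool.Agent.Lib.MP38dfb6.HS

open Filter Topology Set MeasureTheory

universe u v w

namespace QEMM

/-- the class of a node -/
def cls {Λ : Type} (s : Node Λ) : ℕ := Nat.pair s.1.length s.2.length

lemma uniq (hUNQ : Pool.Agent.Lib.MP38dfb6.SpecUNQ) {Λ : Type} (L : Λ → ℕ → Λ) (N : ℕ∞)
    (k : KK L N) (s s' : Node Λ) (hc : cls s = cls s') (h1 : k.1 s = true) (h2 : k.1 s' = true) :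
    s = s' := by
  by_contra hne
  have hcl : IsClosed {x : Node Λ → Bool | ¬ (x s = true ∧ x s' = true)} := by
    have ho : IsOpen {x : Node Λ → Bool | x s = true ∧ x s' = true} := by
      have e1 : IsOpen {x : Node Λ → Bool | x s = true} := by
        have := (isOpen_discrete ({true} : Set Bool)).preimage (continuous_apply (A := fun _ : Node Λ => Bool) s)
        exact this
      have e2 : IsOpen {x : Node Λ → Bool | x s' = true} := by
        have := (isOpen_discrete ({true} : Set Bool)).preimage (continuous_apply (A := fun _ : Node Λ => Bool) s')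
        exact this
      exact e1.inter e2
    exact ho.isClosed_compl
  have hsub : KK L N ⊆ {x : Node Λ → Bool | ¬ (x s = true ∧ x s' = true)} := by
    apply closure_minimal _ hcl
    rintro _ ⟨p, rfl⟩ ⟨ha, hb⟩
    have ha' : On L s p.1 := by
      unfold pth at ha
      exact @of_decide_eq_true _ (Classical.propDecidable _) ha
    have hb' : On L s' p.1 := by
      unfold pth at hb
      exact @of_decide_eq_true _ (Classical.propDecidable _) hb
    unfold cls at hc
    have h3 := Nat.pair_eq_pair.1 hc
    exact hne (hUNQ Λ L s s' p.1 ha' hb' h3.1 h3.2)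
  exact hsub k.2 ⟨h1, h2⟩

open Classical in
/-- the coordinate of class `n` -/
noncomputable def jj {Λ : Type} (L : Λ → ℕ → Λ) (N : ℕ∞) (k : KK L N) (n : ℕ) :
    OnePoint (Dis (Node Λ)) :=
  if h : ∃ s : Node Λ, k.1 s = true ∧ cls s = n then ((⟨h.choose⟩ : Dis (Node Λ)) : OnePoint _)
  else OnePoint.infty

lemma jj_iff (hUNQ : Pool.Agent.Lib.MP38dfb6.SpecUNQ) {Λ : Type} (L : Λ → ℕ → Λ) (N : ℕ∞)
    (k : KK L N) (n : ℕ) (a : Dis (Node Λ)) :
    jj L N k n = (a : OnePoint (Dis (Node Λ))) ↔ k.1 a.val = true ∧ cls a.val = n := by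
  unfold jj
  split_ifs with h
  · constructor
    · intro e
      have e1 := OnePoint.coe_injective e
      have e2 : h.choose = a.val := congrArg Dis.val e1
      have h3 := h.choose_spec
      rw [e2] at h3
      exact h3
    · rintro ⟨h1, h2⟩
      have h3 := h.choose_spec
      have e : h.choose = a.val := uniq hUNQ L N k _ _ (h3.2.trans h2.symm) h3.1 h1
      have e2 : (⟨h.choose⟩ : Dis (Node Λ)) = a := by
        rw [e]
      rw [e2]
  · constructor
    · intro e
      exact absurd e (OnePoint.infty_ne_coe a)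
    · intro h1
      exact absurd ⟨a.val, h1⟩ h

lemma cont_coord {Λ : Type} (L : Λ → ℕ → Λ) (N : ℕ∞) (s : Node Λ) :
    Continuous (fun k : KK L N => k.1 s) := (continuous_apply s).comp continuous_subtype_val

lemma jj_cont (hUNQ : Pool.Agent.Lib.MP38dfb6.SpecUNQ) {Λ : Type} (L : Λ → ℕ → Λ) (N : ℕ∞)
    (n : ℕ) : Continuous (fun k : KK L N => jj L N k n) := by
  have hbas : ∀ a : Dis (Node Λ), IsOpen {k : KK L N | k.1 a.val = true ∧ cls a.val = n} := by
    intro a
    have e1 : IsOpen {k : KK L N | k.1 a.val = true} :=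
      (isOpen_discrete ({true} : Set Bool)).preimage (cont_coord L N a.val)
    by_cases h : cls a.val = n
    · have : {k : KK L N | k.1 a.val = true ∧ cls a.val = n} = {k : KK L N | k.1 a.val = true} := by
        ext k
        simp [h]
      rw [this]
      exact e1
    · have : {k : KK L N | k.1 a.val = true ∧ cls a.val = n} = ∅ := by
        ext k
        simp [h]
      rw [this]
      exact isOpen_empty
  have hbas2 : ∀ a : Dis (Node Λ), IsOpen {k : KK L N | ¬ (k.1 a.val = true ∧ cls a.val = n)} := by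
    intro a
    have e1 : IsOpen {k : KK L N | k.1 a.val = false} :=
      (isOpen_discrete ({false} : Set Bool)).preimage (cont_coord L N a.val)
    by_cases h : cls a.val = n
    · have : {k : KK L N | ¬ (k.1 a.val = true ∧ cls a.val = n)} =
          {k : KK L N | k.1 a.val = false} := by
        ext k
        simp [h]
      rw [this]
      exact e1
    · have : {k : KK L N | ¬ (k.1 a.val = true ∧ cls a.val = n)} = Set.univ := by
        ext k
        simp [h]
      rw [this]
      exact isOpen_univ
  rw [continuous_def]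
  intro U hU
  by_cases hinf : OnePoint.infty ∈ U
  · have hcpt := ((OnePoint.isOpen_iff_of_mem hinf).1 hU).2
    have hfin : (((↑) : Dis (Node Λ) → OnePoint (Dis (Node Λ))) ⁻¹' U)ᶜ.Finite :=
      isCompact_iff_finite.1 hcpt
    have e : (fun k : KK L N => jj L N k n) ⁻¹' U =
        ⋂ a ∈ (((↑) : Dis (Node Λ) → OnePoint (Dis (Node Λ))) ⁻¹' U)ᶜ,
          {k : KK L N | ¬ (k.1 a.val = true ∧ cls a.val = n)} := by
      ext k
      simp only [Set.mem_preimage, Set.mem_iInter, Set.mem_compl_iff, Set.mem_setOf_eq]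
      constructor
      · intro hk a ha hka
        have := (jj_iff hUNQ L N k n a).2 hka
        rw [this] at hk
        exact ha hk
      · intro hk
        by_contra hno
        have hne : jj L N k n ≠ OnePoint.infty := by
          intro h
          rw [h] at hno
          exact hno hinf
        obtain ⟨a, ha⟩ := OnePoint.ne_infty_iff_exists.1 hne
        have ha' : jj L N k n = (a : OnePoint (Dis (Node Λ))) := ha.symm
        apply hk a
        · rw [← ha']
          exact hno
        · exact (jj_iff hUNQ L N k n a).1 ha'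
    rw [e]
    exact hfin.isOpen_biInter (fun a _ => hbas2 a)
  · have e : (fun k : KK L N => jj L N k n) ⁻¹' U =
        ⋃ a ∈ (((↑) : Dis (Node Λ) → OnePoint (Dis (Node Λ))) ⁻¹' U),
          {k : KK L N | k.1 a.val = true ∧ cls a.val = n} := by
      ext k
      simp only [Set.mem_preimage, Set.mem_iUnion, Set.mem_setOf_eq, exists_prop]
      constructor
      · intro hk
        have hne : jj L N k n ≠ OnePoint.infty := by
          intro h
          rw [h] at hk
          exact hinf hk
        obtain ⟨a, ha⟩ := OnePoint.ne_infty_iff_exists.1 hne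
        have ha' : jj L N k n = (a : OnePoint (Dis (Node Λ))) := ha.symm
        refine ⟨a, ?_, (jj_iff hUNQ L N k n a).1 ha'⟩
        rw [← ha']
        exact hk
      · rintro ⟨a, ha, hka⟩
        rw [(jj_iff hUNQ L N k n a).2 hka]
        exact ha
    rw [e]
    exact isOpen_biUnion (fun a _ => hbas a)

end QEMM

theorem specQEM (hUNQ : Pool.Agent.Lib.MP38dfb6.SpecUNQ) : SpecQEM := by
  intro Λ L
  refine ⟨⟨fun k n => QEMM.jj L ⊤ k n, continuous_pi fun n => QEMM.jj_cont hUNQ L ⊤ n⟩, ?_⟩
  intro k k' hkk
  have h1 : ∀ n, QEMM.jj L ⊤ k n = QEMM.jj L ⊤ k' n := fun n => congrFun hkk n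
  apply Subtype.ext
  funext s
  rw [Bool.eq_iff_iff]
  have a1 := QEMM.jj_iff hUNQ L ⊤ k (QEMM.cls s) ⟨s⟩
  have a2 := QEMM.jj_iff hUNQ L ⊤ k' (QEMM.cls s) ⟨s⟩
  rw [h1] at a1
  constructor
  · intro h
    exact (a2.1 (a1.2 ⟨h, rfl⟩)).1
  · intro h
    exact (a1.1 (a2.2 ⟨h, rfl⟩)).1

end Pool.Agent.Lib.MP38dfb6.HS
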