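import Pool.Agent.Lib.MP_38dfb6_an.HS.SpecQ

/-!
# Module QHG: `C(A(Γ)^ℕ)` is Hilbert generated
-/

set_option autoImplicit false

namespace Pool.Agent.Lib.MP38dfb6.HS

open Filter Topology Set MeasureTheory

namespace QHGM

variable {𝕜 : Type} [RCLike 𝕜] {Γ : Type}

/-- the support -/
noncomputable def supp (σ : FP Γ) : Finset ℕ := σ.2.toFinset

theorem mem_supp (σ : FP Γ) (n : ℕ) : n ∈ supp σ ↔ σ.1 n ≠ OnePoint.infty := by
  unfold supp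
  rw [Set.Finite.mem_toFinset]
  rfl

/-- the code of the support -/
noncomputable def code (σ : FP Γ) : ℕ := Encodable.encode (supp σ)

theorem ext_eq {σ τ : FP Γ} {p : AN Γ} (h1 : Ext σ.1 p) (h2 : Ext τ.1 p) (h : code σ = code τ) :
    σ = τ := by
  have h3 : supp σ = supp τ := Encodable.encode_injective h
  apply Subtype.ext
  funext n
  by_cases hn : σ.1 n = OnePoint.infty
  · have h4 : τ.1 n = OnePoint.infty := by
      by_contra hc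
      have h5 := (mem_supp τ n).2 hc
      rw [← h3] at h5
      exact (mem_supp σ n).1 h5 hn
    rw [hn, h4]
  · have h4 := (mem_supp σ n).2 hn
    rw [h3] at h4
    rw [← h1 n hn, h2 n ((mem_supp τ n).1 h4)]

theorem sum_le (p : AN Γ) (A : Finset (FP Γ)) (hA : ∀ σ ∈ A, Ext σ.1 p) :
    ∑ σ ∈ A, ((1 / 2 : ℝ) ^ (code σ + 1)) ^ 2 ≤ 1 := by
  classical
  have h1 : ∑ k ∈ A.image code, (1 / 2 : ℝ) ^ (k + 1) = ∑ σ ∈ A, (1 / 2 : ℝ) ^ (code σ + 1) := by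
    rw [Finset.sum_image]
    intro σ hσ τ hτ h
    exact ext_eq (hA σ hσ) (hA τ hτ) h
  have hs : Summable fun n : ℕ => (1 / 2 : ℝ) ^ n :=
    summable_geometric_of_lt_one (by norm_num) (by norm_num)
  have h2 : ∑ k ∈ A.image code, (1 / 2 : ℝ) ^ k ≤ 2 :=
    (hs.sum_le_tsum _ fun i _ => by positivity).trans_eq tsum_geometric_two
  have h3 : ∑ k ∈ A.image code, (1 / 2 : ℝ) ^ (k + 1) ≤ 1 := by
    have h4 : ∑ k ∈ A.image code, (1 / 2 : ℝ) ^ (k + 1) =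
        (1 / 2) * ∑ k ∈ A.image code, (1 / 2 : ℝ) ^ k := by
      rw [Finset.mul_sum]
      exact Finset.sum_congr rfl fun k _ => by rw [pow_succ]; ring
    rw [h4]
    linarith
  rw [h1] at h3
  refine le_trans (Finset.sum_le_sum fun σ _ => ?_) h3
  have h5 : (1 / 2 : ℝ) ^ (code σ + 1) ≤ 1 := pow_le_one₀ (by norm_num) (by norm_num)
  have h6 : 0 ≤ (1 / 2 : ℝ) ^ (code σ + 1) := by positivity
  nlinarith

/-- the weight -/
noncomputable def a (𝕜 : Type) [RCLike 𝕜] (σ : FP Γ) : 𝕜 := (1 / 2 : 𝕜) ^ (code σ + 1)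

theorem norm_a (σ : FP Γ) : ‖a 𝕜 σ‖ = (1 / 2 : ℝ) ^ (code σ + 1) := by
  unfold a
  rw [norm_pow, norm_div, norm_one, RCLike.norm_ofNat]

theorem a_ne (σ : FP Γ) : a 𝕜 σ ≠ 0 := pow_ne_zero _ (one_div_ne_zero two_ne_zero)

theorem bound (w : FP Γ → C(AN Γ, 𝕜)) (hw : IsW 𝕜 w) (c : FP Γ → 𝕜) (A : Finset (FP Γ)) :
    ‖∑ σ ∈ A, (a 𝕜 σ * c σ) • w σ‖ ^ 2 ≤ ∑ σ ∈ A, ‖c σ‖ ^ 2 := by
  classical
  have hS : 0 ≤ ∑ σ ∈ A, ‖c σ‖ ^ 2 := Finset.sum_nonneg fun σ _ => sq_nonneg _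
  have key : ‖∑ σ ∈ A, (a 𝕜 σ * c σ) • w σ‖ ≤ √(∑ σ ∈ A, ‖c σ‖ ^ 2) := by
    rw [ContinuousMap.norm_le _ (Real.sqrt_nonneg _)]
    intro p
    have h1 : (∑ σ ∈ A, (a 𝕜 σ * c σ) • w σ) p = ∑ σ ∈ A with Ext σ.1 p, a 𝕜 σ * c σ := by
      rw [ContinuousMap.sum_apply, Finset.sum_filter]
      refine Finset.sum_congr rfl fun σ _ => ?_
      rw [ContinuousMap.smul_apply, hw σ p]
      split_ifs
      · rw [smul_eq_mul, mul_one]
      · rw [smul_zero]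
    rw [h1]
    have h2 : ‖∑ σ ∈ A with Ext σ.1 p, a 𝕜 σ * c σ‖ ≤
        ∑ σ ∈ A with Ext σ.1 p, (1 / 2 : ℝ) ^ (code σ + 1) * ‖c σ‖ := by
      refine (norm_sum_le _ _).trans (Finset.sum_le_sum fun σ _ => ?_)
      rw [norm_mul, norm_a]
    have h3 := Finset.sum_mul_sq_le_sq_mul_sq (A.filter fun σ => Ext σ.1 p)
      (fun σ => (1 / 2 : ℝ) ^ (code σ + 1)) (fun σ => ‖c σ‖)
    have h4 := sum_le p (A.filter fun σ => Ext σ.1 p) (fun σ hσ => (Finset.mem_filter.1 hσ).2)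
    have h5 : ∑ σ ∈ A with Ext σ.1 p, ‖c σ‖ ^ 2 ≤ ∑ σ ∈ A, ‖c σ‖ ^ 2 :=
      Finset.sum_le_sum_of_subset_of_nonneg (Finset.filter_subset _ _) fun σ _ _ => sq_nonneg _
    have h6 : 0 ≤ ∑ σ ∈ A with Ext σ.1 p, ‖c σ‖ ^ 2 := Finset.sum_nonneg fun σ _ => sq_nonneg _
    refine h2.trans (Real.le_sqrt_of_sq_le (h3.trans ?_))
    nlinarith
  calc ‖∑ σ ∈ A, (a 𝕜 σ * c σ) • w σ‖ ^ 2 ≤ √(∑ σ ∈ A, ‖c σ‖ ^ 2) ^ 2 :=
        pow_le_pow_left₀ (norm_nonneg _) key 2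
    _ = ∑ σ ∈ A, ‖c σ‖ ^ 2 := Real.sq_sqrt hS

theorem summ (w : FP Γ → C(AN Γ, 𝕜)) (hw : IsW 𝕜 w) (c : lp (fun _ : FP Γ => 𝕜) 2) :
    Summable fun σ => (a 𝕜 σ * c σ) • w σ := by
  have h1 : Summable fun σ => ‖c σ‖ ^ 2 := by
    have := (lp.memℓp c).summable (by norm_num)
    simpa using this
  rw [summable_iff_vanishing_norm]
  intro ε hε
  obtain ⟨s, hs⟩ := summable_iff_vanishing_norm.1 h1 (ε ^ 2) (by positivity)
  refine ⟨s, fun t ht => ?_⟩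
  have h2 := hs t ht
  rw [Real.norm_of_nonneg (Finset.sum_nonneg fun σ _ => sq_nonneg _)] at h2
  exact lt_of_pow_lt_pow_left₀ 2 hε.le ((bound w hw c t).trans_lt h2)

/-- the operator -/
noncomputable def T (w : FP Γ → C(AN Γ, 𝕜)) (hw : IsW 𝕜 w) :
    lp (fun _ : FP Γ => 𝕜) 2 →L[𝕜] C(AN Γ, 𝕜) :=
  LinearMap.mkContinuous
    { toFun := fun c => ∑' σ, (a 𝕜 σ * c σ) • w σ
      map_add' := fun c d => by
        rw [← (summ w hw c).tsum_add (summ w hw d)]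
        refine tsum_congr fun σ => ?_
        rw [lp.coeFn_add, Pi.add_apply, mul_add, add_smul]
      map_smul' := fun b c => by
        rw [RingHom.id_apply, ← (summ w hw c).tsum_const_smul]
        refine tsum_congr fun σ => ?_
        rw [lp.coeFn_smul, Pi.smul_apply, smul_smul, smul_eq_mul]
        congr 1
        ring } 1 (by
    intro c
    rw [one_mul]
    refine le_of_tendsto (summ w hw c).hasSum.norm (Eventually.of_forall fun A => ?_)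
    have h1 := bound w hw c A
    have h2 : ∑ σ ∈ A, ‖c σ‖ ^ 2 ≤ ‖c‖ ^ 2 := by
      have := lp.sum_rpow_le_norm_rpow (by norm_num) c A
      simpa using this
    exact (pow_le_pow_iff_left₀ (norm_nonneg _) (norm_nonneg _) two_ne_zero).1 (h1.trans h2))

open Classical in
theorem T_single (w : FP Γ → C(AN Γ, 𝕜)) (hw : IsW 𝕜 w) (σ : FP Γ) (b : 𝕜) :
    T w hw (lp.single 2 σ b) = (a 𝕜 σ * b) • w σ := by
  show ∑' τ, (a 𝕜 τ * (Pi.single σ b : FP Γ → 𝕜) τ) • w τ = _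
  rw [tsum_eq_single σ]
  · rw [Pi.single_eq_same]
  · intro τ hτ
    rw [Pi.single_eq_of_ne hτ, mul_zero, zero_smul]

end QHGM

open Classical in
theorem specQHG (hQCL : SpecQCL) (hQSW : SpecQSW) : SpecQHG := by
  intro 𝕜 _ Γ
  obtain ⟨w, hw⟩ := hQCL 𝕜 Γ
  refine ⟨lp (fun _ : FP Γ => 𝕜) 2, inferInstance, inferInstance, inferInstance,
    QHGM.T w hw, ?_⟩
  have hle : Submodule.span 𝕜 (range w) ≤ LinearMap.range (QHGM.T w hw).toLinearMap := by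
    rw [Submodule.span_le]
    rintro _ ⟨σ, rfl⟩
    refine ⟨lp.single 2 σ (QHGM.a 𝕜 σ)⁻¹, ?_⟩
    show QHGM.T w hw (lp.single 2 σ _) = w σ
    rw [QHGM.T_single, mul_inv_cancel₀ (QHGM.a_ne σ), one_smul]
  intro y
  have hy : y ∈ (Submodule.span 𝕜 (range w)).topologicalClosure := by
    rw [hQSW 𝕜 Γ w hw]; trivial
  exact closure_mono hle hy

end Pool.Agent.Lib.MP38dfb6.HS
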