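import Pool.Agent.Lib.MP_38dfb6_an.HS.SpecQ

/-!
# Module QHW: Hilbert generated spaces are weakly compactly generated
-/

set_option autoImplicit false

namespace Pool.Agent.Lib.MP38dfb6.HS

open Filter Topology Set MeasureTheory

universe u

namespace QHWM

variable {𝕜 : Type} [RCLike 𝕜] {E : Type} [NormedAddCommGroup E] [NormedSpace 𝕜 E]
  {H : Type} [NormedAddCommGroup H] [InnerProductSpace 𝕜 H] [CompleteSpace H]

/-- the map of the dual ball -/
noncomputable def Φ (T : H →L[𝕜] E) (φ : WeakDual 𝕜 H) : WeakSpace 𝕜 E :=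
  toWeakSpace 𝕜 E (T ((InnerProductSpace.toDual 𝕜 H).symm (WeakDual.toStrongDual φ)))

theorem cont (T : H →L[𝕜] E) : Continuous (Φ T) := by
  refine WeakBilin.continuous_of_continuous_eval _ fun g => ?_
  have h : (fun φ : WeakDual 𝕜 H => (topDualPairing 𝕜 E).flip (Φ T φ) g) =
      fun φ : WeakDual 𝕜 H =>
        star (φ ((InnerProductSpace.toDual 𝕜 H).symm ((g : E →L[𝕜] 𝕜).comp T))) := by
    funext φ
    show g (T ((InnerProductSpace.toDual 𝕜 H).symm (WeakDual.toStrongDual φ))) = _
    have h1 : g (T ((InnerProductSpace.toDual 𝕜 H).symm (WeakDual.toStrongDual φ))) =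
        inner 𝕜 ((InnerProductSpace.toDual 𝕜 H).symm ((g : E →L[𝕜] 𝕜).comp T))
          ((InnerProductSpace.toDual 𝕜 H).symm (WeakDual.toStrongDual φ)) := by
      rw [InnerProductSpace.toDual_symm_apply]
      rfl
    have h2 : φ ((InnerProductSpace.toDual 𝕜 H).symm ((g : E →L[𝕜] 𝕜).comp T)) =
        inner 𝕜 ((InnerProductSpace.toDual 𝕜 H).symm (WeakDual.toStrongDual φ))
          ((InnerProductSpace.toDual 𝕜 H).symm ((g : E →L[𝕜] 𝕜).comp T)) := by
      rw [InnerProductSpace.toDual_symm_apply]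
      rfl
    rw [h1, h2]
    exact (inner_conj_symm _ _).symm
  rw [h]
  exact (WeakDual.eval_continuous _).star

end QHWM

open QHWM in
/-- QHW -/
theorem specQHW : SpecQHW := by
  intro 𝕜 _ E _ _ hHG
  obtain ⟨H, _, _, _, T, hT⟩ := hHG
  refine ⟨T '' Metric.closedBall 0 1, ?_, ?_⟩
  · have hBc : IsCompact (WeakDual.toStrongDual ⁻¹' Metric.closedBall (0 : StrongDual 𝕜 H) 1) :=
      WeakDual.isCompact_closedBall 0 1
    have himg : toWeakSpace 𝕜 E '' (T '' Metric.closedBall 0 1) =
        Φ T '' (WeakDual.toStrongDual ⁻¹' Metric.closedBall (0 : StrongDual 𝕜 H) 1) := by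
      ext z
      constructor
      · rintro ⟨_, ⟨x, hx, rfl⟩, rfl⟩
        refine ⟨WeakDual.toStrongDual.symm (InnerProductSpace.toDual 𝕜 H x), ?_, ?_⟩
        · refine Set.mem_preimage.mpr ?_
          rw [LinearEquiv.apply_symm_apply, mem_closedBall_zero_iff]
          exact ((InnerProductSpace.toDual 𝕜 H).norm_map x).le.trans (mem_closedBall_zero_iff.mp hx)
        · show toWeakSpace 𝕜 E (T ((InnerProductSpace.toDual 𝕜 H).symm
            (WeakDual.toStrongDual (WeakDual.toStrongDual.symm _)))) = _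
          rw [LinearEquiv.apply_symm_apply, LinearIsometryEquiv.symm_apply_apply]
      · rintro ⟨φ, hφ, rfl⟩
        refine ⟨_, ⟨(InnerProductSpace.toDual 𝕜 H).symm (WeakDual.toStrongDual φ), ?_, rfl⟩, rfl⟩
        rw [mem_closedBall_zero_iff, LinearIsometryEquiv.norm_map]
        exact mem_closedBall_zero_iff.mp hφ
    rw [himg]
    exact hBc.image (cont T)
  · have hsub : (range T : Set E) ⊆ Submodule.span 𝕜 (T '' Metric.closedBall 0 1) := by
      rintro _ ⟨x, rfl⟩
      by_cases hx : x = 0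
      · rw [hx, map_zero]
        exact Submodule.zero_mem _
      · have hn : (‖x‖ : 𝕜) ≠ 0 := by
          rw [Ne, RCLike.ofReal_eq_zero, norm_eq_zero]
          exact hx
        have h1 : T x = (‖x‖ : 𝕜) • T ((‖x‖ : 𝕜)⁻¹ • x) := by
          rw [map_smul, smul_smul, mul_inv_cancel₀ hn, one_smul]
        rw [h1]
        refine Submodule.smul_mem _ _ (Submodule.subset_span ⟨_, ?_, rfl⟩)
        rw [mem_closedBall_zero_iff, norm_smul, norm_inv, RCLike.norm_ofReal, abs_norm,
          inv_mul_cancel₀ (norm_ne_zero_iff.mpr hx)]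
    rw [← SetLike.coe_set_eq, Submodule.topologicalClosure_coe, Submodule.top_coe]
    exact (hT.mono hsub).closure_eq

end Pool.Agent.Lib.MP38dfb6.HS
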