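import Pool.Agent.Lib.MP_38dfb6_an.HS.SpecQ

/-!
# Module QIM: continuous images of `A(Γ)^ℕ`
-/

set_option autoImplicit false

namespace Pool.Agent.Lib.MP38dfb6.HS

open Filter Topology Set MeasureTheory

namespace QIMM

/-- composition with a surjective continuous map is a linear isometry -/
noncomputable def comp {A K : Type} [TopologicalSpace A] [CompactSpace A] [TopologicalSpace K] [CompactSpace K]
    (𝕜 : Type) [RCLike 𝕜] (θ : C(A, K)) (hθ : Function.Surjective θ) : C(K, 𝕜) →ₗᵢ[𝕜] C(A, 𝕜) where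
  toFun g := g.comp θ
  map_add' g h := by ext a; simp
  map_smul' c g := by ext a; simp
  norm_map' g := by
    refine le_antisymm ?_ ?_
    · refine (ContinuousMap.norm_le _ (norm_nonneg _)).2 fun a => ?_
      exact g.norm_coe_le_norm (θ a)
    · refine (ContinuousMap.norm_le _ (norm_nonneg _)).2 fun y => ?_
      obtain ⟨a, rfl⟩ := hθ y
      exact (g.comp θ).norm_coe_le_norm a

end QIMM

open QIMM in
theorem specQIM (hQSB : SpecQSB) (hQTR : SpecQTR.{0, 0, 0}) : SpecQIM := by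
  intro 𝕜 _ Γ K _ _ _ θ hθ
  have hcl : IsClosed ((LinearMap.range (QIMM.comp 𝕜 θ hθ).toLinearMap :
      Submodule 𝕜 C(AN Γ, 𝕜)) : Set C(AN Γ, 𝕜)) := by
    rw [LinearMap.coe_range]
    exact (QIMM.comp 𝕜 θ hθ).isometry.isClosedEmbedding.isClosed_range
  have hK : Nonempty K := ⟨θ fun _ => OnePoint.infty⟩
  have hnt : Nontrivial (LinearMap.range (QIMM.comp 𝕜 θ hθ).toLinearMap) :=
    (QIMM.comp 𝕜 θ hθ).equivRange.toLinearEquiv.toEquiv.symm.nontrivial
  obtain ⟨ι, x, f, hM, hc⟩ := hQSB 𝕜 Γ (LinearMap.range (QIMM.comp 𝕜 θ hθ).toLinearMap) hcl hnt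
  obtain ⟨x', f', hM', hc'⟩ := hQTR 𝕜 (LinearMap.range (QIMM.comp 𝕜 θ hθ).toLinearMap) C(K, 𝕜)
    (QIMM.comp 𝕜 θ hθ).equivRange.symm ι x f hM
  exact ⟨ι, x', f', hM', hc'.trans hc⟩

end Pool.Agent.Lib.MP38dfb6.HS
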