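import Pool.Agent.Lib.MP_38dfb6_an.HS.SpecQ

/-!
# MP_38dfb6_an, module QMB: biorthogonal functionals for the functions `w σ`
-/

set_option autoImplicit false

namespace Pool.Agent.Lib.MP38dfb6.HS

open Filter Topology Set MeasureTheory

namespace QMBM

variable {Γ : Type}

/-- the support -/
noncomputable def sup (σ : FP Γ) : Finset ℕ := σ.2.toFinset

theorem mem_sup (σ : FP Γ) (n : ℕ) : n ∈ sup σ ↔ σ.1 n ≠ OnePoint.infty := by
  unfold sup
  rw [Set.Finite.mem_toFinset]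
  rfl

open Classical in
/-- the restriction to the coordinates in `F` -/
noncomputable def rs (σ : FP Γ) (F : Finset ℕ) : FP Γ :=
  ⟨fun n => if n ∈ F then σ.1 n else OnePoint.infty, by
    refine F.finite_toSet.subset fun n hn => ?_
    by_contra h
    have h' : n ∉ F := fun h1 => h (Finset.mem_coe.2 h1)
    exact hn (if_neg h')⟩

theorem rs_of_mem (σ : FP Γ) {F : Finset ℕ} {n : ℕ} (h : n ∈ F) : (rs σ F).1 n = σ.1 n := if_pos h

theorem rs_of_not (σ : FP Γ) {F : Finset ℕ} {n : ℕ} (h : n ∉ F) :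
    (rs σ F).1 n = OnePoint.infty := if_neg h

theorem rs_self (σ : FP Γ) : rs σ (sup σ) = σ := by
  refine Subtype.ext (funext fun n => ?_)
  by_cases h : n ∈ sup σ
  · exact rs_of_mem σ h
  · rw [rs_of_not σ h]
    rw [mem_sup, not_not] at h
    exact h.symm

theorem sup_rs (σ : FP Γ) {F : Finset ℕ} (hF : F ⊆ sup σ) : sup (rs σ F) = F := by
  ext n
  rw [mem_sup]
  by_cases h : n ∈ F
  · rw [rs_of_mem σ h]
    exact ⟨fun _ => h, fun _ => (mem_sup σ n).1 (hF h)⟩
  · rw [rs_of_not σ h]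
    exact ⟨fun h1 => absurd rfl h1, fun h1 => absurd h1 h⟩

variable (𝕜 : Type) [RCLike 𝕜]

/-- the evaluation -/
noncomputable def ev (p : AN Γ) : C(AN Γ, 𝕜) →L[𝕜] 𝕜 := ContinuousMap.evalCLM 𝕜 p

theorem ev_apply (p : AN Γ) (g : C(AN Γ, 𝕜)) : ev 𝕜 p g = g p := rfl

/-- the coefficient functionals -/
noncomputable def fn (σ : FP Γ) : C(AN Γ, 𝕜) →L[𝕜] 𝕜 :=
  ∑ F ∈ (sup σ).powerset, ((-1 : 𝕜) ^ (sup σ \ F).card) • ev 𝕜 (rs σ F).1

theorem fn_apply (σ : FP Γ) (g : C(AN Γ, 𝕜)) :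
    fn 𝕜 σ g = ∑ F ∈ (sup σ).powerset, (-1 : 𝕜) ^ (sup σ \ F).card * g (rs σ F).1 := by
  unfold fn
  rw [_root_.sum_apply]
  rfl

theorem one {w : FP Γ → C(AN Γ, 𝕜)} (hw : IsW 𝕜 w) (σ : FP Γ) : fn 𝕜 σ (w σ) = 1 := by
  rw [fn_apply, Finset.sum_eq_single (sup σ)]
  · rw [rs_self, hw σ σ.1, Finset.sdiff_self, Finset.card_empty, pow_zero, one_mul]
    exact if_pos fun n _ => rfl
  · intro F hF hne
    have hsub := Finset.mem_powerset.1 hF
    obtain ⟨n, hn, hnF⟩ := Finset.exists_of_ssubset (lt_of_le_of_ne hsub hne)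
    rw [hw σ _, if_neg, mul_zero]
    intro hE
    have h1 := hE n ((mem_sup σ n).1 hn)
    rw [rs_of_not σ hnF] at h1
    exact (mem_sup σ n).1 hn h1.symm
  · intro h
    exact absurd (Finset.mem_powerset.2 (Finset.Subset.refl _)) h

theorem zero {w : FP Γ → C(AN Γ, 𝕜)} (hw : IsW 𝕜 w) {σ ρ : FP Γ} (hne : σ ≠ ρ) :
    fn 𝕜 σ (w ρ) = 0 := by
  rw [fn_apply]
  by_cases hG : ∀ n, ρ.1 n ≠ OnePoint.infty → σ.1 n = ρ.1 n
  · -- a coordinate of the support of `σ` where `ρ` is `∞`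
    obtain ⟨m, hm, hmρ⟩ : ∃ m ∈ sup σ, ρ.1 m = OnePoint.infty := by
      by_contra hcon
      push Not at hcon
      apply hne
      refine Subtype.ext (funext fun n => ?_)
      by_cases h : ρ.1 n = OnePoint.infty
      · by_contra h'
        exact hcon n ((mem_sup σ n).2 fun h2 => h' (h2.trans h.symm)) h
      · exact hG n h
    have hS : sup σ = insert m ((sup σ).erase m) := (Finset.insert_erase hm).symm
    have hnot : m ∉ (sup σ).erase m := Finset.notMem_erase m _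
    have hpow : (sup σ).powerset = (insert m ((sup σ).erase m)).powerset := by rw [← hS]
    rw [hpow, Finset.sum_powerset_insert hnot, ← Finset.sum_add_distrib]
    refine Finset.sum_eq_zero fun F hF => ?_
    have hFs := Finset.mem_powerset.1 hF
    have hmF : m ∉ F := fun h => hnot (hFs h)
    have hE : Ext ρ.1 (rs σ (insert m F)).1 ↔ Ext ρ.1 (rs σ F).1 := by
      have key : ∀ n, ρ.1 n ≠ OnePoint.infty → (rs σ (insert m F)).1 n = (rs σ F).1 n := by
        intro n hn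
        have hnm : n ≠ m := fun h => hn (by rw [h]; exact hmρ)
        by_cases h : n ∈ F
        · rw [rs_of_mem σ h, rs_of_mem σ (Finset.mem_insert_of_mem h)]
        · rw [rs_of_not σ h, rs_of_not σ (fun h' => (Finset.mem_insert.1 h').elim hnm h)]
      constructor
      · intro h n hn
        rw [← key n hn]
        exact h n hn
      · intro h n hn
        rw [key n hn]
        exact h n hn
    have hval : w ρ (rs σ (insert m F)).1 = w ρ (rs σ F).1 := by
      rw [hw ρ _, hw ρ _]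
      by_cases h : Ext ρ.1 (rs σ F).1
      · rw [if_pos h, if_pos (hE.2 h)]
      · rw [if_neg h, if_neg (fun h' => h (hE.1 h'))]
    have hcard : (sup σ \ F).card = (sup σ \ insert m F).card + 1 := by
      have h1 : sup σ \ insert m F = (sup σ \ F).erase m := by
        ext n
        simp only [Finset.mem_sdiff, Finset.mem_insert, Finset.mem_erase]
        tauto
      rw [h1, Finset.card_erase_add_one (Finset.mem_sdiff.2 ⟨hm, hmF⟩)]
    rw [hval, hcard, pow_succ]
    ring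
  · push Not at hG
    obtain ⟨n, hn, hne'⟩ := hG
    refine Finset.sum_eq_zero fun F _ => ?_
    rw [hw ρ _, if_neg, mul_zero]
    intro hE
    have h1 := hE n hn
    by_cases h : n ∈ F
    · rw [rs_of_mem σ h] at h1
      exact hne' h1
    · rw [rs_of_not σ h] at h1
      exact hn h1.symm

theorem ev_mem (k : ℕ) : ∀ σ : FP Γ, (sup σ).card = k →
    ev 𝕜 σ.1 ∈ Submodule.span 𝕜 (range (fn 𝕜 (Γ := Γ))) := by
  induction k using Nat.strong_induction_on with
  | _ k ih =>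
    intro σ hσ
    have hmem : sup σ ∈ (sup σ).powerset := Finset.mem_powerset.2 (Finset.Subset.refl _)
    have h1 : fn 𝕜 σ = ev 𝕜 σ.1 + ∑ F ∈ (sup σ).powerset.erase (sup σ),
        ((-1 : 𝕜) ^ (sup σ \ F).card) • ev 𝕜 (rs σ F).1 := by
      unfold fn
      rw [← Finset.add_sum_erase _ _ hmem, rs_self, Finset.sdiff_self, Finset.card_empty,
        pow_zero, one_smul]
    have h2 : ev 𝕜 σ.1 = fn 𝕜 σ - ∑ F ∈ (sup σ).powerset.erase (sup σ),
        ((-1 : 𝕜) ^ (sup σ \ F).card) • ev 𝕜 (rs σ F).1 := by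
      rw [h1, add_sub_cancel_right]
    rw [h2]
    refine Submodule.sub_mem _ (Submodule.subset_span ⟨σ, rfl⟩)
      (Submodule.sum_mem _ fun F hF => Submodule.smul_mem _ _ ?_)
    obtain ⟨hne, hF'⟩ := Finset.mem_erase.1 hF
    have hsub := Finset.mem_powerset.1 hF'
    refine ih F.card ?_ (rs σ F) (by rw [sup_rs σ hsub])
    rw [← hσ]
    exact Finset.card_lt_card (lt_of_le_of_ne hsub hne)

end QMBM

open QMBM in
theorem specQMB : SpecQMB := by
  intro 𝕜 _ Γ w hw
  refine ⟨fn 𝕜, fun σ => one 𝕜 hw σ, fun σ ρ h => zero 𝕜 hw h, fun σ => ?_⟩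
  exact ⟨QMBM.ev 𝕜 σ.1, ev_mem 𝕜 _ σ rfl, fun g => QMBM.ev_apply 𝕜 σ.1 g⟩

end Pool.Agent.Lib.MP38dfb6.HS
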