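import Pool.Agent.Lib.MP_38dfb6_an.HS.SpecQ

/-!
# MP_38dfb6_an, module QNO: the quotient `C(K)` has no norming M-basis
-/

set_option autoImplicit false

namespace Pool.Agent.Lib.MP38dfb6.HS

open Filter Topology Set MeasureTheory

universe u v w

namespace QNOM

theorem zero_of (c K a : ℝ) (h0 : 0 ≤ c) (ha : 0 < a)
    (h : ∀ n : ℕ, c ≤ K / (a * (2 * n + 1))) : c = 0 := by
  by_contra hc
  have hc' : 0 < c := lt_of_le_of_ne h0 (Ne.symm hc)
  obtain ⟨n, hn⟩ := exists_nat_gt (K / (c * a))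
  have h1 := h n
  have hp : 0 < a * (2 * (n : ℝ) + 1) := by positivity
  rw [le_div_iff₀ hp] at h1
  rw [div_lt_iff₀ (by positivity)] at hn
  have hn0 : (0 : ℝ) ≤ n := Nat.cast_nonneg n
  have h2 : (n : ℝ) * (c * a) ≤ c * (a * (2 * n + 1)) := by
    have : c * (a * (2 * n + 1)) = (2 * n + 1) * (c * a) := by ring
    rw [this]
    exact mul_le_mul_of_nonneg_right (by linarith) (by positivity)
  linarith

end QNOM

/-- **QNO** -/
theorem specQNO (hUPP : SpecUPP.{0, v}) (hNNG : SpecNNG.{0}) (hKIS : SpecKIS) :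
    SpecQNO.{v} := by
  intro 𝕜 _ Λ _ L hL ι x f hB
  obtain ⟨J⟩ := hKIS 𝕜 Λ L ⊤
  refine QNOM.zero_of _ ‖J.toLinearIsometry.toContinuousLinearMap‖ 1 (hNNG 𝕜 _ _) one_pos ?_
  intro n
  refine hUPP 𝕜 Λ L ⊤ hL C(KK L ⊤, 𝕜) J.toLinearIsometry.toContinuousLinearMap 1 one_pos ?_
    ι x f hB n le_top
  intro e
  rw [one_mul]
  exact (J.norm_map e).ge

end Pool.Agent.Lib.MP38dfb6.HS
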