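import Pool.Agent.Lib.MP_38dfb6_an.HS.SpecQ

/-!
# Module QSB (MP_38dfb6_an, HS): closed subspaces of `C(A(Γ)^ℕ)` have M-bases of characteristic 1
-/

set_option autoImplicit false

namespace Pool.Agent.Lib.MP38dfb6.HS

theorem specQSB (hQCH : SpecQCH) (hQHG : SpecQHG) (hQHW : SpecQHW) (hSUB : SpecSUB.{0, 0})
    (hCSW : SpecCSW.{0, 0}) (hUP1 : SpecUP1.{0}) : SpecQSB := by
  intro 𝕜 _ Γ E hE hne
  obtain ⟨ι, x, f, hM, hc⟩ := hQCH 𝕜 Γ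
  have hW : WCG 𝕜 C(AN Γ, 𝕜) := hQHW 𝕜 _ (hQHG 𝕜 Γ)
  have hcs : CSup 𝕜 x := hCSW 𝕜 _ ι x f hW hM
  obtain ⟨J, z, h, hzM, -, hch⟩ := hSUB 𝕜 _ ι x f hM (by rw [hc]; exact one_pos) hcs E hE
  refine ⟨J, z, h, hzM, le_antisymm (hUP1 𝕜 E _) ?_⟩
  rw [← hc]
  exact hch hne

end Pool.Agent.Lib.MP38dfb6.HS
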