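import Pool.Agent.Lib.MP_38dfb6_an.HS.SpecQ

/-!
Module QSW: the functions `w σ` span a dense subspace of `C(A(Γ)^ℕ)`.
-/

set_option autoImplicit false

namespace Pool.Agent.Lib.MP38dfb6.HS

open Filter Topology Set MeasureTheory

namespace QSWM

section

variable {𝕜 : Type} [RCLike 𝕜] {Γ : Type} {w : FP Γ → C(AN Γ, 𝕜)}

theorem w_of (hw : IsW 𝕜 w) {σ : FP Γ} {p : AN Γ} (h : Ext σ.1 p) : w σ p = 1 := by
  rw [hw σ p, if_pos h]

theorem w_not (hw : IsW 𝕜 w) {σ : FP Γ} {p : AN Γ} (h : ¬ Ext σ.1 p) : w σ p = 0 := by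
  rw [hw σ p, if_neg h]

theorem star_w (hw : IsW 𝕜 w) (σ : FP Γ) : star (w σ) = w σ := by
  apply ContinuousMap.ext
  intro p
  rw [ContinuousMap.star_apply]
  by_cases hs : Ext σ.1 p
  · rw [w_of hw hs, star_one]
  · rw [w_not hw hs, star_zero]

/-- the point which is `∞` everywhere -/
def nil (Γ : Type) : FP Γ := ⟨fun _ => OnePoint.infty, by simp⟩

theorem ext_nil (p : AN Γ) : Ext (nil Γ).1 p := fun _ h => absurd rfl h

open Classical in
/-- the common extension -/
noncomputable def join (σ ρ : FP Γ) : FP Γ :=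
  ⟨fun n => if σ.1 n ≠ OnePoint.infty then σ.1 n else ρ.1 n, by
    refine (σ.2.union ρ.2).subset ?_
    intro n hn
    have hn' : (if σ.1 n ≠ OnePoint.infty then σ.1 n else ρ.1 n) ≠ OnePoint.infty := hn
    by_cases h : σ.1 n ≠ OnePoint.infty
    · exact Or.inl h
    · rw [if_neg h] at hn'
      exact Or.inr hn'⟩

theorem ext_join {σ ρ : FP Γ}
    (h : ∀ n, σ.1 n ≠ OnePoint.infty → ρ.1 n ≠ OnePoint.infty → σ.1 n = ρ.1 n) (p : AN Γ) :
    Ext (join σ ρ).1 p ↔ Ext σ.1 p ∧ Ext ρ.1 p := by
  classical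
  have hj : ∀ n, (join σ ρ).1 n = if σ.1 n ≠ OnePoint.infty then σ.1 n else ρ.1 n := fun n => rfl
  constructor
  · intro hp
    refine ⟨fun n hn => ?_, fun n hn => ?_⟩
    · have h1 := hp n (by rw [hj, if_pos hn]; exact hn)
      rw [hj, if_pos hn] at h1
      exact h1
    · by_cases hs : σ.1 n ≠ OnePoint.infty
      · have h1 := hp n (by rw [hj, if_pos hs]; exact hs)
        rw [hj, if_pos hs] at h1
        rw [h1, h n hs hn]
      · have h1 := hp n (by rw [hj, if_neg hs]; exact hn)
        rw [hj, if_neg hs] at h1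
        exact h1
  · rintro ⟨h1, h2⟩ n hn
    by_cases hs : σ.1 n ≠ OnePoint.infty
    · rw [hj, if_pos hs]
      exact h1 n hs
    · rw [hj, if_neg hs] at hn ⊢
      exact h2 n hn

open Classical in
/-- the point which is `a` at `n` and `∞` elsewhere -/
noncomputable def sg (n : ℕ) (a : OnePoint (Dis Γ)) : FP Γ :=
  ⟨fun m => if m = n then a else OnePoint.infty, by
    refine (Set.finite_singleton n).subset ?_
    intro m hm
    have hm' : (if m = n then a else OnePoint.infty) ≠ OnePoint.infty := hm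
    by_contra h
    have h' : ¬ m = n := h
    rw [if_neg h'] at hm'
    exact hm' rfl⟩

theorem ext_sg {n : ℕ} {a : OnePoint (Dis Γ)} (ha : a ≠ OnePoint.infty) (p : AN Γ) :
    Ext (sg n a).1 p ↔ p n = a := by
  classical
  have hj : ∀ m, (sg n a).1 m = if m = n then a else OnePoint.infty := fun m => rfl
  constructor
  · intro h
    have h1 := h n (by rw [hj, if_pos rfl]; exact ha)
    rw [hj, if_pos rfl] at h1
    exact h1
  · intro h m hm
    by_cases hmn : m = n
    · subst hmn
      rw [hj, if_pos rfl]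
      exact h
    · rw [hj, if_neg hmn] at hm
      exact absurd rfl hm

theorem mul_w (hw : IsW 𝕜 w) (σ ρ : FP Γ) :
    w σ * w ρ ∈ Submodule.span 𝕜 (range w) := by
  by_cases h : ∀ n, σ.1 n ≠ OnePoint.infty → ρ.1 n ≠ OnePoint.infty → σ.1 n = ρ.1 n
  · have h1 : w σ * w ρ = w (join σ ρ) := by
      apply ContinuousMap.ext
      intro p
      rw [ContinuousMap.mul_apply]
      by_cases h2 : Ext σ.1 p
      · by_cases h3 : Ext ρ.1 p
        · rw [w_of hw h2, w_of hw h3, w_of hw ((ext_join h p).2 ⟨h2, h3⟩), one_mul]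
        · rw [w_not hw h3, w_not hw (fun h4 => h3 ((ext_join h p).1 h4).2), mul_zero]
      · rw [w_not hw h2, w_not hw (fun h4 => h2 ((ext_join h p).1 h4).1), zero_mul]
    rw [h1]
    exact Submodule.subset_span ⟨_, rfl⟩
  · have h1 : w σ * w ρ = 0 := by
      apply ContinuousMap.ext
      intro p
      rw [ContinuousMap.mul_apply, ContinuousMap.zero_apply]
      by_cases h2 : Ext σ.1 p
      · by_cases h3 : Ext ρ.1 p
        · exfalso
          apply h
          intro n hn hn'
          rw [← h2 n hn, ← h3 n hn']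
        · rw [w_not hw h3, mul_zero]
      · rw [w_not hw h2, zero_mul]
    rw [h1]
    exact Submodule.zero_mem _

theorem sep (hw : IsW 𝕜 w) {p q : AN Γ} (n : ℕ) (h : p n ≠ q n) (hp : p n ≠ OnePoint.infty) :
    w (sg n (p n)) p ≠ w (sg n (p n)) q := by
  rw [w_of hw ((ext_sg hp p).2 rfl), w_not hw (fun h1 => h ((ext_sg hp q).1 h1).symm)]
  exact one_ne_zero

end

end QSWM

open QSWM in
theorem specQSW : SpecQSW := by
  intro 𝕜 _ Γ w hw
  have hone : (1 : C(AN Γ, 𝕜)) ∈ Submodule.span 𝕜 (range w) := by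
    have h1 : w (nil Γ) = 1 := by
      apply ContinuousMap.ext
      intro p
      rw [w_of hw (ext_nil p), ContinuousMap.one_apply]
    rw [← h1]
    exact Submodule.subset_span ⟨_, rfl⟩
  have hmul : ∀ x y : C(AN Γ, 𝕜), x ∈ Submodule.span 𝕜 (range w) →
      y ∈ Submodule.span 𝕜 (range w) → x * y ∈ Submodule.span 𝕜 (range w) := by
    intro x y hx hy
    induction hx using Submodule.span_induction with
    | mem x hx =>
      obtain ⟨s, rfl⟩ := hx
      induction hy using Submodule.span_induction with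
      | mem y hy =>
        obtain ⟨t, rfl⟩ := hy
        exact mul_w hw s t
      | zero => rw [mul_zero]; exact Submodule.zero_mem _
      | add a b _ _ iha ihb => rw [mul_add]; exact Submodule.add_mem _ iha ihb
      | smul c a _ iha => rw [mul_smul_comm]; exact Submodule.smul_mem _ c iha
    | zero => rw [zero_mul]; exact Submodule.zero_mem _
    | add a b _ _ iha ihb => rw [add_mul]; exact Submodule.add_mem _ iha ihb
    | smul c a _ iha => rw [smul_mul_assoc]; exact Submodule.smul_mem _ c iha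
  have hstar : ∀ x : C(AN Γ, 𝕜), x ∈ Submodule.span 𝕜 (range w) →
      star x ∈ Submodule.span 𝕜 (range w) := by
    intro x hx
    induction hx using Submodule.span_induction with
    | mem x hx =>
      obtain ⟨s, rfl⟩ := hx
      rw [star_w hw]
      exact Submodule.subset_span ⟨_, rfl⟩
    | zero => rw [star_zero]; exact Submodule.zero_mem _
    | add a b _ _ iha ihb => rw [star_add]; exact Submodule.add_mem _ iha ihb
    | smul c a _ iha => rw [star_smul]; exact Submodule.smul_mem _ _ iha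
  let A : StarSubalgebra 𝕜 C(AN Γ, 𝕜) :=
    { Submodule.toSubalgebra (Submodule.span 𝕜 (range w)) hone hmul with
      star_mem' := fun {x} hx => hstar x hx }
  have hAmem : ∀ x, x ∈ A ↔ x ∈ Submodule.span 𝕜 (range w) := fun x => Iff.rfl
  have hsep : A.SeparatesPoints := by
    intro x y hxy
    obtain ⟨n, hn⟩ := Function.ne_iff.mp hxy
    by_cases hx : x n = OnePoint.infty
    · have hy : y n ≠ OnePoint.infty := fun hy => hn (hx.trans hy.symm)
      refine ⟨w (sg n (y n)), ⟨w (sg n (y n)),
        (hAmem _).mpr (Submodule.subset_span ⟨_, rfl⟩), rfl⟩, ?_⟩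
      exact (sep hw n (fun h => hn h.symm) hy).symm
    · refine ⟨w (sg n (x n)), ⟨w (sg n (x n)),
        (hAmem _).mpr (Submodule.subset_span ⟨_, rfl⟩), rfl⟩, ?_⟩
      exact sep hw n hn hx
  have htop := ContinuousMap.starSubalgebra_topologicalClosure_eq_top_of_separatesPoints A hsep
  rw [eq_top_iff]
  intro f _
  have hf : f ∈ A.topologicalClosure := by rw [htop]; trivial
  have h2 : f ∈ closure (A : Set C(AN Γ, 𝕜)) := hf
  exact h2

end Pool.Agent.Lib.MP38dfb6.HS
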