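import Pool.Agent.Lib.MP_38dfb6_an.HS.SpecQ

/-!
# Module QTI: the restriction from `A(nodes)^ℕ` is surjective
-/

set_option autoImplicit false

namespace Pool.Agent.Lib.MP38dfb6.HS

open Filter Topology Set MeasureTheory

theorem specQTI (hQEM : SpecQEM) : SpecQTI := by
  intro 𝕜 _ Λ L
  obtain ⟨j, hj⟩ := hQEM Λ L
  have hemb : IsClosedEmbedding j := j.continuous.isClosedEmbedding hj
  refine ⟨{ toFun := fun g => g.comp j
            map_add' := fun _ _ => rfl
            map_smul' := fun _ _ => rfl
            cont := ContinuousMap.continuous_precomp j }, ?_⟩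
  intro f
  obtain ⟨g, hg⟩ := ContinuousMap.exists_extension hemb f
  refine ⟨g, ?_⟩
  ext x
  exact DFunLike.congr_fun hg x

end Pool.Agent.Lib.MP38dfb6.HS
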