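import Pool.Agent.Lib.MP_38dfb6_an.HS.SpecQ

/-!
# MP_38dfb6_an, module QTR: transport of an M-basis by an isometric isomorphism
-/

set_option autoImplicit false

namespace Pool.Agent.Lib.MP38dfb6.HS

open Filter Topology Set MeasureTheory

universe u v w

namespace QTRM

variable {𝕜 : Type} [RCLike 𝕜] {E : Type u} [NormedAddCommGroup E] [NormedSpace 𝕜 E] {F : Type w}
  [NormedAddCommGroup F] [NormedSpace 𝕜 F]

/-- composition with a fixed operator -/
noncomputable def Ph (A : F →L[𝕜] E) : (E →L[𝕜] 𝕜) →L[𝕜] (F →L[𝕜] 𝕜) :=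
  (ContinuousLinearMap.compL 𝕜 F E 𝕜).flip A

theorem Ph_apply (A : F →L[𝕜] E) (φ : E →L[𝕜] 𝕜) : Ph A φ = φ.comp A := rfl

theorem mem_cspan {ι : Type v} (f : ι → (E →L[𝕜] 𝕜)) (f' : ι → (F →L[𝕜] 𝕜)) (A : F →L[𝕜] E)
    (h : ∀ i, (f i).comp A = f' i) (φ : E →L[𝕜] 𝕜) (hφ : φ ∈ cspan 𝕜 f) :
    φ.comp A ∈ cspan 𝕜 f' := by
  have h1 : φ ∈ closure ((Submodule.span 𝕜 (range f) : Submodule 𝕜 (E →L[𝕜] 𝕜)) : Set (E →L[𝕜] 𝕜)) := hφ
  have h2 : Ph A φ ∈ closure ((Submodule.span 𝕜 (range f') : Submodule 𝕜 (F →L[𝕜] 𝕜)) :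
      Set (F →L[𝕜] 𝕜)) := by
    refine map_mem_closure (Ph A).continuous h1 ?_
    intro ψ hψ
    have h3 : (Submodule.span 𝕜 (range f)).map (Ph A).toLinearMap ≤ Submodule.span 𝕜 (range f') := by
      rw [Submodule.map_span]
      apply Submodule.span_mono
      rintro _ ⟨_, ⟨i, rfl⟩, rfl⟩
      exact ⟨i, (h i).symm⟩
    exact h3 ⟨ψ, hψ, rfl⟩
  exact h2

end QTRM

open QTRM in
theorem specQTR : SpecQTR.{u, v, w} := by
  intro 𝕜 _ E _ _ F _ _ T ι x f hM
  set A : F →L[𝕜] E := (T.symm.toContinuousLinearEquiv : F →L[𝕜] E) with hA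
  set B : E →L[𝕜] F := (T.toContinuousLinearEquiv : E →L[𝕜] F) with hB
  have hAT : ∀ y, A (T y) = y := fun y => T.symm_apply_apply y
  have hTA : ∀ y, T (A y) = y := fun y => T.apply_symm_apply y
  have hAB : ∀ y, A (B y) = y := fun y => T.symm_apply_apply y
  have hBA : ∀ y, B (A y) = y := fun y => T.apply_symm_apply y
  have nA : ∀ y, ‖A y‖ = ‖y‖ := fun y => T.symm.norm_map y
  have nB : ∀ y, ‖B y‖ = ‖y‖ := fun y => T.norm_map y
  refine ⟨fun i => T (x i), fun i => (f i).comp A, ⟨?_, ?_, ?_, ?_⟩, ?_⟩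
  · intro i
    show f i (A (T (x i))) = 1
    rw [hAT]
    exact hM.one i
  · intro i j hij
    show f i (A (T (x j))) = 0
    rw [hAT]
    exact hM.zero i j hij
  · have h1 : Dense ((Submodule.span 𝕜 (range x) : Submodule 𝕜 E) : Set E) :=
      (Submodule.dense_iff_topologicalClosure_eq_top).2 hM.fund
    have h2 : Dense (B '' ((Submodule.span 𝕜 (range x) : Submodule 𝕜 E) : Set E)) := by
      apply DenseRange.dense_image _ B.continuous h1
      exact (Function.RightInverse.surjective (g := A) hBA).denseRange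
    apply (Submodule.dense_iff_topologicalClosure_eq_top).1
    refine h2.mono ?_
    rintro _ ⟨y, hy, rfl⟩
    have h3 : (Submodule.span 𝕜 (range x)).map B.toLinearMap ≤
        Submodule.span 𝕜 (range fun i => T (x i)) := by
      rw [Submodule.map_span]
      apply Submodule.span_mono
      rintro _ ⟨_, ⟨i, rfl⟩, rfl⟩
      exact ⟨i, rfl⟩
    exact h3 ⟨y, hy, rfl⟩
  · intro y hy
    have h1 : A y = 0 := hM.tot (A y) hy
    rw [← hTA y, h1, map_zero]
  · unfold charac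
    have inner : ∀ z : F, (⨆ φ : {φ : F →L[𝕜] 𝕜 // φ ∈ cspan 𝕜 (fun i => (f i).comp A) ∧ ‖φ‖ ≤ 1}, ‖φ.1 z‖) =
        ⨆ φ : {φ : E →L[𝕜] 𝕜 // φ ∈ cspan 𝕜 f ∧ ‖φ‖ ≤ 1}, ‖φ.1 (A z)‖ := by
      intro z
      have hm : ∀ φ : F →L[𝕜] 𝕜, φ ∈ cspan 𝕜 (fun i => (f i).comp A) → φ.comp B ∈ cspan 𝕜 f := by
        intro φ hφ
        refine mem_cspan (fun i => (f i).comp A) f B ?_ φ hφ
        intro i
        ext y
        show f i (A (B y)) = f i y
        rw [hAB]
      refine Function.Surjective.iSup_congr (fun φ => ⟨φ.1.comp B, hm φ.1 φ.2.1, ?_⟩) ?_ ?_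
      · apply ContinuousLinearMap.opNorm_le_bound _ zero_le_one
        intro y
        refine (φ.1.le_opNorm (B y)).trans ?_
        rw [nB]
        exact mul_le_mul_of_nonneg_right φ.2.2 (norm_nonneg _)
      · rintro ⟨φ, h1, h2⟩
        refine ⟨⟨φ.comp A, mem_cspan f _ A (fun i => rfl) φ h1, ?_⟩, ?_⟩
        · apply ContinuousLinearMap.opNorm_le_bound _ zero_le_one
          intro y
          refine (φ.le_opNorm (A y)).trans ?_
          rw [nA]
          exact mul_le_mul_of_nonneg_right h2 (norm_nonneg _)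
        · apply Subtype.ext
          ext y
          show φ (A (B y)) = φ y
          rw [hAB]
      · rintro ⟨φ, h1, h2⟩
        show ‖φ (B (A z))‖ = ‖φ z‖
        rw [hBA]
    refine Function.Surjective.iInf_congr (fun z => ⟨A z.1, (nA z.1).trans z.2⟩) ?_ ?_
    · rintro ⟨y, hy⟩
      exact ⟨⟨B y, (nB y).trans hy⟩, Subtype.ext (hAB y)⟩
    · rintro ⟨z, hz⟩
      exact (inner z).symm

end Pool.Agent.Lib.MP38dfb6.HS
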