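import Pool.Agent.Lib.MP_38dfb6_an.HS.SpecS

/-! # MP_38dfb6_an, module SCA: the cardinality of `ω₁` -/

set_option autoImplicit false

namespace Pool.Agent.Lib.MP38dfb6.HS

open Set Cardinal

theorem specSCA : SpecSCA := by
  intro Λ _ h
  have : WellFoundedLT Λ := ⟨h.wf⟩
  by_contra hcon
  rw [not_le] at hcon
  have h1 : (aleph 1).ord < Ordinal.type ((· < ·) : Λ → Λ → Prop) := by
    by_contra h2
    rw [not_lt] at h2
    have h3 := Ordinal.card_le_card h2
    rw [Ordinal.card_type, card_ord] at h3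
    exact absurd h3 (not_le.2 hcon)
  obtain ⟨δ, hδ⟩ := Ordinal.typein_surj ((· < ·) : Λ → Λ → Prop) h1
  have h4 : #{y // y < δ} = aleph 1 := by
    have h5 := congrArg Ordinal.card hδ
    rw [Ordinal.card_typein, card_ord] at h5
    exact h5
  have h6 : #{y // y < δ} ≤ ℵ₀ := le_aleph0_iff_set_countable.2 (h.cnt δ)
  rw [h4] at h6
  exact absurd h6 (not_le.2 (aleph0_lt_aleph_one))

end Pool.Agent.Lib.MP38dfb6.HS
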