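import Pool.Agent.Lib.MP_38dfb6_an.HS.SpecE

/-!
# Module SCI: a countable intersection of clubs is a club
-/

set_option autoImplicit false

namespace Pool.Agent.Lib.MP38dfb6.HS

open Filter Topology Set

theorem specSCI : SpecSCI := by
  intro Λ _ hO C hC
  constructor
  · intro b
    have hg : ∀ (n : ℕ) (x : Λ), ∃ c ∈ C n, x < c := fun n x => (hC n).unb x
    choose g hgC hg using hg
    set A : ℕ → Λ := fun k => Nat.rec b (fun k x => g (Nat.unpair k).1 x) k with hA
    have A0 : A 0 = b := rfl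
    have AS : ∀ k, A (k + 1) = g (Nat.unpair k).1 (A k) := fun k => rfl
    have hmono : StrictMono A := strictMono_nat_of_lt_succ (fun k => by rw [AS]; exact hg _ _)
    obtain ⟨b', hb'⟩ := hO.bdd (range A) (countable_range A)
    have hU : (upperBounds (range A)).Nonempty := ⟨b', fun x hx => (hb' x hx).le⟩
    obtain ⟨δ, hδU, hδm⟩ : ∃ δ ∈ upperBounds (range A), ∀ u ∈ upperBounds (range A), δ ≤ u := by
      obtain ⟨δ, h1, h2⟩ := hO.wf.has_min _ hU
      exact ⟨δ, h1, fun u hu => not_lt.1 (h2 u hu)⟩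
    refine ⟨δ, ?_, ?_⟩
    · rw [mem_iInter]
      intro n
      refine (hC n).cl (range fun j => A (Nat.pair n j + 1)) ?_ (range_nonempty _) δ ⟨?_, ?_⟩
      · rintro _ ⟨j, rfl⟩
        show A (Nat.pair n j + 1) ∈ C n
        rw [AS, Nat.unpair_pair]
        exact hgC _ _
      · rintro _ ⟨j, rfl⟩
        exact hδU ⟨Nat.pair n j + 1, rfl⟩
      · intro u hu
        apply hδm
        rintro _ ⟨j, rfl⟩
        exact (hmono.monotone ((Nat.right_le_pair n j).trans (Nat.le_succ _))).trans (hu ⟨j, rfl⟩)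
    · have h1 : b < A 1 := by
        have h2 := hmono (show 0 < 1 by norm_num)
        rwa [A0] at h2
      exact h1.trans_le (hδU ⟨1, rfl⟩)
  · intro A hA hne δ hδ
    rw [mem_iInter]
    intro n
    exact (hC n).cl A (hA.trans (iInter_subset C n)) hne δ hδ

end Pool.Agent.Lib.MP38dfb6.HS
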