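import Pool.Agent.Lib.MP_38dfb6_an.HS.SpecS

/-!
# MP_38dfb6_an, module SCO: closed elements in a stationary set (helper99, after NB/CLO)
-/

set_option autoImplicit false

namespace Pool.Agent.Lib.MP38dfb6.HS

open Filter Topology Set

namespace SCOM

variable {Λ : Type} [LinearOrder Λ]

/-- the nodes with all entries `≤ a` -/
def N (a : Λ) : Set (Node Λ) := {s | (∀ x ∈ s.1, x ≤ a) ∧ ∀ x ∈ s.2, x ≤ a}

theorem countable_lists (s : Set Λ) (hs : s.Countable) : {l : List Λ | ∀ x ∈ l, x ∈ s}.Countable := by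
  have : Countable s := hs.to_subtype
  rw [← Set.range_list_map_coe]
  exact Set.countable_range _

theorem countable_N (h : Om1 Λ) (a : Λ) : (N a).Countable := by
  have h1 : (Iic a).Countable := by
    rw [← Iio_insert]
    exact (h.cnt a).insert a
  have h2 := (countable_lists (Iic a) h1).prod (countable_lists (Iic a) h1)
  refine h2.mono ?_
  rintro ⟨l, l'⟩ hs
  exact ⟨hs.1, hs.2⟩

theorem exists_next (h : Om1 Λ) (β : Node Λ → Λ) (a : Λ) :
    ∃ a', a < a' ∧ ∀ s ∈ N a, β s < a' := by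
  obtain ⟨b, hb⟩ := h.bdd (insert a (β '' N a)) (((countable_N h a).image β).insert a)
  exact ⟨b, hb a (mem_insert _ _), fun s hs => hb _ (mem_insert_of_mem _ (mem_image_of_mem β hs))⟩

theorem exists_le (A : ℕ → Λ) (hA : Monotone A) (l : List Λ) (h : ∀ x ∈ l, ∃ m, x ≤ A m) :
    ∃ m, ∀ x ∈ l, x ≤ A m := by
  induction l with
  | nil => exact ⟨0, by simp⟩
  | cons a l ih =>
    obtain ⟨m, hm⟩ := ih fun x hx => h x (List.mem_cons_of_mem _ hx)
    obtain ⟨k, hk⟩ := h a List.mem_cons_self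
    refine ⟨max m k, fun x hx => ?_⟩
    rcases List.mem_cons.1 hx with rfl | hx
    · exact hk.trans (hA (le_max_right _ _))
    · exact (hm x hx).trans (hA (le_max_left _ _))

theorem exists_closed (h : Om1 Λ) (β : Node Λ → Λ) (b : Λ) : ∃ δ, b < δ ∧ Closed β δ := by
  choose nx hnx hnx' using exists_next h β
  let A : ℕ → Λ := fun m => nx^[m] b
  have hA : ∀ m, A (m + 1) = nx (A m) := fun m => Function.iterate_succ_apply' nx m b
  have hmono : StrictMono A := strictMono_nat_of_lt_succ fun m => by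
    rw [hA]
    exact hnx _
  have hU : {u : Λ | ∀ m, A m < u}.Nonempty := by
    obtain ⟨u, hu⟩ := h.bdd (range A) (countable_range A)
    exact ⟨u, fun m => hu _ (mem_range_self m)⟩
  have h1 : ∀ m, A m < h.wf.min _ hU := h.wf.min_mem _ hU
  have h2 : ∀ x, x < h.wf.min _ hU → ∃ m, x ≤ A m := by
    intro x hx
    by_contra hcon
    push Not at hcon
    exact h.wf.not_lt_min _ (show x ∈ {u : Λ | ∀ m, A m < u} from hcon) hx
  refine ⟨h.wf.min _ hU, h1 0, ?_⟩
  intro s hs1 hs2
  obtain ⟨m, hm⟩ := exists_le A hmono.monotone s.1 fun x hx => h2 x (hs1 x hx)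
  obtain ⟨k, hk⟩ := exists_le A hmono.monotone s.2 fun x hx => h2 x (hs2 x hx)
  have h3 : s ∈ N (A (max m k)) :=
    ⟨fun x hx => (hm x hx).trans (hmono.monotone (le_max_left _ _)),
      fun x hx => (hk x hx).trans (hmono.monotone (le_max_right _ _))⟩
  calc β s < nx (A (max m k)) := hnx' _ s h3
    _ = A (max m k + 1) := (hA _).symm
    _ < _ := h1 _

/-- finitely many elements below the least upper bound are below one element of the set -/
theorem exists_lt (A : Set Λ) (hA : A.Nonempty) (δ : Λ) (hδ : IsLUB A δ) (l : List Λ) (h : ∀ x ∈ l, x < δ) :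
    ∃ a ∈ A, ∀ x ∈ l, x < a := by
  induction l with
  | nil => obtain ⟨a, ha⟩ := hA; exact ⟨a, ha, by simp⟩
  | cons y l ih =>
    obtain ⟨a, ha, hal⟩ := ih fun x hx => h x (List.mem_cons_of_mem _ hx)
    obtain ⟨c, hc, hyc⟩ := (lt_isLUB_iff hδ).1 (h y List.mem_cons_self)
    refine ⟨max a c, ?_, fun x hx => ?_⟩
    · rcases max_choice a c with h1 | h1 <;> rw [h1] <;> assumption
    · rcases List.mem_cons.1 hx with rfl | hx
      · exact hyc.trans_le (le_max_right _ _)
      · exact (hal x hx).trans_le (le_max_left _ _)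

theorem club (h : Om1 Λ) (β : Node Λ → Λ) (b : Λ) : Club {δ | Closed β δ ∧ b < δ} := by
  refine ⟨fun b' => ?_, fun A hAC hA δ hδ => ?_⟩
  · obtain ⟨δ, hδ, hc⟩ := exists_closed h β (max b b')
    exact ⟨δ, ⟨hc, (le_max_left _ _).trans_lt hδ⟩, (le_max_right _ _).trans_lt hδ⟩
  · refine ⟨?_, ?_⟩
    · intro s hs1 hs2
      obtain ⟨a, ha, hal⟩ := exists_lt A hA δ hδ (s.1 ++ s.2) (by
        intro x hx
        rcases List.mem_append.1 hx with hx | hx
        · exact hs1 x hx
        · exact hs2 x hx)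
      have h1 : β s < a := (hAC ha).1 s (fun x hx => hal x (List.mem_append.2 (Or.inl hx)))
        (fun x hx => hal x (List.mem_append.2 (Or.inr hx)))
      exact h1.trans_le (hδ.1 ha)
    · obtain ⟨a, ha⟩ := hA
      exact (hAC ha).2.trans_le (hδ.1 ha)

end SCOM

theorem specSCO : SpecSCO := by
  intro Λ _ h S hS β n
  induction n with
  | zero =>
    refine ⟨[], rfl, ?_⟩
    intro δ D' hD
    have := List.suffix_nil.1 hD
    exact absurd this (List.cons_ne_nil _ _)
  | succ n ih =>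
    obtain ⟨D, hD, hD'⟩ := ih
    obtain ⟨b, hb⟩ := h.bdd {x | x ∈ D} (List.finite_toSet D).countable
    obtain ⟨δ, hδS, hc, hδ⟩ := hS _ (SCOM.club h β b)
    refine ⟨δ :: D, by simp [hD], ?_⟩
    intro δ' D' hs
    rcases List.suffix_cons_iff.1 hs with hs | hs
    · rw [List.cons.injEq] at hs
      obtain ⟨rfl, rfl⟩ := hs
      exact ⟨hδS, hc, fun x hx => (hb x hx).trans hδ⟩
    · exact hD' δ' D' hs

end Pool.Agent.Lib.MP38dfb6.HS
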