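import Pool.Agent.Lib.MP_38dfb6_an.HS.SpecE

/-!
# MP_38dfb6_an, module SCT: the part of a path below an element outside S (helper54)
-/

set_option autoImplicit false

namespace Pool.Agent.Lib.MP38dfb6.HS

open Filter Topology Set

namespace SCTM

variable {Λ : Type}

theorem lad_length (L : Λ → ℕ → Λ) (δ : Λ) : ∀ m, (lad L δ m).length = m
  | 0 => rfl
  | m + 1 => by
    show (L δ m :: lad L δ m).length = m + 1
    rw [List.length_cons, lad_length L δ m]

theorem suffix_lad (L : Λ → ℕ → Λ) (δ : Λ) (a : List Λ) (m : ℕ) :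
    a <:+ lad L δ m ↔ a = lad L δ a.length ∧ a.length ≤ m := by
  induction m with
  | zero =>
    constructor
    · intro h
      have h1 : a = [] := List.suffix_nil.mp h
      subst h1
      exact ⟨rfl, le_refl _⟩
    · rintro ⟨_, h2⟩
      have h3 : a = [] := List.length_eq_zero_iff.mp (Nat.le_zero.mp h2)
      subst h3
      exact List.suffix_refl _
  | succ m ih =>
    have h0 : lad L δ (m + 1) = L δ m :: lad L δ m := rfl
    rw [h0, List.suffix_cons_iff, ih]
    constructor
    · rintro (h | ⟨h1, h2⟩)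
      · have h3 : a.length = m + 1 := by rw [h, List.length_cons, lad_length]
        exact ⟨by rw [h3, h0]; exact h, h3.le⟩
      · exact ⟨h1, by omega⟩
    · rintro ⟨h1, h2⟩
      rcases Nat.lt_or_ge m a.length with h3 | h3
      · left
        have h4 : a.length = m + 1 := by omega
        rw [← h0, ← h4]
        exact h1
      · exact Or.inr ⟨h1, h3⟩

theorem mem_lad (L : Λ → ℕ → Λ) (δ x : Λ) (n : ℕ) : x ∈ lad L δ n ↔ ∃ k < n, L δ k = x := by
  induction n with
  | zero =>
    constructor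
    · intro h
      cases h
    · rintro ⟨k, hk, _⟩
      omega
  | succ n ih =>
    have h0 : lad L δ (n + 1) = L δ n :: lad L δ n := rfl
    rw [h0, List.mem_cons, ih]
    constructor
    · rintro (h | ⟨k, hk, h⟩)
      · exact ⟨n, by omega, h.symm⟩
      · exact ⟨k, by omega, h⟩
    · rintro ⟨k, hk, h⟩
      rcases Nat.lt_or_ge k n with h1 | h1
      · exact Or.inr ⟨k, h1, h⟩
      · left
        have h2 : k = n := by omega
        rw [← h2]
        exact h.symm

variable [LinearOrder Λ]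

theorem exCut (δ : Λ) (c : List Λ) : ∃ a : List Λ, (∀ x ∈ a, x < δ) ∧
    ∀ b : List Λ, (∀ x ∈ b, x < δ) → (b <:+ c ↔ b <:+ a) := by
  induction c with
  | nil => exact ⟨[], by simp, fun b _ => Iff.rfl⟩
  | cons y c ih =>
    by_cases h : ∀ x ∈ y :: c, x < δ
    · exact ⟨y :: c, h, fun b _ => Iff.rfl⟩
    · obtain ⟨a, ha, hab⟩ := ih
      refine ⟨a, ha, fun b hb => ?_⟩
      rw [List.suffix_cons_iff, ← hab b hb]
      constructor
      · rintro (h1 | h1)
        · exact absurd (h1 ▸ hb) h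
        · exact h1
      · exact Or.inr

/-- all entries of the second component are below -/
def EB (δ : Λ) : List Λ ⊕ Λ → Prop
  | Sum.inl a => ∀ x ∈ a, x < δ
  | Sum.inr γ => γ < δ

theorem preA {S : Set Λ} {L : Λ → ℕ → Λ} (hL : LadS S L) (δ : Λ) (hδ : δ ∉ S)
    (e : List Λ ⊕ Λ) : ∃ e' : List Λ ⊕ Λ, EB δ e' ∧
    ∀ b : List Λ, (∀ x ∈ b, x < δ) → (Pre L b e ↔ Pre L b e') := by
  classical
  cases e with
  | inl c =>
    obtain ⟨a, ha, hab⟩ := exCut δ c
    exact ⟨Sum.inl a, ha, hab⟩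
  | inr γ =>
    by_cases hγ : γ < δ
    · exact ⟨Sum.inr γ, hγ, fun b _ => Iff.rfl⟩
    · have hex : ∃ m, ¬ L γ m < δ := by
        by_cases h1 : γ ∉ S ∨ ∀ x : Λ, ¬ x < γ
        · exact ⟨0, by rw [hL.out γ h1 0]; exact hγ⟩
        · push Not at h1
          have h2 : δ ≠ γ := fun h => hδ (h ▸ h1.1)
          have h3 : δ < γ := lt_of_le_of_ne (not_lt.mp hγ) h2
          obtain ⟨i, hi⟩ := hL.sur γ h1.1 δ h3
          exact ⟨i, by rw [hi]; exact lt_irrefl δ⟩
      have hm := Nat.find_spec hex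
      have hmin : ∀ k < Nat.find hex, L γ k < δ := by
        intro k hk
        by_contra h
        exact Nat.find_min hex hk h
      refine ⟨Sum.inl (lad L γ (Nat.find hex)), ?_, ?_⟩
      · intro x hx
        obtain ⟨k, hk, rfl⟩ := (mem_lad L γ x _).mp hx
        exact hmin k hk
      · intro b hb
        show b = lad L γ b.length ↔ b <:+ lad L γ (Nat.find hex)
        rw [suffix_lad]
        constructor
        · intro h
          refine ⟨h, ?_⟩
          by_contra hlt
          have h5 : L γ (Nat.find hex) ∈ lad L γ b.length :=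
            (mem_lad L γ _ _).mpr ⟨_, by omega, rfl⟩
          rw [← h] at h5
          exact hm (hb _ h5)
        · exact fun h => h.1

theorem exSplit (δ : Λ) (P : List Λ) (h : ¬ ∀ x ∈ P, x < δ) :
    ∃ (P' : List Λ) (γ : Λ), (γ :: P') <:+ P ∧ ¬ γ < δ ∧ ∀ x ∈ P', x < δ := by
  induction P with
  | nil => exact absurd (by simp) h
  | cons y P ih =>
    by_cases h1 : ∀ x ∈ P, x < δ
    · refine ⟨P, y, List.suffix_rfl, ?_, h1⟩
      intro hy
      apply h
      intro x hx
      rcases List.mem_cons.mp hx with rfl | hx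
      · exact hy
      · exact h1 x hx
    · obtain ⟨P', γ, h2, h3, h4⟩ := ih h1
      exact ⟨P', γ, h2.trans (List.suffix_cons _ _), h3, h4⟩

theorem onB (L : Λ → ℕ → Λ) (δ : Λ) (P : List Λ) (e : List Λ ⊕ Λ) (h : ¬ ∀ x ∈ P, x < δ)
    (P' : List Λ) (γ : Λ) (h1 : (γ :: P') <:+ P) (h2 : ¬ γ < δ) (t : Node Λ) (ht : Below δ t) :
    On L t (P, e) ↔ On L t (P', Sum.inr γ) := by
  constructor
  · rintro (⟨h3, _⟩ | ⟨δ', h3, h4⟩)
    · exfalso
      apply h
      intro x hx
      have h5 : t.1 = P := h3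
      exact ht.1 x (h5 ▸ hx)
    · have h3' : (δ' :: t.1) <:+ P := h3
      rcases le_total (δ' :: t.1).length (γ :: P').length with hle | hle
      · have h5 := List.suffix_of_suffix_length_le h3' h1 hle
        rcases List.suffix_cons_iff.mp h5 with h6 | h6
        · rw [List.cons.injEq] at h6
          obtain ⟨h7, h8⟩ := h6
          left
          refine ⟨h8, ?_⟩
          rw [← h7]
          exact h4
        · exact Or.inr ⟨δ', h6, h4⟩
      · have h5 := List.suffix_of_suffix_length_le h1 h3' hle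
        rcases List.suffix_cons_iff.mp h5 with h6 | h6
        · rw [List.cons.injEq] at h6
          obtain ⟨h7, h8⟩ := h6
          left
          refine ⟨h8.symm, ?_⟩
          rw [h7]
          exact h4
        · exfalso
          exact h2 (ht.1 γ (h6.subset List.mem_cons_self))
  · rintro (⟨h3, h4⟩ | ⟨δ', h3, h4⟩)
    · right
      refine ⟨γ, ?_, h4⟩
      have h5 : t.1 = P' := h3
      rw [h5]
      exact h1
    · right
      refine ⟨δ', ?_, h4⟩
      have h5 : (δ' :: t.1) <:+ P' := h3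
      exact (h5.trans (List.suffix_cons _ _)).trans h1

theorem onA (L : Λ → ℕ → Λ) (P : List Λ) (e e' : List Λ ⊕ Λ) (t : Node Λ)
    (h : Pre L t.2 e ↔ Pre L t.2 e') : On L t (P, e) ↔ On L t (P, e') := by
  show ((t.1 = P ∧ Pre L t.2 e) ∨ _) ↔ ((t.1 = P ∧ Pre L t.2 e') ∨ _)
  rw [h]

theorem pbelow (δ : Λ) (P : List Λ) (hP : ∀ x ∈ P, x < δ) (e : List Λ ⊕ Λ) (he : EB δ e) :
    PBelow δ (P, e) := by
  cases e with
  | inl a => exact ⟨hP, he⟩
  | inr γ => exact ⟨hP, he⟩

end SCTM

theorem specSCT : SpecSCT := by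
  intro Λ _ S L hL δ hδ p
  obtain ⟨P, e⟩ := p
  by_cases h : ∀ x ∈ P, x < δ
  · obtain ⟨e', he', hee⟩ := SCTM.preA hL δ hδ e
    exact ⟨(P, e'), SCTM.pbelow δ P h e' he', fun t ht => SCTM.onA L P e e' t (hee t.2 ht.2)⟩
  · obtain ⟨P', γ, h1, h2, h3⟩ := SCTM.exSplit δ P h
    obtain ⟨e', he', hee⟩ := SCTM.preA hL δ hδ (Sum.inr γ)
    refine ⟨(P', e'), SCTM.pbelow δ P' h3 e' he', fun t ht => ?_⟩
    rw [SCTM.onB L δ P e h P' γ h1 h2 t ht]
    exact SCTM.onA L P' (Sum.inr γ) e' t (hee t.2 ht.2)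

end Pool.Agent.Lib.MP38dfb6.HS
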