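import Pool.Agent.Lib.MP_38dfb6_an.HS.SpecE

/-!
# MP_38dfb6_an: the closing-off argument for two sets (module SDE)
-/

set_option autoImplicit false

namespace Pool.Agent.Lib.MP38dfb6.HS

open Filter Topology Set

universe u v

namespace SDEM

/-- every vector is in the closed span of countably many members of the basis -/
theorem count_supp {𝕜 : Type} [RCLike 𝕜] {X : Type u} [NormedAddCommGroup X] [NormedSpace 𝕜 X]
    {ι : Type v} {x : ι → X} (hf : (Submodule.span 𝕜 (range x)).topologicalClosure = ⊤) (y : X) :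
    ∃ I : Set ι, I.Countable ∧ y ∈ (Submodule.span 𝕜 (x '' I)).topologicalClosure := by
  have hy : y ∈ closure ((Submodule.span 𝕜 (range x) : Submodule 𝕜 X) : Set X) := by
    have h1 : y ∈ (Submodule.span 𝕜 (range x)).topologicalClosure := by
      rw [hf]
      exact Submodule.mem_top
    exact h1
  obtain ⟨w, hw, hlim⟩ := mem_closure_iff_seq_limit.1 hy
  have hfin : ∀ m : ℕ, ∃ I : Set ι, I.Finite ∧ w m ∈ Submodule.span 𝕜 (x '' I) := by
    intro m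
    have h2 : w m ∈ Submodule.span 𝕜 (range x) := hw m
    obtain ⟨c, hc⟩ := (Finsupp.mem_span_range_iff_exists_finsupp).1 h2
    refine ⟨(c.support : Set ι), c.support.finite_toSet, ?_⟩
    rw [← hc, Finsupp.sum]
    refine Submodule.sum_mem _ fun i hi => ?_
    exact Submodule.smul_mem _ _ (Submodule.subset_span ⟨i, hi, rfl⟩)
  choose I hIf hI using hfin
  refine ⟨⋃ m, I m, Set.countable_iUnion fun m => (hIf m).countable, ?_⟩
  have h3 : y ∈ closure ((Submodule.span 𝕜 (x '' ⋃ m, I m) : Submodule 𝕜 X) : Set X) := by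
    refine mem_closure_iff_seq_limit.2 ⟨w, fun m => ?_, hlim⟩
    exact Submodule.span_mono (Set.image_mono (Set.subset_iUnion I m)) (hI m)
  exact h3

/-- a functional which vanishes on the `x j`, `j ∈ I`, vanishes on their closed span -/
theorem vanish {𝕜 : Type} [RCLike 𝕜] {X : Type u} [NormedAddCommGroup X] [NormedSpace 𝕜 X]
    {ι : Type v} {x : ι → X} (f : X →L[𝕜] 𝕜) (I : Set ι) (hz : ∀ j ∈ I, f (x j) = 0)
    (y : X) (hy : y ∈ (Submodule.span 𝕜 (x '' I)).topologicalClosure) : f y = 0 := by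
  have h1 : Submodule.span 𝕜 (x '' I) ≤ LinearMap.ker (f : X →ₗ[𝕜] 𝕜) := by
    rw [Submodule.span_le]
    rintro _ ⟨j, hj, rfl⟩
    exact hz j hj
  have hcl : IsClosed ((LinearMap.ker (f : X →ₗ[𝕜] 𝕜) : Submodule 𝕜 X) : Set X) := by
    have h2 : ((LinearMap.ker (f : X →ₗ[𝕜] 𝕜) : Submodule 𝕜 X) : Set X) = f ⁻¹' {0} := by
      ext z
      simp
    rw [h2]
    exact isClosed_singleton.preimage f.continuous
  have h3 := Submodule.topologicalClosure_minimal _ h1 hcl hy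
  exact h3

/-- the entries of the initial parts of the ladder -/
theorem lad_lt {Λ : Type} [LinearOrder Λ] {L : Λ → ℕ → Λ} {δ : Λ} (h : ∀ i, L δ i < δ) (i : ℕ) :
    ∀ x ∈ lad L δ i, x < δ := by
  induction i with
  | zero =>
    intro x hx
    simp [lad] at hx
  | succ i ih =>
    intro x hx
    simp only [lad, List.mem_cons] at hx
    rcases hx with rfl | hx
    · exact h i
    · exact ih x hx

/-- the code of a point -/
def code {Λ : Type} : Pt Λ → Node Λ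
  | (P, Sum.inl a) => (P, a)
  | (P, Sum.inr γ) => (γ :: P, [])

theorem fiber {Λ : Type} (t : Node Λ) : {p : Pt Λ | code p = t}.Countable := by
  have h : {p : Pt Λ | code p = t} ⊆
      {(t.1, Sum.inl t.2)} ∪ (fun x => ((t.1.tail, Sum.inr x) : Pt Λ)) '' {x | x ∈ t.1} := by
    rintro ⟨P, e⟩ hp
    have hp' : code (P, e) = t := hp
    subst hp'
    rcases e with a | γ
    · left
      rfl
    · right
      exact ⟨γ, List.mem_cons_self, rfl⟩
  exact ((Set.countable_singleton _).union ((List.finite_toSet t.1).image _).countable).mono h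

theorem below_code {Λ : Type} [LinearOrder Λ] (δ : Λ) (q : Pt Λ) (h : PBelow δ q) :
    Below δ (code q) := by
  rcases q with ⟨P, a | γ⟩
  · exact h
  · refine ⟨?_, ?_⟩
    · intro x hx
      rcases List.mem_cons.1 hx with rfl | hx
      · exact h.2
      · exact h.1 x hx
    · intro x hx
      cases hx

theorem ev_ch {𝕜 : Type} [RCLike 𝕜] {Λ : Type} (L : Λ → ℕ → Λ) (p q : PN Λ ⊤) (t : Node Λ)
    (h : On L t p.1 ↔ On L t q.1) : ev 𝕜 L ⊤ p (ch 𝕜 L ⊤ t) = ev 𝕜 L ⊤ q (ch 𝕜 L ⊤ t) := by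
  classical
  show (if On L t p.1 then (1 : 𝕜) else 0) = if On L t q.1 then (1 : 𝕜) else 0
  by_cases h1 : On L t p.1
  · rw [if_pos h1, if_pos (h.1 h1)]
  · rw [if_neg h1, if_neg (fun h2 => h1 (h.2 h2))]

end SDEM

open SDEM in
theorem specSDE (hCNT : Pool.Agent.Lib.MP38dfb6.SpecCNT) (hGEN : Pool.Agent.Lib.MP38dfb6.SpecGEN)
    (hSCO : SpecSCO) (hSCT : SpecSCT) : SpecSDE := by
  intro 𝕜 _ Λ _ S S' L L' hOm hL hL' hStat J n
  have h1 : ∀ s : Node Λ, ∃ I : Set (Node Λ), I.Countable ∧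
      J (ch 𝕜 L ⊤ s) ∈ (Submodule.span 𝕜 (ch 𝕜 L' ⊤ '' I)).topologicalClosure :=
    fun s => count_supp (hGEN 𝕜 Λ L' ⊤).1 _
  choose I hIc hI using h1
  have h2 : ∀ s : Node Λ, ∃ b : Λ, ∀ t ∈ I s, (∀ y ∈ t.1, y < b) ∧ ∀ y ∈ t.2, y < b := by
    intro s
    have hT : (⋃ t ∈ I s, ({y | y ∈ t.1} ∪ {y | y ∈ t.2} : Set Λ)).Countable := by
      refine (hIc s).biUnion fun t _ => ?_
      exact ((List.finite_toSet t.1).union (List.finite_toSet t.2)).countable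
    obtain ⟨b, hbb⟩ := hOm.bdd _ hT
    refine ⟨b, fun t ht => ⟨fun y hy => hbb y ?_, fun y hy => hbb y ?_⟩⟩
    · simp only [Set.mem_iUnion]
      exact ⟨t, ht, Or.inl hy⟩
    · simp only [Set.mem_iUnion]
      exact ⟨t, ht, Or.inr hy⟩
  choose β₁ hβ₁ using h2
  have h3 : ∀ t : Node Λ, ∃ b : Λ, ∀ p : Pt Λ, code p = t → ∀ s : Node Λ,
      ((ev 𝕜 L' ⊤ ⟨p, le_top⟩).comp J) (ch 𝕜 L ⊤ s) ≠ 0 →
      (∀ y ∈ s.1, y < b) ∧ ∀ y ∈ s.2, y < b := by
    intro t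
    have hT : (⋃ p ∈ {p : Pt Λ | code p = t},
        ⋃ s ∈ {s : Node Λ | ((ev 𝕜 L' ⊤ ⟨p, le_top⟩).comp J) (ch 𝕜 L ⊤ s) ≠ 0},
        ({y | y ∈ s.1} ∪ {y | y ∈ s.2} : Set Λ)).Countable := by
      refine (fiber t).biUnion fun p _ => ?_
      refine ((hCNT 𝕜 Λ L ⊤ ((ev 𝕜 L' ⊤ ⟨p, le_top⟩).comp J)).1).biUnion fun s _ => ?_
      exact ((List.finite_toSet s.1).union (List.finite_toSet s.2)).countable
    obtain ⟨b, hbb⟩ := hOm.bdd _ hT
    refine ⟨b, fun p hp s hs => ⟨fun y hy => hbb y ?_, fun y hy => hbb y ?_⟩⟩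
    · simp only [Set.mem_iUnion]
      exact ⟨p, hp, s, hs, Or.inl hy⟩
    · simp only [Set.mem_iUnion]
      exact ⟨p, hp, s, hs, Or.inr hy⟩
  choose β₂ hβ₂ using h3
  obtain ⟨D, hDn, hD⟩ := hSCO Λ hOm (S \ S') hStat (fun s => max (β₁ s) (β₂ s)) n
  refine ⟨D, hDn, fun p δ D' hsuf => ?_⟩
  obtain ⟨⟨hδS, hδS'⟩, hcl, hD'⟩ := hD δ D' hsuf
  obtain ⟨q, hq, hpq⟩ := hSCT Λ S' L' hL' δ hδS' p.1
  have hbq := below_code δ q hq
  have hlt : max (β₁ (code q)) (β₂ (code q)) < δ := hcl (code q) hbq.1 hbq.2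
  obtain ⟨j, hj⟩ := hL.sur δ hδS _ hlt
  refine ⟨j + 1, ?_⟩
  obtain ⟨s, hs⟩ : ∃ s : Node Λ, s = (D', lad L δ (j + 1)) := ⟨_, rfl⟩
  have hs2 : ∀ x ∈ lad L δ (j + 1), x < δ := lad_lt (hL.lt δ hδS _ hlt) (j + 1)
  have hzero : ((ev 𝕜 L' ⊤ ⟨q, le_top⟩).comp J) (ch 𝕜 L ⊤ s) = 0 := by
    by_contra hne
    have h4 := (hβ₂ (code q) q rfl s hne).2 (max (β₁ (code q)) (β₂ (code q))) (by
      rw [hs]
      show _ ∈ L δ j :: lad L δ j
      rw [hj]
      exact List.mem_cons_self)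
    exact absurd (h4.trans_le (le_max_right _ _)) (lt_irrefl _)
  have hsb : max (β₁ s) (β₂ s) < δ := hcl s (by rw [hs]; exact hD') (by rw [hs]; exact hs2)
  have hsub : (ev 𝕜 L' ⊤ p - ev 𝕜 L' ⊤ ⟨q, le_top⟩) (J (ch 𝕜 L ⊤ s)) = 0 := by
    refine vanish (x := ch 𝕜 L' ⊤) _ (I s) ?_ _ (hI s)
    intro t ht
    have hb : β₁ s < δ := (le_max_left _ _).trans_lt hsb
    have hbt : Below δ t := ⟨fun y hy => ((hβ₁ s t ht).1 y hy).trans hb,
      fun y hy => ((hβ₁ s t ht).2 y hy).trans hb⟩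
    rw [ContinuousLinearMap.sub_apply, sub_eq_zero]
    exact ev_ch L' p ⟨q, le_top⟩ t (hpq t hbt)
  rw [ContinuousLinearMap.sub_apply, sub_eq_zero] at hsub
  rw [← hs]
  show ev 𝕜 L' ⊤ p (J (ch 𝕜 L ⊤ s)) = 0
  rw [hsub]
  exact hzero

end Pool.Agent.Lib.MP38dfb6.HS
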