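import Pool.Agent.Lib.MP_38dfb6_an.HS.SpecS

/-!
# MP_38dfb6_an: the closing-off argument for ladders on a stationary set (module SKI)
-/

set_option autoImplicit false

namespace Pool.Agent.Lib.MP38dfb6.HS

open Filter Topology Set

universe u v

namespace SKIM

/-- every vector is in the closed span of countably many members of the basis -/
theorem count_supp {𝕜 : Type} [RCLike 𝕜] {X : Type u} [NormedAddCommGroup X] [NormedSpace 𝕜 X]
    {ι : Type v} {x : ι → X} (hf : (Submodule.span 𝕜 (range x)).topologicalClosure = ⊤) (y : X) :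
    ∃ I : Set ι, I.Countable ∧ y ∈ (Submodule.span 𝕜 (x '' I)).topologicalClosure := by
  have hy : y ∈ closure ((Submodule.span 𝕜 (range x) : Submodule 𝕜 X) : Set X) := by
    have h1 : y ∈ (Submodule.span 𝕜 (range x)).topologicalClosure := by
      rw [hf]
      exact Submodule.mem_top
    exact h1
  obtain ⟨w, hw, hlim⟩ := mem_closure_iff_seq_limit.1 hy
  have hfin : ∀ m : ℕ, ∃ I : Set ι, I.Finite ∧ w m ∈ Submodule.span 𝕜 (x '' I) := by
    intro m
    have h2 : w m ∈ Submodule.span 𝕜 (range x) := hw m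
    obtain ⟨c, hc⟩ := (Finsupp.mem_span_range_iff_exists_finsupp).1 h2
    refine ⟨(c.support : Set ι), c.support.finite_toSet, ?_⟩
    rw [← hc, Finsupp.sum]
    refine Submodule.sum_mem _ fun i hi => ?_
    exact Submodule.smul_mem _ _ (Submodule.subset_span ⟨i, hi, rfl⟩)
  choose I hIf hI using hfin
  refine ⟨⋃ m, I m, Set.countable_iUnion fun m => (hIf m).countable, ?_⟩
  have h3 : y ∈ closure ((Submodule.span 𝕜 (x '' ⋃ m, I m) : Submodule 𝕜 X) : Set X) := by
    refine mem_closure_iff_seq_limit.2 ⟨w, fun m => ?_, hlim⟩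
    exact Submodule.span_mono (Set.image_mono (Set.subset_iUnion I m)) (hI m)
  exact h3

/-- functionals outside the support vanish -/
theorem vanish {𝕜 : Type} [RCLike 𝕜] {X : Type u} [NormedAddCommGroup X] [NormedSpace 𝕜 X]
    {ι : Type v} {x : ι → X} {f : ι → (X →L[𝕜] 𝕜)} (hz : ∀ i j, i ≠ j → f i (x j) = 0)
    (I : Set ι) (y : X) (hy : y ∈ (Submodule.span 𝕜 (x '' I)).topologicalClosure) (i : ι)
    (hi : i ∉ I) : f i y = 0 := by
  have h1 : Submodule.span 𝕜 (x '' I) ≤ LinearMap.ker (f i : X →ₗ[𝕜] 𝕜) := by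
    rw [Submodule.span_le]
    rintro _ ⟨j, hj, rfl⟩
    have hne : i ≠ j := fun h => hi (h ▸ hj)
    exact hz i j hne
  have hcl : IsClosed ((LinearMap.ker (f i : X →ₗ[𝕜] 𝕜) : Submodule 𝕜 X) : Set X) := by
    have h2 : ((LinearMap.ker (f i : X →ₗ[𝕜] 𝕜) : Submodule 𝕜 X) : Set X) = (f i) ⁻¹' {0} := by
      ext z
      simp
    rw [h2]
    exact isClosed_singleton.preimage (f i).continuous
  have h3 := Submodule.topologicalClosure_minimal _ h1 hcl hy
  exact h3

/-- the entries of the initial parts of the ladder -/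
theorem lad_lt {Λ : Type} [LinearOrder Λ] {L : Λ → ℕ → Λ} {δ : Λ} (h : ∀ i, L δ i < δ) (i : ℕ) :
    ∀ x ∈ lad L δ i, x < δ := by
  induction i with
  | zero =>
    intro x hx
    simp [lad] at hx
  | succ i ih =>
    intro x hx
    simp only [lad, List.mem_cons] at hx
    rcases hx with rfl | hx
    · exact h i
    · exact ih x hx

end SKIM

open SKIM in
theorem specSKI (hCNT : Pool.Agent.Lib.MP38dfb6.SpecCNT) (hSCO : SpecSCO) : SpecSKI.{u, v} := by
  intro 𝕜 _ Λ _ S L N hOm hLad hStat X _ _ J ι x f hb n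
  have h1 : ∀ s : Node Λ, ∃ I : Set ι, I.Countable ∧
      J (ch 𝕜 L N s) ∈ (Submodule.span 𝕜 (x '' I)).topologicalClosure :=
    fun s => count_supp hb.fund _
  choose I hIc hI using h1
  have h2 : ∀ s : Node Λ, ∃ b : Λ, ∀ i ∈ I s, ∀ t : Node Λ, f i (J (ch 𝕜 L N t)) ≠ 0 →
      (∀ y ∈ t.1, y < b) ∧ ∀ y ∈ t.2, y < b := by
    intro s
    have hT : (⋃ i ∈ I s, ⋃ t ∈ {t : Node Λ | ((f i).comp J) (ch 𝕜 L N t) ≠ 0},
        ({y | y ∈ t.1} ∪ {y | y ∈ t.2} : Set Λ)).Countable := by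
      refine (hIc s).biUnion fun i _ => ?_
      refine ((hCNT 𝕜 Λ L N ((f i).comp J)).1).biUnion fun t _ => ?_
      exact ((List.finite_toSet t.1).union (List.finite_toSet t.2)).countable
    obtain ⟨b, hbb⟩ := hOm.bdd _ hT
    refine ⟨b, fun i hi t ht => ⟨fun y hy => hbb y ?_, fun y hy => hbb y ?_⟩⟩
    · simp only [Set.mem_iUnion]
      exact ⟨i, hi, t, ht, Or.inl hy⟩
    · simp only [Set.mem_iUnion]
      exact ⟨i, hi, t, ht, Or.inr hy⟩
  choose β hβ using h2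
  obtain ⟨D, hDn, hD⟩ := hSCO Λ hOm S hStat β n
  refine ⟨D, hDn, fun φ hφ δ D' hsuf => ?_⟩
  obtain ⟨hδS, hcl, hD'⟩ := hD δ D' hsuf
  obtain ⟨c, hc⟩ := (Finsupp.mem_span_range_iff_exists_finsupp).1 hφ
  have hsel : ∀ F : Finset ι, ∃ δ' : Λ, δ' < δ ∧ ∀ i ∈ F,
      (∃ s : Node Λ, (∀ y ∈ s.1, y < δ) ∧ (∀ y ∈ s.2, y < δ) ∧ i ∈ I s) →
      ∃ s : Node Λ, i ∈ I s ∧ β s ≤ δ' := by
    classical
    intro F
    induction F using Finset.induction_on with
    | empty =>
      refine ⟨β ([], []), hcl ([], []) (by simp) (by simp), ?_⟩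
      intro i hi
      simp at hi
    | insert i₀ F hi₀ ih =>
      obtain ⟨δ₁, hδ₁, h⟩ := ih
      by_cases hP : ∃ s : Node Λ, (∀ y ∈ s.1, y < δ) ∧ (∀ y ∈ s.2, y < δ) ∧ i₀ ∈ I s
      · obtain ⟨s₀, hs1, hs2, hs3⟩ := hP
        refine ⟨max δ₁ (β s₀), max_lt hδ₁ (hcl s₀ hs1 hs2), ?_⟩
        intro i hi hPi
        rcases Finset.mem_insert.1 hi with rfl | hi
        · exact ⟨s₀, hs3, le_max_right _ _⟩
        · obtain ⟨s, hs, hle⟩ := h i hi hPi
          exact ⟨s, hs, hle.trans (le_max_left _ _)⟩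
      · refine ⟨δ₁, hδ₁, ?_⟩
        intro i hi hPi
        rcases Finset.mem_insert.1 hi with rfl | hi
        · exact absurd hPi hP
        · exact h i hi hPi
  obtain ⟨δ', hδ', hsel⟩ := hsel c.support
  obtain ⟨j, hj⟩ := hLad.sur δ hδS δ' hδ'
  refine ⟨j + 1, ?_⟩
  have hall : ∀ i ∈ c.support, f i (J (ch 𝕜 L N (D', lad L δ (j + 1)))) = 0 := by
    intro i hi
    by_cases hP : ∃ s : Node Λ, (∀ y ∈ s.1, y < δ) ∧ (∀ y ∈ s.2, y < δ) ∧ i ∈ I s
    · obtain ⟨s, hs, hle⟩ := hsel i hi hP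
      by_contra hne
      have h3 := (hβ s i hs (D', lad L δ (j + 1)) hne).2 δ' (by
        show δ' ∈ L δ j :: lad L δ j
        rw [hj]
        exact List.mem_cons_self)
      exact absurd (h3.trans_le hle) (lt_irrefl _)
    · have hni : i ∉ I (D', lad L δ (j + 1)) := fun h =>
        hP ⟨(D', lad L δ (j + 1)), hD', lad_lt (hLad.lt δ hδS δ' hδ') (j + 1), h⟩
      exact vanish hb.zero _ _ (hI _) i hni
  rw [← hc, Finsupp.sum, ContinuousLinearMap.sum_apply]
  refine Finset.sum_eq_zero fun i hi => ?_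
  rw [ContinuousLinearMap.smul_apply, hall i hi, smul_zero]

end Pool.Agent.Lib.MP38dfb6.HS
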