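import Pool.Agent.Lib.MP_38dfb6_an.HS.SpecS

/-!
# SLA (MP_38dfb6_an): ladders on a subset of a well-order of type `ω₁`
-/

set_option autoImplicit false

namespace Pool.Agent.Lib.MP38dfb6.HS

open Filter Topology Set

theorem specSLA : SpecSLA := by
  intro Λ _ hΛ S
  have hL : ∀ δ : Λ, ∃ f : ℕ → Λ,
      (δ ∈ S → ∀ x : Λ, x < δ → (∃ i, f i = x) ∧ ∀ i, f i < δ) ∧
        ((δ ∉ S ∨ ∀ x : Λ, ¬ x < δ) → ∀ i, f i = δ) := by
    intro δ
    by_cases hc : δ ∈ S ∧ (Iio δ).Nonempty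
    · obtain ⟨hS, hne⟩ := hc
      obtain ⟨f, hf⟩ := (hΛ.cnt δ).exists_eq_range hne
      refine ⟨f, fun _ x hx => ⟨?_, fun i => ?_⟩, ?_⟩
      · have : x ∈ range f := hf ▸ hx
        exact this
      · have : f i ∈ Iio δ := hf ▸ mem_range_self i
        exact this
      · rintro (h | h)
        · exact absurd hS h
        · obtain ⟨x, hx⟩ := hne
          exact absurd hx (h x)
    · refine ⟨fun _ => δ, fun hS x hx => ?_, fun _ _ => rfl⟩
      exact absurd ⟨hS, ⟨x, hx⟩⟩ hc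
  choose L hL using hL
  exact ⟨L, fun δ hδ x hx => ((hL δ).1 hδ x hx).1, fun δ hδ x hx => ((hL δ).1 hδ x hx).2,
    fun δ h => (hL δ).2 h⟩

end Pool.Agent.Lib.MP38dfb6.HS
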