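import Pool.Agent.Lib.MP_38dfb6_an.HS.SpecE

/-!
# Module SNE (MP_38dfb6_an, HS): no embedding of one ladder space into another one
-/

set_option autoImplicit false

namespace Pool.Agent.Lib.MP38dfb6.HS

open Filter Topology Set

theorem specSNE (hSDE : SpecSDE) (hTST : Pool.Agent.Lib.MP38dfb6.SpecTST) : SpecSNE := by
  intro 𝕜 _ Λ _ S S' L L' hO hL hL' hSt J a ha hJ
  obtain ⟨n, hn⟩ := exists_nat_gt (‖J‖ / a)
  obtain ⟨D, hDn, hD⟩ := hSDE 𝕜 Λ S S' L L' hO hL hL' hSt J n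
  obtain ⟨hT1, hT2⟩ := hTST 𝕜 Λ L ⊤ D
  set G := GG 𝕜 L ⊤ D with hG
  have hGn : (2 * n + 1 : ℝ) ≤ ‖G‖ := by
    have := hT1 le_top
    rw [hDn] at this
    exact this
  have hev : ∀ p : PN Λ ⊤, ‖ev 𝕜 L' ⊤ p‖ ≤ 1 := fun p => by
    unfold ev
    exact LinearMap.mkContinuous_norm_le _ zero_le_one _
  have hJG : ‖J G‖ ≤ ‖J‖ := by
    refine lp.norm_le_of_forall_le (norm_nonneg J) (f := (J G).1) ?_
    intro p
    have h1 : ‖((ev 𝕜 L' ⊤ p).comp J) G‖ ≤ ‖(ev 𝕜 L' ⊤ p).comp J‖ :=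
      hT2 ((ev 𝕜 L' ⊤ p).comp J) (fun δ D' hs => hD p δ D' hs)
    have h2 : ‖(ev 𝕜 L' ⊤ p).comp J‖ ≤ ‖J‖ := by
      refine (ContinuousLinearMap.opNorm_comp_le _ J).trans ?_
      have := mul_le_mul_of_nonneg_right (hev p) (norm_nonneg J)
      rwa [one_mul] at this
    exact h1.trans h2
  have h3 : a * (2 * n + 1) ≤ ‖J‖ :=
    (mul_le_mul_of_nonneg_left hGn ha.le).trans ((hJ G).trans hJG)
  have h4 : ‖J‖ < n * a := (div_lt_iff₀ ha).1 hn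
  have h5 : (0 : ℝ) ≤ n * a := by positivity
  nlinarith

end Pool.Agent.Lib.MP38dfb6.HS
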