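import Pool.Agent.Lib.MP_38dfb6_an.HS.SpecS

/-!
# SSE: ladders on a set which is not stationary can be separated
-/

set_option autoImplicit false

namespace Pool.Agent.Lib.MP38dfb6.HS

open Filter Topology Set

namespace SSEM

lemma mem_lad {Λ : Type} (L : Λ → ℕ → Λ) (δ x : Λ) (n : ℕ) :
    x ∈ lad L δ n ↔ ∃ m < n, L δ m = x := by
  induction n with
  | zero => simp [lad]
  | succ n ih =>
    rw [lad, List.mem_cons, ih]
    constructor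
    · rintro (h | ⟨m, hm, h⟩)
      · exact ⟨n, Nat.lt_succ_self n, h.symm⟩
      · exact ⟨m, Nat.lt_succ_of_lt hm, h⟩
    · rintro ⟨m, hm, h⟩
      rcases Nat.lt_succ_iff_lt_or_eq.1 hm with h1 | h1
      · exact Or.inr ⟨m, h1, h⟩
      · subst h1
        exact Or.inl h.symm

lemma ctb {Λ : Type} [LinearOrder Λ] (hO : Om1 Λ) (S C : Set Λ) (hC : Club C) (c : Set Λ) :
    {δ | δ ∈ S ∧ C ∩ Iio δ = c}.Countable := by
  rcases Set.eq_empty_or_nonempty {δ | δ ∈ S ∧ C ∩ Iio δ = c} with h | ⟨δ0, h0⟩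
  · rw [h]; exact Set.countable_empty
  · obtain ⟨c', hc', hlt⟩ := hC.unb δ0
    have h1 : (Iic c').Countable := by
      rw [← Set.Iio_insert]
      exact (hO.cnt c').insert c'
    refine h1.mono ?_
    intro δ hδ
    rw [mem_Iic]
    by_contra hcon
    have h2 : c' ∈ C ∩ Iio δ := ⟨hc', not_le.1 hcon⟩
    rw [hδ.2, ← h0.2] at h2
    exact lt_asymm hlt h2.2

lemma exj {Λ : Type} [LinearOrder Λ] (hO : Om1 Λ) (S C : Set Λ) (hC : Club C)
    (hSC : ∀ x ∈ S, x ∉ C) (L : Λ → ℕ → Λ) (hL : LadS S L) (δ : Λ) :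
    ∃ j : ℕ, δ ∈ S → ∀ c ∈ C ∩ Iio δ, c ≤ L δ j := by
  by_cases hδ : δ ∈ S ∧ (C ∩ Iio δ).Nonempty
  · obtain ⟨hS, hne⟩ := hδ
    have hub : (upperBounds (C ∩ Iio δ)).Nonempty := ⟨δ, fun c hc => le_of_lt hc.2⟩
    have hm := hO.wf.min_mem _ hub
    have hlub : IsLUB (C ∩ Iio δ) (hO.wf.min _ hub) := by
      refine ⟨hm, fun b hb => ?_⟩
      exact not_lt.1 (hO.wf.not_lt_min _ hb)
    have hin : hO.wf.min _ hub ∈ C := hC.cl _ inter_subset_left hne _ hlub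
    have hle : hO.wf.min _ hub ≤ δ := hlub.2 (fun c hc => le_of_lt hc.2)
    have hlt : hO.wf.min _ hub < δ := by
      refine lt_of_le_of_ne hle ?_
      intro h
      rw [h] at hin
      exact hSC δ hS hin
    obtain ⟨j, hj⟩ := hL.sur δ hS _ hlt
    refine ⟨j, fun _ c hc => ?_⟩
    rw [hj]
    exact hm hc
  · refine ⟨0, fun hS c hc => ?_⟩
    exact absurd ⟨hS, ⟨c, hc⟩⟩ hδ

end SSEM

theorem specSSE : SpecSSE := by
  intro Λ _ hO S hS L hL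
  have h1 : ∃ C : Set Λ, Club C ∧ ¬ (S ∩ C).Nonempty := by
    by_contra hcon
    apply hS
    intro C hC
    by_contra h
    exact hcon ⟨C, hC, h⟩
  obtain ⟨C, hC, hSC'⟩ := h1
  have hSC : ∀ x ∈ S, x ∉ C := fun x hx hx' => hSC' ⟨x, hx, hx'⟩
  choose jj hjj using SSEM.exj hO S C hC hSC L hL
  have h2 : ∀ c : Set Λ, ∃ k : Λ → ℕ, InjOn k {δ | δ ∈ S ∧ C ∩ Iio δ = c} := fun c =>
    Set.countable_iff_exists_injOn.1 (SSEM.ctb hO S C hC c)
  choose k hk using h2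
  refine ⟨fun δ => max (jj δ + 1) (k (C ∩ Iio δ) δ), ?_⟩
  intro a
  have hsub : ∀ δ δ' : Λ, δ ∈ S → δ' ∈ S → (∃ x, x < δ') → jj δ < a.length →
      a = lad L δ a.length → a = lad L δ' a.length → C ∩ Iio δ ⊆ C ∩ Iio δ' := by
    intro δ δ' hδ hδ' hx hj h3 h4 c hc
    have h5 : c ≤ L δ (jj δ) := hjj δ hδ c hc
    have h6 : L δ (jj δ) ∈ lad L δ a.length := (SSEM.mem_lad L δ _ _).2 ⟨jj δ, hj, rfl⟩
    rw [← h3, h4] at h6
    obtain ⟨m, _, h7⟩ := (SSEM.mem_lad L δ' _ _).1 h6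
    obtain ⟨x, hx⟩ := hx
    have h8 : L δ' m < δ' := hL.lt δ' hδ' x hx m
    rw [h7] at h8
    exact ⟨hc.1, lt_of_le_of_lt h5 h8⟩
  have hT1 : {δ | (max (jj δ + 1) (k (C ∩ Iio δ) δ) < a.length ∧ a = lad L δ a.length) ∧
      (δ ∉ S ∨ ∀ x, ¬ x < δ)}.Finite := by
    apply Set.Subsingleton.finite
    rintro δ ⟨⟨h3, h4⟩, h5⟩ δ' ⟨⟨_, h4'⟩, h5'⟩
    have h6 : 0 < a.length := lt_of_le_of_lt (Nat.zero_le _) h3
    obtain ⟨n, hn⟩ : ∃ n, a.length = n + 1 := ⟨a.length - 1, by omega⟩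
    rw [hn] at h4 h4'
    rw [h4] at h4'
    rw [lad, lad, hL.out δ h5 n, hL.out δ' h5' n] at h4'
    exact (List.cons.inj h4').1
  have hT2 : {δ | (max (jj δ + 1) (k (C ∩ Iio δ) δ) < a.length ∧ a = lad L δ a.length) ∧
      (δ ∈ S ∧ ∃ x, x < δ)}.Finite := by
    rcases Set.eq_empty_or_nonempty {δ | (max (jj δ + 1) (k (C ∩ Iio δ) δ) < a.length ∧
      a = lad L δ a.length) ∧ (δ ∈ S ∧ ∃ x, x < δ)} with h | ⟨δ0, ⟨h3, h4⟩, h5, h6⟩
    · rw [h]; exact Set.finite_empty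
    · have h7 : {δ | (δ ∈ S ∧ C ∩ Iio δ = C ∩ Iio δ0) ∧ k (C ∩ Iio δ0) δ < a.length}.Finite := by
        apply Set.Finite.of_finite_image (f := k (C ∩ Iio δ0))
        · refine (Set.finite_Iio a.length).subset ?_
          rintro _ ⟨δ, hδ, rfl⟩
          exact hδ.2
        · exact (hk (C ∩ Iio δ0)).mono (fun δ hδ => hδ.1)
      refine h7.subset ?_
      rintro δ ⟨⟨h8, h9⟩, h10, h11⟩
      have h12 : C ∩ Iio δ = C ∩ Iio δ0 := by
        apply Set.Subset.antisymm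
        · exact hsub δ δ0 h10 h5 h6 (lt_of_lt_of_le (Nat.lt_succ_self _)
            (le_of_lt (lt_of_le_of_lt (le_max_left _ _) h8))) h9 h4
        · exact hsub δ0 δ h5 h10 h11 (lt_of_lt_of_le (Nat.lt_succ_self _)
            (le_of_lt (lt_of_le_of_lt (le_max_left _ _) h3))) h4 h9
      refine ⟨⟨h10, h12⟩, ?_⟩
      rw [← h12]
      exact lt_of_le_of_lt (le_max_right _ _) h8
  refine (hT1.union hT2).subset ?_
  intro δ hδ
  by_cases h3 : δ ∈ S ∧ ∃ x, x < δ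
  · exact Or.inr ⟨hδ, h3⟩
  · refine Or.inl ⟨hδ, ?_⟩
    by_cases h4 : δ ∈ S
    · exact Or.inr fun x hx => h3 ⟨h4, x, hx⟩
    · exact Or.inl h4

end Pool.Agent.Lib.MP38dfb6.HS
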