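import Pool.Agent.Lib.MP_38dfb6_an.HS.Spec

set_option autoImplicit false

namespace Pool.Agent.Lib.MP38dfb6.HS

open Filter Topology Set MeasureTheory

universe u v

namespace SUBM

variable {𝕜 : Type} [RCLike 𝕜] {X : Type u} [NormedAddCommGroup X] [NormedSpace 𝕜 X]

lemma bdd_above (V : Submodule 𝕜 (X →L[𝕜] 𝕜)) (x : X) :
    BddAbove (range fun f : {f : X →L[𝕜] 𝕜 // f ∈ V ∧ ‖f‖ ≤ 1} => ‖f.1 x‖) := by
  refine ⟨‖x‖, ?_⟩
  rintro _ ⟨f, rfl⟩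
  exact (f.1.le_opNorm x).trans (mul_le_of_le_one_left (norm_nonneg _) f.2.2)

instance ne_sub (V : Submodule 𝕜 (X →L[𝕜] 𝕜)) :
    Nonempty {f : X →L[𝕜] 𝕜 // f ∈ V ∧ ‖f‖ ≤ 1} := ⟨⟨0, V.zero_mem, by simp⟩⟩

lemma bdd_below (V : Submodule 𝕜 (X →L[𝕜] 𝕜)) :
    BddBelow (range fun x : {x : X // ‖x‖ = 1} =>
      ⨆ f : {f : X →L[𝕜] 𝕜 // f ∈ V ∧ ‖f‖ ≤ 1}, ‖f.1 x.1‖) := by
  refine ⟨0, ?_⟩
  rintro _ ⟨x, rfl⟩
  exact Real.iSup_nonneg fun f => norm_nonneg _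

lemma charac_le (V : Submodule 𝕜 (X →L[𝕜] 𝕜)) {x : X} (hx : ‖x‖ = 1) :
    charac 𝕜 V ≤ ⨆ f : {f : X →L[𝕜] 𝕜 // f ∈ V ∧ ‖f‖ ≤ 1}, ‖f.1 x‖ :=
  ciInf_le (bdd_below V) (⟨x, hx⟩ : {x : X // ‖x‖ = 1})

lemma exists_lt (V : Submodule 𝕜 (X →L[𝕜] 𝕜)) {x : X} (hx : ‖x‖ = 1) {ε : ℝ} (hε : 0 < ε) :
    ∃ f ∈ V, ‖f‖ ≤ 1 ∧ charac 𝕜 V - ε < ‖f x‖ := by
  have h1 : charac 𝕜 V - ε < ⨆ f : {f : X →L[𝕜] 𝕜 // f ∈ V ∧ ‖f‖ ≤ 1}, ‖f.1 x‖ := by
    have := charac_le V hx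
    linarith
  obtain ⟨f, hf⟩ := exists_lt_of_lt_ciSup h1
  exact ⟨f.1, f.2.1, f.2.2, hf⟩

lemma exists_unit {v : X} (hv : v ≠ 0) : ‖((‖v‖⁻¹ : ℝ) : 𝕜) • v‖ = 1 := by
  rw [norm_smul, RCLike.norm_ofReal, abs_of_nonneg (inv_nonneg.2 (norm_nonneg _)),
    inv_mul_cancel₀ (norm_ne_zero_iff.2 hv)]

lemma charac_le_one (V : Submodule 𝕜 (X →L[𝕜] 𝕜)) (h : 0 < charac 𝕜 V) : charac 𝕜 V ≤ 1 := by
  rcases isEmpty_or_nonempty {x : X // ‖x‖ = 1} with he | hne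
  · unfold charac at h
    rw [Real.iInf_of_isEmpty] at h
    exact absurd h (lt_irrefl 0)
  · obtain ⟨x, hx⟩ := hne
    refine (charac_le V hx).trans (ciSup_le fun f => ?_)
    refine (f.1.le_opNorm x).trans ?_
    rw [hx, mul_one]
    exact f.2.2

lemma approx (V : Submodule 𝕜 (X →L[𝕜] 𝕜)) {g : X →L[𝕜] 𝕜} (hg : g ∈ V.topologicalClosure)
    (hg1 : ‖g‖ ≤ 1) (v : X) {ε : ℝ} (hε : 0 < ε) :
    ∃ φ ∈ V, ‖φ‖ ≤ 1 ∧ ‖g v‖ ≤ ‖φ v‖ + ε := by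
  set η : ℝ := ε / (2 * (‖v‖ + 1)) with hη
  have hη0 : 0 < η := by positivity
  obtain ⟨ψ, hψ, hd⟩ := Metric.mem_closure_iff.1 hg η hη0
  rw [dist_eq_norm] at hd
  have hψn : ‖ψ‖ ≤ 1 + η := by
    have h1 : ψ = g - (g - ψ) := by abel
    rw [h1]
    refine (norm_sub_le _ _).trans ?_
    linarith
  have hc : ‖(((1 + η)⁻¹ : ℝ) : 𝕜)‖ = (1 + η)⁻¹ := by
    rw [RCLike.norm_ofReal, abs_of_nonneg (by positivity)]
  refine ⟨(((1 + η)⁻¹ : ℝ) : 𝕜) • ψ, V.smul_mem _ hψ, ?_, ?_⟩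
  · rw [norm_smul, hc, inv_mul_le_iff₀ (by positivity)]
    linarith
  · have h2 : ‖g v‖ ≤ ‖ψ v‖ + η * ‖v‖ := by
      have h3 : g v = ψ v + (g - ψ) v := by simp
      rw [h3]
      refine (norm_add_le _ _).trans ?_
      have h4 : ‖(g - ψ) v‖ ≤ η * ‖v‖ := ((g - ψ).le_opNorm v).trans (by gcongr)
      linarith
    have h5 : ‖((((1 + η)⁻¹ : ℝ) : 𝕜) • ψ) v‖ = (1 + η)⁻¹ * ‖ψ v‖ := by
      rw [smul_apply, norm_smul, hc]
    have h6 : ‖ψ v‖ ≤ (1 + η) * ‖v‖ := (ψ.le_opNorm v).trans (by gcongr)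
    have h7 : ‖ψ v‖ - (1 + η)⁻¹ * ‖ψ v‖ ≤ η * ‖v‖ := by
      have h8 : ‖ψ v‖ - (1 + η)⁻¹ * ‖ψ v‖ = (1 + η)⁻¹ * η * ‖ψ v‖ := by
        field_simp
        ring
      rw [h8]
      calc (1 + η)⁻¹ * η * ‖ψ v‖ ≤ (1 + η)⁻¹ * η * ((1 + η) * ‖v‖) := by gcongr
        _ = η * ‖v‖ := by field_simp
    have h9 : 2 * η * ‖v‖ ≤ ε := by
      have h10 : η * (2 * (‖v‖ + 1)) = ε := by
        rw [hη]
        field_simp
      nlinarith
    rw [h5]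
    linarith

/-- the norming condition -/
lemma nm {ι : Type v} (x : ι → X) (f : ι → (X →L[𝕜] 𝕜)) :
    NM x f (charac 𝕜 (cspan 𝕜 f)) univ := by
  intro v _ ε hε
  by_cases hv : v = 0
  · refine ⟨0, Submodule.zero_mem _, fun w _ => by simp, ?_⟩
    rw [hv, norm_zero, mul_zero]
    simp only [map_zero, norm_zero, zero_add]
    exact hε.le
  · have hvn : 0 < ‖v‖ := norm_pos_iff.2 hv
    obtain ⟨g, hg, hg1, hlt⟩ := exists_lt (cspan 𝕜 f) (exists_unit (𝕜 := 𝕜) hv)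
      (ε := ε / (2 * ‖v‖)) (by positivity)
    obtain ⟨φ, hφ, hφ1, hle⟩ := approx (Submodule.span 𝕜 (range f)) hg hg1 v (ε := ε / 2)
      (by positivity)
    refine ⟨φ, ?_, fun w _ => (φ.le_opNorm w).trans (mul_le_of_le_one_left (norm_nonneg _) hφ1),
      ?_⟩
    · unfold FS
      rwa [image_univ]
    · have h1 : ‖g (((‖v‖⁻¹ : ℝ) : 𝕜) • v)‖ = ‖v‖⁻¹ * ‖g v‖ := by
        rw [map_smul, norm_smul, RCLike.norm_ofReal,
          abs_of_nonneg (inv_nonneg.2 (norm_nonneg _))]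
      rw [h1] at hlt
      have h2 : charac 𝕜 (cspan 𝕜 f) * ‖v‖ ≤ ‖g v‖ + ε / 2 := by
        have h3 := mul_lt_mul_of_pos_right hlt hvn
        have h4 : ‖v‖⁻¹ * ‖g v‖ * ‖v‖ = ‖g v‖ := by field_simp
        have h5 : (charac 𝕜 (cspan 𝕜 f) - ε / (2 * ‖v‖)) * ‖v‖ =
            charac 𝕜 (cspan 𝕜 f) * ‖v‖ - ε / 2 := by
          field_simp
        rw [h4, h5] at h3
        linarith
      linarith

/-- restriction -/
def R (E : Submodule 𝕜 X) : (X →L[𝕜] 𝕜) →ₗ[𝕜] (E →L[𝕜] 𝕜) where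
  toFun φ := φ.comp E.subtypeL
  map_add' _ _ := rfl
  map_smul' _ _ := rfl

lemma R_norm (E : Submodule 𝕜 X) (φ : X →L[𝕜] 𝕜) : ‖R E φ‖ ≤ ‖φ‖ :=
  ContinuousLinearMap.opNorm_le_bound _ (norm_nonneg _) fun e => φ.le_opNorm (e : X)

lemma R_closure (E : Submodule 𝕜 X) (V : Submodule 𝕜 (X →L[𝕜] 𝕜))
    (W : Submodule 𝕜 (E →L[𝕜] 𝕜)) (h : ∀ φ ∈ V, R E φ ∈ W) {g : X →L[𝕜] 𝕜}
    (hg : g ∈ V.topologicalClosure) : R E g ∈ W.topologicalClosure := by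
  show R E g ∈ closure (W : Set (E →L[𝕜] 𝕜))
  rw [Metric.mem_closure_iff]
  intro ε hε
  obtain ⟨ψ, hψ, hd⟩ := Metric.mem_closure_iff.1 hg ε hε
  refine ⟨R E ψ, h ψ hψ, ?_⟩
  rw [dist_eq_norm] at hd ⊢
  rw [← map_sub]
  exact (R_norm E _).trans_lt hd

end SUBM

open SUBM in
theorem specSUB (hIND : SpecIND.{u, v}) : SpecSUB.{u, v} := by
  intro 𝕜 _ X _ _ _ ι x f hM hc hC E hE
  have hXS : XS (𝕜 := 𝕜) x univ = ⊤ := by
    unfold XS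
    rw [image_univ]
    exact hM.fund
  obtain ⟨B, hB1, hB2, hB3, hB4, hB5⟩ := hIND 𝕜 X ι x f _ ⟨hM.one, hM.zero⟩ hc
    (charac_le_one _ hc) hC univ E (nm x f) hE (by rw [hXS]; exact le_top)
  have hFS : FS f univ = Submodule.span 𝕜 (range f) := by
    unfold FS
    rw [image_univ]
  let z : B → E := fun p => ⟨p.1.1, (hB1 p.1 p.2).1⟩
  let h : B → (E →L[𝕜] 𝕜) := fun p => R E p.1.2
  -- elements of the span of the second components restrict to the span of the `h`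
  have hmap : ∀ φ ∈ Submodule.span 𝕜 (Prod.snd '' B), R E φ ∈ Submodule.span 𝕜 (range h) := by
    intro φ hφ
    have h1 : R E φ ∈ (Submodule.span 𝕜 (Prod.snd '' B)).map (R E) :=
      Submodule.mem_map_of_mem hφ
    rw [Submodule.map_span] at h1
    refine Submodule.span_mono ?_ h1
    rintro _ ⟨_, ⟨p, hp, rfl⟩, rfl⟩
    exact ⟨⟨p, hp⟩, rfl⟩
  have hfi : ∀ i, R E (f i) ∈ Submodule.span 𝕜 (range h) := by
    intro i
    obtain ⟨φ, hφ, he⟩ := hB5 i (mem_univ i)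
    have h2 : R E (f i) = R E φ := by
      ext e
      exact he e e.2
    rw [h2]
    exact hmap φ hφ
  have hspan : Submodule.span 𝕜 (range h) =
      Submodule.span 𝕜 (range fun i => (f i).comp E.subtypeL) := by
    apply le_antisymm
    · rw [Submodule.span_le]
      rintro _ ⟨p, rfl⟩
      have h1 : p.1.2 ∈ Submodule.span 𝕜 (range f) := by
        rw [← hFS]
        exact (hB1 p.1 p.2).2
      have h2 : R E p.1.2 ∈ (Submodule.span 𝕜 (range f)).map (R E) :=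
        Submodule.mem_map_of_mem h1
      rw [Submodule.map_span] at h2
      refine Submodule.span_mono ?_ h2
      rintro _ ⟨_, ⟨i, rfl⟩, rfl⟩
      exact ⟨i, rfl⟩
    · rw [Submodule.span_le]
      rintro _ ⟨i, rfl⟩
      exact hfi i
  have hmapf : ∀ φ ∈ Submodule.span 𝕜 (range f), R E φ ∈ Submodule.span 𝕜 (range h) := by
    intro φ hφ
    have h1 : R E φ ∈ (Submodule.span 𝕜 (range f)).map (R E) := Submodule.mem_map_of_mem hφ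
    rw [Submodule.map_span] at h1
    refine (Submodule.span_le.2 ?_) h1
    rintro _ ⟨_, ⟨i, rfl⟩, rfl⟩
    exact hfi i
  refine ⟨B, z, h, ⟨?_, ?_, ?_, ?_⟩, hspan, ?_⟩
  · exact fun p => hB2 p.1 p.2
  · exact fun p q hpq => hB3 p.1 p.2 q.1 q.2 fun h => hpq (Subtype.ext h)
  · rw [eq_top_iff]
    intro e _
    have h1 : (e : X) ∈ closure (Submodule.span 𝕜 (Prod.fst '' B) : Set X) := hB4 e.2
    have h2 : (Submodule.span 𝕜 (Prod.fst '' B) : Set X) =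
        Subtype.val '' (Submodule.span 𝕜 (range z) : Set E) := by
      have h3 : (Submodule.span 𝕜 (range z)).map E.subtype =
          Submodule.span 𝕜 (Prod.fst '' B) := by
        rw [Submodule.map_span]
        congr 1
        ext y
        constructor
        · rintro ⟨_, ⟨p, rfl⟩, rfl⟩
          exact ⟨p.1, p.2, rfl⟩
        · rintro ⟨p, hp, rfl⟩
          exact ⟨_, ⟨⟨p, hp⟩, rfl⟩, rfl⟩
      rw [← h3]
      rfl
    rw [h2] at h1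
    show e ∈ closure (Submodule.span 𝕜 (range z) : Set E)
    rw [Topology.IsInducing.subtypeVal.closure_eq_preimage_closure_image]
    exact h1
  · intro y hy
    have h1 : ∀ φ ∈ Submodule.span 𝕜 (Prod.snd '' B), φ (y : X) = 0 := by
      intro φ hφ
      induction hφ using Submodule.span_induction with
      | mem φ hφ =>
        obtain ⟨p, hp, rfl⟩ := hφ
        exact hy ⟨p, hp⟩
      | zero => rfl
      | add φ ψ _ _ h1 h2 =>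
        show φ (y : X) + ψ (y : X) = 0
        rw [h1, h2, add_zero]
      | smul a φ _ h1 =>
        show a • φ (y : X) = 0
        rw [h1, smul_zero]
    have h2 : (y : X) = 0 := hM.tot y fun i => by
      obtain ⟨φ, hφ, he⟩ := hB5 i (mem_univ i)
      rw [he y y.2]
      exact h1 φ hφ
    exact Subtype.ext h2
  · intro hN
    obtain ⟨e₀, he₀⟩ := exists_ne (0 : E)
    have : Nonempty {x : E // ‖x‖ = 1} := ⟨⟨_, exists_unit (𝕜 := 𝕜) he₀⟩⟩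
    refine le_ciInf fun e => ?_
    refine le_of_forall_pos_le_add fun ε hε => ?_
    obtain ⟨g, hg, hg1, hlt⟩ := exists_lt (cspan 𝕜 f) (x := (e.1 : X)) e.2 hε
    have h1 : R E g ∈ cspan 𝕜 h := R_closure E _ _ hmapf hg
    have h2 : ‖R E g e.1‖ ≤ ⨆ f : {f : E →L[𝕜] 𝕜 // f ∈ cspan 𝕜 h ∧ ‖f‖ ≤ 1}, ‖f.1 e.1‖ :=
      le_ciSup (bdd_above (cspan 𝕜 h) e.1)
        (⟨R E g, h1, (R_norm E g).trans hg1⟩ : {f : E →L[𝕜] 𝕜 // f ∈ cspan 𝕜 h ∧ ‖f‖ ≤ 1})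
    have h3 : ‖R E g e.1‖ = ‖g (e.1 : X)‖ := rfl
    linarith

end Pool.Agent.Lib.MP38dfb6.HS
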