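import Pool.Agent.Lib.MP_38dfb6_an.HS.SpecE

/-!
# Module SUL: Ulam's matrix
-/

set_option autoImplicit false

namespace Pool.Agent.Lib.MP38dfb6.HS

open Filter Topology Set

namespace SULM

theorem not_countable_univ {Λ : Type} [LinearOrder Λ] (h : Om1 Λ) : ¬ (univ : Set Λ).Countable := by
  intro hc
  obtain ⟨b, hb⟩ := h.bdd univ hc
  exact lt_irrefl b (hb b (mem_univ b))

theorem emb {Λ : Type} (hΛ : Cardinal.mk Λ ≤ Cardinal.aleph 1) (X : Set Λ) (hX : ¬ X.Countable) :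
    Nonempty (Λ ↪ X) := by
  have h1 : Cardinal.aleph0 < Cardinal.mk X := by
    rw [← not_le]
    intro h
    exact hX (Cardinal.le_aleph0_iff_set_countable.1 h)
  have h2 : Cardinal.aleph 1 ≤ Cardinal.mk X := by
    rw [← Cardinal.succ_aleph0]
    exact Order.succ_le_of_lt h1
  exact (Cardinal.le_def _ _).1 (hΛ.trans h2)

end SULM

/-- **SUL** -/
theorem specSUL (hSCI : SpecSCI) (hSCA : SpecSCA) : SpecSUL := by
  classical
  intro Λ _ hΛ
  have hf : ∀ α : Λ, ∃ f : Λ → ℕ, InjOn f (Iio α) := fun α =>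
    Set.countable_iff_exists_injOn.1 (hΛ.cnt α)
  choose f hf using hf
  have hstat : ∀ ξ : Λ, ∃ n : ℕ, Stat {α : Λ | ξ < α ∧ f α ξ = n} := by
    intro ξ
    by_contra hcon
    have h1 : ∀ n : ℕ, ∃ C : Set Λ, Club C ∧ ¬ ({α : Λ | ξ < α ∧ f α ξ = n} ∩ C).Nonempty := by
      intro n
      by_contra h2
      apply hcon
      refine ⟨n, fun C hC => ?_⟩
      by_contra h3
      exact h2 ⟨C, hC, h3⟩
    choose C hC hCA using h1
    obtain ⟨α, hα, hlt⟩ := (hSCI Λ hΛ C hC).unb ξ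
    exact hCA (f α ξ) ⟨α, ⟨hlt, rfl⟩, mem_iInter.1 hα (f α ξ)⟩
  choose n hn using hstat
  have hX : ∃ n₀ : ℕ, ¬ {ξ : Λ | n ξ = n₀}.Countable := by
    by_contra hcon
    have h1 : ∀ n₀ : ℕ, {ξ : Λ | n ξ = n₀}.Countable := by
      intro n₀
      by_contra h2
      exact hcon ⟨n₀, h2⟩
    apply SULM.not_countable_univ hΛ
    refine (Set.countable_iUnion h1).mono fun ξ _ => ?_
    exact mem_iUnion.2 ⟨n ξ, rfl⟩
  obtain ⟨n₀, hX⟩ := hX
  obtain ⟨g⟩ := SULM.emb (hSCA Λ hΛ) _ hX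
  refine ⟨fun ξ => {α : Λ | (g ξ : Λ) < α ∧ f α (g ξ : Λ) = n₀}, fun ξ => ?_, fun ξ ξ' hne => ?_⟩
  · have h1 := hn (g ξ : Λ)
    have h2 : n (g ξ : Λ) = n₀ := (g ξ).2
    rw [h2] at h1
    exact h1
  · rw [Set.disjoint_left]
    rintro α ⟨h1, h2⟩ ⟨h3, h4⟩
    apply hne
    apply g.injective
    apply Subtype.ext
    exact hf α h1 h3 (h2.trans h4.symm)

end Pool.Agent.Lib.MP38dfb6.HS
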