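import Pool.Agent.Lib.MP_38dfb6_an.HS.SpecS

/-!
# Module SUP (MP_38dfb6_an, HS): the upper bound for the characteristic, ladders on a stationary set
(after NB/UPP.lean)
-/

set_option autoImplicit false

namespace Pool.Agent.Lib.MP38dfb6.HS

open Filter Topology Set

universe u v

theorem specSUP (hSKI : SpecSKI.{u, v}) (hTST : Pool.Agent.Lib.MP38dfb6.SpecTST) : SpecSUP.{u, v} := by
  intro 𝕜 _ Λ _ S L N hO hLad hSt X _ _ J a ha hJ ι x f hMB n hn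
  obtain ⟨D, hDn, hD⟩ := hSKI 𝕜 Λ S L N hO hLad hSt X J ι x f hMB n
  obtain ⟨hT1, hT2⟩ := hTST 𝕜 Λ L N D
  set G := GG 𝕜 L N D with hG
  have hGn : (2 * n + 1 : ℝ) ≤ ‖G‖ := by
    have := hT1 (by rw [hDn]; exact hn)
    rw [hDn] at this
    exact this
  have hn0 : (0 : ℝ) < 2 * n + 1 := by positivity
  have hJG : a * (2 * n + 1) ≤ ‖J G‖ :=
    (mul_le_mul_of_nonneg_left hGn ha.le).trans (hJ G)
  have hpos : 0 < a * (2 * n + 1 : ℝ) := mul_pos ha hn0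
  have hJG0 : 0 < ‖J G‖ := lt_of_lt_of_le hpos hJG
  have hspan : ∀ φ ∈ Submodule.span 𝕜 (range f), ‖φ (J G)‖ ≤ ‖φ‖ * ‖J‖ := by
    intro φ hφ
    have h1 := hT2 (φ.comp J) (fun δ D' hs => hD φ hφ δ D' hs)
    exact h1.trans (ContinuousLinearMap.opNorm_comp_le φ J)
  have hcl : IsClosed {φ : X →L[𝕜] 𝕜 | ‖φ (J G)‖ ≤ ‖φ‖ * ‖J‖} :=
    isClosed_le ((ContinuousLinearMap.apply 𝕜 𝕜 (J G)).continuous.norm)
      (continuous_norm.mul continuous_const)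
  have hall : ∀ φ ∈ cspan 𝕜 f, ‖φ (J G)‖ ≤ ‖φ‖ * ‖J‖ := by
    intro φ hφ
    have h1 : (φ : X →L[𝕜] 𝕜) ∈ closure ((Submodule.span 𝕜 (range f) : Submodule 𝕜 (X →L[𝕜] 𝕜)) :
        Set (X →L[𝕜] 𝕜)) := by
      rw [← Submodule.topologicalClosure_coe]
      exact hφ
    exact closure_minimal (fun ψ hψ => hspan ψ hψ) hcl h1
  -- the unit vector
  set w : X := ((‖J G‖⁻¹ : ℝ) : 𝕜) • J G with hw
  have hw1 : ‖w‖ = 1 := by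
    rw [hw, norm_smul, RCLike.norm_ofReal, abs_of_pos (inv_pos.mpr hJG0),
      inv_mul_cancel₀ hJG0.ne']
  have hbdd : BddBelow (range fun y : {y : X // ‖y‖ = 1} =>
      ⨆ φ : {φ : X →L[𝕜] 𝕜 // φ ∈ cspan 𝕜 f ∧ ‖φ‖ ≤ 1}, ‖φ.1 y.1‖) := by
    refine ⟨0, ?_⟩
    rintro _ ⟨y, rfl⟩
    exact Real.iSup_nonneg fun φ => norm_nonneg _
  have h1 : charac 𝕜 (cspan 𝕜 f) ≤
      ⨆ φ : {φ : X →L[𝕜] 𝕜 // φ ∈ cspan 𝕜 f ∧ ‖φ‖ ≤ 1}, ‖φ.1 w‖ :=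
    ciInf_le hbdd (⟨w, hw1⟩ : {y : X // ‖y‖ = 1})
  have hne : Nonempty {φ : X →L[𝕜] 𝕜 // φ ∈ cspan 𝕜 f ∧ ‖φ‖ ≤ 1} :=
    ⟨⟨0, Submodule.zero_mem _, by rw [norm_zero]; exact zero_le_one⟩⟩
  have h2 : (⨆ φ : {φ : X →L[𝕜] 𝕜 // φ ∈ cspan 𝕜 f ∧ ‖φ‖ ≤ 1}, ‖φ.1 w‖) ≤ ‖J‖ / ‖J G‖ := by
    refine ciSup_le fun φ => ?_
    have h3 := hall φ.1 φ.2.1
    have h4 : ‖φ.1 (J G)‖ ≤ ‖J‖ :=
      h3.trans (by
        have := mul_le_mul_of_nonneg_right φ.2.2 (norm_nonneg J)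
        rwa [one_mul] at this)
    rw [hw, map_smul, norm_smul, RCLike.norm_ofReal, abs_of_pos (inv_pos.mpr hJG0),
      inv_mul_eq_div]
    exact div_le_div_of_nonneg_right h4 hJG0.le
  refine h1.trans (h2.trans ?_)
  exact div_le_div_of_nonneg_left (norm_nonneg J) hpos hJG

end Pool.Agent.Lib.MP38dfb6.HS
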