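import Pool.Agent.Lib.MP_38dfb6_an.NB.Defs

/-!
# MP_38dfb6_an: closed subspaces of spaces with a norming M-basis. Exact statements of the modules

THEOREM H.  Let `(x_i, f_i)` be an M-basis of a Banach space `X` with positive characteristic such that every
`ψ ∈ X*` vanishes at all but countably many `x_i` (automatic if `X` is weakly compactly generated: `CSW`).  Then every closed subspace `E` of `X` has an M-basis `(z_j, h_j)` with
`span {h_j} = span {f_i | E}`; its characteristic is at least that of `(x_i, f_i)`.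
COROLLARY.  Every closed subspace `≠ 0` of `L¹({0,1}^Γ)` (`Γ` any set) has an M-basis of characteristic `1`.  (By Maharam's
theorem the same for all closed subspaces of `L¹(μ)`, `μ` finite, for example Rosenthal's subspaces which
are not weakly compactly generated.)

Everything happens in one space `X`, for subsets `A` of the index set and closed subspaces `E ≤ XS x A`, by
induction on the cardinality of `A`.

Convention.  Module `XXX` = file `Pool/Agent/Lib/MP_38dfb6_an/HS/XXX.lean`, imports only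
`Pool.Agent.Lib.MP_38dfb6_an.HS.Spec`, namespace `Pool.Agent.Lib.MP38dfb6.HS`, theorem
`specXXX (hYYY : SpecYYY) .. : SpecXXX` with the hypotheses in the order of USES, own lemmas in a
namespace `XXXM`.
-/

set_option autoImplicit false

namespace Pool.Agent.Lib.MP38dfb6.HS

open Filter Topology Set MeasureTheory

universe u v

section defs

variable {𝕜 : Type} [RCLike 𝕜] {X : Type u} [NormedAddCommGroup X] [NormedSpace 𝕜 X] {ι : Type v}

/-- closed linear span of the `x i`, `i ∈ A` -/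
def XS (x : ι → X) (A : Set ι) : Submodule 𝕜 X := (Submodule.span 𝕜 (x '' A)).topologicalClosure

/-- linear span of the `f i`, `i ∈ A` -/
def FS (f : ι → (X →L[𝕜] 𝕜)) (A : Set ι) : Submodule 𝕜 (X →L[𝕜] 𝕜) := Submodule.span 𝕜 (f '' A)

/-- biorthogonal -/
structure BO (x : ι → X) (f : ι → (X →L[𝕜] 𝕜)) : Prop where
  one : ∀ i, f i (x i) = 1
  zero : ∀ i j, i ≠ j → f i (x j) = 0

/-- the functionals `f i`, `i ∈ A`, are `c`-norming on `XS x A` -/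
def NM (x : ι → X) (f : ι → (X →L[𝕜] 𝕜)) (c : ℝ) (A : Set ι) : Prop :=
  ∀ v ∈ XS (𝕜 := 𝕜) x A, ∀ ε : ℝ, 0 < ε → ∃ φ ∈ FS f A, (∀ w ∈ XS (𝕜 := 𝕜) x A, ‖φ w‖ ≤ ‖w‖) ∧
    c * ‖v‖ ≤ ‖φ v‖ + ε

variable (𝕜) in
/-- every functional vanishes at all but countably many `x i` -/
def CSup (x : ι → X) : Prop := ∀ ψ : X →L[𝕜] 𝕜, {i | ψ (x i) ≠ 0}.Countable

/-- good subsets `S` of `A` (for the subspace `E`) -/
structure Gd (x : ι → X) (f : ι → (X →L[𝕜] 𝕜)) (c : ℝ) (A : Set ι) (E : Submodule 𝕜 X) (S : Set ι) :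
    Prop where
  sub : S ⊆ A
  nm : ∀ v ∈ XS (𝕜 := 𝕜) x S, ∀ ε : ℝ, 0 < ε → ∃ φ ∈ FS f S, (∀ w ∈ XS (𝕜 := 𝕜) x A, ‖φ w‖ ≤ ‖w‖) ∧
    c * ‖v‖ ≤ ‖φ v‖ + ε
  sep : ∀ v ∈ XS (𝕜 := 𝕜) x S, v ∉ E → ∃ ψ : X →L[𝕜] 𝕜, (∀ e ∈ E, ψ e = 0) ∧
    (∀ i ∈ A, i ∉ S → ψ (x i) = 0) ∧ ψ v ≠ 0

/-- `E` has an M-basis with functionals in the span of the `f i`, `i ∈ A`, whose restrictions to `E` span
the restrictions of the `f i`, `i ∈ A`.  The M-basis is a set of pairs (vector, functional). -/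
def HasM (f : ι → (X →L[𝕜] 𝕜)) (A : Set ι) (E : Submodule 𝕜 X) : Prop :=
  ∃ B : Set (X × (X →L[𝕜] 𝕜)), (∀ p ∈ B, p.1 ∈ E ∧ p.2 ∈ FS f A) ∧ (∀ p ∈ B, p.2 p.1 = 1) ∧
    (∀ p ∈ B, ∀ q ∈ B, p ≠ q → p.2 q.1 = 0) ∧
    E ≤ (Submodule.span 𝕜 (Prod.fst '' B)).topologicalClosure ∧
    ∀ i ∈ A, ∃ φ ∈ Submodule.span 𝕜 (Prod.snd '' B), ∀ e ∈ E, f i e = φ e

/-- a chain of good subsets exhausting `A`: `S0 a` is the part before `a`, `S1 a` the part up to `a` -/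
structure Chn (x : ι → X) (f : ι → (X →L[𝕜] 𝕜)) (c : ℝ) (A : Set ι) (E : Submodule 𝕜 X) (I : Type v)
    [LinearOrder I] (S0 S1 : I → Set ι) : Prop where
  le : ∀ a, S0 a ⊆ S1 a
  lt : ∀ a b, a < b → S1 a ⊆ S0 b
  lim : ∀ a, S0 a = ⋃ b ∈ Iio a, S1 b
  all : ⋃ a, S1 a = A
  g0 : ∀ a, Gd x f c A E (S0 a)
  g1 : ∀ a, Gd x f c A E (S1 a)

end defs

/-- `THE` [200].  USES nothing.  The closing-off map.
PROOF.  For a finite `F ⊆ A` let `D F` be a countable dense subset of `span (x '' F)` (finite dimensional; e.g. all combinations with coefficients in a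
countable dense subset of `𝕜`), for other `F` and for `F = ∅` let `Θ F = ∅`.  For `v ∈ D F` and `m : ℕ` take `φ_(v,m) ∈ FS f A` from `NM` with `ε = 1/(m+1)`; it is in
`FS f G` for a finite `G_(v,m) ⊆ A`.  Let `ψ_v : X →L[𝕜] 𝕜` vanish on `E` with `‖ψ_v‖ ≤ 1`, `‖ψ_v v‖ = dist(v, E)` (Hahn-Banach in the quotient, `E` closed; if
`v ∈ E`, `ψ_v = 0`; e.g. `exists_dual_vector` in `X ⧸ E` composed with the quotient map).  `Θ F` = the union over `v, m` of `G_(v,m)` and of `{i | ψ_v (x i) ≠ 0}` (countable: CSup).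
Let `S` be closed under `Θ`.  `nm`: let `v ∈ XS x S`, `ε > 0`; there are a finite `F ⊆ S` and `v' ∈ D F` with `‖v - v'‖ < ε/4` (if `v' ` would need `F = ∅`, i.e. `S = ∅` or `v = 0`: take `φ = 0` when
`v = 0`, and otherwise `F` may be enlarged by an element of `S`).  `φ = φ_(v',m) ∈ FS f S` and `‖φ v‖ ≥ ‖φ v'‖ - ‖v - v'‖ ≥ c ‖v'‖ - 1/(m+1) - ε/4 ≥ c ‖v‖ - ε` (`c ≤ 1`; without `c ≤ 1` take `v'` closer).
`sep`: `d = dist(v, E) > 0` (`v ≠ 0` as `v ∉ E`), `‖v - v'‖ < d/3`, `v' ∈ D F`: `‖ψ_(v') v‖ ≥ dist(v', E) - ‖v - v'‖ ≥ d - 2 d/3 > 0`; `ψ_(v') (x i) = 0` for `i ∈ A`, `i ∉ S` since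
`{i | ψ_(v') (x i) ≠ 0} ∩ A ⊆ Θ F ∩ A ⊆ S`. -/
def SpecTHE : Prop := ∀ (𝕜 : Type) [RCLike 𝕜] (X : Type u) [NormedAddCommGroup X] [NormedSpace 𝕜 X] (ι : Type v)
  (x : ι → X) (f : ι → (X →L[𝕜] 𝕜)) (c : ℝ) (A : Set ι) (E : Submodule 𝕜 X), 0 < c → c ≤ 1 → NM x f c A →
  CSup 𝕜 x → IsClosed (E : Set X) →
  ∃ Θ : Finset ι → Set ι, (∀ F, (Θ F).Countable) ∧ Θ ∅ = ∅ ∧
    ∀ S ⊆ A, (∀ F : Finset ι, (F : Set ι) ⊆ S → Θ F ∩ A ⊆ S) → Gd x f c A E S

/-- `CHA` [220].  USES nothing.  Pure set theory.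
PROOF.  For `T ⊆ A` let `cl T` be the intersection of all `S` with `T ⊆ S ⊆ A` which are closed (`∀ F ⊆ S, Θ F ∩ A ⊆ S`).  It is closed, monotone in `T`, `cl ∅ = ∅`
(`∅` is closed: `Θ ∅ = ∅`), `#(cl T) ≤ max #T ℵ₀`: `cl T = ⋃ n, T_n`, `T_0 = T`, `T_(n+1) = T_n ∪ ⋃ (F ⊆ T_n) (Θ F ∩ A)`; there are at most `max #T_n ℵ₀` finite subsets.  A directed union of
closed sets is closed.  Let `I = A` (as a type) with a well-order of type `ord #A` (`Cardinal.ord_eq`), so `#{b < a} < #A`, `#{b ≤ a} < #A`.  `S0 a = cl {b < a}`, `S1 a = cl {b ≤ a}`.  `S1 a ⊆ S0 b` for `a < b`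
by monotonicity.  `S0 a = ⋃ (b < a) S1 b`: the right side is closed (directed union; empty if there is no `b < a`, and `cl ∅ = ∅`), contains `{b < a}` and is contained in `S0 a`.  `⋃ a, S1 a ⊇ A`.
`#(S1 a) ≤ max #{b ≤ a} ℵ₀ < #A` as `A` is uncountable. -/
def SpecCHA : Prop := ∀ (ι : Type v) (A : Set ι), ¬ A.Countable → ∀ Θ : Finset ι → Set ι,
  (∀ F, (Θ F).Countable) → Θ ∅ = ∅ →
  ∃ (I : Type v) (_ : LinearOrder I) (_ : WellFoundedLT I) (S0 S1 : I → Set ι),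
    (∀ a, S0 a ⊆ S1 a) ∧ (∀ a, S1 a ⊆ A) ∧ (∀ a b, a < b → S1 a ⊆ S0 b) ∧
    (∀ a, S0 a = ⋃ b ∈ Iio a, S1 b) ∧ (⋃ a, S1 a = A) ∧ (∀ a, Cardinal.mk (S1 a) < Cardinal.mk A) ∧
    (∀ a, ∀ F : Finset ι, (F : Set ι) ⊆ S0 a → Θ F ∩ A ⊆ S0 a) ∧
    ∀ a, ∀ F : Finset ι, (F : Set ι) ⊆ S1 a → Θ F ∩ A ⊆ S1 a

/-- `PRJ` [150].  USES nothing.  The projections.
PROOF.  (1) For `φ ∈ FS f S` and `w ∈ XS x (A \ S)`: `φ w = 0` (biorthogonality, continuity).  With `φ` from `Gd.nm`: `c ‖v‖ ≤ ‖φ v‖ + ε = ‖φ (v + w)‖ + ε ≤ ‖v + w‖ + ε` (`v + w ∈ XS x A`).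
(2) `M = XS x S ⊔ XS x T` is closed: if `v_n + w_n → u` then by (1) (for differences) `v_n` and so `w_n` are Cauchy, with limits in the closed subspaces (`X` complete).  `M` contains `x i`, `i ∈ S ∪ T`.
(3) If `v ∉ E`, take `ψ` from `Gd.sep`: `ψ w = 0` (`ψ (x i) = 0` for `i ∈ A \ S`), so `ψ v = ψ e - ψ w = 0`, a contradiction. -/
def SpecPRJ : Prop := ∀ (𝕜 : Type) [RCLike 𝕜] (X : Type u) [NormedAddCommGroup X] [NormedSpace 𝕜 X]
  [CompleteSpace X] (ι : Type v) (x : ι → X) (f : ι → (X →L[𝕜] 𝕜)) (c : ℝ) (A : Set ι) (E : Submodule 𝕜 X)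
  (S : Set ι), BO x f → 0 < c → Gd x f c A E S →
  (∀ v ∈ XS (𝕜 := 𝕜) x S, ∀ w ∈ XS (𝕜 := 𝕜) x (A \ S), c * ‖v‖ ≤ ‖v + w‖) ∧
  (∀ T ⊆ A \ S, ∀ u ∈ XS (𝕜 := 𝕜) x (S ∪ T), ∃ v ∈ XS (𝕜 := 𝕜) x S, ∃ w ∈ XS (𝕜 := 𝕜) x T, u = v + w) ∧
  ∀ e ∈ E, ∀ v ∈ XS (𝕜 := 𝕜) x S, ∀ w ∈ XS (𝕜 := 𝕜) x (A \ S), e = v + w → v ∈ E

/-- `BLK` [80].  USES nothing.  PROOF.  `v ∈ XS x (S' \ S)`.  `Gd.nm` for `S'`: `φ ∈ FS f S'`.  `φ = φ₁ + φ₂` with `φ₁ ∈ FS f S`, `φ₂ ∈ FS f (S' \ S)` (`Submodule.span_union`, `S' = S ∪ (S' \ S)`).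
`φ₁` vanishes on `XS x (S' \ S)`, so `φ₂` works. -/
def SpecBLK : Prop := ∀ (𝕜 : Type) [RCLike 𝕜] (X : Type u) [NormedAddCommGroup X] [NormedSpace 𝕜 X] (ι : Type v)
  (x : ι → X) (f : ι → (X →L[𝕜] 𝕜)) (c : ℝ) (A : Set ι) (E : Submodule 𝕜 X) (S S' : Set ι), BO x f →
  S ⊆ S' → Gd x f c A E S' → NM x f c (S' \ S)

/-- `DEC` [220].  USES PRJ.  The decomposition of `E`.
PROOF.  Let `M` be the right side.  For `e ∈ E` and good `S` let `P_S e ∈ XS x S` be the component: `e = P_S e + w`, `w ∈ XS x (A \ S)` (PRJ (2) with `T = A \ S`; unique by PRJ (1); in `E` by PRJ (3)).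
(C) If `S` is the union of a nonempty chain (or directed family) of good sets `S_b`, `S` good (or `S = A`, `P_A e = e`), then `P_S e` is in the closure of the set of the `P_(S_b) e`: let `v = P_S e`, `v'` in the span of
`x '' S` with `‖v - v'‖ < ε`; `v'` is in the span of `x '' S_b` for some `b`.  `e - v' = (v - v') + w`, `w ∈ XS x (A \ S) ⊆ XS x (A \ S_b)`, `v - v' = v₁ + w₁`, `v₁ = P_(S_b) (v - v')`, `‖v₁‖ ≤ ‖v - v'‖ / c`; so
`P_(S_b) e = v' + v₁` (uniqueness) and `‖P_(S_b) e - v‖ ≤ ε + ε / c`.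
Claim: `P_(S0 a) e ∈ M` and `P_(S1 a) e ∈ M` for all `a`, `e ∈ E` (well-founded induction on `a`).  `P_(S0 a) e`: if there is no `b < a` then `S0 a = ∅` and it is `0`; otherwise (C) for the `S1 b`, `b < a`, and
`M` is closed.  `P_(S1 a) e = P_(S0 a) e + w` with `w ∈ E ⊓ XS x (S1 a \ S0 a)`: apply PRJ (2) for `S = S0 a`, `T = S1 a \ S0 a` to `u = P_(S1 a) e ∈ E`: `u = v + w`; `v ∈ E` by PRJ (3), so `w ∈ E`, and `v = P_(S0 a) e` by
uniqueness (`e = u + w'`, `w' ∈ XS x (A \ S1 a) ⊆ XS x (A \ S0 a)`).  Finally `e ∈ closure {P_(S1 a) e}` by (C) for `S = A` (`I` is not empty unless `A = ∅`, `E = 0`). -/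
def SpecDEC : Prop := ∀ (𝕜 : Type) [RCLike 𝕜] (X : Type u) [NormedAddCommGroup X] [NormedSpace 𝕜 X]
  [CompleteSpace X] (ι : Type v) (x : ι → X) (f : ι → (X →L[𝕜] 𝕜)) (c : ℝ) (A : Set ι) (E : Submodule 𝕜 X)
  (I : Type v) [LinearOrder I] [WellFoundedLT I] (S0 S1 : I → Set ι), BO x f → 0 < c →
  IsClosed (E : Set X) → E ≤ XS x A → Chn x f c A E I S0 S1 →
  E ≤ (⨆ a, E ⊓ XS x (S1 a \ S0 a)).topologicalClosure

/-- `GLU` [150].  USES nothing.  Gluing.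
PROOF.  Let `B a` be the set of pairs for the block `a`, `B = ⋃ a, B a`.  The index sets `S1 a \ S0 a` are disjoint (`a < b`: `S1 a ⊆ S0 b`), so for `p ∈ B a`, `q ∈ B b`, `a ≠ b`: `p.2 q.1 = 0` (`p.2 ∈ FS f (S1 a \ S0 a)`,
`q.1 ∈ XS x (S1 b \ S0 b)`); in particular no pair is in two `B a`.  `E ≤ closure span`: every `E ⊓ XS x (S1 a \ S0 a)` is in the closed span of `Prod.fst '' B`.  Let `i ∈ A`; let `a` be the least index with
`i ∈ S1 a` (`⋃ S1 = A`); `i ∉ S0 a` (`S0 a = ⋃ b < a`).  Take `φ` for `i` from block `a`; `f i - φ` vanishes on `E ⊓ XS x (S1 a \ S0 a)`, and on the other blocks (`f i` and `φ ∈ FS f (S1 a \ S0 a)` vanish on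
`XS x (S1 b \ S0 b)`); so on `E`. -/
def SpecGLU : Prop := ∀ (𝕜 : Type) [RCLike 𝕜] (X : Type u) [NormedAddCommGroup X] [NormedSpace 𝕜 X] (ι : Type v)
  (x : ι → X) (f : ι → (X →L[𝕜] 𝕜)) (c : ℝ) (A : Set ι) (E : Submodule 𝕜 X)
  (I : Type v) [LinearOrder I] [WellFoundedLT I] (S0 S1 : I → Set ι), BO x f → Chn x f c A E I S0 S1 →
  E ≤ (⨆ a, E ⊓ XS x (S1 a \ S0 a)).topologicalClosure →
  (∀ a, HasM f (S1 a \ S0 a) (E ⊓ XS x (S1 a \ S0 a))) → HasM f A E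

/-- `MRK` [220].  USES nothing.  Markushevich's theorem.
PROOF.  Build an increasing sequence of finite sets of pairs `B_n` (biorthogonal: `p.1 ∈ E`, `p.2 ∈ span (range g)`, `p.2 p.1 = 1`, `p.2 q.1 = 0` for `p ≠ q`), `B_0 = ∅`, such that `y_n ∈ span (fst '' B_(n+1))` and `g_n` agrees
on `E` with an element of `span (snd '' B_(n+1))`.  (a) If `y = y_n` is not in `span (fst '' B_n)` let `z = y - ∑ p.2 y • p.1 ≠ 0`; some `g_l z ≠ 0` (totality); `h = (g_l - ∑ g_l (p.1) • p.2) / g_l z`: `h p.1 = 0`, `h z = 1` (as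
`p.2 z = 0`); add `(z, h)`.  (b) If `g = g_n` does not agree on `E` with an element of `span (snd '' ·)` let `g' = g - ∑ g (p.1) • p.2`; it is not `0` on `E`, so `g' y ≠ 0` for some `y ∈ E`;
`z = (y - ∑ p.2 y • p.1) / g' y`: `p.2 z = 0`, `g' z = 1`; add `(z, g')`.  `B = ⋃ B_n`. -/
def SpecMRK : Prop := ∀ (𝕜 : Type) [RCLike 𝕜] (X : Type u) [NormedAddCommGroup X] [NormedSpace 𝕜 X]
  (E : Submodule 𝕜 X) (y : ℕ → X) (g : ℕ → (X →L[𝕜] 𝕜)), (∀ n, y n ∈ E) →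
  E ≤ (Submodule.span 𝕜 (range y)).topologicalClosure → (∀ v ∈ E, (∀ n, g n v = 0) → v = 0) →
  ∃ B : Set (X × (X →L[𝕜] 𝕜)), (∀ p ∈ B, p.1 ∈ E ∧ p.2 ∈ Submodule.span 𝕜 (range g)) ∧
    (∀ p ∈ B, p.2 p.1 = 1) ∧ (∀ p ∈ B, ∀ q ∈ B, p ≠ q → p.2 q.1 = 0) ∧
    E ≤ (Submodule.span 𝕜 (Prod.fst '' B)).topologicalClosure ∧
    ∀ n, ∃ φ ∈ Submodule.span 𝕜 (Prod.snd '' B), ∀ e ∈ E, g n e = φ e

/-- `BSE` [100].  USES MRK.  PROOF.  `XS x A` is separable (`A` countable: `TopologicalSpace.IsSeparable.span`, closure), so `E` is, and there is a sequence `y` in `E` dense in `E`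
(`TopologicalSpace.IsSeparable` subset of a metric space: a countable dense subset of `E`; `E` contains `0`, so it is not empty).  `g` = an enumeration of the `f i`, `i ∈ A` (`0` if `A = ∅`: then `E = 0`, `B = ∅`).
Totality: if `v ∈ E` and all `f i v = 0`, `i ∈ A`, then `φ v = 0` for `φ ∈ FS f A`, so `c ‖v‖ ≤ ε` for all `ε > 0`. -/
def SpecBSE : Prop := ∀ (𝕜 : Type) [RCLike 𝕜] (X : Type u) [NormedAddCommGroup X] [NormedSpace 𝕜 X] (ι : Type v)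
  (x : ι → X) (f : ι → (X →L[𝕜] 𝕜)) (c : ℝ) (A : Set ι) (E : Submodule 𝕜 X), 0 < c → NM x f c A →
  A.Countable → E ≤ XS x A → HasM f A E

/-- `IND` [120].  USES THE, CHA, BLK, DEC, GLU, BSE.
PROOF.  Induction on `#A` (for all `E`).  `A` countable: BSE.  Otherwise `Θ` from THE, the chain from CHA; all `S0 a`, `S1 a` are good, so `Chn`.  DEC.  For every block `S1 a \ S0 a`: `#(S1 a \ S0 a) ≤ #(S1 a) < #A`, `NM` by BLK, and
`E ⊓ XS x (S1 a \ S0 a)` is closed and `≤ XS x (S1 a \ S0 a)`: induction.  GLU. -/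
def SpecIND : Prop := ∀ (𝕜 : Type) [RCLike 𝕜] (X : Type u) [NormedAddCommGroup X] [NormedSpace 𝕜 X]
  [CompleteSpace X] (ι : Type v) (x : ι → X) (f : ι → (X →L[𝕜] 𝕜)) (c : ℝ), BO x f → 0 < c → c ≤ 1 →
  CSup 𝕜 x → ∀ (A : Set ι) (E : Submodule 𝕜 X), NM x f c A → IsClosed (E : Set X) → E ≤ XS x A → HasM f A E

/-- `SUB` [180].  USES IND.  THEOREM H.
PROOF.  `c = charac (cspan f)`, `0 < c ≤ 1` (if `X` has a unit vector; `X = 0`: `c = 0` in Lean, excluded).  `NM x f c univ`: `XS x univ = ⊤` (`fund`); for `v ≠ 0` the supremum at `v / ‖v‖` is `≥ c`, so some `f' ∈ cspan`, `‖f'‖ ≤ 1`, has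
`‖f' v‖ ≥ c ‖v‖ - ε/3`; approximate `f'` by an element of the span and scale it to norm `≤ 1`.  IND for `A = univ`: `B`.  `J = B` (as a type), `z p = ⟨p.1, _⟩`, `h p = p.2.comp E.subtypeL`.  `one`, `zero` clear; `fund`: closure in the
subtype; `tot`: if all `h p e = 0` then all `f i e = 0`, so `e = 0`.  The two spans are equal: `p.2 ∈ span (range f)`, and `f i` agrees on `E` with an element of the span of the `p.2`.  Characteristic: for a unit vector `e` of `E` the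
supremum over `cspan h` is at least that over `cspan f` in `X` (`φ ∈ cspan f`, `‖φ‖ ≤ 1`: `φ.comp E.subtypeL ∈ cspan h` has norm `≤ 1`), which is at least `charac (cspan f)`. -/
def SpecSUB : Prop := ∀ (𝕜 : Type) [RCLike 𝕜] (X : Type u) [NormedAddCommGroup X] [NormedSpace 𝕜 X]
  [CompleteSpace X] (ι : Type v) (x : ι → X) (f : ι → (X →L[𝕜] 𝕜)), MBasis 𝕜 X x f →
  0 < charac 𝕜 (cspan 𝕜 f) → CSup 𝕜 x → ∀ E : Submodule 𝕜 X, IsClosed (E : Set X) →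
  ∃ (J : Type u) (z : J → E) (h : J → (E →L[𝕜] 𝕜)), MBasis 𝕜 E z h ∧
    Submodule.span 𝕜 (range h) = Submodule.span 𝕜 (range fun i => (f i).comp E.subtypeL) ∧
    (Nontrivial E → charac 𝕜 (cspan 𝕜 f) ≤ charac 𝕜 (cspan 𝕜 h))

/-! ## The space `L¹({0,1}^Γ)` -/

/-- the fair coin on `Bool` -/
noncomputable def coin : Measure Bool := (2 : ENNReal)⁻¹ • (Measure.dirac true + Measure.dirac false)

instance : IsProbabilityMeasure coin := ⟨by
  simp only [coin, Measure.smul_apply, Measure.add_apply, measure_univ, smul_eq_mul]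
  rw [one_add_one_eq_two]
  exact ENNReal.inv_mul_cancel (by norm_num) (by norm_num)⟩

/-- the product measure on `{0,1}^Γ` -/
noncomputable def mu (Γ : Type) : Measure (Γ → Bool) := Measure.infinitePi (fun _ => coin)

/-- the Walsh function of the finite set `F` -/
noncomputable def wal (𝕜 : Type) [RCLike 𝕜] {Γ : Type} (F : Finset Γ) (ω : Γ → Bool) : 𝕜 :=
  ∏ i ∈ F, (if ω i = true then (1 : 𝕜) else -1)

/-- `WLP` [80].  USES nothing.  Walsh functions are measurable, of absolute value `1`, and orthonormal.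
PROOF.  `wal F * wal G = wal (symmDiff F G)` (pointwise; `wal F * conj (wal G)`, real values `1, -1`), and `∫ wal F = 0` for `F ≠ ∅`: the integral of a product of functions of independent coordinates (`iIndepFun_infinitePi`,
or push forward to the finite product, `infinitePi_map_restrict`, `integral_fintype_prod_eq_prod`), one factor is `(1 + (-1))/2 = 0`. -/
def SpecWLP : Prop := ∀ (𝕜 : Type) [RCLike 𝕜] (Γ : Type) (F G : Finset Γ), Measurable (wal 𝕜 F) ∧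
  (∀ ω, ‖wal 𝕜 F ω‖ = 1) ∧ (∀ ω, wal 𝕜 F ω * wal 𝕜 F ω = 1) ∧
  (F ≠ G → ∫ ω, wal 𝕜 F ω * wal 𝕜 G ω ∂(mu Γ) = 0)

/-- a function of finitely many coordinates -/
def Cyl {𝕜 Γ : Type} (g : (Γ → Bool) → 𝕜) : Prop :=
  ∃ F : Finset Γ, ∀ ω ω' : Γ → Bool, (∀ i ∈ F, ω i = ω' i) → g ω = g ω'

/-- `WCY` [120].  USES nothing.  Functions of finitely many coordinates are combinations of Walsh functions.
PROOF.  Induction on `F`: `F = ∅`: constant, `c • wal ∅`.  `insert i F`: `g ω = (1 + s)/2 * g₁ ω + (1 - s)/2 * g₀ ω`, `s = wal {i} ω`, where `g₁`, `g₀` are `g` with the coordinate `i` replaced by `true`, `false` (they depend only on the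
coordinates in `F`), so they are combinations of `wal G`, and `wal {i} * wal G = wal (symmDiff {i} G)`. -/
def SpecWCY : Prop := ∀ (𝕜 : Type) [RCLike 𝕜] (Γ : Type) (g : (Γ → Bool) → 𝕜), Cyl g →
  ∃ (T : Finset (Finset Γ)) (a : Finset Γ → 𝕜), ∀ ω, g ω = ∑ F ∈ T, a F * wal 𝕜 F ω

/-- `WDN` [180].  USES nothing.  Cylinder functions are dense in `L¹`.
PROOF.  The cylinder sets (`measurableCylinders`, here simply sets with indicator `Cyl`) form a ring of sets which generates the product sigma-algebra (`generateFrom_measurableCylinders`), so for every measurable `s` and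
`ε > 0` there is a cylinder set `t` with `mu (symmDiff t s) < ε` (`exists_measure_symmDiff_lt_of_generateFrom_isSetRing`).  So indicators of measurable sets are limits of cylinder functions; induction
(`MeasureTheory.Lp.induction` or `Integrable.induction`, or density of simple functions); sums and limits of limits are limits. -/
def SpecWDN : Prop := ∀ (𝕜 : Type) [RCLike 𝕜] (Γ : Type) (h : (Γ → Bool) → 𝕜), Integrable h (mu Γ) →
  ∀ ε : ℝ, 0 < ε → ∃ g : (Γ → Bool) → 𝕜, Cyl g ∧ Measurable g ∧ (∃ C : ℝ, ∀ ω, ‖g ω‖ ≤ C) ∧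
    ∫ ω, ‖h ω - g ω‖ ∂(mu Γ) < ε

/-- `WMB` [220].  USES WLP, WCY, WDN.  The M-basis of `X = L¹(mu Γ)`, `𝕜`-valued.
PROOF.  `x F = wal F` (as an element of `Lp 𝕜 1`), `f F g = ∫ wal F * g` (norm `≤ 1`).  `one`, `zero`: WLP.  `fund`: WDN and WCY.  `tot`: from norming.  Characteristic `1`: let `‖h‖₁ = 1`, `ε > 0`, `g` from WDN, `k ω = conj (g ω) / ‖g ω‖` (`0` if
`g ω = 0`) is `Cyl`, `‖k‖ ≤ 1`, so by WCY the functional `φ h = ∫ k h` is in the span of the `f F` and `‖φ‖ ≤ 1`; `‖φ h‖ ≥ ∫ ‖g‖ - ε ≥ 1 - 2 ε`.  (`≤ 1` is trivial; the constant `1` is a unit vector.) -/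
def SpecWMB : Prop := ∀ (𝕜 : Type) [RCLike 𝕜] (Γ : Type),
  ∃ (x : Finset Γ → Lp 𝕜 1 (mu Γ)) (f : Finset Γ → (Lp 𝕜 1 (mu Γ) →L[𝕜] 𝕜)),
    (∀ F, ⇑(x F) =ᵐ[mu Γ] wal 𝕜 F) ∧ MBasis 𝕜 (Lp 𝕜 1 (mu Γ)) x f ∧ charac 𝕜 (cspan 𝕜 f) = 1

/-- `WCS` [130].  USES WLP.
PROOF.  Let `ψ` be a bounded functional; for a finite set `T` of `F`s and
`b F = conj (ψ (x F))`: `∑_T ‖ψ (x F)‖² = ψ (∑_T b F • x F) ≤ ‖ψ‖ ‖∑_T b F wal F‖_1 ≤ ‖ψ‖ (∫ ‖∑_T b F wal F‖²)^(1/2) = ‖ψ‖ (∑_T ‖ψ (x F)‖²)^(1/2)` (Cauchy-Schwarz on a probability space; the functions are bounded; WLP), so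
`∑_T ‖ψ (x F)‖² ≤ ‖ψ‖²` for all `T`: summable, so countable support (`Summable.countable_support`). -/
def SpecWCS : Prop := ∀ (𝕜 : Type) [RCLike 𝕜] (Γ : Type) (x : Finset Γ → Lp 𝕜 1 (mu Γ)),
  (∀ F, ⇑(x F) =ᵐ[mu Γ] wal 𝕜 F) → CSup 𝕜 x

/-- `CSW` [200].  USES nothing.  In a WCG Banach space every M-basis countably supports the dual.
PROOF.  `K` weakly compact, `closure (span K) = ⊤`.  Suppose `{i | ψ (x i) ≠ 0}` is not countable; then `I₀ = {i | δ ≤ ‖ψ (x i)‖}` is not countable for some `δ = 1/(r+1) > 0`.  Let `Q ⊆ 𝕜` be countable and dense.  A type is a pair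
`(n, q : Fin n → Q)`; there are countably many.  For all `v` and `m` there are a type and `k : Fin n → K` with `‖v - ∑ j, q j • k j‖ ≤ 1/(m+1)` (approximate `v` in the span of `K`, then the coefficients).  So choose types `τ_m` and
uncountable sets `I₀ ⊇ I_1 ⊇ I_2 ⊇ ...` such that every `x i`, `i ∈ I_m`, has an approximation of type `τ_m` (pigeonhole: a countable union of countable sets is countable), and distinct `i_m ∈ I_m` (`I_m` is infinite).  So for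
all `k ≥ m`: `x (i_k) = u k m + r k m`, `u k m = ∑ j, q j • κ k m j`, `κ k m j ∈ K`, `‖r k m‖ ≤ 1/(m+1)`.  Let `𝒰 = hyperfilter ℕ` (an ultrafilter, `≤ cofinite = atTop`).  For all `m`, `j` the weak limit along `𝒰` of the `κ k m j` exists in `K`
(weak compactness, `IsCompact.ultrafilter_le_nhds`), so `u_m = 𝒰-lim_k u k m` exists weakly, and `‖u_m - u_l‖ ≤ 1/(m+1) + 1/(l+1)` (test with functionals of norm `≤ 1`; Hahn-Banach).  So `(u_m)` is Cauchy, `y = lim u_m`.  For `g ∈ X*`: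
`‖g (x (i_k)) - g (u k m)‖ ≤ ‖g‖/(m+1)`, so `𝒰-lim_k g (x (i_k)) = g y`.  `g = f i`: `f i (x (i_k)) = 0` for all `k` but at most one, so `f i y = 0`; so `y = 0` (totality).  `g = ψ`: `‖ψ y‖ ≥ δ`, a contradiction. -/
def SpecCSW : Prop := ∀ (𝕜 : Type) [RCLike 𝕜] (X : Type u) [NormedAddCommGroup X] [NormedSpace 𝕜 X]
  [CompleteSpace X] (ι : Type v) (x : ι → X) (f : ι → (X →L[𝕜] 𝕜)), WCG 𝕜 X → MBasis 𝕜 X x f → CSup 𝕜 x

/-- `UP1` [40].  USES nothing.  The characteristic is at most `1`.  PROOF.  `‖f x‖ ≤ 1`; `Real.iInf` over the empty type is `0`. -/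
def SpecUP1 : Prop := ∀ (𝕜 : Type) [RCLike 𝕜] (X : Type u) [NormedAddCommGroup X] [NormedSpace 𝕜 X]
  (V : Submodule 𝕜 (X →L[𝕜] 𝕜)), charac 𝕜 V ≤ 1

/-- `COR` [60].  USES SUB, WMB, WCS, UP1.  PROOF.  SUB for the M-basis of WMB. -/
def SpecCOR : Prop := ∀ (𝕜 : Type) [RCLike 𝕜] (Γ : Type) (E : Submodule 𝕜 (Lp 𝕜 1 (mu Γ))),
  IsClosed (E : Set (Lp 𝕜 1 (mu Γ))) → Nontrivial E →
  ∃ (J : Type) (z : J → E) (h : J → (E →L[𝕜] 𝕜)), MBasis 𝕜 E z h ∧ charac 𝕜 (cspan 𝕜 h) = 1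

end Pool.Agent.Lib.MP38dfb6.HS
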