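import Pool.Agent.Lib.MP_38dfb6_an.HS.SpecS

/-!
# MP_38dfb6_an: many spaces without norming M-bases which do not embed into each other. Exact statements of the modules

THEOREM E.  Let `L`, `L'` be ladders on `S`, `S' ⊆ ω₁`.  If `S \ S'` is stationary then `ES L ⊤` is not isomorphic to a subspace of
`ES L' ⊤`.  There is a family of pairwise disjoint stationary sets `T ξ`, `ξ < ω₁` (Ulam); so the spaces of the
sets `⋃ ξ ∈ A, T ξ`, `A ⊆ ω₁`, are such that that of `A` embeds into that of `B` only if `A ⊆ B`.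

Convention.  Module `XXX` = file `Pool/Agent/Lib/MP_38dfb6_an/HS/XXX.lean`, imports only
`Pool.Agent.Lib.MP_38dfb6_an.HS.SpecE`, namespace `Pool.Agent.Lib.MP38dfb6.HS`, theorem
`specXXX (hYYY : SpecYYY) .. : SpecXXX` with the hypotheses in the order of USES, own lemmas in a
namespace `XXXM`.
-/

set_option autoImplicit false

namespace Pool.Agent.Lib.MP38dfb6.HS

open Filter Topology Set

/-- all entries of the node `t` are `< δ` -/
def Below {Λ : Type} [LinearOrder Λ] (δ : Λ) (t : Node Λ) : Prop := (∀ x ∈ t.1, x < δ) ∧ ∀ x ∈ t.2, x < δ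

/-- all entries of the point are `< δ` -/
def PBelow {Λ : Type} [LinearOrder Λ] (δ : Λ) : Pt Λ → Prop
  | (D, Sum.inl a) => (∀ x ∈ D, x < δ) ∧ ∀ x ∈ a, x < δ
  | (D, Sum.inr γ) => (∀ x ∈ D, x < δ) ∧ γ < δ

/-- `SCT` [190].  USES nothing.  The part below `δ` of a path, for `δ ∉ S`.
PROOF.  `p = (P, e)`.  (A) All entries of `P` are `< δ`.  If `e = inl c` let `a` be the longest suffix of `c` with all entries `< δ`: `q = (P, inl a)` (for a list `b` with entries `< δ`: `b <:+ c ↔ b <:+ a`; the second case of `On` does not see the second component).  If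
`e = inr γ`, `γ < δ`: `q = p`.  If `e = inr γ`, `¬ γ < δ`: there is `m` with `¬ L γ m < δ` (if `γ ∉ S` or `γ` is least: `L γ 0 = γ` by `out`; otherwise `γ ≠ δ` as `δ ∉ S`, so `δ < γ`, and `L γ m = δ` for some `m` by `sur`); take the least such `m` and `q = (P, inl (lad L γ m))`: for `b` with entries
`< δ`: `b = lad L γ |b|` iff `b <:+ lad L γ m` (if `|b| > m` then `L γ m` is an entry of `b`; the suffix of `lad L γ m` of length `k ≤ m` is `lad L γ k`).  (B) Otherwise let `P'` be the longest suffix of `P` with all entries `< δ`, and `(γ :: P') <:+ P`, `¬ γ < δ`.  For `t` below `δ`: `On L t p ↔ On L t (P', inr γ)`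
(`t.1 = P` is impossible; `t.1 <:+ P` iff `t.1 <:+ P'`; if `t.1 = P'` then `(δ'' :: t.1) <:+ P` means `δ'' = γ`; if `t.1` is shorter, `(δ'' :: t.1) <:+ P ↔ (δ'' :: t.1) <:+ P'`).  Then (A) for `(P', inr γ)`. -/
def SpecSCT : Prop := ∀ (Λ : Type) [LinearOrder Λ] (S : Set Λ) (L : Λ → ℕ → Λ), LadS S L → ∀ δ : Λ, δ ∉ S →
  ∀ p : Pt Λ, ∃ q : Pt Λ, PBelow δ q ∧ ∀ t : Node Λ, Below δ t → (On L t p ↔ On L t q)

/-- `SDE` [230].  USES CNT, GEN (`Pool.Agent.Lib.MP38dfb6.SpecCNT`, `..SpecGEN`), SCO, SCT.  (Compare `NB/KIL.lean`, `HS/SKI.lean`.)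
PROOF.  For a node `s` let `M s` be a countable set of nodes with `J (ch L s)` in the closure of the span of the `ch L' t`, `t ∈ M s` (GEN for `L'`: a limit of a sequence of finite combinations), and `β₁ s` greater than all entries of all `t ∈ M s` (`Om1.bdd`).  For a
node `t` let `β₂ t` be greater than all entries of all nodes `s` with `(J (ch L s)) (t.1, inl t.2) ≠ 0`, and, if `t = (γ :: P, [])`, also of those with `(J (ch L s)) (P, inr γ) ≠ 0` (countably many `s`: CNT for `(ev p).comp J`).  `β = max β₁ β₂`.  `D` from SCO for the stationary set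
`S \ S'` and `β`.  Let `(δ :: D') <:+ D` and `p` a point.  `δ ∈ S`, `δ ∉ S'`.  `q` from SCT for `S'`, `L'`.  Let `t` be the code of `q`: `q = (P, inl a)`: `t = (P, a)`; `q = (P, inr γ)`: `t = (γ :: P, [])`; all its entries are `< δ`, so `β t < δ`; `L δ j = β t` for some `j` (`LadS.sur`).
`s = (D', lad L δ (j+1))` has entries `< δ` (`LadS.lt`) and the entry `β t`, so `(J (ch L s)) q = 0` (otherwise all entries of `s` would be `< β₂ t ≤ β t`).  `β s < δ`, so all `t' ∈ M s` are below `δ`, and `ch L' t'` has the same values at `p` and at `q` (SCT); so `J (ch L s)` too (a closed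
condition, linear).  So `(J (ch L s)) p = 0`, `i = j + 1`. -/
def SpecSDE : Prop := ∀ (𝕜 : Type) [RCLike 𝕜] (Λ : Type) [LinearOrder Λ] (S S' : Set Λ) (L L' : Λ → ℕ → Λ),
  Om1 Λ → LadS S L → LadS S' L' → Stat (S \ S') → ∀ (J : ES 𝕜 L ⊤ →L[𝕜] ES 𝕜 L' ⊤) (n : ℕ),
  ∃ D : List Λ, D.length = n ∧ ∀ (p : PN Λ ⊤) (δ : Λ) (D' : List Λ), (δ :: D') <:+ D →
    ∃ i : ℕ, ((J (ch 𝕜 L ⊤ (D', lad L δ i))).1 : PN Λ ⊤ → 𝕜) p = 0

/-- `SNE` [100].  USES SDE, TST (`Pool.Agent.Lib.MP38dfb6.SpecTST`).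
PROOF.  `n` with `‖J‖ < a (2 n + 1)`, `D` from SDE, `G = GG D`.  For every point `p`: TST for `ψ = (ev p).comp J`: `‖(J G) p‖ ≤ ‖ψ‖ ≤ ‖J‖`.  So `‖J G‖ ≤ ‖J‖` (`lp.norm_le_of_forall_le`), but `a (2 n + 1) ≤ a ‖G‖ ≤ ‖J G‖` (TST, first part, `N = ⊤`). -/
def SpecSNE : Prop := ∀ (𝕜 : Type) [RCLike 𝕜] (Λ : Type) [LinearOrder Λ] (S S' : Set Λ) (L L' : Λ → ℕ → Λ),
  Om1 Λ → LadS S L → LadS S' L' → Stat (S \ S') → ∀ (J : ES 𝕜 L ⊤ →L[𝕜] ES 𝕜 L' ⊤) (a : ℝ), 0 < a →
  ¬ ∀ e, a * ‖e‖ ≤ ‖J e‖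

/-- `SCI` [130].  USES nothing.
PROOF.  Closed: clear.  Unbounded: for `b` define `A 0 > b` and `A (k+1) ∈ C ((Nat.unpair k).1)` with `A (k+1) > A k`.  `δ` = least upper bound of `range A` (bounded by `Om1.bdd`, least by `wf`).  For every `n` the set of the `A (k+1)` with `(Nat.unpair k).1 = n` is a nonempty subset of `C n` with
the same least upper bound (there are such `k ≥ j` for every `j`: `Nat.pair n j`, `Nat.right_le_pair`), so `δ ∈ C n`. -/
def SpecSCI : Prop := ∀ (Λ : Type) [LinearOrder Λ], Om1 Λ → ∀ C : ℕ → Set Λ, (∀ n, Club (C n)) → Club (⋂ n, C n)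

/-- `SUL` [190].  USES SCI, SCA.  Ulam's matrix.
PROOF.  For `α` let `f α : Λ → ℕ` be injective on the countable set `Iio α`.  `A n ξ = {α | ξ < α ∧ f α ξ = n}`.  For every `ξ` some `A n ξ` is stationary: otherwise there are clubs `C n` disjoint from `A n ξ`, and `α ∈ ⋂ n, C n` with `ξ < α` (SCI) is in `A (f α ξ) ξ`.  Choose `n ξ`.  For some
`n` the set `Ξ` of the `ξ` with `n ξ = n` is not countable (otherwise `Λ` would be countable, but it is not: `Om1.bdd` for `univ`).  For `ξ ≠ ξ'` in `Ξ` the sets `A n ξ`, `A n ξ'` are disjoint (`f α` is injective on `Iio α`).  `#Λ ≤ ℵ₁ ≤ #Ξ` (SCA; `Ξ` is uncountable), so there is an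
injection `g : Λ → Ξ`; `T ξ = A n (g ξ)`. -/
def SpecSUL : Prop := ∀ (Λ : Type) [LinearOrder Λ], Om1 Λ → ∃ T : Λ → Set Λ, (∀ ξ, Stat (T ξ)) ∧
  ∀ ξ ξ', ξ ≠ ξ' → Disjoint (T ξ) (T ξ')

end Pool.Agent.Lib.MP38dfb6.HS
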