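import Pool.Agent.Lib.MP_38dfb6_an.HS.Spec
import Pool.Agent.Lib.MP_38dfb6_an.NB.SpecK

/-!
# MP_38dfb6_an: the spaces `C(A(Γ)^ℕ)`, their subspaces and a quotient. Exact statements of the modules

`A(Γ)` is the one-point compactification of the discrete set `Γ`.  THEOREM Q.  `X = C(A(Γ)^ℕ)` is Hilbert generated
and has an M-basis of characteristic `1`; so (Theorem H) every closed subspace `≠ 0` of `X` has an M-basis of characteristic `1`, in particular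
`C(K)` for every continuous image `K` of `A(Γ)^ℕ`.  But for `#Γ = ℵ₁` there is a closed subset `K` of `A(Γ)^ℕ` such that the quotient
`C(K)` of `X` has no norming M-basis (the space of part K): norming M-bases pass to closed subspaces of weakly compactly generated spaces,
but not to quotients.

Convention.  Module `XXX` = file `Pool/Agent/Lib/MP_38dfb6_an/HS/XXX.lean`, imports only
`Pool.Agent.Lib.MP_38dfb6_an.HS.SpecQ`, namespace `Pool.Agent.Lib.MP38dfb6.HS`, theorem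
`specXXX (hYYY : SpecYYY) .. : SpecXXX` with the hypotheses in the order of USES, own lemmas in a
namespace `XXXM`.
-/

set_option autoImplicit false

namespace Pool.Agent.Lib.MP38dfb6.HS

open Filter Topology Set MeasureTheory

universe u v w

/-- a set with the discrete topology -/
structure Dis (Γ : Type) : Type where
  val : Γ

instance (Γ : Type) : TopologicalSpace (Dis Γ) := ⊥

instance (Γ : Type) : DiscreteTopology (Dis Γ) := ⟨rfl⟩

/-- the compact space `A(Γ)^ℕ`, `A(Γ)` the one-point compactification of the discrete set `Γ` -/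
abbrev AN (Γ : Type) : Type := ℕ → OnePoint (Dis Γ)

/-- the points with finitely many coordinates different from `∞` -/
def FP (Γ : Type) : Type := {σ : AN Γ // {n | σ n ≠ OnePoint.infty}.Finite}

/-- the point `p` extends `σ` -/
def Ext {Γ : Type} (σ p : AN Γ) : Prop := ∀ n, σ n ≠ OnePoint.infty → p n = σ n

open Classical in
/-- `w σ` is `1` at the points which extend `σ` and `0` elsewhere -/
def IsW (𝕜 : Type) [RCLike 𝕜] {Γ : Type} (w : FP Γ → C(AN Γ, 𝕜)) : Prop :=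
  ∀ σ p, w σ p = if Ext σ.1 p then 1 else 0

example (Γ : Type) : CompactSpace (AN Γ) := inferInstance
example (Γ : Type) : T2Space (AN Γ) := inferInstance

/-- `QCL` [80].  USES nothing.  PROOF.  `{p | Ext σ p}` is the intersection of the finitely many sets `{p | p n = σ n}`, `σ n ≠ ∞`; `{σ n}` is open in `OnePoint (Dis Γ)` (image of
the open set `{γ}` under the open embedding) and closed; so the set is clopen, and its indicator is continuous. -/
def SpecQCL : Prop := ∀ (𝕜 : Type) [RCLike 𝕜] (Γ : Type), ∃ w : FP Γ → C(AN Γ, 𝕜), IsW 𝕜 w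

/-- `QMB` [220].  USES nothing.
PROOF.  For `σ` with support `S` and `F ⊆ S` let `σ_F` be `σ` on `F` and `∞` elsewhere.  `f σ g = ∑ F ∈ S.powerset, (-1)^#(S \ F) * g σ_F`.  `w ρ σ_F = 1` iff `supp ρ ⊆ F` and `ρ = σ` on `supp ρ`.  So `f σ (w ρ) = 0` unless
`ρ = σ_G`, `G = supp ρ ⊆ S`, and then it is `∑ (G ⊆ F ⊆ S) (-1)^#(S \ F)`, i.e. `1` if `G = S` and `0` otherwise (or: the sum is the product over `n ∈ S` of `[ρ n = ∞ or ρ n = σ n] - [ρ n = ∞] = [ρ n = σ n]`,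
times `[supp ρ ⊆ S]`, by `Finset.prod_sub` / `Finset.prod_add`).  Last clause: induction on `#S`: `ev σ = f σ - ∑ (F ≠ S) ± ev σ_F`. -/
def SpecQMB : Prop := ∀ (𝕜 : Type) [RCLike 𝕜] (Γ : Type) (w : FP Γ → C(AN Γ, 𝕜)), IsW 𝕜 w →
  ∃ f : FP Γ → (C(AN Γ, 𝕜) →L[𝕜] 𝕜), (∀ σ, f σ (w σ) = 1) ∧ (∀ σ ρ, σ ≠ ρ → f σ (w ρ) = 0) ∧
    ∀ σ : FP Γ, ∃ φ ∈ Submodule.span 𝕜 (range f), ∀ g : C(AN Γ, 𝕜), φ g = g σ.1

/-- `QSW` [150].  USES nothing.  PROOF.  `w σ * w ρ` is `0` if there is `n` with `σ n ≠ ∞`, `ρ n ≠ ∞`, `σ n ≠ ρ n`, and otherwise `w τ`, `τ n = σ n` if `σ n ≠ ∞`, else `ρ n`.  `star (w σ) = w σ`, `w (fun _ => ∞) = 1`.  So the span is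
a star subalgebra.  It separates points: if `p n ≠ q n`, one of them, say `p n`, is not `∞`: `σ = ` the point with `σ n = p n` and `∞` elsewhere.  Stone-Weierstrass, as in `NB/KSP.lean`. -/
def SpecQSW : Prop := ∀ (𝕜 : Type) [RCLike 𝕜] (Γ : Type) (w : FP Γ → C(AN Γ, 𝕜)), IsW 𝕜 w →
  (Submodule.span 𝕜 (range w)).topologicalClosure = ⊤

/-- `QDN` [70].  USES nothing.  PROOF.  For a point `p` let `p_m` be `p` at the coordinates `< m` and `∞` elsewhere: `p_m → p` (coordinatewise eventually constant), `g p_m → g p`. -/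
def SpecQDN : Prop := ∀ (𝕜 : Type) [RCLike 𝕜] (Γ : Type) (g : C(AN Γ, 𝕜)) (C : ℝ), 0 ≤ C →
  (∀ σ : FP Γ, ‖g σ.1‖ ≤ C) → ‖g‖ ≤ C

/-- `QCH` [130].  USES QCL, QMB, QSW, QDN.  PROOF.  `x = w`, `f` from QMB.  `tot`: if all `f σ g = 0` then `g σ = 0` for all `σ : FP Γ`, so `‖g‖ ≤ 0` (QDN).  Characteristic: for `‖g‖ = 1`, `ε > 0` there is `σ` with `‖g σ‖ > 1 - ε`
(QDN), and the evaluation at `σ` has norm `≤ 1` and is in the span of the `f`.  `≤ 1` is trivial; the constant `1` is a unit vector. -/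
def SpecQCH : Prop := ∀ (𝕜 : Type) [RCLike 𝕜] (Γ : Type),
  ∃ (ι : Type) (x : ι → C(AN Γ, 𝕜)) (f : ι → (C(AN Γ, 𝕜) →L[𝕜] 𝕜)),
    MBasis 𝕜 C(AN Γ, 𝕜) x f ∧ charac 𝕜 (cspan 𝕜 f) = 1

/-- `QHG` [220].  USES QCL, QSW.  (Compare `NB/HIL.lean`.)
PROOF.  `H = ℓ²(FP Γ)`, `a σ = 2^(-(code of the support of σ) - 1)` (`Encodable (Finset ℕ)`).  For a finite set `A` of `σ`s and `c ∈ H`: `‖∑ σ ∈ A, (a σ * c σ) • w σ‖ ≤ (∑ σ ∈ A, ‖c σ‖²)^(1/2)`: at the point `p` only the `σ` with `Ext σ p`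
count, they are determined by their supports, so `∑ a σ² ≤ ∑ 4^(-k-1) ≤ 1` over them; Cauchy-Schwarz.  So the family `(a σ * c σ) • w σ` is summable (`summable_iff_vanishing_norm`), `T c = ∑' σ, (a σ * c σ) • w σ` is linear with `‖T c‖ ≤ ‖c‖`, and
`T (single σ 1) = a σ • w σ`; the range contains the span of the `w σ`, which is dense (QSW). -/
def SpecQHG : Prop := ∀ (𝕜 : Type) [RCLike 𝕜] (Γ : Type), HG 𝕜 C(AN Γ, 𝕜)

/-- `QHW` [130].  USES nothing.  Hilbert generated spaces are weakly compactly generated.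
PROOF.  `K = T '' closedBall 0 1`.  Its span is the range of `T` (scaling).  Weakly compact: `WeakDual 𝕜 H → WeakSpace 𝕜 E`, `φ ↦ T ((InnerProductSpace.toDual 𝕜 H).symm φ)` is continuous: for `g ∈ E*` there is `v ∈ H` with `g ∘ T = ⟪v, ·⟫`, and
`g (T h) = ⟪v, h⟫ = conj ⟪h, v⟫ = conj (φ v)` if `φ = toDual h`.  `K` is the image of the closed unit ball of the dual, which is compact (`WeakDual.isCompact_closedBall`). -/
def SpecQHW : Prop := ∀ (𝕜 : Type) [RCLike 𝕜] (E : Type) [NormedAddCommGroup E] [NormedSpace 𝕜 E], HG 𝕜 E → WCG 𝕜 E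

/-- `QEM` [170].  USES UNQ (`Pool.Agent.Lib.MP38dfb6.SpecUNQ`).  `K = KK L ⊤` embeds in `A(nodes)^ℕ`.
PROOF.  The class of the node `s` is `Nat.pair |s.1| |s.2|`.  If `s ≠ s'` have the same class, then `¬ (k s ∧ k s')` for all `k ∈ K` (true for the paths by UNQ, closed condition).  `j k n = s` if `k s = true` and `s` has class `n`, `j k n = ∞` if there
is no such `s`.  Continuity of `k ↦ j k n`: the preimage of `{s}` is `{k | k s = true}` or empty, so open; an open set which contains `∞` has a compact, so finite, complement `A` (`OnePoint.isOpen_iff_of_mem`), its preimage is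
the set of the `k` with `k s = false` for the `s ∈ A` of class `n`, open.  Injective: `k s = true` iff `j k (class s) = s`. -/
def SpecQEM : Prop := ∀ (Λ : Type) (L : Λ → ℕ → Λ), ∃ j : C(KK L ⊤, AN (Node Λ)), Function.Injective j

/-- `QTI` [60].  USES QEM.  PROOF.  `q g = g.comp j`.  `j` is a closed embedding (`Continuous.isClosedEmbedding`); Tietze: `ContinuousMap.exists_extension` (`TietzeExtension 𝕜`: `RCLike.instTietzeExtension`). -/
def SpecQTI : Prop := ∀ (𝕜 : Type) [RCLike 𝕜] (Λ : Type) (L : Λ → ℕ → Λ),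
  ∃ q : C(AN (Node Λ), 𝕜) →L[𝕜] C(KK L ⊤, 𝕜), Function.Surjective q

/-- `QTR` [100].  USES nothing.  PROOF.  `x' i = T (x i)`, `f' i = (f i) ∘ T.symm`; `φ ↦ φ ∘ T.symm` is an isometric isomorphism of the dual spaces which maps `cspan f` onto `cspan f'`, and `T` maps the unit vectors onto the unit vectors. -/
def SpecQTR : Prop := ∀ (𝕜 : Type) [RCLike 𝕜] (E : Type u) [NormedAddCommGroup E] [NormedSpace 𝕜 E] (F : Type w)
  [NormedAddCommGroup F] [NormedSpace 𝕜 F] (_ : E ≃ₗᵢ[𝕜] F) (ι : Type v) (x : ι → E) (f : ι → (E →L[𝕜] 𝕜)),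
  MBasis 𝕜 E x f → ∃ (x' : ι → F) (f' : ι → (F →L[𝕜] 𝕜)), MBasis 𝕜 F x' f' ∧
    charac 𝕜 (cspan 𝕜 f') = charac 𝕜 (cspan 𝕜 f)

/-- `QSB` [60].  USES QCH, QHG, QHW, `SUB.{0, 0}`, `CSW.{0, 0}`, `UP1.{0}`.  PROOF.  `X = C(AN Γ, 𝕜)` is WCG, so its M-basis countably supports the dual; SUB, UP1. -/
def SpecQSB : Prop := ∀ (𝕜 : Type) [RCLike 𝕜] (Γ : Type) (E : Submodule 𝕜 C(AN Γ, 𝕜)),
  IsClosed (E : Set C(AN Γ, 𝕜)) → Nontrivial E →
  ∃ (ι : Type) (x : ι → E) (f : ι → (E →L[𝕜] 𝕜)), MBasis 𝕜 E x f ∧ charac 𝕜 (cspan 𝕜 f) = 1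

/-- `QIM` [100].  USES QSB, `QTR.{0, 0, 0}`.  PROOF.  `g ↦ g.comp θ` is a linear isometry from `C(K, 𝕜)` to `C(AN Γ, 𝕜)` (`θ` surjective); its range is closed (complete) and isometrically isomorphic to `C(K, 𝕜)`. -/
def SpecQIM : Prop := ∀ (𝕜 : Type) [RCLike 𝕜] (Γ : Type) (K : Type) [TopologicalSpace K] [CompactSpace K]
  [T2Space K] (θ : C(AN Γ, K)), Function.Surjective θ →
  ∃ (ι : Type) (x : ι → C(K, 𝕜)) (f : ι → (C(K, 𝕜) →L[𝕜] 𝕜)), MBasis 𝕜 C(K, 𝕜) x f ∧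
    charac 𝕜 (cspan 𝕜 f) = 1

/-- `QNO` [60].  USES `UPP.{0, v}`, `NNG.{0}`, KIS (from `Pool.Agent.Lib.MP38dfb6`; compare `NB/KFN.lean`).  PROOF.  UPP for the isometry `J` of `ES 𝕜 L ⊤` onto `C(KK L ⊤, 𝕜)` and all `n`. -/
def SpecQNO : Prop := ∀ (𝕜 : Type) [RCLike 𝕜] (Λ : Type) [LinearOrder Λ] (L : Λ → ℕ → Λ), Lad Λ L →
  ∀ (ι : Type v) (x : ι → C(KK L ⊤, 𝕜)) (f : ι → (C(KK L ⊤, 𝕜) →L[𝕜] 𝕜)), MBasis 𝕜 C(KK L ⊤, 𝕜) x f →
    charac 𝕜 (cspan 𝕜 f) = 0

end Pool.Agent.Lib.MP38dfb6.HS
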