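import Pool.Agent.Lib.MP_38dfb6_an.NB.Spec

/-!
# MP_38dfb6_an: stationary sets and norming M-bases. Exact statements of the modules

THEOREM S.  Let `Λ` be a well-order of type `ω₁` and `S ⊆ Λ`.  Let `L δ` be an enumeration of the elements below `δ` for `δ ∈ S`, and constant
for `δ ∉ S`.  If `S` is stationary then the space `ES L ⊤ = C(K)` has no norming M-basis, nor has any space which contains
it, and the best characteristic of `ES L n` is `1 / (2 n + 1)`.  If `S` is not stationary, then all these spaces have M-bases of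
characteristic `1`.

Convention.  Module `XXX` = file `Pool/Agent/Lib/MP_38dfb6_an/HS/XXX.lean`, imports only
`Pool.Agent.Lib.MP_38dfb6_an.HS.SpecS`, namespace `Pool.Agent.Lib.MP38dfb6.HS`, theorem
`specXXX (hYYY : SpecYYY) .. : SpecXXX` with the hypotheses in the order of USES, own lemmas in a
namespace `XXXM`.
-/

set_option autoImplicit false

namespace Pool.Agent.Lib.MP38dfb6.HS

open Filter Topology Set

universe u v

/-- `Λ` is a well-order of type `ω₁`: well-founded, initial segments are countable, countable sets are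
(strictly) bounded. -/
structure Om1 (Λ : Type) [LinearOrder Λ] : Prop where
  wf : WellFounded ((· < ·) : Λ → Λ → Prop)
  bdd : ∀ s : Set Λ, s.Countable → ∃ b, ∀ x ∈ s, x < b
  cnt : ∀ δ : Λ, (Iio δ).Countable

/-- `C` is closed and unbounded -/
structure Club {Λ : Type} [LinearOrder Λ] (C : Set Λ) : Prop where
  unb : ∀ b : Λ, ∃ c ∈ C, b < c
  cl : ∀ A ⊆ C, A.Nonempty → ∀ δ : Λ, IsLUB A δ → δ ∈ C

/-- `S` is stationary: it meets every closed unbounded set -/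
def Stat {Λ : Type} [LinearOrder Λ] (S : Set Λ) : Prop := ∀ C : Set Λ, Club C → (S ∩ C).Nonempty

/-- ladders on `S`: for `δ ∈ S` (not the least element) the sequence `L δ` enumerates the elements below `δ`, for
the other `δ` it is constant -/
structure LadS {Λ : Type} [LinearOrder Λ] (S : Set Λ) (L : Λ → ℕ → Λ) : Prop where
  sur : ∀ δ ∈ S, ∀ x : Λ, x < δ → ∃ i, L δ i = x
  lt : ∀ δ ∈ S, ∀ x : Λ, x < δ → ∀ i, L δ i < δ
  out : ∀ δ, (δ ∉ S ∨ ∀ x : Λ, ¬ x < δ) → ∀ i, L δ i = δ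

/-- `SLA` [70].  USES nothing.  PROOF.  For `δ ∈ S` with `Iio δ` not empty a surjection from `ℕ` onto the countable set `Iio δ` (`Set.Countable.exists_eq_range`), otherwise constant. (Compare `NB/LAM.lean`.) -/
def SpecSLA : Prop := ∀ (Λ : Type) [LinearOrder Λ], Om1 Λ → ∀ S : Set Λ, ∃ L : Λ → ℕ → Λ, LadS S L

/-- `SCA` [60].  USES nothing.  PROOF.  The order type of `Λ` is at most `(aleph 1).ord`: every smaller ordinal is `typein` of some `δ`, with the countable cardinality of `Iio δ`. -/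
def SpecSCA : Prop := ∀ (Λ : Type) [LinearOrder Λ], Om1 Λ → Cardinal.mk Λ ≤ Cardinal.aleph 1

/-- `SCO` [190].  USES nothing.  (Compare `NB/CLO.lean`.)
PROOF.  For `b : Λ` the set `C = {δ | Closed β δ ∧ b < δ}` is a club.  Unbounded: given `b'`, `A 0 = max b b'`; the set of the nodes with all entries `≤ A m` is countable, so by `Om1.bdd` there is `A (m+1)` greater than `A m` and than all `β s` for
these `s`; the least upper bound `δ` of `range A` (bounded by `Om1.bdd`, least by `wf`) is closed and `> A 0` (as in CLO).  Closed: `A ⊆ C`, `A` not empty, `δ` its least upper bound.  `b < a ≤ δ` for `a ∈ A`.  If all entries of `s` are `< δ`, each of them is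
`< a` for some `a ∈ A`, and all are `< a` for one `a ∈ A` (finitely many; `A` not empty), so `β s < a ≤ δ`.  So there is `δ ∈ S` closed with `b < δ`.  Induction on `n`: given `D`, let `b` be above all its entries, `δ :: D` (`List.suffix_cons_iff`). -/
def SpecSCO : Prop := ∀ (Λ : Type) [LinearOrder Λ], Om1 Λ → ∀ S : Set Λ, Stat S → ∀ (β : Node Λ → Λ) (n : ℕ),
  ∃ D : List Λ, D.length = n ∧ ∀ (δ : Λ) (D' : List Λ), (δ :: D') <:+ D →
    δ ∈ S ∧ Closed β δ ∧ ∀ x ∈ D', x < δ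

/-- `SKI` [200].  USES CNT (`Pool.Agent.Lib.MP38dfb6.SpecCNT`), SCO.  Copy of `NB/KIL.lean`: CLO is replaced by SCO, `Lad.sur`, `Lad.lt` by `LadS.sur`, `LadS.lt` for the `δ ∈ S` (the `δ` of `D` are in `S`), `Lad.bdd` by `Om1.bdd`. -/
def SpecSKI : Prop := ∀ (𝕜 : Type) [RCLike 𝕜] (Λ : Type) [LinearOrder Λ] (S : Set Λ) (L : Λ → ℕ → Λ) (N : ℕ∞),
  Om1 Λ → LadS S L → Stat S →
  ∀ (X : Type u) [NormedAddCommGroup X] [NormedSpace 𝕜 X] (J : ES 𝕜 L N →L[𝕜] X)
    (ι : Type v) (x : ι → X) (f : ι → (X →L[𝕜] 𝕜)), MBasis 𝕜 X x f → ∀ n : ℕ,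
  ∃ D : List Λ, D.length = n ∧ ∀ φ ∈ Submodule.span 𝕜 (range f), ∀ (δ : Λ) (D' : List Λ), (δ :: D') <:+ D →
    ∃ i : ℕ, φ (J (ch 𝕜 L N (D', lad L δ i))) = 0

/-- `SUP` [120].  USES SKI, TST (`Pool.Agent.Lib.MP38dfb6.SpecTST`).  Copy of `NB/UPP.lean`. -/
def SpecSUP : Prop := ∀ (𝕜 : Type) [RCLike 𝕜] (Λ : Type) [LinearOrder Λ] (S : Set Λ) (L : Λ → ℕ → Λ) (N : ℕ∞),
  Om1 Λ → LadS S L → Stat S →
  ∀ (X : Type u) [NormedAddCommGroup X] [NormedSpace 𝕜 X] (J : ES 𝕜 L N →L[𝕜] X) (a : ℝ), 0 < a →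
    (∀ e, a * ‖e‖ ≤ ‖J e‖) → ∀ (ι : Type v) (x : ι → X) (f : ι → (X →L[𝕜] 𝕜)), MBasis 𝕜 X x f →
  ∀ n : ℕ, ((n : ℕ) : ℕ∞) ≤ N → charac 𝕜 (cspan 𝕜 f) ≤ ‖J‖ / (a * (2 * n + 1))

/-- the ladders are separated from the index `i δ` on: a finite sequence `a` is an initial part, longer than `i δ`, of only finitely
many ladders `L δ` -/
def SepL {Λ : Type} (L : Λ → ℕ → Λ) (i : Λ → ℕ) : Prop :=
  ∀ a : List Λ, {δ | i δ < a.length ∧ a = lad L δ a.length}.Finite

/-- `SSE` [200].  USES nothing.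
PROOF.  Let `C` be a club with `S ∩ C = ∅`, `cut δ = C ∩ Iio δ`.  If `δ ∈ S` and `cut δ` is not empty, let `α δ` be its least upper bound (`wf`; `δ` is an upper bound); `α δ ∈ C` and `δ ∉ C`, so `α δ < δ`.  For a set `c` the set `Q c = {δ ∈ S | cut δ = c}` is
countable: if `δ ∈ Q c` let `c' ∈ C` with `δ < c'`; every `δ' ∈ Q c` is `≤ c'` (otherwise `c' ∈ cut δ' = cut δ`, so `c' < δ`).  Let `k c : Λ → ℕ` be injective on `Q c`.  For `δ ∈ S` not least let `i δ = max (j + 1) (k (cut δ) δ)`, `L δ j = α δ` (`i δ = k (cut δ) δ` if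
`cut δ = ∅`), for the other `δ` let `i δ = 0`.  Let `i δ < |a|`, `a = lad L δ |a|`.  If `δ ∉ S` or `δ` is least, all entries of `a` are `δ` and `a ≠ []`: at most one such `δ`.  Otherwise the entries of `a` are `L δ m`, `m < |a|`, all `< δ`, and `α δ` is one of them.
For two such `δ`, `δ'`: `α δ` is an entry of `a = lad L δ' |a|`, so `α δ < δ'`; so `cut δ ⊆ cut δ'` (`c ≤ α δ < δ'` for `c ∈ cut δ`), and conversely: `cut δ = cut δ' = c`.  So all these `δ` are in one `Q c`, with `k c δ ≤ i δ < |a|`: finitely many. -/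
def SpecSSE : Prop := ∀ (Λ : Type) [LinearOrder Λ], Om1 Λ → ∀ S : Set Λ, ¬ Stat S → ∀ L : Λ → ℕ → Λ, LadS S L →
  ∃ i : Λ → ℕ, SepL L i

/-- `PBO` [200].  USES nothing.  (Compare `NB/BAS.lean`, `NB/PRD.lean`.)
PROOF.  `G a = {δ | i δ < |a|, a = lad L δ |a|}` (finite).  For a node `s = (D, a)` let `x s = ch s - ∑ δ ∈ G a, ch (δ :: D, [])`.  Functionals: `f ([], []) = ev ([], inl [])`; `f (D, y :: b) = ev (D, inl (y :: b)) - ev (D, inl b)`;
`f (δ :: D, []) = ev (δ :: D, inl []) - ev (D, inl (lad L δ (i δ)))`.  For a node `t`: `f ([], []) (ch t) = [t = ([], [])]`; `f (D, y :: b) (ch t) = [t = (D, y :: b)]`; `f (δ :: D, []) (ch t) = 1` iff `t = (δ :: D, [])` or `t = (D, a)`, `a = lad L δ |a|`,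
`i δ < |a|` (i.e. `δ ∈ G a`), else `0` (`On L t (δ :: D, inl [])` iff `t = (δ :: D, [])` or `t.1 = D` and `Pre L t.2 (inr δ)` or `t.1` is shorter, with the same condition as for `(D, inl (lad L δ (i δ)))`).  So `f s (x t) = [s = t]`: for `s = (δ :: D, [])`, `t = (D, a)`:
`[δ ∈ G a] - ∑ (δ' ∈ G a) [δ' = δ] = 0`; the other cases are clear; `x (E, []) = ch (E, [])` (`G [] = ∅`).  `ch (D, a) = x (D, a) + ∑ δ ∈ G a, x (δ :: D, [])` (if `|D| = N` the `ch (δ :: D, [])` are `0` in `ES L N`: a node with `N + 1` entries in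
the first list is on no path in `PN Λ N`).  Last clause: induction on `D`, then on `a`. -/
def SpecPBO : Prop := ∀ (𝕜 : Type) [RCLike 𝕜] (Λ : Type) (L : Λ → ℕ → Λ) (N : ℕ∞) (i : Λ → ℕ), SepL L i →
  ∃ (x : NN Λ N → ES 𝕜 L N) (f : NN Λ N → (ES 𝕜 L N →L[𝕜] 𝕜)), (∀ s, f s (x s) = 1) ∧
    (∀ s t, s ≠ t → f s (x t) = 0) ∧ (∀ s : NN Λ N, ch 𝕜 L N s.1 ∈ Submodule.span 𝕜 (range x)) ∧
    ∀ (D a : List Λ) (h : ((D.length : ℕ) : ℕ∞) ≤ N), ev 𝕜 L N ⟨(D, Sum.inl a), h⟩ ∈ Submodule.span 𝕜 (range f)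

/-- `PMB` [170].  USES PBO, GEN, LIM (the last two from `Pool.Agent.Lib.MP38dfb6`; compare `NB/BAS.lean`, `NB/LOW.lean`).
PROOF.  `x`, `f` from PBO.  `fund`: GEN.  `tot`: the values of `g` at all points `(D, inl a)` are `0`, by LIM those at the points `(D, inr δ)` too.  Characteristic: for `‖g‖ = 1`, `ε > 0` there is a point with `‖g p‖ > 1 - ε`, by LIM one of the form `(D, inl a)`;
`ev p` is in the span and has norm `≤ 1`.  `≤ 1` is trivial; `ch ([], [])` is a unit vector. -/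
def SpecPMB : Prop := ∀ (𝕜 : Type) [RCLike 𝕜] (Λ : Type) (L : Λ → ℕ → Λ) (N : ℕ∞) (i : Λ → ℕ), SepL L i →
  ∃ (ι : Type) (x : ι → ES 𝕜 L N) (f : ι → (ES 𝕜 L N →L[𝕜] 𝕜)), MBasis 𝕜 (ES 𝕜 L N) x f ∧
    charac 𝕜 (cspan 𝕜 f) = 1

end Pool.Agent.Lib.MP38dfb6.HS
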