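import Pool.Agent.Lib.MP_38dfb6_an.NB.Spec

/-!
# MP_38dfb6_an: norming M-bases are not a three-space property. Exact statements of the modules

THEOREM T.  The space `E = ES L ⊤` of the ladder tree has no norming M-basis.  Let `Y ⊆ E` be the closed linear span of the functions
`chi (D, [])`.  Then `Y` and `Z ≅ E / Y` have M-bases of characteristic `1` (`Z` with a norm which is equivalent to the quotient norm).

Convention.  Module `XXX` = file `Pool/Agent/Lib/MP_38dfb6_an/HS/XXX.lean`, imports only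
`Pool.Agent.Lib.MP_38dfb6_an.HS.SpecT`, namespace `Pool.Agent.Lib.MP38dfb6.HS`, theorem
`specXXX (hYYY : SpecYYY) .. : SpecXXX` with the hypotheses in the order of USES, own lemmas in a
namespace `XXXM`.
-/

set_option autoImplicit false

namespace Pool.Agent.Lib.MP38dfb6.HS

open Filter Topology Set

section spaces

variable (𝕜 : Type) [RCLike 𝕜] {Λ : Type} (L : Λ → ℕ → Λ)

/-- `Y`: the closed linear span of the `chi (D, [])` -/
noncomputable def YS : Submodule 𝕜 (lp (fun _ : PN Λ ⊤ => 𝕜) ⊤) :=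
  (Submodule.span 𝕜 (range fun D : List Λ => chi 𝕜 L ⊤ (D, []))).topologicalClosure

instance : CompleteSpace (YS 𝕜 L) := by
  unfold YS
  infer_instance

open Classical in
/-- the function `1` at the nodes `(s.1, b)` for which `s.2 ≠ []` is an initial part of `b`, `0` elsewhere -/
noncomputable def om (s : Node Λ) : lp (fun _ : Node Λ => 𝕜) ⊤ :=
  ⟨fun t => if s.1 = t.1 ∧ s.2 <:+ t.2 ∧ s.2 ≠ [] then 1 else 0, memℓp_infty ⟨1, by
    rintro _ ⟨p, rfl⟩
    dsimp only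
    split_ifs <;> simp⟩⟩

/-- `Z`: the closed linear span of the functions `om s` in the space of all bounded functions on the set of nodes -/
noncomputable def ZS (Λ : Type) : Submodule 𝕜 (lp (fun _ : Node Λ => 𝕜) ⊤) :=
  (Submodule.span 𝕜 (range (om 𝕜 (Λ := Λ)))).topologicalClosure

instance : CompleteSpace (ZS 𝕜 Λ) := by
  unfold ZS
  infer_instance

/-- the point `(D, inl a)` -/
def pt (D a : List Λ) : PN Λ ⊤ := ⟨(D, Sum.inl a), le_top⟩

end spaces

/-- `TPI` [120].  USES nothing.  The map `π x = (t ↦ x (t.1, inl t.2) - x (t.1, inl []))`.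
PROOF.  It is linear and bounded by `2` from `ES` to the bounded functions.  `π (ch s) = om s`: `On L s (D, inl b)` iff `s.1 = D` and `s.2 <:+ b`, or `(δ :: s.1) <:+ D` and `Pre L s.2 (inr δ)` for some `δ`; the second alternative
does not depend on `b` and excludes the first (lengths); for `b = []` the first is `s.1 = D`, `s.2 = []`.  So `π` maps the closed span of the `ch s` into `ZS`. -/
def SpecTPI : Prop := ∀ (𝕜 : Type) [RCLike 𝕜] (Λ : Type) (L : Λ → ℕ → Λ), ∃ π : ES 𝕜 L ⊤ →L[𝕜] ZS 𝕜 Λ,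
  (∀ x t, ((π x).1 : Node Λ → 𝕜) t = (x.1 : PN Λ ⊤ → 𝕜) (pt t.1 t.2) - (x.1 : PN Λ ⊤ → 𝕜) (pt t.1 [])) ∧
  ∀ s, (π (ch 𝕜 L ⊤ s)).1 = om 𝕜 s

/-- `TES` [220].  USES nothing.
PROOF.  `On L (D, []) p` iff `D <:+ p.1` (so the functions of `YS` depend only on `p.1`).  `x = ∑ s ∈ S, c s • chi s`.  `x₁` = the part with `s.2 ≠ []`; `x - x₁ ∈ YS`, and `x₁ (pt D a) - x₁ (pt D []) = x (pt D a) - x (pt D [])`.  `F` = the
set of all suffixes of the lists `s.1`, `s ∈ S`, and `[]`: finite, closed under suffixes.  `y₁ = - ∑ (E ∈ F, E ≠ []) (x₁ (pt E []) - x₁ (pt E.tail [])) • chi (E, [])`.  For a point `p` let `D*` be the longest suffix of `p.1` in `F`; the `E ∈ F` with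
`E <:+ p.1` are the suffixes of `D*`, so `y₁ p = - (x₁ (pt D* []) - x₁ (pt [] [])) = - x₁ (pt D* [])` (telescoping, by induction on `D*`; `x₁ (pt [] []) = 0`).
(a) `p.1 = D*`, `p.2 = inl a`: `(x₁ + y₁) p = x₁ (pt D* a) - x₁ (pt D* [])`, norm `≤ C`.  (b) `p.1 = D*`, `p.2 = inr δ`: `x₁ (D*, inr δ) = x₁ (pt D* (lad L δ i))` for `i ≥` all lengths of the `s.2`, `s ∈ S` (`b = lad L δ b.length` iff
`b <:+ lad L δ i`); so as (a).  (c) `p.1 ≠ D*`: `(δ :: D*) <:+ p.1` for some `δ`, and `p.1 ∉ F`.  For `s ∈ S`: `On L s p` iff `On L s (D*, inr δ)` (`s.1 <:+ p.1` and `s.1 ∈ F` imply `s.1 <:+ D*`; if `s.1 = D*` both are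
`Pre L s.2 (inr δ)`, otherwise both are `∃ δ', (δ' :: s.1) <:+ D* ∧ Pre L s.2 (inr δ')`).  So `x₁ p = x₁ (D*, inr δ)`, as (b).  `y = - (x - x₁) + y₁`. -/
def SpecTES : Prop := ∀ (𝕜 : Type) [RCLike 𝕜] (Λ : Type) (L : Λ → ℕ → Λ) (x : lp (fun _ : PN Λ ⊤ => 𝕜) ⊤) (C : ℝ),
  0 ≤ C → x ∈ Submodule.span 𝕜 (range (chi 𝕜 L ⊤)) →
  (∀ D a : List Λ, ‖(x : PN Λ ⊤ → 𝕜) (pt D a) - (x : PN Λ ⊤ → 𝕜) (pt D [])‖ ≤ C) →
  ∃ y ∈ YS 𝕜 L, ‖x + y‖ ≤ C

/-- `TSU` [150].  USES TPI, TES.  `π` is onto `Z`, with kernel `Y`.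
PROOF.  `π (ch (D, [])) = om (D, []) = 0`, so `π x = 0` if `x.1 ∈ YS` (as a set `YS` is the closure of the span of the `chi (D, [])`; or: if `x.1 ∈ YS` then `x.1 (pt D a) = x.1 (pt D [])` for all `D`, `a`, a closed condition).  Every `z` in the span of the `om s` is `π x₀` with `x₀` in the span of the `ch s`; TES with `C = ‖z‖`: `y ∈ YS`, `π (x₀ + y) = z`, `‖x₀ + y‖ ≤ ‖z‖`.  So `π` is surjective on the
span with constant `1`, and on its closure with constant `2` (`controlled_closure_of_complete` for the `NormedAddGroupHom` of `π`, or a direct successive approximation).  Kernel: `π x = 0`, `ε > 0`: `x'` in the span of the `ch s`,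
`‖x - x'‖ < ε`; `‖π x'‖ ≤ 2 ε`; TES with `C = 2 ε`: `y ∈ YS` with `‖x' + y‖ ≤ 2 ε`, so `‖x - (- y)‖ ≤ 3 ε`; `YS` is closed. -/
def SpecTSU : Prop := ∀ (𝕜 : Type) [RCLike 𝕜] (Λ : Type) (L : Λ → ℕ → Λ), ∃ π : ES 𝕜 L ⊤ →L[𝕜] ZS 𝕜 Λ,
  Function.Surjective π ∧ ∀ x, π x = 0 ↔ x.1 ∈ YS 𝕜 L

/-- `TYB` [170].  USES nothing.  The M-basis of `Y`.
PROOF.  Vectors `chi (D, [])`, functionals `f [] y = y (pt [] [])`, `f (δ :: D) y = y (pt (δ :: D) []) - y (pt D [])`.  `chi (D', [])` at `pt D []` is `1` iff `D' <:+ D`, and `D' <:+ δ :: D` iff `D' = δ :: D` or `D' <:+ D`: biorthogonal.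
`fund`: closure in the subtype.  For `y ∈ YS`: `y p = y (pt p.1 [])` (true for the generators, closed condition), so `‖y‖ = sup ‖y (pt D [])‖`, and the evaluation at `pt D []` is in the span of the `f` (induction on `D`) of norm `≤ 1`: `tot` and characteristic
`≥ 1`; `≤ 1` is trivial; `chi ([], [])` (the constant `1`) is a unit vector. -/
def SpecTYB : Prop := ∀ (𝕜 : Type) [RCLike 𝕜] (Λ : Type) (L : Λ → ℕ → Λ),
  ∃ (J : Type) (x : J → YS 𝕜 L) (f : J → (YS 𝕜 L →L[𝕜] 𝕜)), MBasis 𝕜 (YS 𝕜 L) x f ∧ charac 𝕜 (cspan 𝕜 f) = 1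

/-- `TZB` [170].  USES nothing.  The M-basis of `Z`.
PROOF.  Index set `{s : Node Λ // s.2 ≠ []}`, vectors `om s`, functionals `f (D, x :: a) z = z (D, x :: a) - z (D, a)`.  `om (D', b)` (`b ≠ []`) at `(D, c)` is `1` iff `D' = D` and `b <:+ c`; `b <:+ x :: a` iff `b = x :: a` or `b <:+ a`: biorthogonal.  `z (D, []) = 0` for
`z ∈ ZS` (generators, closed condition), so every evaluation `z ↦ z (D, a)` is in the span of the `f` (induction on `a`), of norm `≤ 1`: `tot`, characteristic `≥ 1`; `≤ 1` is trivial; `om ([], [x])` is a unit vector. -/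
def SpecTZB : Prop := ∀ (𝕜 : Type) [RCLike 𝕜] (Λ : Type) [Nonempty Λ],
  ∃ (J : Type) (x : J → ZS 𝕜 Λ) (f : J → (ZS 𝕜 Λ →L[𝕜] 𝕜)), MBasis 𝕜 (ZS 𝕜 Λ) x f ∧ charac 𝕜 (cspan 𝕜 f) = 1

end Pool.Agent.Lib.MP38dfb6.HS
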