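import Pool.Agent.Lib.MP_38dfb6_an.HS.SpecT

/-!
# MP_38dfb6_an: the subspace `Y` is Hilbert generated

Convention as in `SpecT.lean` (import only `Pool.Agent.Lib.MP_38dfb6_an.HS.SpecT2`).
-/

set_option autoImplicit false

namespace Pool.Agent.Lib.MP38dfb6.HS

open Filter Topology Set

/-- `TYH` [160].  USES nothing.  (Compare `NB/HIL.lean`, `HS/QHG.lean`.)
PROOF.  `H = ℓ²(List Λ)`, `a D = 2^(-D.length - 1)`.  `On L (D, []) p` iff `D <:+ p.1`, so the `D` with `On L (D, []) p` have different lengths.  For a finite set `A` of lists and `c ∈ H`: `‖∑ D ∈ A, (a D * c D) • chi (D, [])‖ ≤ (∑ D ∈ A, ‖c D‖²)^(1/2)`: at the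
point `p` only the `D` with `D <:+ p.1` count, `∑ (a D)² ≤ ∑ 4^(-k-1) ≤ 1` over them; Cauchy-Schwarz.  So the family `(a D * c D) • chi (D, [])` is summable (`summable_iff_vanishing_norm`), `T c = ∑' D, (a D * c D) • chi (D, [])` is linear with `‖T c‖ ≤ ‖c‖`, with
values in `YS`, and `T (single D 1) = a D • chi (D, [])`, so the range is dense in `YS`. -/
def SpecTYH : Prop := ∀ (𝕜 : Type) [RCLike 𝕜] (Λ : Type) (L : Λ → ℕ → Λ), HG 𝕜 (YS 𝕜 L)

end Pool.Agent.Lib.MP38dfb6.HS
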