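import Pool.Agent.Lib.MP_38dfb6_an.HS.SpecT

/-!
# TES (MP_38dfb6_an): approximation modulo `YS`

With `u D = x (pt D [])` and a finite suffix-closed set `F` of lists the function
`y = - ∑ E ∈ F, (u E - u E.tail) • chi (E, [])` is `- u D*` at a point `p`, `D*` the longest suffix of
`p.1` in `F`; and `x p = x (D*, e)` for some `e`.
-/

set_option autoImplicit false

namespace Pool.Agent.Lib.MP38dfb6.HS

open Filter Topology Set

namespace TESM

lemma lad_length {Λ : Type} (L : Λ → ℕ → Λ) (δ : Λ) (n : ℕ) : (lad L δ n).length = n := by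
  induction n with
  | zero => rfl
  | succ n ih => simp [lad, ih]

lemma lad_suffix {Λ : Type} (L : Λ → ℕ → Λ) (δ : Λ) {n m : ℕ} (h : n ≤ m) :
    lad L δ n <:+ lad L δ m := by
  induction m, h using Nat.le_induction with
  | base => exact List.suffix_refl _
  | succ m _ ih => exact ih.trans (List.suffix_cons _ _)

lemma suf_eq {Λ : Type} {a b l : List Λ} (ha : a <:+ l) (hb : b <:+ l)
    (h : a.length = b.length) : a = b :=
  (List.suffix_of_suffix_length_le ha hb h.le).eq_of_length h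

lemma pre_nil {Λ : Type} (L : Λ → ℕ → Λ) (e : List Λ ⊕ Λ) : Pre L [] e := by
  cases e with
  | inl b => exact List.nil_suffix
  | inr δ => rfl

lemma cons_of_proper {Λ : Type} {E P : List Λ} (h : E <:+ P) (hne : E ≠ P) :
    ∃ δ, (δ :: E) <:+ P := by
  obtain ⟨t, ht⟩ := h
  rcases List.eq_nil_or_concat t with rfl | ⟨t', δ, rfl⟩
  · exact absurd (by simpa using ht) hne
  · exact ⟨δ, t', by rw [← ht]; simp⟩

lemma on_nil {Λ : Type} (L : Λ → ℕ → Λ) (E : List Λ) (p : Pt Λ) : On L (E, []) p ↔ E <:+ p.1 := by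
  constructor
  · rintro (⟨h, _⟩ | ⟨δ, h, _⟩)
    · have h' : E = p.1 := h
      rw [h']
    · exact (List.suffix_cons δ E).trans h
  · intro h
    by_cases he : E = p.1
    · exact Or.inl ⟨he, pre_nil L _⟩
    · obtain ⟨δ, hδ⟩ := cons_of_proper h he
      exact Or.inr ⟨δ, hδ, pre_nil L _⟩

lemma on_b {Λ : Type} (L : Λ → ℕ → Λ) (s : Node Λ) (D : List Λ) (δ : Λ) {i : ℕ}
    (hs : s.2.length ≤ i) : On L s (D, Sum.inr δ) ↔ On L s (D, Sum.inl (lad L δ i)) := by
  unfold On
  refine or_congr (and_congr_right fun _ => ?_) Iff.rfl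
  constructor
  · intro h
    have h' : s.2 = lad L δ s.2.length := h
    have h2 := lad_suffix L δ hs
    rw [← h'] at h2
    exact h2
  · intro h
    have h' : s.2 <:+ lad L δ i := h
    exact suf_eq h' (lad_suffix L δ hs) (lad_length L δ _).symm

lemma on_c {Λ : Type} (L : Λ → ℕ → Λ) {F : Finset (List Λ)} {p : Pt Λ} {D : List Λ} {δ : Λ}
    (hmax : ∀ E ∈ F, E <:+ p.1 → E <:+ D) (hδ : (δ :: D) <:+ p.1) {s : Node Λ}
    (hs : s.1 ∈ F) : On L s p ↔ On L s (D, Sum.inr δ) := by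
  have hD : D <:+ p.1 := (List.suffix_cons δ D).trans hδ
  constructor
  · rintro (⟨h1, h2⟩ | ⟨δ', h1, h2⟩)
    · exfalso
      have h3 := hmax s.1 hs (by rw [h1])
      have h4 := h3.length_le
      have h5 := hδ.length_le
      rw [h1] at h4
      rw [List.length_cons] at h5
      omega
    · have h3 : s.1 <:+ D := hmax s.1 hs ((List.suffix_cons δ' s.1).trans h1)
      by_cases h4 : s.1 = D
      · refine Or.inl ⟨h4, ?_⟩
        rw [h4] at h1
        have h5 : δ' :: D = δ :: D := suf_eq h1 hδ rfl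
        have h6 : δ' = δ := (List.cons.inj h5).1
        rw [← h6]
        exact h2
      · refine Or.inr ⟨δ', List.suffix_of_suffix_length_le h1 hD ?_, h2⟩
        have h5 := h3.length_le
        rcases Nat.lt_or_ge s.1.length D.length with h6 | h6
        · exact h6
        · exact absurd (h3.eq_of_length (le_antisymm h5 h6)) h4
  · rintro (⟨h1, h2⟩ | ⟨δ', h1, h2⟩)
    · refine Or.inr ⟨δ, ?_, h2⟩
      have h1' : s.1 = D := h1
      rw [h1']
      exact hδ
    · exact Or.inr ⟨δ', h1.trans hD, h2⟩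

/-- the differences -/
def w {Λ 𝕜 : Type} [Sub 𝕜] (u : List Λ → 𝕜) : List Λ → 𝕜
  | [] => u []
  | δ :: E => u (δ :: E) - u E

open Classical in
lemma tel {Λ 𝕜 : Type} [RCLike 𝕜] (F : Finset (List Λ)) (hF : ∀ E ∈ F, ∀ E', E' <:+ E → E' ∈ F)
    (u : List Λ → 𝕜) (D : List Λ) (hD : D ∈ F) :
    ∑ E ∈ F.filter (fun E => E <:+ D), w u E = u D := by
  induction D with
  | nil =>
    have h : F.filter (fun E => E <:+ ([] : List Λ)) = {[]} := by
      ext E
      rw [Finset.mem_filter, Finset.mem_singleton, List.suffix_nil]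
      exact ⟨fun h => h.2, fun h => ⟨by rw [h]; exact hD, h⟩⟩
    rw [h, Finset.sum_singleton]
    rfl
  | cons δ D ih =>
    have hD' : D ∈ F := hF _ hD D (List.suffix_cons δ D)
    have h : F.filter (fun E => E <:+ (δ :: D)) =
        insert (δ :: D) (F.filter (fun E => E <:+ D)) := by
      ext E
      rw [Finset.mem_filter, Finset.mem_insert, Finset.mem_filter, List.suffix_cons_iff]
      constructor
      · rintro ⟨h1, h2 | h2⟩
        · exact Or.inl h2
        · exact Or.inr ⟨h1, h2⟩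
      · rintro (h | ⟨h1, h2⟩)
        · exact ⟨by rw [h]; exact hD, Or.inl h⟩
        · exact ⟨h1, Or.inr h2⟩
    have hn : (δ :: D) ∉ F.filter (fun E => E <:+ D) := by
      intro h'
      have h1 := (Finset.mem_filter.1 h').2.length_le
      rw [List.length_cons] at h1
      omega
    rw [h, Finset.sum_insert hn, ih hD']
    show u (δ :: D) - u D + u D = u (δ :: D)
    ring

/-- evaluation -/
def evl (𝕜 : Type) [RCLike 𝕜] {Λ : Type} (p : PN Λ ⊤) :
    lp (fun _ : PN Λ ⊤ => 𝕜) ⊤ →ₗ[𝕜] 𝕜 where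
  toFun g := (g : PN Λ ⊤ → 𝕜) p
  map_add' _ _ := rfl
  map_smul' _ _ := rfl

open Classical in
lemma evl_chi {𝕜 : Type} [RCLike 𝕜] {Λ : Type} (L : Λ → ℕ → Λ) (s : Node Λ) (p : PN Λ ⊤) :
    evl 𝕜 p (chi 𝕜 L ⊤ s) = if On L s p.1 then 1 else 0 := rfl

end TESM

open TESM Classical in
theorem specTES : SpecTES := by
  intro 𝕜 _ Λ L x C hC hx hxC
  obtain ⟨c, hc⟩ := Finsupp.mem_span_range_iff_exists_finsupp.1 hx
  -- the values of `x`
  have hval : ∀ p : PN Λ ⊤, evl 𝕜 p x = ∑ s ∈ c.support, c s * (if On L s p.1 then 1 else 0) := by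
    intro p
    rw [← hc, Finsupp.sum, map_sum]
    refine Finset.sum_congr rfl fun s _ => ?_
    rw [map_smul, evl_chi, smul_eq_mul]
  have heq : ∀ p q : PN Λ ⊤, (∀ s ∈ c.support, On L s p.1 ↔ On L s q.1) → evl 𝕜 p x = evl 𝕜 q x := by
    intro p q h
    rw [hval, hval]
    refine Finset.sum_congr rfl fun s hs => ?_
    rw [if_congr (h s hs) rfl rfl]
  set F : Finset (List Λ) := insert [] (c.support.biUnion fun s => s.1.tails.toFinset) with hFdef
  have hFmem : ∀ E, E ∈ F ↔ E = [] ∨ ∃ s ∈ c.support, E <:+ s.1 := by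
    intro E
    rw [hFdef, Finset.mem_insert, Finset.mem_biUnion]
    simp only [List.mem_toFinset, List.mem_tails]
  have hF0 : [] ∈ F := (hFmem []).2 (Or.inl rfl)
  have hFs : ∀ E ∈ F, ∀ E', E' <:+ E → E' ∈ F := by
    intro E hE E' hE'
    rcases (hFmem E).1 hE with rfl | ⟨s, hs, h⟩
    · rw [List.suffix_nil] at hE'
      rw [hE']
      exact hF0
    · exact (hFmem E').2 (Or.inr ⟨s, hs, hE'.trans h⟩)
  have hFS : ∀ s ∈ c.support, s.1 ∈ F := fun s hs =>
    (hFmem s.1).2 (Or.inr ⟨s, hs, List.suffix_refl _⟩)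
  set u : List Λ → 𝕜 := fun D => evl 𝕜 (pt D []) x with hu
  refine ⟨-∑ E ∈ F, w u E • chi 𝕜 L ⊤ (E, []), ?_, ?_⟩
  · refine Submodule.neg_mem _ (Submodule.sum_mem _ fun E _ => Submodule.smul_mem _ _ ?_)
    exact Submodule.le_topologicalClosure _ (Submodule.subset_span ⟨E, rfl⟩)
  · refine lp.norm_le_of_forall_le hC fun p => ?_
    -- the longest suffix of `p.1` in `F`
    obtain ⟨D, hD, hDmax⟩ := Finset.exists_max_image (F.filter fun E => E <:+ p.1.1)
      (fun E => E.length) ⟨[], Finset.mem_filter.2 ⟨hF0, List.nil_suffix⟩⟩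
    rw [Finset.mem_filter] at hD
    obtain ⟨hDF, hDp⟩ := hD
    have hmax : ∀ E ∈ F, E <:+ p.1.1 → E <:+ D := fun E hE hEp =>
      List.suffix_of_suffix_length_le hEp hDp (hDmax E (Finset.mem_filter.2 ⟨hE, hEp⟩))
    have hy : evl 𝕜 p (-∑ E ∈ F, w u E • chi 𝕜 L ⊤ (E, [])) = -u D := by
      rw [map_neg, map_sum, ← tel F hFs u D hDF, Finset.sum_filter]
      congr 1
      refine Finset.sum_congr rfl fun E hE => ?_
      rw [map_smul, evl_chi, smul_eq_mul]
      have hiff : On L (E, []) p.1 ↔ E <:+ D :=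
        (on_nil L E p.1).trans ⟨fun h => hmax E hE h, fun h => h.trans hDp⟩
      rw [if_congr hiff rfl rfl, mul_ite, mul_one, mul_zero]
    have hxp : ∃ a, evl 𝕜 p x = evl 𝕜 (pt D a) x := by
      have hb : ∀ δ : Λ, ∃ a, evl 𝕜 (⟨(D, Sum.inr δ), le_top⟩ : PN Λ ⊤) x = evl 𝕜 (pt D a) x := by
        intro δ
        refine ⟨lad L δ (c.support.sup fun s => s.2.length), heq _ _ fun s hs => ?_⟩
        exact on_b L s D δ (Finset.le_sup (f := fun s : Node Λ => s.2.length) hs)
      by_cases hDp' : D = p.1.1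
      · obtain ⟨⟨P, e⟩, hlev⟩ := p
        have hDP : D = P := hDp'
        subst hDP
        cases e with
        | inl a => exact ⟨a, rfl⟩
        | inr δ => exact hb δ
      · obtain ⟨δ, hδ⟩ := cons_of_proper hDp hDp'
        obtain ⟨a, ha⟩ := hb δ
        refine ⟨a, ?_⟩
        rw [← ha]
        exact heq _ _ fun s hs => on_c L hmax hδ (hFS s hs)
    obtain ⟨a, ha⟩ := hxp
    have h1 : evl 𝕜 p (x + -∑ E ∈ F, w u E • chi 𝕜 L ⊤ (E, [])) = evl 𝕜 (pt D a) x - evl 𝕜 (pt D []) x := by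
      rw [map_add, hy, ha, hu]
      ring
    show ‖evl 𝕜 p (x + -∑ E ∈ F, w u E • chi 𝕜 L ⊤ (E, []))‖ ≤ C
    rw [h1]
    exact hxC D a

end Pool.Agent.Lib.MP38dfb6.HS
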