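import Pool.Agent.Lib.MP_38dfb6_an.HS.Spec

/-!
# MP_38dfb6_an, module THE: the closing-off map
-/

set_option autoImplicit false

namespace Pool.Agent.Lib.MP38dfb6.HS

open Filter Topology Set MeasureTheory

universe u v

namespace THEM

variable {𝕜 : Type} [RCLike 𝕜] {X : Type u} [NormedAddCommGroup X] [NormedSpace 𝕜 X] {ι : Type v}

/-- the quotient seminorm and functionals which attain it -/
theorem quot (E : Submodule 𝕜 X) (hE : IsClosed (E : Set X)) :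
    ∃ q : X → ℝ, (∀ a b, q a ≤ q b + ‖a - b‖) ∧ (∀ v, v ∉ E → 0 < q v) ∧
      ∀ v, ∃ ψ : X →L[𝕜] 𝕜, (∀ e ∈ E, ψ e = 0) ∧ (∀ w, ‖ψ w‖ ≤ ‖w‖) ∧ ‖ψ v‖ = q v := by
  haveI : IsClosed (E : Set X) := hE
  refine ⟨fun v => ‖(Submodule.Quotient.mk v : X ⧸ E)‖, fun a b => ?_, fun v hv => ?_, fun v => ?_⟩
  · have h1 : (Submodule.Quotient.mk a : X ⧸ E) =
        Submodule.Quotient.mk b + Submodule.Quotient.mk (a - b) := by
      rw [← Submodule.Quotient.mk_add, add_sub_cancel]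
    change ‖(Submodule.Quotient.mk a : X ⧸ E)‖ ≤ ‖(Submodule.Quotient.mk b : X ⧸ E)‖ + ‖a - b‖
    rw [h1]
    exact (norm_add_le _ _).trans (add_le_add le_rfl (Submodule.Quotient.norm_mk_le E (a - b)))
  · change 0 < ‖(Submodule.Quotient.mk v : X ⧸ E)‖
    rw [norm_pos_iff, ne_eq, Submodule.Quotient.mk_eq_zero]
    exact hv
  · obtain ⟨g, hg1, hg2⟩ := exists_dual_vector'' 𝕜 (Submodule.Quotient.mk v : X ⧸ E)
    refine ⟨g.comp E.mkQL, fun e he => ?_, fun w => ?_, ?_⟩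
    · change g (Submodule.Quotient.mk e) = 0
      rw [(Submodule.Quotient.mk_eq_zero E).2 he, map_zero]
    · change ‖g (Submodule.Quotient.mk w)‖ ≤ ‖w‖
      calc ‖g (Submodule.Quotient.mk w)‖ ≤ ‖g‖ * ‖(Submodule.Quotient.mk w : X ⧸ E)‖ :=
            g.le_opNorm _
        _ ≤ 1 * ‖w‖ := mul_le_mul hg1 (Submodule.Quotient.norm_mk_le E w) (norm_nonneg _)
            zero_le_one
        _ = ‖w‖ := one_mul _
    · change ‖g (Submodule.Quotient.mk v)‖ = ‖(Submodule.Quotient.mk v : X ⧸ E)‖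
      rw [hg2]
      simp

theorem XS_mono (x : ι → X) {A B : Set ι} (h : A ⊆ B) : XS (𝕜 := 𝕜) x A ≤ XS x B :=
  Submodule.topologicalClosure_mono (Submodule.span_mono (image_mono h))

theorem FS_mono (f : ι → (X →L[𝕜] 𝕜)) {A B : Set ι} (h : A ⊆ B) : FS f A ≤ FS f B :=
  Submodule.span_mono (image_mono h)

theorem XS_empty (x : ι → X) {v : X} (hv : v ∈ XS (𝕜 := 𝕜) x ∅) : v = 0 := by
  unfold XS at hv
  rw [image_empty, Submodule.span_empty] at hv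
  have h1 : v ∈ closure ((⊥ : Submodule 𝕜 X) : Set X) := hv
  rw [Submodule.bot_coe, closure_singleton] at h1
  exact h1

theorem fin_FS (f : ι → (X →L[𝕜] 𝕜)) {A : Set ι} {φ : X →L[𝕜] 𝕜} (h : φ ∈ FS f A) :
    ∃ G : Finset ι, (G : Set ι) ⊆ A ∧ φ ∈ FS f (G : Set ι) := by
  classical
  obtain ⟨T, hT, h1⟩ := Submodule.mem_span_finite_of_mem_span h
  obtain ⟨G, hG, rfl⟩ := Finset.subset_set_image_iff.1 hT
  refine ⟨G, hG, ?_⟩
  rw [Finset.coe_image] at h1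
  exact h1

theorem fin_XS (x : ι → X) {S : Set ι} {u : X} (h : u ∈ Submodule.span 𝕜 (x '' S)) :
    ∃ G : Finset ι, (G : Set ι) ⊆ S ∧ u ∈ Submodule.span 𝕜 (x '' (G : Set ι)) := by
  classical
  obtain ⟨T, hT, h1⟩ := Submodule.mem_span_finite_of_mem_span h
  obtain ⟨G, hG, rfl⟩ := Finset.subset_set_image_iff.1 hT
  refine ⟨G, hG, ?_⟩
  rw [Finset.coe_image] at h1
  exact h1

theorem sep_XS (x : ι → X) (F : Finset ι) : ∃ D : Set X, D.Countable ∧
    (∀ v ∈ D, v ∈ XS (𝕜 := 𝕜) x (F : Set ι)) ∧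
    ∀ v ∈ Submodule.span 𝕜 (x '' (F : Set ι)), ∀ δ : ℝ, 0 < δ → ∃ v' ∈ D, ‖v - v'‖ < δ := by
  have h1 : TopologicalSpace.IsSeparable (x '' (F : Set ι)) :=
    ((F.finite_toSet.image x).countable).isSeparable
  have h2 : TopologicalSpace.IsSeparable
      ((Submodule.span 𝕜 (x '' (F : Set ι)) : Submodule 𝕜 X) : Set X) := h1.span
  obtain ⟨t, ht, htc, htd⟩ := h2.exists_countable_dense_subset
  refine ⟨t, htc, fun v hv => Submodule.le_topologicalClosure _ (ht hv), fun v hv δ hδ => ?_⟩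
  obtain ⟨v', hv', h3⟩ := Metric.mem_closure_iff.1 (htd hv) δ hδ
  refine ⟨v', hv', ?_⟩
  rw [← dist_eq_norm]
  exact h3

end THEM

open THEM in
theorem specTHE : SpecTHE.{u, v} := by
  intro 𝕜 _ X _ _ ι x f c A E hc hc1 hNM hCS hE
  classical
  obtain ⟨q, hq1, hq2, hq3⟩ := quot E hE
  choose ψ hψ1 hψ2 hψ3 using hq3
  choose D hD1 hD2 hD3 using sep_XS (𝕜 := 𝕜) x
  have hG : ∀ (v : X) (m : ℕ), ∃ G : Finset ι, (G : Set ι) ⊆ A ∧ (v ∈ XS (𝕜 := 𝕜) x A →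
      ∃ φ ∈ FS f (G : Set ι), (∀ w ∈ XS (𝕜 := 𝕜) x A, ‖φ w‖ ≤ ‖w‖) ∧
        c * ‖v‖ ≤ ‖φ v‖ + 1 / ((m : ℝ) + 1)) := by
    intro v m
    by_cases hv : v ∈ XS (𝕜 := 𝕜) x A
    · obtain ⟨φ, hφ, h1, h2⟩ := hNM v hv (1 / ((m : ℝ) + 1)) (by positivity)
      obtain ⟨G, hG, hφG⟩ := fin_FS f hφ
      exact ⟨G, hG, fun _ => ⟨φ, hφG, h1, h2⟩⟩
    · exact ⟨∅, by simp, fun h => absurd h hv⟩
  choose G hGA hG using hG
  -- approximation
  have approx : ∀ S : Set ι, S.Nonempty → ∀ v ∈ XS (𝕜 := 𝕜) x S, ∀ δ : ℝ, 0 < δ →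
      ∃ F : Finset ι, F ≠ ∅ ∧ (F : Set ι) ⊆ S ∧ ∃ v' ∈ D F, ‖v - v'‖ < δ := by
    rintro S ⟨i0, hi0⟩ v hv δ hδ
    have h1 : v ∈ closure ((Submodule.span 𝕜 (x '' S) : Submodule 𝕜 X) : Set X) := hv
    obtain ⟨u', hu', h2⟩ := Metric.mem_closure_iff.1 h1 (δ / 2) (by linarith)
    obtain ⟨F0, hF0, hu0⟩ := fin_XS x hu'
    have h3 : u' ∈ Submodule.span 𝕜 (x '' ((insert i0 F0 : Finset ι) : Set ι)) :=
      Submodule.span_mono (image_mono (by rw [Finset.coe_insert]; exact subset_insert _ _)) hu0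
    obtain ⟨v', hv', h4⟩ := hD3 (insert i0 F0) u' h3 (δ / 2) (by linarith)
    refine ⟨insert i0 F0, Finset.insert_ne_empty i0 F0, ?_, v', hv', ?_⟩
    · rw [Finset.coe_insert]
      exact insert_subset hi0 hF0
    · rw [dist_eq_norm] at h2
      calc ‖v - v'‖ = ‖(v - u') + (u' - v')‖ := by congr 1; abel
        _ ≤ ‖v - u'‖ + ‖u' - v'‖ := norm_add_le _ _
        _ < δ := by linarith
  refine ⟨fun F => if F = ∅ then ∅ else ⋃ v ∈ D F, ((⋃ m : ℕ, (G v m : Set ι)) ∪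
    {i | ψ v (x i) ≠ 0}), fun F => ?_, if_pos rfl, fun S hSA hS => ⟨hSA, ?_, ?_⟩⟩
  · change (if F = ∅ then (∅ : Set ι) else _).Countable
    split_ifs
    · exact countable_empty
    · refine (hD1 F).biUnion fun v _ => (countable_iUnion fun m => ?_).union (hCS (ψ v))
      exact (G v m).countable_toSet
  · intro v hv ε hε
    by_cases hne : S.Nonempty
    swap
    · rw [not_nonempty_iff_eq_empty] at hne
      subst hne
      have hv0 := XS_empty x hv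
      refine ⟨0, Submodule.zero_mem _, fun w _ => ?_, ?_⟩
      · rw [ContinuousLinearMap.zero_apply, norm_zero]
        exact norm_nonneg w
      · rw [hv0, norm_zero, mul_zero]
        positivity
    obtain ⟨F, hF0, hFS, v', hv', h1⟩ := approx S hne v hv (ε / 4) (by linarith)
    obtain ⟨m, hm⟩ := exists_nat_one_div_lt (show (0 : ℝ) < ε / 4 by linarith)
    have hv'A : v' ∈ XS (𝕜 := 𝕜) x A := XS_mono x (hFS.trans hSA) (hD2 F v' hv')
    have hvA : v ∈ XS (𝕜 := 𝕜) x A := XS_mono x hSA hv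
    obtain ⟨φ, hφ, h2, h3⟩ := hG v' m hv'A
    refine ⟨φ, FS_mono f ?_ hφ, h2, ?_⟩
    · intro i hi
      refine hS F hFS ⟨?_, hGA v' m hi⟩
      change i ∈ (if F = ∅ then (∅ : Set ι) else _)
      rw [if_neg hF0]
      exact mem_biUnion hv' (Or.inl (mem_iUnion.2 ⟨m, hi⟩))
    · have h4 : ‖φ (v' - v)‖ ≤ ‖v' - v‖ := h2 _ (Submodule.sub_mem _ hv'A hvA)
      have h5 : ‖φ v'‖ ≤ ‖φ v‖ + ‖φ (v' - v)‖ := by
        rw [map_sub]
        calc ‖φ v'‖ = ‖φ v + (φ v' - φ v)‖ := by congr 1; ring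
          _ ≤ _ := norm_add_le _ _
      have h6 : ‖v‖ ≤ ‖v'‖ + ‖v - v'‖ := by
        calc ‖v‖ = ‖v' + (v - v')‖ := by congr 1; abel
          _ ≤ _ := norm_add_le _ _
      have h7 : ‖v' - v‖ = ‖v - v'‖ := norm_sub_rev _ _
      have h8 : c * ‖v‖ ≤ c * ‖v'‖ + c * ‖v - v'‖ := by
        rw [← mul_add]
        exact mul_le_mul_of_nonneg_left h6 hc.le
      have h9 : c * ‖v - v'‖ ≤ ‖v - v'‖ := mul_le_of_le_one_left (norm_nonneg _) hc1
      linarith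
  · intro v hv hvE
    have hne : S.Nonempty := by
      by_contra hne
      rw [not_nonempty_iff_eq_empty] at hne
      subst hne
      rw [XS_empty x hv] at hvE
      exact hvE E.zero_mem
    have hqv := hq2 v hvE
    obtain ⟨F, hF0, hFS, v', hv', h1⟩ := approx S hne v hv (q v / 3) (by linarith)
    refine ⟨ψ v', hψ1 v', fun i hiA hiS => ?_, fun h0 => ?_⟩
    · by_contra hne0
      apply hiS
      refine hS F hFS ⟨?_, hiA⟩
      change i ∈ (if F = ∅ then (∅ : Set ι) else _)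
      rw [if_neg hF0]
      exact mem_biUnion hv' (Or.inr hne0)
    · have h2 := hq1 v v'
      have h3 := hψ3 v'
      have h4 : ‖ψ v' (v' - v)‖ ≤ ‖v' - v‖ := hψ2 v' _
      rw [map_sub, h0, sub_zero, norm_sub_rev] at h4
      linarith

end Pool.Agent.Lib.MP38dfb6.HS
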