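import Pool.Agent.Lib.MP_38dfb6_an.HS.SpecT

/-!
# MP_38dfb6_an / HS: module `TPI` (the map `π`)
-/

set_option autoImplicit false

namespace Pool.Agent.Lib.MP38dfb6.HS

open Filter Topology Set

namespace TPIM

variable (𝕜 : Type) [RCLike 𝕜] (Λ : Type)

theorem bdd (x : lp (fun _ : PN Λ ⊤ => 𝕜) ⊤) (p q : PN Λ ⊤) :
    ‖(x : PN Λ ⊤ → 𝕜) p - (x : PN Λ ⊤ → 𝕜) q‖ ≤ 2 * ‖x‖ := by
  have h1 := lp.norm_apply_le_norm ENNReal.top_ne_zero x p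
  have h2 := lp.norm_apply_le_norm ENNReal.top_ne_zero x q
  have h3 := norm_sub_le ((x : PN Λ ⊤ → 𝕜) p) ((x : PN Λ ⊤ → 𝕜) q)
  linarith

/-- the map on all bounded functions -/
noncomputable def P : lp (fun _ : PN Λ ⊤ => 𝕜) ⊤ →L[𝕜] lp (fun _ : Node Λ => 𝕜) ⊤ :=
  LinearMap.mkContinuous
    { toFun := fun x => ⟨fun t => (x : PN Λ ⊤ → 𝕜) (pt t.1 t.2) - (x : PN Λ ⊤ → 𝕜) (pt t.1 []),
        memℓp_infty ⟨2 * ‖x‖, by
          rintro _ ⟨t, rfl⟩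
          exact bdd 𝕜 Λ x _ _⟩⟩
      map_add' := fun x y => by
        apply lp.ext
        funext t
        change (x + y : lp (fun _ : PN Λ ⊤ => 𝕜) ⊤) (pt t.1 t.2) -
          (x + y : lp (fun _ : PN Λ ⊤ => 𝕜) ⊤) (pt t.1 []) =
          (x (pt t.1 t.2) - x (pt t.1 [])) + (y (pt t.1 t.2) - y (pt t.1 []))
        simp only [lp.coeFn_add, Pi.add_apply]
        ring
      map_smul' := fun a x => by
        apply lp.ext
        funext t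
        change (a • x : lp (fun _ : PN Λ ⊤ => 𝕜) ⊤) (pt t.1 t.2) -
          (a • x : lp (fun _ : PN Λ ⊤ => 𝕜) ⊤) (pt t.1 []) =
          a • (x (pt t.1 t.2) - x (pt t.1 []))
        simp only [lp.coeFn_smul, Pi.smul_apply, smul_sub] } 2 (by
    intro x
    refine lp.norm_le_of_forall_le (by positivity) fun t => ?_
    exact bdd 𝕜 Λ x _ _)

theorem P_apply (x : lp (fun _ : PN Λ ⊤ => 𝕜) ⊤) (t : Node Λ) :
    (P 𝕜 Λ x : Node Λ → 𝕜) t = (x : PN Λ ⊤ → 𝕜) (pt t.1 t.2) - (x : PN Λ ⊤ → 𝕜) (pt t.1 []) := rfl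

theorem P_chi (L : Λ → ℕ → Λ) (s : Node Λ) : P 𝕜 Λ (chi 𝕜 L ⊤ s) = om 𝕜 s := by
  classical
  apply lp.ext
  funext t
  rw [P_apply]
  have e1 : ∀ p : PN Λ ⊤, (chi 𝕜 L ⊤ s : PN Λ ⊤ → 𝕜) p = if On L s p.1 then 1 else 0 := fun p => by
    change (if On L s p.1 then (1 : 𝕜) else 0) = _
    congr
  have e2 : (om 𝕜 s : Node Λ → 𝕜) t =
      if s.1 = t.1 ∧ s.2 <:+ t.2 ∧ s.2 ≠ [] then 1 else 0 := by
    change (if s.1 = t.1 ∧ s.2 <:+ t.2 ∧ s.2 ≠ [] then (1 : 𝕜) else 0) = _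
    congr
  rw [e1, e1, e2]
  have e3 : ∀ b : List Λ, On L s (pt t.1 b).1 ↔ (s.1 = t.1 ∧ s.2 <:+ b) ∨
      ∃ δ : Λ, (δ :: s.1) <:+ t.1 ∧ Pre L s.2 (Sum.inr δ) := fun b => Iff.rfl
  rw [if_congr (e3 t.2) rfl rfl, if_congr (e3 []) rfl rfl]
  by_cases hQ : ∃ δ : Λ, (δ :: s.1) <:+ t.1 ∧ Pre L s.2 (Sum.inr δ)
  · have h1 : s.1 ≠ t.1 := by
      rintro h
      obtain ⟨δ, h2, -⟩ := hQ
      have := h2.length_le
      rw [h, List.length_cons] at this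
      omega
    rw [if_pos (Or.inr hQ), if_pos (Or.inr hQ), if_neg (fun h => h1 h.1), sub_self]
  · by_cases h1 : s.1 = t.1
    · by_cases h2 : s.2 = []
      · have h3 : s.2 <:+ t.2 := by rw [h2]; exact List.nil_suffix
        have h4 : s.2 <:+ ([] : List Λ) := by rw [h2]
        rw [if_pos (Or.inl ⟨h1, h3⟩), if_pos (Or.inl ⟨h1, h4⟩), if_neg (fun h => h.2.2 h2), sub_self]
      · have h4 : ¬ s.2 <:+ ([] : List Λ) := fun h => h2 (List.suffix_nil.1 h)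
        have h5 : ¬ ((s.1 = t.1 ∧ s.2 <:+ ([] : List Λ)) ∨
            ∃ δ : Λ, (δ :: s.1) <:+ t.1 ∧ Pre L s.2 (Sum.inr δ)) := by
          rintro (h | h)
          · exact h4 h.2
          · exact hQ h
        rw [if_neg h5, sub_zero]
        by_cases h3 : s.2 <:+ t.2
        · rw [if_pos (Or.inl ⟨h1, h3⟩), if_pos ⟨h1, h3, h2⟩]
        · have h6 : ¬ ((s.1 = t.1 ∧ s.2 <:+ t.2) ∨
              ∃ δ : Λ, (δ :: s.1) <:+ t.1 ∧ Pre L s.2 (Sum.inr δ)) := by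
            rintro (h | h)
            · exact h3 h.2
            · exact hQ h
          rw [if_neg h6, if_neg (fun h => h3 h.2.1)]
    · have h6 : ∀ b : List Λ, ¬ ((s.1 = t.1 ∧ s.2 <:+ b) ∨
          ∃ δ : Λ, (δ :: s.1) <:+ t.1 ∧ Pre L s.2 (Sum.inr δ)) := by
        rintro b (h | h)
        · exact h1 h.1
        · exact hQ h
      rw [if_neg (h6 _), if_neg (h6 _), if_neg (fun h => h1 h.1), sub_zero]

theorem maps (L : Λ → ℕ → Λ) : ES 𝕜 L ⊤ ≤ (ZS 𝕜 Λ).comap (P 𝕜 Λ : _ →ₗ[𝕜] _) := by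
  refine Submodule.topologicalClosure_minimal _ (Submodule.span_le.2 ?_) ?_
  · rintro _ ⟨s, rfl⟩
    change P 𝕜 Λ (chi 𝕜 L ⊤ s) ∈ ZS 𝕜 Λ
    rw [P_chi]
    exact Submodule.le_topologicalClosure _ (Submodule.subset_span ⟨s, rfl⟩)
  · exact (Submodule.isClosed_topologicalClosure _).preimage (P 𝕜 Λ).continuous

end TPIM

theorem specTPI : SpecTPI := by
  intro 𝕜 _ Λ L
  refine ⟨((TPIM.P 𝕜 Λ).comp (ES 𝕜 L ⊤).subtypeL).codRestrict (ZS 𝕜 Λ)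
    (fun x => TPIM.maps 𝕜 Λ L x.2), fun x t => rfl, fun s => ?_⟩
  exact TPIM.P_chi 𝕜 Λ L s

end Pool.Agent.Lib.MP38dfb6.HS
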