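import Pool.Agent.Lib.MP_38dfb6_an.HS.SpecT

/-!
# Module TSU: `π` is onto `Z`, with kernel `Y`
-/

set_option autoImplicit false

namespace Pool.Agent.Lib.MP38dfb6.HS

open Filter Topology Set

namespace TSUM

variable {𝕜 : Type} [RCLike 𝕜] {Λ : Type} {L : Λ → ℕ → Λ}

/-- evaluation at a point, as a continuous linear functional -/
noncomputable def evl (𝕜 : Type) [RCLike 𝕜] {Λ : Type} (p : PN Λ ⊤) :
    lp (fun _ : PN Λ ⊤ => 𝕜) ⊤ →L[𝕜] 𝕜 :=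
  LinearMap.mkContinuous
    { toFun := fun g => (g : PN Λ ⊤ → 𝕜) p
      map_add' := fun _ _ => rfl
      map_smul' := fun _ _ => rfl } 1 (by
    intro g
    rw [one_mul]
    exact lp.norm_apply_le_norm ENNReal.top_ne_zero g p)

theorem on_iff (D D' a : List Λ) : On L (D', []) (pt D a).1 ↔ On L (D', []) (pt D []).1 := by
  simp [On, pt, Pre]

open Classical in
theorem YS_eq (y : lp (fun _ : PN Λ ⊤ => 𝕜) ⊤) (hy : y ∈ YS 𝕜 L) (D a : List Λ) :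
    (y : PN Λ ⊤ → 𝕜) (pt D a) = (y : PN Λ ⊤ → 𝕜) (pt D []) := by
  have hcl : IsClosed ((LinearMap.ker (evl 𝕜 (pt D a) - evl 𝕜 (pt D [])).toLinearMap :
      Submodule 𝕜 (lp (fun _ : PN Λ ⊤ => 𝕜) ⊤)) : Set (lp (fun _ : PN Λ ⊤ => 𝕜) ⊤)) :=
    (evl 𝕜 (pt D a) - evl 𝕜 (pt D [])).isClosed_ker
  have hle : YS 𝕜 L ≤ LinearMap.ker (evl 𝕜 (pt D a) - evl 𝕜 (pt D [])).toLinearMap := by
    unfold YS
    refine Submodule.topologicalClosure_minimal _ ?_ hcl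
    rw [Submodule.span_le]
    rintro _ ⟨D', rfl⟩
    show (if On L (D', []) (pt D a).1 then (1 : 𝕜) else 0) -
      (if On L (D', []) (pt D []).1 then (1 : 𝕜) else 0) = 0
    simp only [on_iff D D' a, sub_self]
  have h := hle hy
  have h2 : (y : PN Λ ⊤ → 𝕜) (pt D a) - (y : PN Λ ⊤ → 𝕜) (pt D []) = 0 := h
  exact sub_eq_zero.1 h2

theorem YS_le_ES : YS 𝕜 L ≤ ES 𝕜 L ⊤ := by
  unfold YS ES
  refine Submodule.topologicalClosure_mono (Submodule.span_mono ?_)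
  rintro _ ⟨D, rfl⟩
  exact ⟨(D, []), rfl⟩

end TSUM

open TSUM in
theorem specTSU (hTPI : SpecTPI) (hTES : SpecTES) : SpecTSU := by
  intro 𝕜 _ Λ L
  obtain ⟨π, hπ1, hπ2⟩ := hTPI 𝕜 Λ L
  have hker : ∀ x : ES 𝕜 L ⊤, x.1 ∈ YS 𝕜 L → π x = 0 := by
    intro x hx
    apply Subtype.ext
    apply lp.ext
    funext t
    rw [hπ1 x t, YS_eq x.1 hx t.1 t.2, sub_self]
    rfl
  refine ⟨π, ?_, fun x => ⟨fun h0 => ?_, hker x⟩⟩
  · -- surjectivity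
    let f0 : ES 𝕜 L ⊤ →L[𝕜] lp (fun _ : Node Λ => 𝕜) ⊤ := (ZS 𝕜 Λ).subtypeL ∘L π
    let f : NormedAddGroupHom (ES 𝕜 L ⊤) (lp (fun _ : Node Λ => 𝕜) ⊤) :=
      f0.toLinearMap.toAddMonoidHom.mkNormedAddGroupHom ‖f0‖ f0.le_opNorm
    have hf : ∀ x, f x = (π x).1 := fun x => rfl
    have hS : f.SurjectiveOnWith (Submodule.span 𝕜 (range (om 𝕜 (Λ := Λ)))).toAddSubgroup 1 := by
      intro h hh
      have hh' : h ∈ Submodule.span 𝕜 (range (om 𝕜 (Λ := Λ))) := hh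
      obtain ⟨x₀, hx₀, hx₁⟩ : ∃ x₀ : ES 𝕜 L ⊤, x₀.1 ∈ Submodule.span 𝕜 (range (chi 𝕜 L ⊤)) ∧
          (π x₀).1 = h := by
        refine Submodule.span_induction (p := fun h _ => ∃ x₀ : ES 𝕜 L ⊤,
          x₀.1 ∈ Submodule.span 𝕜 (range (chi 𝕜 L ⊤)) ∧ (π x₀).1 = h) ?_ ?_ ?_ ?_ hh'
        · rintro _ ⟨s, rfl⟩
          exact ⟨ch 𝕜 L ⊤ s, Submodule.subset_span ⟨s, rfl⟩, hπ2 s⟩
        · exact ⟨0, Submodule.zero_mem _, by rw [π.map_zero]; rfl⟩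
        · rintro u v _ _ ⟨x, hx, rfl⟩ ⟨y, hy, rfl⟩
          exact ⟨x + y, Submodule.add_mem _ hx hy, by rw [π.map_add]; rfl⟩
        · rintro c u _ ⟨x, hx, rfl⟩
          exact ⟨c • x, Submodule.smul_mem _ c hx, by rw [π.map_smul]; rfl⟩
      obtain ⟨y, hy, hy1⟩ := hTES 𝕜 Λ L x₀.1 ‖h‖ (norm_nonneg h) hx₀ (by
        intro D a
        rw [← hπ1 x₀ (D, a), hx₁]
        exact lp.norm_apply_le_norm ENNReal.top_ne_zero h (D, a))
      refine ⟨x₀ + ⟨y, YS_le_ES hy⟩, ?_, ?_⟩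
      · rw [hf, π.map_add, hker ⟨y, YS_le_ES hy⟩ hy, add_zero, hx₁]
      · rw [one_mul]
        exact hy1
    have hS2 := controlled_closure_of_complete one_pos one_pos hS
    intro z
    have hz : z.1 ∈ (Submodule.span 𝕜 (range (om 𝕜 (Λ := Λ)))).toAddSubgroup.topologicalClosure := by
      have h1 : z.1 ∈ ZS 𝕜 Λ := z.2
      unfold ZS at h1
      exact h1
    obtain ⟨g, hg, -⟩ := hS2 z.1 hz
    exact ⟨g, Subtype.ext (by rw [← hf]; exact hg)⟩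
  · -- the kernel
    have hcl : IsClosed (YS 𝕜 L : Set (lp (fun _ : PN Λ ⊤ => 𝕜) ⊤)) := by
      unfold YS
      exact Submodule.isClosed_topologicalClosure _
    have hx : x.1 ∈ closure ((Submodule.span 𝕜 (range (chi 𝕜 L ⊤)) :
        Submodule 𝕜 (lp (fun _ : PN Λ ⊤ => 𝕜) ⊤)) : Set (lp (fun _ : PN Λ ⊤ => 𝕜) ⊤)) := by
      have h1 : x.1 ∈ ES 𝕜 L ⊤ := x.2
      unfold ES at h1
      exact h1
    have hx0 : ∀ D a : List Λ, (x.1 : PN Λ ⊤ → 𝕜) (pt D a) - (x.1 : PN Λ ⊤ → 𝕜) (pt D []) = 0 := by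
      intro D a
      have := hπ1 x (D, a)
      rw [h0] at this
      exact this.symm
    have hmem : x.1 ∈ closure (YS 𝕜 L : Set (lp (fun _ : PN Λ ⊤ => 𝕜) ⊤)) := by
      rw [Metric.mem_closure_iff]
      intro ε hε
      obtain ⟨x', hx', hd⟩ := Metric.mem_closure_iff.1 hx (ε / 4) (by linarith)
      rw [dist_eq_norm] at hd
      obtain ⟨y, hy, hy1⟩ := hTES 𝕜 Λ L x' (ε / 2) (by linarith) hx' (by
        intro D a
        have e : (x' : PN Λ ⊤ → 𝕜) (pt D a) - (x' : PN Λ ⊤ → 𝕜) (pt D []) =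
            ((x.1 - x' : lp (fun _ : PN Λ ⊤ => 𝕜) ⊤) : PN Λ ⊤ → 𝕜) (pt D []) -
              ((x.1 - x' : lp (fun _ : PN Λ ⊤ => 𝕜) ⊤) : PN Λ ⊤ → 𝕜) (pt D a) := by
          have h2 := hx0 D a
          rw [lp.coeFn_sub, Pi.sub_apply, Pi.sub_apply]
          linear_combination h2
        rw [e]
        have n1 := lp.norm_apply_le_norm ENNReal.top_ne_zero (x.1 - x') (pt D [])
        have n2 := lp.norm_apply_le_norm ENNReal.top_ne_zero (x.1 - x') (pt D a)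
        have n3 := norm_sub_le (((x.1 - x' : lp (fun _ : PN Λ ⊤ => 𝕜) ⊤) : PN Λ ⊤ → 𝕜) (pt D []))
          (((x.1 - x' : lp (fun _ : PN Λ ⊤ => 𝕜) ⊤) : PN Λ ⊤ → 𝕜) (pt D a))
        linarith)
      refine ⟨-y, Submodule.neg_mem _ hy, ?_⟩
      rw [dist_eq_norm, sub_neg_eq_add]
      have e : x.1 + y = (x.1 - x') + (x' + y) := by abel
      rw [e]
      have := norm_add_le (x.1 - x') (x' + y)
      linarith
    rwa [hcl.closure_eq] at hmem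

end Pool.Agent.Lib.MP38dfb6.HS
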