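import Pool.Agent.Lib.MP_38dfb6_an.HS.SpecT

/-!
# MP_38dfb6_an, module TYB: the M-basis of `Y`
-/

set_option autoImplicit false

namespace Pool.Agent.Lib.MP38dfb6.HS

open Filter Topology Set

namespace TYBM

theorem on_nil {Λ : Type} (L : Λ → ℕ → Λ) (D : List Λ) (p : Pt Λ) : On L (D, []) p ↔ D <:+ p.1 := by
  constructor
  · rintro (⟨h, -⟩ | ⟨δ, h, -⟩)
    · exact h ▸ List.suffix_refl _
    · exact (List.suffix_cons δ D).trans h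
  · rintro ⟨t, ht⟩
    rcases List.eq_nil_or_concat t with rfl | ⟨t', δ, rfl⟩
    · left
      refine ⟨?_, ?_⟩
      · rw [List.nil_append] at ht
        exact ht
      · cases p.2 with
        | inl b => exact List.nil_suffix
        | inr δ => rfl
    · right
      refine ⟨δ, ⟨t', ?_⟩, rfl⟩
      rw [← ht]
      simp

variable (𝕜 : Type) [RCLike 𝕜] {Λ : Type} (L : Λ → ℕ → Λ)

/-- evaluation on the space of bounded functions -/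
noncomputable def el (p : PN Λ ⊤) : lp (fun _ : PN Λ ⊤ => 𝕜) ⊤ →L[𝕜] 𝕜 :=
  LinearMap.mkContinuous
    { toFun := fun g => (g : PN Λ ⊤ → 𝕜) p
      map_add' := fun _ _ => rfl
      map_smul' := fun _ _ => rfl } 1 (by
    intro g
    have h := lp.norm_apply_le_norm ENNReal.top_ne_zero g p
    rw [one_mul]
    exact h)

/-- evaluation on `Y` -/
noncomputable def ey (p : PN Λ ⊤) : YS 𝕜 L →L[𝕜] 𝕜 :=
  LinearMap.mkContinuous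
    { toFun := fun g => (g.1 : PN Λ ⊤ → 𝕜) p
      map_add' := fun _ _ => rfl
      map_smul' := fun _ _ => rfl } 1 (by
    intro g
    have h := lp.norm_apply_le_norm ENNReal.top_ne_zero g.1 p
    rw [one_mul]
    exact h)

theorem ey_norm (p : PN Λ ⊤) : ‖ey 𝕜 L p‖ ≤ 1 :=
  LinearMap.mkContinuous_norm_le _ zero_le_one _

theorem ey_apply (p : PN Λ ⊤) (g : YS 𝕜 L) : ey 𝕜 L p g = (g.1 : PN Λ ⊤ → 𝕜) p := rfl

/-- the vectors -/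
noncomputable def xs (D : List Λ) : YS 𝕜 L :=
  ⟨chi 𝕜 L ⊤ (D, []), Submodule.le_topologicalClosure _ (Submodule.subset_span ⟨D, rfl⟩)⟩

open Classical in
theorem ey_xs (p : PN Λ ⊤) (D : List Λ) : ey 𝕜 L p (xs 𝕜 L D) = if D <:+ p.1.1 then 1 else 0 := by
  have h : ey 𝕜 L p (xs 𝕜 L D) = if On L (D, []) p.1 then (1 : 𝕜) else 0 := rfl
  rw [h]
  simp only [on_nil]

theorem ey_pos (D D' : List Λ) (h : D' <:+ D) : ey 𝕜 L (pt D []) (xs 𝕜 L D') = 1 := by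
  classical
  have h1 := ey_xs 𝕜 L (pt D []) D'
  rwa [if_pos (show D' <:+ (pt D ([] : List Λ)).1.1 from h)] at h1

theorem ey_neg (D D' : List Λ) (h : ¬ D' <:+ D) : ey 𝕜 L (pt D []) (xs 𝕜 L D') = 0 := by
  classical
  have h1 := ey_xs 𝕜 L (pt D []) D'
  rwa [if_neg (show ¬ D' <:+ (pt D ([] : List Λ)).1.1 from h)] at h1

/-- the functionals -/
noncomputable def fs : List Λ → (YS 𝕜 L →L[𝕜] 𝕜)
  | [] => ey 𝕜 L (pt [] [])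
  | δ :: D => ey 𝕜 L (pt (δ :: D) []) - ey 𝕜 L (pt D [])

theorem one (D : List Λ) : fs 𝕜 L D (xs 𝕜 L D) = 1 := by
  cases D with
  | nil => exact ey_pos 𝕜 L [] [] (List.suffix_refl _)
  | cons δ D =>
    show ey 𝕜 L (pt (δ :: D) []) (xs 𝕜 L (δ :: D)) - ey 𝕜 L (pt D []) (xs 𝕜 L (δ :: D)) = 1
    rw [ey_pos 𝕜 L (δ :: D) (δ :: D) (List.suffix_refl _), ey_neg 𝕜 L D (δ :: D), sub_zero]
    intro h
    have h1 : (δ :: D).length ≤ D.length := List.IsSuffix.length_le h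
    rw [List.length_cons] at h1
    omega

theorem zero (D D' : List Λ) (hne : D ≠ D') : fs 𝕜 L D (xs 𝕜 L D') = 0 := by
  cases D with
  | nil =>
    refine ey_neg 𝕜 L [] D' ?_
    intro h
    exact hne (List.suffix_nil.mp h).symm
  | cons δ D =>
    show ey 𝕜 L (pt (δ :: D) []) (xs 𝕜 L D') - ey 𝕜 L (pt D []) (xs 𝕜 L D') = 0
    by_cases h : D' <:+ D
    · have h1 : D' <:+ δ :: D := h.trans (List.suffix_cons _ _)
      rw [ey_pos 𝕜 L _ _ h, ey_pos 𝕜 L _ _ h1, sub_self]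
    · have h1 : ¬ D' <:+ δ :: D := by
        intro h2
        rcases List.suffix_cons_iff.mp h2 with h3 | h3
        · exact hne h3.symm
        · exact h h3
      rw [ey_neg 𝕜 L _ _ h, ey_neg 𝕜 L _ _ h1, sub_self]

theorem fund : (Submodule.span 𝕜 (range (xs 𝕜 L))).topologicalClosure = ⊤ := by
  rw [eq_top_iff]
  intro g _
  have h1 : (g : lp (fun _ : PN Λ ⊤ => 𝕜) ⊤) ∈
      closure ((Submodule.span 𝕜 (range fun D : List Λ => chi 𝕜 L ⊤ (D, [])) : Submodule 𝕜 _) :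
        Set (lp (fun _ : PN Λ ⊤ => 𝕜) ⊤)) :=
    g.2
  have h2 : (Subtype.val '' ((Submodule.span 𝕜 (range (xs 𝕜 L)) : Submodule 𝕜 (YS 𝕜 L)) :
      Set (YS 𝕜 L))) =
      ((Submodule.span 𝕜 (range fun D : List Λ => chi 𝕜 L ⊤ (D, [])) : Submodule 𝕜 _) :
        Set (lp (fun _ : PN Λ ⊤ => 𝕜) ⊤)) := by
    have h3 : (Submodule.span 𝕜 (range (xs 𝕜 L))).map (YS 𝕜 L).subtype =
        Submodule.span 𝕜 (range fun D : List Λ => chi 𝕜 L ⊤ (D, [])) := by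
      rw [Submodule.map_span, ← Set.range_comp]
      rfl
    rw [← h3]
    rfl
  rw [← h2] at h1
  exact closure_subtype.2 h1

/-- the elements of `Y` depend only on the first component -/
theorem dep (y : YS 𝕜 L) (p q : PN Λ ⊤) (h : p.1.1 = q.1.1) :
    (y.1 : PN Λ ⊤ → 𝕜) p = (y.1 : PN Λ ⊤ → 𝕜) q := by
  classical
  have hle : YS 𝕜 L ≤ LinearMap.ker ((el 𝕜 p - el 𝕜 q : lp (fun _ : PN Λ ⊤ => 𝕜) ⊤ →L[𝕜] 𝕜) :
      lp (fun _ : PN Λ ⊤ => 𝕜) ⊤ →ₗ[𝕜] 𝕜) := by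
    refine Submodule.topologicalClosure_minimal _ ?_ ?_
    · rw [Submodule.span_le]
      rintro _ ⟨D, rfl⟩
      show el 𝕜 p (chi 𝕜 L ⊤ (D, [])) - el 𝕜 q (chi 𝕜 L ⊤ (D, [])) = 0
      have h1 : ∀ r : PN Λ ⊤, el 𝕜 r (chi 𝕜 L ⊤ (D, [])) = if On L (D, []) r.1 then (1 : 𝕜) else 0 := fun _ => rfl
      rw [h1, h1]
      simp only [on_nil, h, sub_self]
    · exact (el 𝕜 p - el 𝕜 q).isClosed_ker
  have h2 := hle y.2
  have h3 : (y.1 : PN Λ ⊤ → 𝕜) p - (y.1 : PN Λ ⊤ → 𝕜) q = 0 := h2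
  exact sub_eq_zero.mp h3

theorem ev_mem (D : List Λ) : ey 𝕜 L (pt D []) ∈ Submodule.span 𝕜 (range (fs 𝕜 L)) := by
  induction D with
  | nil => exact Submodule.subset_span ⟨[], rfl⟩
  | cons δ D ih =>
    have h1 : fs 𝕜 L (δ :: D) ∈ Submodule.span 𝕜 (range (fs 𝕜 L)) := Submodule.subset_span ⟨_, rfl⟩
    have h2 := Submodule.add_mem _ h1 ih
    have h3 : fs 𝕜 L (δ :: D) + ey 𝕜 L (pt D []) = ey 𝕜 L (pt (δ :: D) []) := sub_add_cancel _ _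
    rwa [h3] at h2

theorem tot (y : YS 𝕜 L) (h : ∀ D, fs 𝕜 L D y = 0) : y = 0 := by
  have h1 : ∀ D, ey 𝕜 L (pt D []) y = 0 := by
    intro D
    induction D with
    | nil => exact h []
    | cons δ D ih =>
      have h2 : ey 𝕜 L (pt (δ :: D) []) y - ey 𝕜 L (pt D []) y = 0 := h (δ :: D)
      rwa [ih, sub_zero] at h2
  apply Subtype.ext
  apply lp.ext
  funext p
  have h2 := dep 𝕜 L y p (pt p.1.1 []) rfl
  rw [h2]
  exact h1 p.1.1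

theorem norm_xs : ‖xs 𝕜 L []‖ = 1 := by
  classical
  apply le_antisymm
  · refine lp.norm_le_of_forall_le zero_le_one fun p => ?_
    show ‖(if On L ([], []) p.1 then (1 : 𝕜) else 0)‖ ≤ 1
    split_ifs <;> simp
  · have h1 := lp.norm_apply_le_norm ENNReal.top_ne_zero (chi 𝕜 L ⊤ ([], [])) (pt [] [])
    have h3 : (chi 𝕜 L ⊤ ([], []) : PN Λ ⊤ → 𝕜) (pt [] []) = 1 := by
      exact ey_pos 𝕜 L [] [] (List.suffix_refl _)
    rw [h3, norm_one] at h1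
    exact h1

theorem sup_bdd {E : Type} [NormedAddCommGroup E] [NormedSpace 𝕜 E] (V : Submodule 𝕜 (E →L[𝕜] 𝕜)) (g : E) :
    BddAbove (range fun f : {f : E →L[𝕜] 𝕜 // f ∈ V ∧ ‖f‖ ≤ 1} => ‖f.1 g‖) := by
  refine ⟨‖g‖, ?_⟩
  rintro _ ⟨f, rfl⟩
  refine (f.1.le_opNorm g).trans ?_
  exact mul_le_of_le_one_left (norm_nonneg g) f.2.2

theorem char_le {E : Type} [NormedAddCommGroup E] [NormedSpace 𝕜 E] (V : Submodule 𝕜 (E →L[𝕜] 𝕜)) (g : E)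
    (hg : ‖g‖ = 1) : charac 𝕜 V ≤ 1 := by
  unfold charac
  have hb : BddBelow (range fun x : {x : E // ‖x‖ = 1} =>
      ⨆ f : {f : E →L[𝕜] 𝕜 // f ∈ V ∧ ‖f‖ ≤ 1}, ‖f.1 x.1‖) := by
    refine ⟨0, ?_⟩
    rintro _ ⟨x, rfl⟩
    exact Real.iSup_nonneg fun f => norm_nonneg _
  refine (ciInf_le hb ⟨g, hg⟩).trans ?_
  have hne : Nonempty {f : E →L[𝕜] 𝕜 // f ∈ V ∧ ‖f‖ ≤ 1} :=
    ⟨⟨0, Submodule.zero_mem _, by rw [norm_zero]; exact zero_le_one⟩⟩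
  refine ciSup_le fun f => ?_
  refine (f.1.le_opNorm g).trans ?_
  rw [hg, mul_one]
  exact f.2.2

theorem char_ge : 1 ≤ charac 𝕜 (cspan 𝕜 (fs 𝕜 L)) := by
  have hne : Nonempty {x : YS 𝕜 L // ‖x‖ = 1} := ⟨⟨_, norm_xs 𝕜 L⟩⟩
  unfold charac
  refine le_ciInf fun g => ?_
  obtain ⟨g, hg⟩ := g
  have hs : ∀ D : List Λ, ‖ey 𝕜 L (pt D []) g‖ ≤
      ⨆ f : {f : YS 𝕜 L →L[𝕜] 𝕜 // f ∈ cspan 𝕜 (fs 𝕜 L) ∧ ‖f‖ ≤ 1}, ‖f.1 g‖ := fun D =>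
    le_ciSup (sup_bdd 𝕜 (cspan 𝕜 (fs 𝕜 L)) g)
      ⟨ey 𝕜 L (pt D []), Submodule.le_topologicalClosure _ (ev_mem 𝕜 L D), ey_norm 𝕜 L _⟩
  have h0 : 0 ≤ ⨆ f : {f : YS 𝕜 L →L[𝕜] 𝕜 // f ∈ cspan 𝕜 (fs 𝕜 L) ∧ ‖f‖ ≤ 1}, ‖f.1 g‖ :=
    (norm_nonneg _).trans (hs [])
  have h1 : ‖g.1‖ ≤ ⨆ f : {f : YS 𝕜 L →L[𝕜] 𝕜 // f ∈ cspan 𝕜 (fs 𝕜 L) ∧ ‖f‖ ≤ 1}, ‖f.1 g‖ := by
    refine lp.norm_le_of_forall_le h0 fun p => ?_
    rw [dep 𝕜 L g p (pt p.1.1 []) rfl]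
    exact hs p.1.1
  have h2 : ‖g.1‖ = 1 := hg
  rw [h2] at h1
  exact h1

end TYBM

theorem specTYB : SpecTYB := by
  intro 𝕜 _ Λ L
  refine ⟨List Λ, TYBM.xs 𝕜 L, TYBM.fs 𝕜 L, ⟨TYBM.one 𝕜 L, TYBM.zero 𝕜 L, TYBM.fund 𝕜 L, TYBM.tot 𝕜 L⟩, ?_⟩
  exact le_antisymm (TYBM.char_le 𝕜 _ _ (TYBM.norm_xs 𝕜 L)) (TYBM.char_ge 𝕜 L)

end Pool.Agent.Lib.MP38dfb6.HS
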