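import Pool.Agent.Lib.MP_38dfb6_an.HS.SpecT2

/-!
# Module TYH: the closed span of the `chi (D, [])` is Hilbert generated
-/

set_option autoImplicit false

namespace Pool.Agent.Lib.MP38dfb6.HS

open Filter Topology Set

namespace TYHM

variable {𝕜 : Type} [RCLike 𝕜] {Λ : Type} (L : Λ → ℕ → Λ)

theorem suff {D : List Λ} {p : Pt Λ} (h : On L (D, []) p) : D <:+ p.1 := by
  rcases h with ⟨h1, _⟩ | ⟨δ, h1, _⟩
  · exact h1 ▸ List.suffix_refl _
  · exact (List.suffix_cons δ D).trans h1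

theorem ext_eq {D D' : List Λ} {p : Pt Λ} (h1 : On L (D, []) p) (h2 : On L (D', []) p)
    (h : D.length = D'.length) : D = D' :=
  List.IsSuffix.eq_of_length (List.suffix_of_suffix_length_le (suff L h1) (suff L h2) h.le) h

theorem sum_le (p : Pt Λ) (A : Finset (List Λ)) (hA : ∀ D ∈ A, On L (D, []) p) :
    ∑ D ∈ A, ((1 / 2 : ℝ) ^ (D.length + 1)) ^ 2 ≤ 1 := by
  classical
  have h1 : ∑ k ∈ A.image List.length, (1 / 2 : ℝ) ^ (k + 1) =
      ∑ D ∈ A, (1 / 2 : ℝ) ^ (D.length + 1) := by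
    rw [Finset.sum_image]
    intro D hD D' hD' h
    exact ext_eq L (hA D hD) (hA D' hD') h
  have hs : Summable fun n : ℕ => (1 / 2 : ℝ) ^ n :=
    summable_geometric_of_lt_one (by norm_num) (by norm_num)
  have h2 : ∑ k ∈ A.image List.length, (1 / 2 : ℝ) ^ k ≤ 2 :=
    (hs.sum_le_tsum _ fun i _ => by positivity).trans_eq tsum_geometric_two
  have h3 : ∑ k ∈ A.image List.length, (1 / 2 : ℝ) ^ (k + 1) ≤ 1 := by
    have h4 : ∑ k ∈ A.image List.length, (1 / 2 : ℝ) ^ (k + 1) =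
        (1 / 2) * ∑ k ∈ A.image List.length, (1 / 2 : ℝ) ^ k := by
      rw [Finset.mul_sum]
      exact Finset.sum_congr rfl fun k _ => by rw [pow_succ]; ring
    rw [h4]
    linarith
  rw [h1] at h3
  refine le_trans (Finset.sum_le_sum fun D _ => ?_) h3
  have h5 : (1 / 2 : ℝ) ^ (D.length + 1) ≤ 1 := pow_le_one₀ (by norm_num) (by norm_num)
  have h6 : 0 ≤ (1 / 2 : ℝ) ^ (D.length + 1) := by positivity
  nlinarith

/-- the weight -/
noncomputable def a (𝕜 : Type) [RCLike 𝕜] (D : List Λ) : 𝕜 := (1 / 2 : 𝕜) ^ (D.length + 1)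

theorem norm_a (D : List Λ) : ‖a 𝕜 D‖ = (1 / 2 : ℝ) ^ (D.length + 1) := by
  unfold a
  rw [norm_pow, norm_div, norm_one, RCLike.norm_ofNat]

theorem a_ne (D : List Λ) : a 𝕜 D ≠ 0 := pow_ne_zero _ (one_div_ne_zero two_ne_zero)

/-- the generator, in the space -/
noncomputable def w (D : List Λ) : YS 𝕜 L :=
  ⟨chi 𝕜 L ⊤ (D, []), Submodule.le_topologicalClosure _ (Submodule.subset_span ⟨D, rfl⟩)⟩

open Classical in
theorem bound (c : List Λ → 𝕜) (A : Finset (List Λ)) :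
    ‖∑ D ∈ A, (a 𝕜 D * c D) • (w L D : YS 𝕜 L)‖ ^ 2 ≤ ∑ D ∈ A, ‖c D‖ ^ 2 := by
  have hS : 0 ≤ ∑ D ∈ A, ‖c D‖ ^ 2 := Finset.sum_nonneg fun D _ => sq_nonneg _
  have key : ‖∑ D ∈ A, (a 𝕜 D * c D) • (w L D : YS 𝕜 L)‖ ≤ √(∑ D ∈ A, ‖c D‖ ^ 2) := by
    change ‖((∑ D ∈ A, (a 𝕜 D * c D) • (w L D : YS 𝕜 L) : YS 𝕜 L) :
      lp (fun _ : PN Λ ⊤ => 𝕜) ⊤)‖ ≤ _
    refine lp.norm_le_of_forall_le (Real.sqrt_nonneg _) fun p => ?_
    have h1 : (((∑ D ∈ A, (a 𝕜 D * c D) • (w L D : YS 𝕜 L) : YS 𝕜 L) :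
        lp (fun _ : PN Λ ⊤ => 𝕜) ⊤) : PN Λ ⊤ → 𝕜) p =
        ∑ D ∈ A with On L (D, []) p.1, a 𝕜 D * c D := by
      rw [Submodule.coe_sum, lp.coeFn_sum, Finset.sum_apply, Finset.sum_filter]
      refine Finset.sum_congr rfl fun D _ => ?_
      show (a 𝕜 D * c D) * (if On L (D, []) p.1 then (1 : 𝕜) else 0) = _
      split_ifs
      · rw [mul_one]
      · rw [mul_zero]
    rw [h1]
    have h2 : ‖∑ D ∈ A with On L (D, []) p.1, a 𝕜 D * c D‖ ≤
        ∑ D ∈ A with On L (D, []) p.1, (1 / 2 : ℝ) ^ (D.length + 1) * ‖c D‖ := by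
      refine (norm_sum_le _ _).trans (Finset.sum_le_sum fun D _ => ?_)
      rw [norm_mul, norm_a]
    have h3 := Finset.sum_mul_sq_le_sq_mul_sq (A.filter fun D => On L (D, []) p.1)
      (fun D => (1 / 2 : ℝ) ^ (D.length + 1)) (fun D => ‖c D‖)
    have h4 := sum_le L p.1 (A.filter fun D => On L (D, []) p.1)
      (fun D hD => (Finset.mem_filter.1 hD).2)
    have h5 : ∑ D ∈ A with On L (D, []) p.1, ‖c D‖ ^ 2 ≤ ∑ D ∈ A, ‖c D‖ ^ 2 :=
      Finset.sum_le_sum_of_subset_of_nonneg (Finset.filter_subset _ _) fun D _ _ => sq_nonneg _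
    have h6 : 0 ≤ ∑ D ∈ A with On L (D, []) p.1, ‖c D‖ ^ 2 :=
      Finset.sum_nonneg fun D _ => sq_nonneg _
    refine h2.trans (Real.le_sqrt_of_sq_le (h3.trans ?_))
    nlinarith
  calc ‖∑ D ∈ A, (a 𝕜 D * c D) • (w L D : YS 𝕜 L)‖ ^ 2 ≤ √(∑ D ∈ A, ‖c D‖ ^ 2) ^ 2 :=
        pow_le_pow_left₀ (norm_nonneg _) key 2
    _ = ∑ D ∈ A, ‖c D‖ ^ 2 := Real.sq_sqrt hS

theorem summ (c : lp (fun _ : List Λ => 𝕜) 2) :
    Summable fun D => (a 𝕜 D * c D) • (w L D : YS 𝕜 L) := by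
  have h1 : Summable fun D => ‖c D‖ ^ 2 := by
    have := (lp.memℓp c).summable (by norm_num)
    simpa using this
  rw [summable_iff_vanishing_norm]
  intro ε hε
  obtain ⟨s, hs⟩ := summable_iff_vanishing_norm.1 h1 (ε ^ 2) (by positivity)
  refine ⟨s, fun t ht => ?_⟩
  have h2 := hs t ht
  rw [Real.norm_of_nonneg (Finset.sum_nonneg fun D _ => sq_nonneg _)] at h2
  exact lt_of_pow_lt_pow_left₀ 2 hε.le ((bound L c t).trans_lt h2)

/-- the operator -/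
noncomputable def T : lp (fun _ : List Λ => 𝕜) 2 →L[𝕜] YS 𝕜 L :=
  LinearMap.mkContinuous
    { toFun := fun c => ∑' D, (a 𝕜 D * c D) • (w L D : YS 𝕜 L)
      map_add' := fun c d => by
        rw [← (summ L c).tsum_add (summ L d)]
        refine tsum_congr fun D => ?_
        rw [lp.coeFn_add, Pi.add_apply, mul_add, add_smul]
      map_smul' := fun b c => by
        rw [RingHom.id_apply, ← (summ L c).tsum_const_smul]
        refine tsum_congr fun D => ?_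
        rw [lp.coeFn_smul, Pi.smul_apply, smul_smul, smul_eq_mul]
        congr 1
        ring } 1 (by
    intro c
    rw [one_mul]
    refine le_of_tendsto (summ L c).hasSum.norm (Eventually.of_forall fun A => ?_)
    have h1 := bound L c A
    have h2 : ∑ D ∈ A, ‖c D‖ ^ 2 ≤ ‖c‖ ^ 2 := by
      have := lp.sum_rpow_le_norm_rpow (by norm_num) c A
      simpa using this
    exact (pow_le_pow_iff_left₀ (norm_nonneg _) (norm_nonneg _) two_ne_zero).1 (h1.trans h2))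

open Classical in
theorem T_single (D : List Λ) (b : 𝕜) :
    T L (lp.single 2 D b) = (a 𝕜 D * b) • (w L D : YS 𝕜 L) := by
  show ∑' D', (a 𝕜 D' * (Pi.single D b : List Λ → 𝕜) D') • (w L D' : YS 𝕜 L) = _
  rw [tsum_eq_single D]
  · rw [Pi.single_eq_same]
  · intro D' hD'
    rw [Pi.single_eq_of_ne hD', mul_zero, zero_smul]

theorem dense_span : Dense (Submodule.span 𝕜 (range (w L : List Λ → YS 𝕜 L)) : Set (YS 𝕜 L)) := by
  have h1 : (Submodule.span 𝕜 (range (w L : List Λ → YS 𝕜 L))).map (YS 𝕜 L).subtype =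
      Submodule.span 𝕜 (range fun D : List Λ => chi 𝕜 L ⊤ (D, [])) := by
    rw [Submodule.map_span, ← range_comp]
    rfl
  intro y
  rw [closure_subtype]
  have h2 : (Subtype.val '' (Submodule.span 𝕜 (range (w L : List Λ → YS 𝕜 L)) : Set (YS 𝕜 L))) =
      (Submodule.span 𝕜 (range fun D : List Λ => chi 𝕜 L ⊤ (D, [])) :
        Set (lp (fun _ : PN Λ ⊤ => 𝕜) ⊤)) := by
    rw [← h1, Submodule.map_coe]
    rfl
  rw [h2]
  exact y.2

end TYHM

open Classical in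
theorem specTYH : SpecTYH := by
  intro 𝕜 _ Λ L
  refine ⟨lp (fun _ : List Λ => 𝕜) 2, inferInstance, inferInstance, inferInstance,
    TYHM.T L, ?_⟩
  have hle : Submodule.span 𝕜 (range (TYHM.w L : List Λ → YS 𝕜 L)) ≤
      LinearMap.range (TYHM.T L : lp (fun _ : List Λ => 𝕜) 2 →L[𝕜] YS 𝕜 L).toLinearMap := by
    rw [Submodule.span_le]
    rintro _ ⟨D, rfl⟩
    refine ⟨lp.single 2 D (TYHM.a 𝕜 D)⁻¹, ?_⟩
    show TYHM.T L (lp.single 2 D _) = TYHM.w L D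
    rw [TYHM.T_single, mul_inv_cancel₀ (TYHM.a_ne D), one_smul]
  intro y
  exact closure_mono hle (TYHM.dense_span L y)

end Pool.Agent.Lib.MP38dfb6.HS
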