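import Pool.Agent.Lib.MP_38dfb6_an.HS.SpecT

/-!
# MP_38dfb6_an: module TZB (the M-basis of `Z`)
-/

set_option autoImplicit false

namespace Pool.Agent.Lib.MP38dfb6.HS

open Filter Topology Set

namespace TZBM

section

variable (𝕜 : Type) [RCLike 𝕜] {Λ : Type}

/-- evaluation at a node, on all bounded functions -/
noncomputable def el (t : Node Λ) : lp (fun _ : Node Λ => 𝕜) ⊤ →L[𝕜] 𝕜 :=
  LinearMap.mkContinuous
    { toFun := fun g => (g : Node Λ → 𝕜) t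
      map_add' := fun _ _ => rfl
      map_smul' := fun _ _ => rfl } 1 (by
    intro g
    have h := lp.norm_apply_le_norm ENNReal.top_ne_zero g t
    simpa using h)

theorem el_apply (t : Node Λ) (g : lp (fun _ : Node Λ => 𝕜) ⊤) : el 𝕜 t g = (g : Node Λ → 𝕜) t := rfl

theorem el_norm (t : Node Λ) : ‖el 𝕜 t‖ ≤ 1 := LinearMap.mkContinuous_norm_le _ zero_le_one _

/-- evaluation on `Z` -/
noncomputable def ez (t : Node Λ) : ZS 𝕜 Λ →L[𝕜] 𝕜 := (el 𝕜 t).comp (ZS 𝕜 Λ).subtypeL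

theorem ez_apply (t : Node Λ) (g : ZS 𝕜 Λ) : ez 𝕜 t g = (g.1 : Node Λ → 𝕜) t := rfl

theorem ez_norm (t : Node Λ) : ‖ez 𝕜 t‖ ≤ 1 := by
  refine ContinuousLinearMap.opNorm_le_bound _ zero_le_one fun g => ?_
  rw [one_mul]
  exact lp.norm_apply_le_norm ENNReal.top_ne_zero g.1 t

/-- the vectors -/
noncomputable def oz (s : Node Λ) : ZS 𝕜 Λ :=
  ⟨om 𝕜 s, Submodule.le_topologicalClosure _ (Submodule.subset_span ⟨s, rfl⟩)⟩

open Classical in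
theorem ez_oz (t s : Node Λ) : ez 𝕜 t (oz 𝕜 s) = if s.1 = t.1 ∧ s.2 <:+ t.2 ∧ s.2 ≠ [] then 1 else 0 :=
  rfl

theorem oz_zero (s : Node Λ) (h : s.2 = []) : oz 𝕜 s = 0 := by
  classical
  apply Subtype.ext
  apply lp.ext
  funext p
  show (if s.1 = p.1 ∧ s.2 <:+ p.2 ∧ s.2 ≠ [] then (1 : 𝕜) else 0) = 0
  rw [if_neg]
  exact fun h1 => h1.2.2 h

theorem fund0 : (Submodule.span 𝕜 (range (oz 𝕜 (Λ := Λ)))).topologicalClosure = ⊤ := by
  rw [eq_top_iff]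
  intro g _
  have h1 : (g : lp (fun _ : Node Λ => 𝕜) ⊤) ∈
      closure ((Submodule.span 𝕜 (range (om 𝕜 (Λ := Λ))) : Submodule 𝕜 _) :
        Set (lp (fun _ : Node Λ => 𝕜) ⊤)) := g.2
  have h2 : (Subtype.val '' ((Submodule.span 𝕜 (range (oz 𝕜 (Λ := Λ))) : Submodule 𝕜 (ZS 𝕜 Λ)) :
      Set (ZS 𝕜 Λ))) =
      ((Submodule.span 𝕜 (range (om 𝕜 (Λ := Λ))) : Submodule 𝕜 _) :
        Set (lp (fun _ : Node Λ => 𝕜) ⊤)) := by
    have h3 : (Submodule.span 𝕜 (range (oz 𝕜 (Λ := Λ)))).map (ZS 𝕜 Λ).subtype =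
        Submodule.span 𝕜 (range (om 𝕜 (Λ := Λ))) := by
      rw [Submodule.map_span, ← Set.range_comp]
      rfl
    rw [← h3]
    rfl
  rw [← h2] at h1
  exact closure_subtype.2 h1

theorem ez_nil (D : List Λ) (g : ZS 𝕜 Λ) : ez 𝕜 (D, []) g = 0 := by
  have h1 : ZS 𝕜 Λ ≤ (el 𝕜 ((D, []) : Node Λ)).ker := by
    unfold ZS
    refine Submodule.topologicalClosure_minimal _ ?_
      (ContinuousLinearMap.isClosed_ker (el 𝕜 ((D, []) : Node Λ)))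
    rw [Submodule.span_le]
    rintro _ ⟨s, rfl⟩
    classical
    show (if s.1 = D ∧ s.2 <:+ [] ∧ s.2 ≠ [] then (1 : 𝕜) else 0) = 0
    rw [if_neg]
    rintro ⟨_, h2, h3⟩
    exact h3 (List.suffix_nil.mp h2)
  exact h1 g.2

/-- the index set -/
abbrev Ix (Λ : Type) : Type := {s : Node Λ // s.2 ≠ []}

/-- the functionals -/
noncomputable def fz (s : Ix Λ) : ZS 𝕜 Λ →L[𝕜] 𝕜 := ez 𝕜 s.1 - ez 𝕜 (s.1.1, s.1.2.tail)

open Classical in
theorem fz_oz (s : Ix Λ) (t : Ix Λ) : fz 𝕜 s (oz 𝕜 t.1) = if s = t then 1 else 0 := by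
  obtain ⟨⟨D, b⟩, hb⟩ := s
  obtain ⟨⟨D', b'⟩, hb'⟩ := t
  simp only at hb hb'
  obtain ⟨x, a, rfl⟩ := List.exists_cons_of_ne_nil hb
  show ez 𝕜 (D, x :: a) (oz 𝕜 (D', b')) - ez 𝕜 (D, a) (oz 𝕜 (D', b')) = _
  rw [ez_oz, ez_oz]
  simp only
  have hna : ¬ (x :: a) <:+ a := by
    intro h
    have := h.length_le
    rw [List.length_cons] at this
    omega
  by_cases hD : D' = D
  · subst hD
    by_cases hbb : b' = x :: a
    · subst hbb
      rw [if_pos ⟨rfl, List.suffix_refl _, hb⟩, if_neg (fun h => hna h.2.1), if_pos rfl, sub_zero]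
    · have hne : (⟨(D', x :: a), hb⟩ : Ix Λ) ≠ ⟨(D', b'), hb'⟩ := by
        intro h
        have h1 : (D', x :: a) = (D', b') := congrArg Subtype.val h
        exact hbb (Prod.mk.inj h1).2.symm
      rw [if_neg hne]
      by_cases hs : b' <:+ a
      · rw [if_pos ⟨rfl, hs.trans (List.suffix_cons _ _), hb'⟩, if_pos ⟨rfl, hs, hb'⟩, sub_self]
      · rw [if_neg, if_neg (fun h => hs h.2.1), sub_zero]
        rintro ⟨_, h, _⟩
        rcases List.suffix_cons_iff.mp h with h | h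
        · exact hbb h
        · exact hs h
  · have hne : (⟨(D, x :: a), hb⟩ : Ix Λ) ≠ ⟨(D', b'), hb'⟩ := by
      intro h
      have h1 : (D, x :: a) = (D', b') := congrArg Subtype.val h
      exact hD (Prod.mk.inj h1).1.symm
    rw [if_neg (fun h => hD h.1), if_neg (fun h => hD h.1), if_neg hne, sub_zero]

theorem ez_mem (D : List Λ) : ∀ a : List Λ, ez 𝕜 (D, a) ∈ Submodule.span 𝕜 (range (fz 𝕜 (Λ := Λ))) := by
  intro a
  induction a with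
  | nil =>
    have : ez 𝕜 (D, ([] : List Λ)) = 0 := by
      ext g
      exact ez_nil 𝕜 D g
    rw [this]
    exact Submodule.zero_mem _
  | cons x a ih =>
    have h1 : ez 𝕜 (D, x :: a) = fz 𝕜 ⟨(D, x :: a), List.cons_ne_nil x a⟩ + ez 𝕜 (D, a) := by
      show _ = (ez 𝕜 (D, x :: a) - ez 𝕜 (D, a)) + ez 𝕜 (D, a)
      rw [sub_add_cancel]
    rw [h1]
    exact Submodule.add_mem _ (Submodule.subset_span ⟨_, rfl⟩) ih

theorem norm_le (g : ZS 𝕜 Λ) (C : ℝ) (hC : 0 ≤ C) (h : ∀ t, ‖ez 𝕜 t g‖ ≤ C) : ‖g‖ ≤ C :=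
  lp.norm_le_of_forall_le hC h

end

end TZBM

open TZBM in
/-- TZB -/
theorem specTZB : SpecTZB := by
  intro 𝕜 _ Λ _
  have hB : MBasis 𝕜 (ZS 𝕜 Λ) (fun s : Ix Λ => oz 𝕜 s.1) (fz 𝕜 (Λ := Λ)) := by
    refine ⟨?_, ?_, ?_, ?_⟩
    · intro i
      rw [fz_oz, if_pos rfl]
    · intro i j hij
      rw [fz_oz, if_neg hij]
    · rw [eq_top_iff, ← fund0 𝕜 (Λ := Λ)]
      apply Submodule.topologicalClosure_mono
      rw [Submodule.span_le]
      rintro _ ⟨s, rfl⟩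
      by_cases h : s.2 = []
      · rw [oz_zero 𝕜 s h]
        exact Submodule.zero_mem _
      · exact Submodule.subset_span ⟨⟨s, h⟩, rfl⟩
    · intro g hg
      have h1 : ∀ φ ∈ Submodule.span 𝕜 (range (fz 𝕜 (Λ := Λ))), φ g = 0 := by
        intro φ hφ
        induction hφ using Submodule.span_induction with
        | mem φ h =>
          obtain ⟨s, rfl⟩ := h
          exact hg s
        | zero => rfl
        | add φ ψ _ _ h2 h3 =>
          show φ g + ψ g = 0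
          rw [h2, h3, add_zero]
        | smul c φ _ h2 =>
          show c • φ g = 0
          rw [h2, smul_zero]
      have h2 : ‖g‖ ≤ 0 := norm_le 𝕜 g 0 le_rfl fun t => by
        rw [h1 _ (ez_mem 𝕜 t.1 t.2), norm_zero]
      exact norm_le_zero_iff.mp h2
  refine ⟨Ix Λ, fun s => oz 𝕜 s.1, fz 𝕜, hB, ?_⟩
  set V := cspan 𝕜 (fz 𝕜 (Λ := Λ)) with hV
  have hbd : ∀ g : ZS 𝕜 Λ, BddAbove (range fun f : {f : ZS 𝕜 Λ →L[𝕜] 𝕜 // f ∈ V ∧ ‖f‖ ≤ 1} =>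
      ‖f.1 g‖) := by
    intro g
    refine ⟨‖g‖, ?_⟩
    rintro _ ⟨f, rfl⟩
    refine (f.1.le_opNorm g).trans ?_
    have := f.2.2
    have h0 := norm_nonneg g
    nlinarith
  have hlow : ∀ g : ZS 𝕜 Λ, ‖g‖ ≤ ⨆ f : {f : ZS 𝕜 Λ →L[𝕜] 𝕜 // f ∈ V ∧ ‖f‖ ≤ 1}, ‖f.1 g‖ := by
    intro g
    refine norm_le 𝕜 g _ (Real.iSup_nonneg fun _ => norm_nonneg _) fun t => ?_
    exact le_ciSup (hbd g) ⟨ez 𝕜 t, Submodule.le_topologicalClosure _ (ez_mem 𝕜 t.1 t.2),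
      ez_norm 𝕜 t⟩
  -- a unit vector
  obtain ⟨x0⟩ := ‹Nonempty Λ›
  have hu : ‖oz 𝕜 (([], [x0]) : Node Λ)‖ = 1 := by
    classical
    apply le_antisymm
    · refine norm_le 𝕜 _ 1 zero_le_one fun t => ?_
      rw [ez_oz]
      split_ifs
      · rw [norm_one]
      · rw [norm_zero]
        exact zero_le_one
    · have h1 := (ez 𝕜 (([], [x0]) : Node Λ)).le_opNorm (oz 𝕜 (([], [x0]) : Node Λ))
      rw [ez_oz, if_pos ⟨rfl, List.suffix_refl _, List.cons_ne_nil _ _⟩, norm_one] at h1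
      have h2 := ez_norm 𝕜 (([], [x0]) : Node Λ)
      have h3 := norm_nonneg (oz 𝕜 (([], [x0]) : Node Λ))
      nlinarith
  have hne : Nonempty {x : ZS 𝕜 Λ // ‖x‖ = 1} := ⟨⟨_, hu⟩⟩
  have hne2 : Nonempty {f : ZS 𝕜 Λ →L[𝕜] 𝕜 // f ∈ V ∧ ‖f‖ ≤ 1} :=
    ⟨⟨ez 𝕜 (([], []) : Node Λ), Submodule.le_topologicalClosure _ (ez_mem 𝕜 [] []), ez_norm 𝕜 _⟩⟩
  apply le_antisymm
  · unfold charac
    refine (ciInf_le ⟨0, ?_⟩ ⟨_, hu⟩).trans ?_
    · rintro _ ⟨g, rfl⟩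
      exact Real.iSup_nonneg fun _ => norm_nonneg _
    · refine ciSup_le fun f => ?_
      refine (f.1.le_opNorm _).trans ?_
      show ‖f.1‖ * ‖oz 𝕜 (([], [x0]) : Node Λ)‖ ≤ 1
      rw [hu, mul_one]
      exact f.2.2
  · unfold charac
    refine le_ciInf fun g => ?_
    have h1 := hlow g.1
    rw [g.2] at h1
    exact h1

end Pool.Agent.Lib.MP38dfb6.HS
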