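import Pool.Agent.Lib.MP_38dfb6_an.HS.Spec

/-! # MP_38dfb6_an, HS, module UP1: the characteristic is at most one -/

set_option autoImplicit false

namespace Pool.Agent.Lib.MP38dfb6.HS

open Filter Topology Set MeasureTheory

universe u v

theorem specUP1 : SpecUP1.{u} := by
  intro 𝕜 _ X _ _ V
  unfold charac
  rcases isEmpty_or_nonempty {x : X // ‖x‖ = 1} with h | ⟨⟨x⟩⟩
  · rw [Real.iInf_of_isEmpty]
    exact zero_le_one
  · have hb : BddBelow (range fun x : {x : X // ‖x‖ = 1} =>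
        ⨆ f : {f : X →L[𝕜] 𝕜 // f ∈ V ∧ ‖f‖ ≤ 1}, ‖f.1 x.1‖) := by
      refine ⟨0, ?_⟩
      rintro _ ⟨y, rfl⟩
      exact Real.iSup_nonneg fun f => norm_nonneg _
    refine (ciInf_le hb x).trans ?_
    refine Real.iSup_le (fun f => ?_) zero_le_one
    calc ‖f.1 x.1‖ ≤ ‖f.1‖ * ‖x.1‖ := f.1.le_opNorm x.1
      _ = ‖f.1‖ := by rw [x.2, mul_one]
      _ ≤ 1 := f.2.2

end Pool.Agent.Lib.MP38dfb6.HS
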