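import Pool.Agent.Lib.MP_38dfb6_an.HS.Spec

/-!
# MP_38dfb6_an: module WCS, the Walsh functions countably support the dual of `L¹`
-/

set_option autoImplicit false

namespace Pool.Agent.Lib.MP38dfb6.HS

open Filter Topology Set MeasureTheory

namespace WCSM

theorem conj_wal {𝕜 : Type} [RCLike 𝕜] {Γ : Type} (F : Finset Γ) (ω : Γ → Bool) :
    (starRingEnd 𝕜) (wal 𝕜 F ω) = wal 𝕜 F ω := by
  unfold wal
  rw [map_prod]
  refine Finset.prod_congr rfl fun i _ => ?_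
  split_ifs <;> simp

theorem sq_int_le {Ω : Type} [MeasurableSpace Ω] (μ : Measure Ω) [IsProbabilityMeasure μ] (q : Ω → ℝ)
    (hq : Integrable q μ) (hq2 : Integrable (fun ω => q ω ^ 2) μ) :
    (∫ ω, q ω ∂μ) ^ 2 ≤ ∫ ω, q ω ^ 2 ∂μ := by
  set c := ∫ ω, q ω ∂μ with hc
  have h1 : 0 ≤ ∫ ω, (q ω - c) ^ 2 ∂μ := integral_nonneg fun ω => sq_nonneg _
  have h2 : ∫ ω, (q ω - c) ^ 2 ∂μ = (∫ ω, q ω ^ 2 ∂μ) - 2 * c * c + c ^ 2 := by
    have e : (fun ω => (q ω - c) ^ 2) = fun ω => (q ω ^ 2 - 2 * c * q ω) + c ^ 2 := by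
      funext ω
      ring
    have i1 : Integrable (fun ω => 2 * c * q ω) μ := hq.const_mul _
    have i2 : Integrable (fun ω => q ω ^ 2 - 2 * c * q ω) μ := hq2.sub i1
    rw [e, integral_add i2 (integrable_const _), integral_sub hq2 i1, integral_const_mul, ← hc]
    simp
  nlinarith

theorem coe_sum {𝕜 : Type} [RCLike 𝕜] {Γ : Type} (x : Finset Γ → Lp 𝕜 1 (mu Γ))
    (hx : ∀ F, ⇑(x F) =ᵐ[mu Γ] wal 𝕜 F) (b : Finset Γ → 𝕜) (T : Finset (Finset Γ)) :
    ⇑(∑ F ∈ T, b F • x F) =ᵐ[mu Γ] fun ω => ∑ F ∈ T, b F * wal 𝕜 F ω := by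
  classical
  induction T using Finset.induction_on with
  | empty =>
    simp only [Finset.sum_empty]
    exact Lp.coeFn_zero _ _ _
  | insert F T hF ih =>
    simp only [Finset.sum_insert hF]
    filter_upwards [Lp.coeFn_add (b F • x F) (∑ G ∈ T, b G • x G), Lp.coeFn_smul (b F) (x F), ih, hx F]
      with ω h1 h2 h3 h4
    rw [h1, Pi.add_apply, h2, h3, Pi.smul_apply, h4, smul_eq_mul]

end WCSM

open WCSM in
theorem specWCS (hWLP : SpecWLP) : SpecWCS := by
  intro 𝕜 _ Γ x hx ψ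
  classical
  have hmeas : ∀ F, Measurable (wal 𝕜 (Γ := Γ) F) := fun F => (hWLP 𝕜 Γ F F).1
  have hn : ∀ F (ω : Γ → Bool), ‖wal 𝕜 F ω‖ = 1 := fun F ω => (hWLP 𝕜 Γ F F).2.1 ω
  have hsq : ∀ F (ω : Γ → Bool), wal 𝕜 F ω * wal 𝕜 F ω = 1 := fun F ω => (hWLP 𝕜 Γ F F).2.2.1 ω
  have horth : ∀ F G : Finset Γ, F ≠ G → ∫ ω, wal 𝕜 F ω * wal 𝕜 G ω ∂(mu Γ) = 0 :=
    fun F G h => (hWLP 𝕜 Γ F G).2.2.2 h
  have : IsProbabilityMeasure (mu Γ) := by unfold mu; infer_instance
  have hint2 : ∀ F G : Finset Γ, Integrable (fun ω => wal 𝕜 F ω * wal 𝕜 G ω) (mu Γ) := by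
    intro F G
    refine Integrable.of_bound ((hmeas F).mul (hmeas G)).aestronglyMeasurable 1 ?_
    refine Eventually.of_forall fun ω => ?_
    rw [norm_mul, hn, hn, one_mul]
  have key : ∀ T : Finset (Finset Γ), ∑ F ∈ T, ‖ψ (x F)‖ ^ 2 ≤ ‖ψ‖ ^ 2 := by
    intro T
    set a : Finset Γ → 𝕜 := fun F => ψ (x F) with ha
    set b : Finset Γ → 𝕜 := fun F => (starRingEnd 𝕜) (a F) with hb
    set y : Lp 𝕜 1 (mu Γ) := ∑ F ∈ T, b F • x F with hy
    set g : (Γ → Bool) → 𝕜 := fun ω => ∑ F ∈ T, b F * wal 𝕜 F ω with hg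
    have hyg : ⇑y =ᵐ[mu Γ] g := coe_sum x hx b T
    set S : ℝ := ∑ F ∈ T, ‖a F‖ ^ 2 with hS
    have hS0 : 0 ≤ S := Finset.sum_nonneg fun F _ => sq_nonneg _
    have hψy : ψ y = (S : 𝕜) := by
      rw [hy, map_sum, hS]
      push_cast
      refine Finset.sum_congr rfl fun F _ => ?_
      rw [map_smul, smul_eq_mul]
      exact RCLike.conj_mul (a F)
    have hgm : Measurable g := Finset.measurable_sum T fun F _ => (hmeas F).const_mul (b F)
    have hgb : ∀ ω, ‖g ω‖ ≤ ∑ F ∈ T, ‖b F‖ := by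
      intro ω
      refine (norm_sum_le _ _).trans (Finset.sum_le_sum fun F _ => ?_)
      rw [norm_mul, hn, mul_one]
    have hB0 : 0 ≤ ∑ F ∈ T, ‖b F‖ := Finset.sum_nonneg fun F _ => norm_nonneg _
    have hq : Integrable (fun ω => ‖g ω‖) (mu Γ) := by
      refine Integrable.of_bound hgm.norm.aestronglyMeasurable (∑ F ∈ T, ‖b F‖) ?_
      refine Eventually.of_forall fun ω => ?_
      rw [norm_norm]
      exact hgb ω
    have hq2 : Integrable (fun ω => ‖g ω‖ ^ 2) (mu Γ) := by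
      refine Integrable.of_bound (hgm.norm.pow_const 2).aestronglyMeasurable ((∑ F ∈ T, ‖b F‖) ^ 2) ?_
      refine Eventually.of_forall fun ω => ?_
      rw [norm_pow, norm_norm]
      exact pow_le_pow_left₀ (norm_nonneg _) (hgb ω) 2
    have hy1 : ‖y‖ = ∫ ω, ‖g ω‖ ∂(mu Γ) := by
      rw [L1.norm_eq_integral_norm]
      refine integral_congr_ae ?_
      filter_upwards [hyg] with ω hω
      rw [hω]
    have hI : ∫ ω, ‖g ω‖ ^ 2 ∂(mu Γ) = S := by
      have h1 : (((∫ ω, ‖g ω‖ ^ 2 ∂(mu Γ) : ℝ)) : 𝕜) = (S : 𝕜) := by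
        rw [← integral_ofReal]
        have h2 : (fun ω => ((‖g ω‖ ^ 2 : ℝ) : 𝕜)) =
            fun ω => ∑ F ∈ T, ∑ G ∈ T, (b F * a G) * (wal 𝕜 F ω * wal 𝕜 G ω) := by
          funext ω
          have h3 : ((‖g ω‖ ^ 2 : ℝ) : 𝕜) = g ω * (starRingEnd 𝕜) (g ω) := by
            rw [RCLike.mul_conj]
            push_cast
            rfl
          rw [h3, hg]
          simp only [map_sum, map_mul, conj_wal, hb, RCLike.conj_conj]
          rw [Finset.sum_mul_sum]
          refine Finset.sum_congr rfl fun F _ => Finset.sum_congr rfl fun G _ => ?_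
          ring
        rw [h2, integral_finsetSum T fun F _ => integrable_finsetSum T fun G _ => (hint2 F G).const_mul _]
        have h4 : ∀ F ∈ T, ∫ ω, ∑ G ∈ T, (b F * a G) * (wal 𝕜 F ω * wal 𝕜 G ω) ∂(mu Γ) = b F * a F := by
          intro F hF
          rw [integral_finsetSum T fun G _ => (hint2 F G).const_mul _]
          rw [Finset.sum_eq_single F]
          · rw [integral_const_mul]
            simp only [hsq]
            simp
          · intro G _ hGF
            rw [integral_const_mul, horth F G hGF.symm, mul_zero]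
          · intro h
            exact absurd hF h
        rw [Finset.sum_congr rfl h4, hS]
        push_cast
        refine Finset.sum_congr rfl fun F _ => ?_
        exact RCLike.conj_mul (a F)
      exact_mod_cast h1
    have h1 : S ≤ ‖ψ‖ * ‖y‖ := by
      have := ψ.le_opNorm y
      rw [hψy, RCLike.norm_ofReal, abs_of_nonneg hS0] at this
      exact this
    have h2 : ‖y‖ ^ 2 ≤ S := by
      rw [hy1, ← hI]
      exact sq_int_le (mu Γ) _ hq hq2
    rcases hS0.eq_or_lt with h0 | h0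
    · rw [← h0]
      positivity
    · have h3 : S * S ≤ ‖ψ‖ ^ 2 * S := by
        calc S * S ≤ (‖ψ‖ * ‖y‖) * (‖ψ‖ * ‖y‖) := mul_self_le_mul_self hS0 h1
          _ = ‖ψ‖ ^ 2 * ‖y‖ ^ 2 := by ring
          _ ≤ ‖ψ‖ ^ 2 * S := mul_le_mul_of_nonneg_left h2 (sq_nonneg _)
      exact le_of_mul_le_mul_right h3 h0
  have hsum : Summable (fun F => ‖ψ (x F)‖ ^ 2) :=
    summable_of_sum_le (fun F => sq_nonneg _) key
  refine hsum.countable_support.mono ?_
  intro F hF
  rw [Function.mem_support]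
  have : ψ (x F) ≠ 0 := hF
  positivity

end Pool.Agent.Lib.MP38dfb6.HS
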