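import Pool.Agent.Lib.MP_38dfb6_an.HS.Spec

/-!
# MP_38dfb6_an, module WCY: functions of finitely many coordinates are combinations of Walsh functions (helper99)
-/

set_option autoImplicit false

namespace Pool.Agent.Lib.MP38dfb6.HS

open Filter Topology Set MeasureTheory

namespace WCYM

variable {𝕜 : Type} [RCLike 𝕜] {Γ : Type}

/-- the span of the Walsh functions -/
def W (𝕜 : Type) [RCLike 𝕜] (Γ : Type) : Submodule 𝕜 ((Γ → Bool) → 𝕜) :=
  Submodule.span 𝕜 (range fun F : Finset Γ => fun ω => wal 𝕜 F ω)

lemma wal_mem (F : Finset Γ) : (fun ω => wal 𝕜 F ω) ∈ W 𝕜 Γ := Submodule.subset_span ⟨F, rfl⟩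

lemma sgn_sq (i : Γ) (ω : Γ → Bool) :
    (if ω i = true then (1 : 𝕜) else -1) * (if ω i = true then (1 : 𝕜) else -1) = 1 := by
  split_ifs <;> simp

lemma mul_mem (i : Γ) (g : (Γ → Bool) → 𝕜) (hg : g ∈ W 𝕜 Γ) :
    (fun ω => (if ω i = true then (1 : 𝕜) else -1) * g ω) ∈ W 𝕜 Γ := by
  classical
  refine Submodule.span_induction (p := fun g _ => (fun ω => (if ω i = true then (1 : 𝕜) else -1) * g ω) ∈ W 𝕜 Γ)
    ?_ ?_ ?_ ?_ hg
  · rintro _ ⟨G, rfl⟩
    by_cases hi : i ∈ G
    · have : (fun ω => (if ω i = true then (1 : 𝕜) else -1) * wal 𝕜 G ω) = fun ω => wal 𝕜 (G.erase i) ω := by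
        funext ω
        have h := Finset.mul_prod_erase G (fun j => (if ω j = true then (1 : 𝕜) else -1)) hi
        simp only [wal]
        rw [← h, ← mul_assoc, sgn_sq, one_mul]
      rw [this]
      exact wal_mem _
    · have : (fun ω => (if ω i = true then (1 : 𝕜) else -1) * wal 𝕜 G ω) = fun ω => wal 𝕜 (insert i G) ω := by
        funext ω
        simp only [wal]
        rw [Finset.prod_insert hi]
      rw [this]
      exact wal_mem _
  · have : (fun ω : Γ → Bool => (if ω i = true then (1 : 𝕜) else -1) * (0 : (Γ → Bool) → 𝕜) ω) = 0 := by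
      funext ω; simp
    rw [this]
    exact Submodule.zero_mem _
  · intro x y _ _ hx hy
    have : (fun ω : Γ → Bool => (if ω i = true then (1 : 𝕜) else -1) * (x + y) ω) =
        (fun ω => (if ω i = true then (1 : 𝕜) else -1) * x ω) + fun ω => (if ω i = true then (1 : 𝕜) else -1) * y ω := by
      funext ω; simp only [Pi.add_apply]; ring
    rw [this]
    exact Submodule.add_mem _ hx hy
  · intro a x _ hx
    have : (fun ω : Γ → Bool => (if ω i = true then (1 : 𝕜) else -1) * (a • x) ω) =
        a • fun ω => (if ω i = true then (1 : 𝕜) else -1) * x ω := by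
      funext ω; simp only [Pi.smul_apply, smul_eq_mul]; ring
    rw [this]
    exact Submodule.smul_mem _ _ hx

lemma main (F : Finset Γ) : ∀ g : (Γ → Bool) → 𝕜, (∀ ω ω' : Γ → Bool, (∀ i ∈ F, ω i = ω' i) → g ω = g ω') →
    g ∈ W 𝕜 Γ := by
  classical
  induction F using Finset.induction_on with
  | empty =>
    intro g hg
    have : g = (g fun _ => true) • fun ω : Γ → Bool => wal 𝕜 ∅ ω := by
      funext ω
      simp only [Pi.smul_apply, smul_eq_mul, wal, Finset.prod_empty, mul_one]
      exact hg _ _ (by simp)
    rw [this]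
    exact Submodule.smul_mem _ _ (wal_mem _)
  | insert i F hi ih =>
    intro g hg
    have dep : ∀ b : Bool, ∀ ω ω' : Γ → Bool, (∀ j ∈ F, ω j = ω' j) →
        g (Function.update ω i b) = g (Function.update ω' i b) := by
      intro b ω ω' h
      refine hg _ _ fun j hj => ?_
      by_cases hji : j = i
      · subst hji; simp
      · rw [Function.update_of_ne hji, Function.update_of_ne hji]
        exact h j ((Finset.mem_insert.mp hj).resolve_left hji)
    have h1 := ih (fun ω => g (Function.update ω i true)) (dep true)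
    have h0 := ih (fun ω => g (Function.update ω i false)) (dep false)
    have hs := mul_mem i _ (Submodule.sub_mem _ h1 h0)
    have : g = (2 : 𝕜)⁻¹ • (((fun ω => g (Function.update ω i true)) + fun ω => g (Function.update ω i false)) +
        fun ω => (if ω i = true then (1 : 𝕜) else -1) *
          ((fun ω => g (Function.update ω i true)) - fun ω => g (Function.update ω i false)) ω) := by
      funext ω
      simp only [Pi.smul_apply, Pi.add_apply, Pi.sub_apply, smul_eq_mul]
      have h2 : (2 : 𝕜) ≠ 0 := two_ne_zero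
      by_cases hω : ω i = true
      · have e : Function.update ω i true = ω := by
          conv_rhs => rw [← Function.update_eq_self i ω]
          rw [hω]
        rw [if_pos hω, e]
        field_simp
        ring
      · have hf : ω i = false := by simpa using hω
        have e : Function.update ω i false = ω := by
          conv_rhs => rw [← Function.update_eq_self i ω]
          rw [hf]
        rw [if_neg hω, e]
        field_simp
        ring
    rw [this]
    exact Submodule.smul_mem _ _ (Submodule.add_mem _ (Submodule.add_mem _ h1 h0) hs)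

end WCYM

theorem specWCY : SpecWCY := by
  intro 𝕜 _ Γ g hg
  obtain ⟨F, hF⟩ := hg
  have h := WCYM.main F g hF
  obtain ⟨c, hc⟩ := (Finsupp.mem_span_range_iff_exists_finsupp).mp h
  refine ⟨c.support, c, fun ω => ?_⟩
  rw [← hc, Finsupp.sum, Finset.sum_apply]
  rfl

end Pool.Agent.Lib.MP38dfb6.HS
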