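import Pool.Agent.Lib.MP_38dfb6_an.HS.Spec

/-!
# Module WDN (MP_38dfb6_an, HS): cylinder functions are dense in `L¹`
-/

set_option autoImplicit false

namespace Pool.Agent.Lib.MP38dfb6.HS

open Filter Topology Set MeasureTheory
open scoped ENNReal symmDiff

namespace WDNM

instance (Γ : Type) : IsProbabilityMeasure (mu Γ) := by
  unfold mu; infer_instance

/-- the class of the approximating functions -/
def Nice {𝕜 : Type} [RCLike 𝕜] {Γ : Type} (g : (Γ → Bool) → 𝕜) : Prop :=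
  Cyl g ∧ Measurable g ∧ ∃ C : ℝ, ∀ ω, ‖g ω‖ ≤ C

theorem nice_add {𝕜 : Type} [RCLike 𝕜] {Γ : Type} (f g : (Γ → Bool) → 𝕜) (hf : Nice f) (hg : Nice g) :
    Nice (f + g) := by
  classical
  obtain ⟨⟨F, hF⟩, mf, C, hC⟩ := hf
  obtain ⟨⟨G, hG⟩, mg, D, hD⟩ := hg
  refine ⟨⟨F ∪ G, ?_⟩, mf.add mg, C + D, ?_⟩
  · intro ω ω' h
    simp only [Pi.add_apply]
    rw [hF ω ω' (fun i hi => h i (Finset.mem_union_left _ hi)),
      hG ω ω' (fun i hi => h i (Finset.mem_union_right _ hi))]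
  · intro ω
    exact le_trans (norm_add_le _ _) (add_le_add (hC ω) (hD ω))

theorem nice_ind {𝕜 : Type} [RCLike 𝕜] {Γ : Type} (c : 𝕜) (t : Set (Γ → Bool))
    (ht : t ∈ measurableCylinders (fun _ : Γ => Bool)) : Nice (t.indicator fun _ => c) := by
  classical
  refine ⟨?_, ?_, ‖c‖, ?_⟩
  · obtain ⟨F, S, hS, rfl⟩ := (mem_measurableCylinders t).1 ht
    refine ⟨F, fun ω ω' h => ?_⟩
    have e : F.restrict ω = F.restrict ω' := by
      funext i
      exact h i i.2
    have e2 : ω ∈ cylinder F S ↔ ω' ∈ cylinder F S := by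
      rw [mem_cylinder, mem_cylinder, e]
    by_cases hω : ω ∈ cylinder F S
    · rw [indicator_of_mem hω, indicator_of_mem (e2.1 hω)]
    · rw [indicator_of_notMem hω, indicator_of_notMem (fun h' => hω (e2.2 h'))]
  · exact measurable_const.indicator (MeasurableSet.of_mem_measurableCylinders ht)
  · intro ω
    by_cases hω : ω ∈ t
    · rw [indicator_of_mem hω]
    · rw [indicator_of_notMem hω]; simp

theorem approx {𝕜 : Type} [RCLike 𝕜] {Γ : Type} (c : 𝕜) (s : Set (Γ → Bool)) (hs : MeasurableSet s)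
    {ε : ℝ≥0∞} (hε : ε ≠ 0) :
    ∃ g : (Γ → Bool) → 𝕜, eLpNorm (g - s.indicator fun _ => c) 1 (mu Γ) ≤ ε ∧ Nice g := by
  have hδ : 0 < ε / (‖c‖ₑ + 1) := ENNReal.div_pos hε (by simp)
  obtain ⟨t, ht, hts⟩ := exists_measure_symmDiff_lt_of_generateFrom_isSetRing (μ := mu Γ)
    (isSetRing_measurableCylinders (α := fun _ : Γ => Bool))
    ⟨{univ}, countable_singleton _, by
      rw [singleton_subset_iff]
      exact univ_mem_measurableCylinders _, by simp⟩
    generateFrom_measurableCylinders.symm hs hδ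
  refine ⟨t.indicator fun _ => c, ?_, nice_ind c t ht⟩
  have mt : MeasurableSet t := MeasurableSet.of_mem_measurableCylinders ht
  have h1 : eLpNorm (t.indicator (fun _ => c) - s.indicator fun _ => c) 1 (mu Γ) ≤
      eLpNorm ((t ∆ s).indicator fun _ => c) 1 (mu Γ) := by
    apply eLpNorm_mono
    intro ω
    by_cases h1 : ω ∈ t <;> by_cases h2 : ω ∈ s <;>
      simp [indicator, h1, h2, Set.mem_symmDiff]
  refine le_trans h1 ?_
  rw [eLpNorm_indicator_const (mt.symmDiff hs) one_ne_zero ENNReal.one_ne_top]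
  simp only [ENNReal.toReal_one, one_div_one, ENNReal.rpow_one]
  calc ‖c‖ₑ * (mu Γ) (t ∆ s) ≤ (‖c‖ₑ + 1) * (ε / (‖c‖ₑ + 1)) := by
        exact mul_le_mul' le_self_add hts.le
    _ ≤ ε := ENNReal.mul_div_le

end WDNM

open WDNM in
theorem specWDN : SpecWDN := by
  intro 𝕜 _ Γ h hint ε hε
  obtain ⟨g, hg, ng⟩ := MemLp.induction_dense (μ := mu Γ) (p := 1) ENNReal.one_ne_top
    (fun g : (Γ → Bool) → 𝕜 => Nice g)
    (fun c s hs _ ε hε => approx c s hs hε)
    (fun f g hf hg => nice_add f g hf hg)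
    (fun f hf => hf.2.1.aestronglyMeasurable)
    (memLp_one_iff_integrable.2 hint) (ε := ENNReal.ofReal (ε / 2)) (by simp; linarith)
  obtain ⟨cg, mg, C, hC⟩ := ng
  refine ⟨g, cg, mg, ⟨C, hC⟩, ?_⟩
  have hm : AEStronglyMeasurable (fun ω => h ω - g ω) (mu Γ) :=
    hint.aestronglyMeasurable.sub mg.aestronglyMeasurable
  rw [integral_norm_eq_lintegral_enorm hm]
  have h1 : (∫⁻ ω, ‖h ω - g ω‖ₑ ∂(mu Γ)) ≤ ENNReal.ofReal (ε / 2) := by
    have := hg
    rw [eLpNorm_one_eq_lintegral_enorm] at this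
    exact this
  calc (∫⁻ ω, ‖h ω - g ω‖ₑ ∂(mu Γ)).toReal ≤ (ENNReal.ofReal (ε / 2)).toReal :=
        ENNReal.toReal_mono ENNReal.ofReal_ne_top h1
    _ = ε / 2 := ENNReal.toReal_ofReal (by linarith)
    _ < ε := by linarith

end Pool.Agent.Lib.MP38dfb6.HS
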