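import Pool.Agent.Lib.MP_38dfb6_an.HS.Spec

/-! # MP_38dfb6_an, HS: module WLP (Walsh functions are orthonormal) -/

set_option autoImplicit false

namespace Pool.Agent.Lib.MP38dfb6.HS

open Filter Topology Set MeasureTheory

universe u v

namespace WLPM

variable {Γ : Type}

open Classical in
/-- the map which flips the coordinate `a` -/
noncomputable def fl (a i : Γ) : Bool → Bool := if i = a then (fun b => !b) else id

lemma coin_not : coin.map (fun b => !b) = coin := by
  unfold coin
  have hm : Measurable (fun b : Bool => !b) := measurable_of_finite _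
  rw [Measure.map_smul, Measure.map_add _ _ hm, Measure.map_dirac' hm, Measure.map_dirac' hm]
  show (2 : ENNReal)⁻¹ • (Measure.dirac false + Measure.dirac true) = _
  rw [add_comm]

lemma mp (a : Γ) : (mu Γ).map (fun ω i => fl a i (ω i)) = mu Γ := by
  unfold mu
  rw [Measure.infinitePi_map_pi (fun _ => coin) (fun i => measurable_of_finite _)]
  congr 1
  funext i
  unfold fl
  split_ifs
  · exact coin_not
  · exact Measure.map_id

lemma meas (𝕜 : Type) [RCLike 𝕜] (F : Finset Γ) : Measurable (wal 𝕜 F) := by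
  unfold wal
  refine Finset.measurable_prod F (fun i _ => ?_)
  have h1 : Measurable (fun b : Bool => if b = true then (1 : 𝕜) else -1) :=
    measurable_of_finite _
  exact h1.comp (measurable_pi_apply i)

lemma wal_fl (𝕜 : Type) [RCLike 𝕜] (F : Finset Γ) (a : Γ) (ω : Γ → Bool) :
    (a ∈ F → wal 𝕜 F (fun i => fl a i (ω i)) = - wal 𝕜 F ω) ∧
    (a ∉ F → wal 𝕜 F (fun i => fl a i (ω i)) = wal 𝕜 F ω) := by
  classical
  have hne : ∀ i, i ≠ a → fl a i (ω i) = ω i := by
    intro i hi
    unfold fl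
    rw [if_neg hi]
    rfl
  have heq : fl a a (ω a) = !(ω a) := by
    unfold fl
    rw [if_pos rfl]
  refine ⟨fun ha => ?_, fun ha => ?_⟩
  · unfold wal
    rw [← Finset.mul_prod_erase F _ ha, ← Finset.mul_prod_erase F _ ha]
    have h1 : ∏ i ∈ F.erase a, (if fl a i (ω i) = true then (1 : 𝕜) else -1) =
        ∏ i ∈ F.erase a, (if ω i = true then (1 : 𝕜) else -1) := by
      refine Finset.prod_congr rfl fun i hi => ?_
      rw [hne i (Finset.mem_erase.mp hi).1]
    rw [h1]
    beta_reduce
    rw [heq]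
    cases ω a <;> simp
  · unfold wal
    refine Finset.prod_congr rfl fun i hi => ?_
    beta_reduce
    rw [hne i (fun h => ha (h ▸ hi))]

end WLPM

open WLPM

theorem specWLP : SpecWLP := by
  intro 𝕜 _ Γ F G
  have hone : ∀ b : Bool, ‖(if b = true then (1 : 𝕜) else -1)‖ = 1 := by
    intro b
    cases b <;> simp
  have hsq : ∀ b : Bool, (if b = true then (1 : 𝕜) else -1) * (if b = true then (1 : 𝕜) else -1) = 1 := by
    intro b
    cases b <;> simp
  refine ⟨meas 𝕜 F, fun ω => ?_, fun ω => ?_, fun hne => ?_⟩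
  · unfold wal
    rw [norm_prod]
    exact Finset.prod_eq_one fun i _ => hone _
  · unfold wal
    rw [← Finset.prod_mul_distrib]
    exact Finset.prod_eq_one fun i _ => hsq _
  · obtain ⟨a, ha⟩ : ∃ a, ¬ (a ∈ F ↔ a ∈ G) := by
      by_contra hc
      push Not at hc
      exact hne (Finset.ext hc)
    have hflip : ∀ ω : Γ → Bool, wal 𝕜 F (fun i => fl a i (ω i)) * wal 𝕜 G (fun i => fl a i (ω i)) =
        -(wal 𝕜 F ω * wal 𝕜 G ω) := by
      intro ω
      by_cases hF : a ∈ F
      · have hG : a ∉ G := fun h => ha ⟨fun _ => h, fun _ => hF⟩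
        rw [(wal_fl 𝕜 F a ω).1 hF, (wal_fl 𝕜 G a ω).2 hG, neg_mul]
      · have hG : a ∈ G := by
          by_contra h
          exact ha ⟨fun h' => absurd h' hF, fun h' => absurd h' h⟩
        rw [(wal_fl 𝕜 F a ω).2 hF, (wal_fl 𝕜 G a ω).1 hG, mul_neg]
    have hm : Measurable (fun ω : Γ → Bool => fun i => fl a i (ω i)) := by
      refine measurable_pi_lambda _ fun i => ?_
      exact (measurable_of_finite (fl a i)).comp (measurable_pi_apply i)
    have hmg : Measurable (fun ω => wal 𝕜 F ω * wal 𝕜 G ω) := (meas 𝕜 F).mul (meas 𝕜 G)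
    have h1 : ∫ ω, wal 𝕜 F ω * wal 𝕜 G ω ∂(mu Γ) =
        ∫ ω, wal 𝕜 F ω * wal 𝕜 G ω ∂((mu Γ).map (fun ω i => fl a i (ω i))) := by
      rw [mp a]
    rw [integral_map hm.aemeasurable hmg.aestronglyMeasurable] at h1
    simp only [hflip] at h1
    rw [integral_neg] at h1
    exact self_eq_neg.mp h1

end Pool.Agent.Lib.MP38dfb6.HS
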