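import Pool.Agent.Lib.MP_38dfb6_an.HS.Spec

/-!
# WMB (MP_38dfb6_an): the M-basis of `L¹({0,1}^Γ)`
-/

set_option autoImplicit false

namespace Pool.Agent.Lib.MP38dfb6.HS

open Filter Topology Set MeasureTheory

namespace WMBM

variable {𝕜 : Type} [RCLike 𝕜] {Γ : Type}

instance isProb : IsProbabilityMeasure (mu Γ) := by unfold mu; infer_instance

lemma intg (k : (Γ → Bool) → 𝕜) (hk : Measurable k) (C : ℝ) (hC : ∀ ω, ‖k ω‖ ≤ C)
    (g : (Γ → Bool) → 𝕜) (hg : Integrable g (mu Γ)) :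
    Integrable (fun ω => k ω * g ω) (mu Γ) :=
  hg.bdd_mul hk.aestronglyMeasurable (Eventually.of_forall hC)

/-- the functional given by a bounded measurable function -/
lemma exf (k : (Γ → Bool) → 𝕜) (hk : Measurable k) (C : ℝ) (hC : ∀ ω, ‖k ω‖ ≤ C) :
    ∃ φ : Lp 𝕜 1 (mu Γ) →L[𝕜] 𝕜, (∀ g, φ g = ∫ ω, k ω * g ω ∂(mu Γ)) ∧ ‖φ‖ ≤ C := by
  have hC0 : 0 ≤ C := (norm_nonneg _).trans (hC fun _ => true)
  have hint : ∀ g : Lp 𝕜 1 (mu Γ), Integrable (fun ω => k ω * g ω) (mu Γ) := fun g =>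
    intg k hk C hC g (L1.integrable_coeFn g)
  have hbd : ∀ g : Lp 𝕜 1 (mu Γ), ‖∫ ω, k ω * g ω ∂(mu Γ)‖ ≤ C * ‖g‖ := by
    intro g
    rw [L1.norm_eq_integral_norm, ← integral_const_mul]
    refine (norm_integral_le_integral_norm _).trans ?_
    apply integral_mono_of_nonneg (Eventually.of_forall fun _ => norm_nonneg _)
    · exact (L1.integrable_coeFn g).norm.const_mul C
    · refine Eventually.of_forall fun ω => ?_
      show ‖k ω * g ω‖ ≤ C * ‖g ω‖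
      rw [norm_mul]
      exact mul_le_mul_of_nonneg_right (hC ω) (norm_nonneg _)
  let ψ : Lp 𝕜 1 (mu Γ) →ₗ[𝕜] 𝕜 :=
    { toFun := fun g => ∫ ω, k ω * g ω ∂(mu Γ)
      map_add' := by
        intro g h
        rw [← integral_add (hint g) (hint h)]
        apply integral_congr_ae
        filter_upwards [Lp.coeFn_add g h] with ω hω
        rw [hω, Pi.add_apply, mul_add]
      map_smul' := by
        intro c g
        rw [RingHom.id_apply, smul_eq_mul, ← integral_const_mul]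
        apply integral_congr_ae
        filter_upwards [Lp.coeFn_smul c g] with ω hω
        rw [hω, Pi.smul_apply, smul_eq_mul]
        ring }
  exact ⟨ψ.mkContinuous C hbd, fun g => rfl, ψ.mkContinuous_norm_le hC0 hbd⟩

/-- the combinations of the vectors -/
lemma coe_sum (x : Finset Γ → Lp 𝕜 1 (mu Γ)) (hx : ∀ F, ⇑(x F) =ᵐ[mu Γ] wal 𝕜 F)
    (T : Finset (Finset Γ)) (a : Finset Γ → 𝕜) :
    ⇑(∑ F ∈ T, a F • x F) =ᵐ[mu Γ] fun ω => ∑ F ∈ T, a F * wal 𝕜 F ω := by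
  classical
  induction T using Finset.induction_on with
  | empty =>
    simp only [Finset.sum_empty]
    filter_upwards [Lp.coeFn_zero 𝕜 1 (mu Γ)] with ω hω
    rw [hω]
    rfl
  | insert F T hF ih =>
    rw [Finset.sum_insert hF]
    filter_upwards [Lp.coeFn_add (a F • x F) (∑ F ∈ T, a F • x F), Lp.coeFn_smul (a F) (x F), hx F,
      ih] with ω h1 h2 h3 h4
    rw [h1, Pi.add_apply, h2, Pi.smul_apply, h3, h4, Finset.sum_insert hF, smul_eq_mul]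

/-- the norming property -/
lemma nrm (hWLP : SpecWLP) (hWCY : SpecWCY) (hWDN : SpecWDN)
    (f : Finset Γ → (Lp 𝕜 1 (mu Γ) →L[𝕜] 𝕜))
    (hf : ∀ F g, f F g = ∫ ω, wal 𝕜 F ω * g ω ∂(mu Γ)) (h : Lp 𝕜 1 (mu Γ)) (ε : ℝ) (hε : 0 < ε) :
    ∃ φ ∈ Submodule.span 𝕜 (range f), ‖φ‖ ≤ 1 ∧ ‖h‖ ≤ ‖φ h‖ + 2 * ε := by
  have hhi : Integrable (⇑h) (mu Γ) := L1.integrable_coeFn h
  obtain ⟨g, hgc, hgm, ⟨C, hgC⟩, hgh⟩ := hWDN 𝕜 Γ h hhi ε hε
  have hgi : Integrable g (mu Γ) :=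
    (MemLp.of_bound hgm.aestronglyMeasurable C (Eventually.of_forall hgC)).integrable le_rfl
  obtain ⟨k, hkd⟩ : ∃ k : (Γ → Bool) → 𝕜, ∀ ω, k ω = (starRingEnd 𝕜) (g ω) / ((‖g ω‖ : ℝ) : 𝕜) :=
    ⟨_, fun _ => rfl⟩
  have hkc : Cyl k := by
    obtain ⟨F, hF⟩ := hgc
    refine ⟨F, fun ω ω' hω => ?_⟩
    rw [hkd, hkd, hF ω ω' hω]
  have hkm : Measurable k := by
    have e : k = fun ω => (starRingEnd 𝕜) (g ω) / ((‖g ω‖ : ℝ) : 𝕜) := funext hkd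
    rw [e]
    exact (RCLike.continuous_conj.measurable.comp hgm).div
      (RCLike.continuous_ofReal.measurable.comp hgm.norm)
  have hk1 : ∀ ω, ‖k ω‖ ≤ 1 := by
    intro ω
    rw [hkd, norm_div, RCLike.norm_conj, RCLike.norm_ofReal, abs_norm]
    exact div_self_le_one _
  have hkg : ∀ ω, k ω * g ω = ((‖g ω‖ : ℝ) : 𝕜) := by
    intro ω
    rw [hkd]
    by_cases h0 : g ω = 0
    · rw [h0]; simp
    · have h1 : ((‖g ω‖ : ℝ) : 𝕜) ≠ 0 := by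
        rw [Ne, RCLike.ofReal_eq_zero, norm_eq_zero]
        exact h0
      rw [div_mul_eq_mul_div, RCLike.conj_mul, pow_two, mul_div_assoc, div_self h1, mul_one]
  obtain ⟨φ, hφ, hφn⟩ := exf k hkm 1 hk1
  obtain ⟨T, a, hT⟩ := hWCY 𝕜 Γ k hkc
  refine ⟨φ, ?_, hφn, ?_⟩
  · have e : φ = ∑ F ∈ T, a F • f F := by
      ext u
      rw [hφ, sum_apply]
      have hi : ∀ F ∈ T, Integrable (fun ω => a F * (wal 𝕜 F ω * u ω)) (mu Γ) := fun F _ =>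
        (intg (wal 𝕜 F) (hWLP 𝕜 Γ F F).1 1 (fun ω => ((hWLP 𝕜 Γ F F).2.1 ω).le) u
          (L1.integrable_coeFn u)).const_mul _
      have e1 : ∫ ω, k ω * u ω ∂(mu Γ) = ∫ ω, ∑ F ∈ T, a F * (wal 𝕜 F ω * u ω) ∂(mu Γ) := by
        congr 1
        ext ω
        rw [hT ω, Finset.sum_mul]
        exact Finset.sum_congr rfl fun F _ => mul_assoc _ _ _
      rw [e1, integral_finsetSum T hi]
      refine Finset.sum_congr rfl fun F _ => ?_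
      rw [integral_const_mul, smul_apply, hf, smul_eq_mul]
    rw [e]
    exact Submodule.sum_mem _ fun F _ => Submodule.smul_mem _ _ (Submodule.subset_span ⟨F, rfl⟩)
  · have hsub : Integrable (fun ω => h ω - g ω) (mu Γ) := hhi.sub hgi
    have h1 : φ h = ∫ ω, k ω * g ω ∂(mu Γ) + ∫ ω, k ω * (h ω - g ω) ∂(mu Γ) := by
      rw [hφ, ← integral_add (intg k hkm 1 hk1 g hgi) (intg k hkm 1 hk1 _ hsub)]
      congr 1
      ext ω
      ring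
    have h2 : ‖∫ ω, k ω * (h ω - g ω) ∂(mu Γ)‖ ≤ ε := by
      refine ((norm_integral_le_integral_norm _).trans ?_).trans hgh.le
      apply integral_mono_of_nonneg (Eventually.of_forall fun _ => norm_nonneg _) hsub.norm
      refine Eventually.of_forall fun ω => ?_
      show ‖k ω * (h ω - g ω)‖ ≤ ‖h ω - g ω‖
      rw [norm_mul]
      exact mul_le_of_le_one_left (norm_nonneg _) (hk1 ω)
    have h3 : ∫ ω, k ω * g ω ∂(mu Γ) = ((∫ ω, ‖g ω‖ ∂(mu Γ) : ℝ) : 𝕜) := by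
      rw [← integral_ofReal]
      congr 1
      ext ω
      exact hkg ω
    have h4 : ‖h‖ ≤ (∫ ω, ‖g ω‖ ∂(mu Γ)) + ε := by
      rw [L1.norm_eq_integral_norm]
      calc ∫ ω, ‖h ω‖ ∂(mu Γ) ≤ ∫ ω, (‖g ω‖ + ‖h ω - g ω‖) ∂(mu Γ) := by
            apply integral_mono hhi.norm (hgi.norm.add hsub.norm)
            intro ω
            show ‖h ω‖ ≤ ‖g ω‖ + ‖h ω - g ω‖
            have := norm_add_le (g ω) (h ω - g ω)
            rwa [add_sub_cancel] at this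
        _ = (∫ ω, ‖g ω‖ ∂(mu Γ)) + ∫ ω, ‖h ω - g ω‖ ∂(mu Γ) := integral_add hgi.norm hsub.norm
        _ ≤ _ := by linarith
    have h5 : ‖∫ ω, k ω * g ω ∂(mu Γ)‖ = ∫ ω, ‖g ω‖ ∂(mu Γ) := by
      rw [h3, RCLike.norm_ofReal, abs_of_nonneg]
      exact integral_nonneg fun _ => norm_nonneg _
    have h6 : ‖∫ ω, k ω * g ω ∂(mu Γ)‖ ≤ ‖φ h‖ + ‖∫ ω, k ω * (h ω - g ω) ∂(mu Γ)‖ := by
      have e : ∫ ω, k ω * g ω ∂(mu Γ) = φ h - ∫ ω, k ω * (h ω - g ω) ∂(mu Γ) := by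
        rw [h1]; ring
      rw [e]
      exact norm_sub_le _ _
    linarith

end WMBM

open WMBM in
theorem specWMB (hWLP : SpecWLP) (hWCY : SpecWCY) (hWDN : SpecWDN) : SpecWMB := by
  intro 𝕜 _ Γ
  have hmem : ∀ F : Finset Γ, MemLp (wal 𝕜 F) 1 (mu Γ) := fun F =>
    MemLp.of_bound (hWLP 𝕜 Γ F F).1.aestronglyMeasurable 1
      (Eventually.of_forall fun ω => ((hWLP 𝕜 Γ F F).2.1 ω).le)
  obtain ⟨x, hx⟩ : ∃ x : Finset Γ → Lp 𝕜 1 (mu Γ), ∀ F, ⇑(x F) =ᵐ[mu Γ] wal 𝕜 F :=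
    ⟨fun F => (hmem F).toLp _, fun F => (hmem F).coeFn_toLp⟩
  have hex : ∀ F : Finset Γ, ∃ φ : Lp 𝕜 1 (mu Γ) →L[𝕜] 𝕜,
      (∀ g, φ g = ∫ ω, wal 𝕜 F ω * g ω ∂(mu Γ)) ∧ ‖φ‖ ≤ 1 := fun F =>
    exf (wal 𝕜 F) (hWLP 𝕜 Γ F F).1 1 fun ω => ((hWLP 𝕜 Γ F F).2.1 ω).le
  choose f hf hfn using hex
  have hpair : ∀ F G : Finset Γ, f F (x G) = ∫ ω, wal 𝕜 F ω * wal 𝕜 G ω ∂(mu Γ) := by
    intro F G
    rw [hf]
    apply integral_congr_ae
    filter_upwards [hx G] with ω hω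
    rw [hω]
  have hone : ∀ F, f F (x F) = 1 := by
    intro F
    rw [hpair]
    have e : (fun ω => wal 𝕜 F ω * wal 𝕜 F ω) = fun _ => (1 : 𝕜) :=
      funext fun ω => (hWLP 𝕜 Γ F F).2.2.1 ω
    rw [e, integral_const, probReal_univ, one_smul]
  have hxn : ‖x ∅‖ = 1 := by
    rw [L1.norm_eq_integral_norm]
    have e : ∫ ω, ‖(x ∅ : (Γ → Bool) → 𝕜) ω‖ ∂(mu Γ) = ∫ _, (1 : ℝ) ∂(mu Γ) := by
      apply integral_congr_ae
      filter_upwards [hx ∅] with ω hω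
      rw [hω]
      exact (hWLP 𝕜 Γ ∅ ∅).2.1 ω
    rw [e, integral_const, probReal_univ, one_smul]
  refine ⟨x, f, hx, ⟨hone, ?_, ?_, ?_⟩, ?_⟩
  · intro F G hFG
    rw [hpair]
    exact (hWLP 𝕜 Γ F G).2.2.2 hFG
  · rw [eq_top_iff]
    rintro h -
    rw [← SetLike.mem_coe, Submodule.topologicalClosure_coe, Metric.mem_closure_iff]
    intro ε hε
    have hhi : Integrable (⇑h) (mu Γ) := L1.integrable_coeFn h
    obtain ⟨g, hgc, hgm, ⟨C, hgC⟩, hgh⟩ := hWDN 𝕜 Γ h hhi ε hε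
    obtain ⟨T, a, hT⟩ := hWCY 𝕜 Γ g hgc
    refine ⟨∑ F ∈ T, a F • x F, ?_, ?_⟩
    · exact Submodule.sum_mem _ fun F _ => Submodule.smul_mem _ _ (Submodule.subset_span ⟨F, rfl⟩)
    · rw [dist_eq_norm, L1.norm_eq_integral_norm]
      refine lt_of_eq_of_lt ?_ hgh
      apply integral_congr_ae
      filter_upwards [Lp.coeFn_sub h (∑ F ∈ T, a F • x F), coe_sum x hx T a] with ω h1 h2
      rw [h1, Pi.sub_apply, h2, ← hT ω]
  · intro y hy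
    by_contra hne
    have hpos : 0 < ‖y‖ := norm_pos_iff.2 hne
    have hall : ∀ φ ∈ Submodule.span 𝕜 (range f), φ y = 0 := by
      intro φ hφ
      induction hφ using Submodule.span_induction with
      | mem u hu => obtain ⟨F, rfl⟩ := hu; exact hy F
      | zero => rfl
      | add u v _ _ hu hv => rw [add_apply, hu, hv, add_zero]
      | smul c u _ hu => rw [smul_apply, hu, smul_zero]
    obtain ⟨φ, hφ, -, h2⟩ := nrm hWLP hWCY hWDN f hf y (‖y‖ / 4) (by linarith)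
    have h3 : φ y = 0 := hall φ hφ
    rw [h3, norm_zero] at h2
    linarith
  · have hle1 : ∀ (u : {u : Lp 𝕜 1 (mu Γ) // ‖u‖ = 1})
        (φ : {φ : Lp 𝕜 1 (mu Γ) →L[𝕜] 𝕜 // φ ∈ cspan 𝕜 f ∧ ‖φ‖ ≤ 1}), ‖φ.1 u.1‖ ≤ 1 := by
      intro u φ
      calc ‖φ.1 u.1‖ ≤ ‖φ.1‖ * ‖u.1‖ := φ.1.le_opNorm _
        _ ≤ 1 * 1 := mul_le_mul φ.2.2 u.2.le (norm_nonneg _) zero_le_one
        _ = 1 := one_mul 1
    unfold charac
    apply le_antisymm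
    · have hb : BddBelow (range fun u : {u : Lp 𝕜 1 (mu Γ) // ‖u‖ = 1} =>
          ⨆ φ : {φ : Lp 𝕜 1 (mu Γ) →L[𝕜] 𝕜 // φ ∈ cspan 𝕜 f ∧ ‖φ‖ ≤ 1}, ‖φ.1 u.1‖) := by
        refine ⟨0, ?_⟩
        rintro _ ⟨u, rfl⟩
        exact Real.iSup_nonneg fun _ => norm_nonneg _
      refine (ciInf_le hb ⟨x ∅, hxn⟩).trans ?_
      exact Real.iSup_le (fun φ => hle1 _ φ) zero_le_one
    · haveI : Nonempty {u : Lp 𝕜 1 (mu Γ) // ‖u‖ = 1} := ⟨⟨x ∅, hxn⟩⟩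
      apply le_ciInf
      intro u
      apply le_of_forall_pos_le_add
      intro ε hε
      obtain ⟨φ, hφ, hφ1, h2⟩ := nrm hWLP hWCY hWDN f hf u.1 (ε / 2) (by linarith)
      have hb : BddAbove (range fun φ : {φ : Lp 𝕜 1 (mu Γ) →L[𝕜] 𝕜 // φ ∈ cspan 𝕜 f ∧ ‖φ‖ ≤ 1} =>
          ‖φ.1 u.1‖) := by
        refine ⟨1, ?_⟩
        rintro _ ⟨φ, rfl⟩
        exact hle1 u φ
      have h3 := le_ciSup hb ⟨φ, Submodule.le_topologicalClosure _ hφ, hφ1⟩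
      have h4 : ‖φ u.1‖ ≤ ⨆ φ : {φ : Lp 𝕜 1 (mu Γ) →L[𝕜] 𝕜 // φ ∈ cspan 𝕜 f ∧ ‖φ‖ ≤ 1},
          ‖φ.1 u.1‖ := h3
      rw [u.2] at h2
      linarith

end Pool.Agent.Lib.MP38dfb6.HS
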